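import Mathlib

/-!
A convenient form of the implicit function theorem.
-/

set_option autoImplicit false
open Filter Topology

namespace Pool.Agent.Lib.MP_587b89_lc

theorem ift {K V Z W : Type} [NontriviallyNormedField K] [NormedAddCommGroup V] [NormedSpace K V]
    [CompleteSpace V] [NormedAddCommGroup Z] [NormedSpace K Z] [CompleteSpace Z]
    [NormedAddCommGroup W] [NormedSpace K W] [CompleteSpace W] {E : V × Z → W} {v0 : V} {z0 : Z}
    (hE : AnalyticAt K E (v0, z0)) {D : V →L[K] W} (hD : HasFDerivAt (fun v => E (v, z0)) D v0)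
    (hs : Function.Surjective D) {Pr : V × Z → Prop} (h : ∀ᶠ x in 𝓝 (v0, z0), Pr x) :
    ∀ᶠ z in 𝓝 z0, ∃ v, E (v, z) = E (v0, z0) ∧ Pr (v, z) := by
  have h1 := hE.hasStrictFDerivAt
  obtain ⟨E', hE'⟩ : ∃ E', E' = fderiv K E (v0, z0) := ⟨_, rfl⟩
  rw [← hE'] at h1
  have h2 : D = E'.comp (ContinuousLinearMap.inl K V Z) :=
    hD.unique (h1.hasFDerivAt.comp v0 (hasFDerivAt_prodMk_left v0 z0))
  have h3 := (h1.prodMk (hasStrictFDerivAt_snd (𝕜 := K) (p := (v0, z0)))).map_nhds_eq_of_surj (by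
    rw [LinearMap.range_eq_top]
    rintro ⟨w, z⟩
    obtain ⟨v, hv⟩ := hs (w - E' (0, z))
    refine ⟨(v, z), Prod.ext ?_ rfl⟩
    rw [h2] at hv
    have e : E' (v, z) = E' (v, 0) + E' (0, z) := by rw [← map_add]; simp
    show E' (v, z) = w
    rw [e, show E' (v, 0) = w - E' (0, z) from hv, sub_add_cancel])
  have h4 := image_mem_map (m := fun x => (E x, x.2)) h
  rw [h3] at h4
  have h5 : ContinuousAt (fun z : Z => (E (v0, z0), z)) z0 := by fun_prop
  filter_upwards [h5 h4] with z hz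
  obtain ⟨⟨v, z'⟩, hx, e⟩ := hz
  obtain ⟨e1, rfl⟩ := Prod.mk.inj e
  exact ⟨v, e1, hx⟩

theorem ift1 {K Z : Type} [NontriviallyNormedField K] [CompleteSpace K]
    [NormedAddCommGroup Z] [NormedSpace K Z] [CompleteSpace Z] {E : K × Z → K} {v0 : K} {z0 : Z}
    (hE : AnalyticAt K E (v0, z0)) {d : K} (hD : HasDerivAt (fun v => E (v, z0)) d v0)
    (hs : d ≠ 0) {Pr : K × Z → Prop} (h : ∀ᶠ x in 𝓝 (v0, z0), Pr x) :
    ∀ᶠ z in 𝓝 z0, ∃ v, E (v, z) = E (v0, z0) ∧ Pr (v, z) :=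
  ift hE hD.hasFDerivAt (fun w => ⟨w / d, by simp [hs]⟩) h

end Pool.Agent.Lib.MP_587b89_lc
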