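import Pool.Agent.Lib.MP_587b89_lc.Laur
import Pool.Agent.Lib.MP_587b89_lc.Ift

/-!
Specialisation of points with values in a complete field to algebraic points.
-/

set_option autoImplicit false
set_option linter.unusedSectionVars false
set_option linter.overlappingInstances false
open Polynomial Module Filter Topology

namespace Pool.Agent.Lib.MP_587b89_lc

lemma tr_frac {F K A : Type} [Field F] [Field K] [Algebra F K] [CommRing A] [Algebra F A]
    (A' : Subalgebra F K) (h : Tr F A') {d : K} (hd : d ∈ A') (hd0 : d ≠ 0) (ι : A →ₐ[F] K)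
    (hι : Function.Injective ι) (S : Set A) (hS : Algebra.adjoin F S = ⊤)
    (hx : ∀ x ∈ S, d * ι x ∈ A') : Tr F A := by
  let d' : A' := ⟨d, hd⟩
  have hu : ∀ {T : Type} [Field T] [Algebra F T] (f : A' →ₐ[F] T), f d' ≠ 0 →
      ∀ y : Submonoid.powers d', IsUnit (f y) := by
    rintro T _ _ f hf ⟨_, n, rfl⟩
    simpa using IsUnit.pow n (Ne.isUnit hf)
  let j : Localization.Away d' →ₐ[F] K := IsLocalization.liftAlgHom (hu A'.val hd0)
  have hj1 : ∀ a : A', j (algebraMap _ _ a) = a := fun a => IsLocalization.lift_eq (hu A'.val hd0) a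
  have hj : Function.Injective j :=
    IsLocalization.injective_of_map_algebraMap_zero (M := Submonoid.powers d') _ j.toRingHom
      fun a ha => by
        have : a = 0 := Subtype.ext ((hj1 a).symm.trans ha)
        rw [this, map_zero]
  have hr : ∀ a, ι a ∈ j.range := by
    intro a
    have : Algebra.adjoin F S ≤ j.range.comap ι := by
      refine Algebra.adjoin_le fun x hx' => ⟨IsLocalization.mk' _ (⟨_, hx x hx'⟩ : A')
        (⟨d', Submonoid.mem_powers _⟩ : Submonoid.powers d'), ?_⟩
      exact (IsLocalization.lift_mk'_spec (hu A'.val hd0) _ _ _).2 rfl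
    exact this (hS ▸ Algebra.mem_top)
  let κ : A →ₐ[F] Localization.Away d' :=
    (AlgEquiv.ofInjective j hj).symm.toAlgHom.comp (ι.codRestrict _ hr)
  have hκ : Function.Injective κ := (AlgEquiv.ofInjective j hj).symm.injective.comp
    ((AlgHom.injective_codRestrict _ _ _).2 hι)
  intro g hg
  obtain ⟨⟨a, s⟩, hs⟩ := IsLocalization.surj (Submonoid.powers d') (κ g)
  have ha : a ≠ 0 := by
    rintro rfl
    rw [map_zero, (IsLocalization.map_units _ s).mul_left_eq_zero, map_eq_zero_iff _ hκ] at hs
    exact hg hs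
  obtain ⟨m0, hm0⟩ := h (d' * a) (mul_ne_zero (fun e => hd0 (congrArg Subtype.val e)) ha)
  refine ⟨m0, fun m hm E _ _ hE => ?_⟩
  obtain ⟨π, hπ⟩ := hm0 m hm E hE
  rw [map_mul] at hπ
  let l : Localization.Away d' →ₐ[F] E := IsLocalization.liftAlgHom (hu π (left_ne_zero_of_mul hπ))
  refine ⟨l.comp κ, fun e => right_ne_zero_of_mul hπ ?_⟩
  have h1 := congrArg l hs
  rw [map_mul, show l (κ g) = 0 from e, zero_mul] at h1
  exact (IsLocalization.lift_eq (hu π (left_ne_zero_of_mul hπ)) a).symm.trans h1.symm

lemma common_den {R ι : Type} [CommRing R] [IsDomain R] (S : Finset ι) (Pr : R → ι → Prop)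
    (h : ∀ x ∈ S, ∃ d, d ≠ 0 ∧ Pr d x) (hm : ∀ c d x, Pr d x → Pr (c * d) x) :
    ∃ d, d ≠ 0 ∧ ∀ x ∈ S, Pr d x := by
  classical
  choose! d hd using h
  refine ⟨∏ x ∈ S, d x, Finset.prod_ne_zero_iff.2 fun x hx => (hd x hx).1, fun x hx => ?_⟩
  rw [← Finset.prod_erase_mul S d hx]
  exact hm _ _ _ (hd x hx).2

lemma tr_alg {F K R : Type} [Field F] [Field K] [Algebra F K] [CommRing R] [IsDomain R]
    [Algebra R K] [FaithfulSMul R K] [Algebra F R] [IsScalarTower F R K]
    (H : ∀ (A : Type) [CommRing A] [Algebra F A] [Algebra.FiniteType F A] (ι : A →ₐ[F] K),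
      Function.Injective ι → (∀ a, IsIntegral R (ι a)) → Tr F A)
    (A : Type) [CommRing A] [Algebra F A] [Algebra.FiniteType F A] (ι : A →ₐ[F] K)
    (hι : Function.Injective ι) (ha : ∀ a, IsAlgebraic R (ι a)) : Tr F A := by
  classical
  obtain ⟨S, hS⟩ := Algebra.FiniteType.out (R := F) (A := A)
  obtain ⟨d, hd0, hd⟩ := common_den S (fun (d : R) x => IsIntegral R (d • ι x))
    (fun x _ => (ha x).exists_integral_multiple)
    (fun c d x h => by rw [mul_smul]; exact h.smul c)
  let T : Finset K := insert (algebraMap R K d) (S.image fun x => algebraMap R K d * ι x)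
  have : Algebra.FiniteType F (Algebra.adjoin F (T : Set K)) :=
    Algebra.FiniteType.adjoin_of_finite T.finite_toSet
  refine tr_frac (Algebra.adjoin F (T : Set K)) (H _ (Subalgebra.val _) Subtype.val_injective ?_)
    (d := algebraMap R K d) (Algebra.subset_adjoin (by simp [T]))
    ((map_ne_zero_iff _ (FaithfulSMul.algebraMap_injective R K)).2 hd0) ι hι S hS
    fun x hx => Algebra.subset_adjoin (by
      simp only [T, Finset.coe_insert, Finset.coe_image]
      exact Or.inr ⟨x, hx, rfl⟩)
  have hle : Algebra.adjoin F (T : Set K) ≤ (integralClosure R K).restrictScalars F := by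
    refine Algebra.adjoin_le fun y hy => ?_
    simp only [T, Finset.coe_insert, Finset.coe_image] at hy
    rcases hy with rfl | ⟨x, hx, rfl⟩
    · exact isIntegral_algebraMap
    · have := hd x hx
      rwa [Algebra.smul_def] at this
  exact fun a => hle a.2

attribute [local instance] FractionRing.liftAlgebra

lemma present (F L : Type) [Field F] [PerfectField F] [Field L] [Algebra F L]
    [Algebra.EssFiniteType F L] : ∃ (σ : Type) (_ : Fintype σ) (P : (MvPolynomial σ F)[X])
      (ψ : (MvPolynomial σ F)[X] →ₐ[F] L), P.Monic ∧ (∀ h, ψ h = 0 ↔ P ∣ h) ∧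
      ψ (derivative P) ≠ 0 ∧ (∀ d, d ≠ 0 → ψ (C d) ≠ 0) ∧
      ∀ x, ∃ d, d ≠ 0 ∧ ∃ h, ψ (C d) * x = ψ h := by
  obtain ⟨s, hs, hsep⟩ := exists_isTranscendenceBasis_and_isSeparable_of_perfectField F L
  let R := MvPolynomial s F
  let _ : Algebra R L := (MvPolynomial.aeval (R := F) ((↑) : s → L)).toAlgebra
  have hinj : Function.Injective (algebraMap R L) := hs.1
  have : FaithfulSMul R L := (faithfulSMul_iff_algebraMap_injective _ _).2 hinj
  have : IsScalarTower F R L := IsScalarTower.of_algebraMap_eq fun c =>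
    ((MvPolynomial.aeval (R := F) ((↑) : s → L)).commutes c).symm
  have hsep' : Algebra.IsSeparable (IntermediateField.adjoin F (Set.range ((↑) : s → L))) L :=
    (show ∀ T : Set L, T = s → Algebra.IsSeparable (IntermediateField.adjoin F T) L from
      fun T h => by subst h; exact hsep) _ Subtype.range_coe
  have : Algebra.IsSeparable (FractionRing R) L :=
    Algebra.IsSeparable.of_equiv_equiv hs.1.aevalEquivField.symm.toRingEquiv (RingEquiv.refl L)
      (RingHom.ext fun a => hs.1.lift_reprField a)
  have : Algebra.EssFiniteType (FractionRing R) L := .of_comp F _ _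
  have : Module.Finite (FractionRing R) L := Algebra.finite_of_essFiniteType_of_isAlgebraic
  obtain ⟨α, hα⟩ := Field.exists_primitive_element (FractionRing R) L
  have halg : IsAlgebraic R α := (IsFractionRing.isAlgebraic_iff R (FractionRing R) L).2
    (Algebra.IsAlgebraic.isAlgebraic α)
  obtain ⟨c, hc0, hc⟩ := halg.exists_integral_multiple
  obtain ⟨y, hy⟩ : ∃ y, y = c • α := ⟨_, rfl⟩
  rw [← hy] at hc
  have htop : Algebra.adjoin (FractionRing R) {y} = ⊤ := by
    rw [eq_top_iff, ← IntermediateField.top_toSubalgebra, ← hα,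
      IntermediateField.adjoin_simple_toSubalgebra_of_isAlgebraic
        (Algebra.IsAlgebraic.isAlgebraic α), Algebra.adjoin_le_iff, Set.singleton_subset_iff]
    have h0 : algebraMap R (FractionRing R) c ≠ 0 :=
      (map_ne_zero_iff _ (IsFractionRing.injective _ _)).2 hc0
    have : α = (algebraMap R (FractionRing R) c)⁻¹ • y := by
      rw [hy, ← algebraMap_smul (FractionRing R) c α, inv_smul_smul₀ h0]
    rw [this]
    exact Subalgebra.smul_mem _ (Algebra.self_mem_adjoin_singleton _ _) _
  refine ⟨s, inferInstance, minpoly R y, (aeval y).restrictScalars F, minpoly.monic hc,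
    fun h => minpoly.isIntegrallyClosed_dvd_iff hc h, ?_, fun d hd => ?_, fun x => ?_⟩
  · have h1 := (Algebra.IsSeparable.isSeparable (FractionRing R) y).aeval_derivative_ne_zero
      (minpoly.aeval _ y)
    rwa [minpoly.isIntegrallyClosed_eq_field_fractions' _ hc, derivative_map,
      aeval_map_algebraMap] at h1
  · simpa using (map_ne_zero_iff _ hinj).2 hd
  · obtain ⟨t, ht⟩ := multiple_mem_adjoin_of_mem_localization_adjoin (nonZeroDivisors R)
      (FractionRing R) {y} x (htop ▸ Algebra.mem_top)
    rw [Algebra.adjoin_singleton_eq_range_aeval] at ht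
    obtain ⟨h, hh⟩ := ht
    refine ⟨t, nonZeroDivisors.coe_ne_zero t, h, ?_⟩
    simpa [Submonoid.smul_def, Algebra.smul_def] using hh.symm

lemma analytic_ev {F K σ : Type} [Field F] [NontriviallyNormedField K] [Algebra F K] [Fintype σ]
    (h : (MvPolynomial σ F)[X]) (z : K × (σ → K)) :
    AnalyticAt K (fun x : K × (σ → K) => aevalTower (MvPolynomial.aeval x.2) x.1 h) z := by
  induction h using Polynomial.induction_on' with
  | add p q hp hq => simp only [map_add]; exact hp.add hq
  | monomial n d =>
    simp only [← C_mul_X_pow_eq_monomial, map_mul, map_pow, aevalTower_C, aevalTower_X]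
    refine AnalyticAt.mul (AnalyticAt.aeval_mvPolynomial (f := fun x : K × (σ → K) => x.2)
      (fun i => ?_) d) (analyticAt_fst.pow n)
    exact ((ContinuousLinearMap.proj (R := K) (φ := fun _ : σ => K) i).analyticAt _).comp
      analyticAt_snd

theorem tr_complete {F K R : Type} [Field F] [PerfectField F] [NontriviallyNormedField K]
    [CompleteSpace K] [Algebra F K] [CommRing R] [IsDomain R]
    [Algebra R K] [FaithfulSMul R K] [Algebra F R] [IsScalarTower F R K]
    (hd : Dense {y : K | IsAlgebraic R y})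
    (H : ∀ (A : Type) [CommRing A] [Algebra F A] [Algebra.FiniteType F A] (ι : A →ₐ[F] K),
      Function.Injective ι → (∀ a, IsIntegral R (ι a)) → Tr F A)
    (A : Type) [CommRing A] [Algebra F A] [Algebra.FiniteType F A] (ι : A →ₐ[F] K)
    (hι : Function.Injective ι) : Tr F A := by
  classical
  have : IsDomain A := hι.isDomain ι
  have : Algebra.EssFiniteType A (FractionRing A) :=
    .of_isLocalization (FractionRing A) (nonZeroDivisors A)
  have : Algebra.EssFiniteType F (FractionRing A) := .comp F A _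
  obtain ⟨σ, _, P, ψ, hP, hker, hder, hC, hsurj⟩ := present F (FractionRing A)
  obtain ⟨S, hS⟩ := Algebra.FiniteType.out (R := F) (A := A)
  obtain ⟨d, hd0, hdS⟩ := common_den S
    (fun d x => ∃ h, ψ (C d) * algebraMap A (FractionRing A) x = ψ h) (fun x _ => hsurj _)
    (fun c d x ⟨h, hh⟩ => ⟨C c * h, by rw [C_mul, map_mul, mul_assoc, hh, map_mul]⟩)
  refine tr_frac ψ.range ?_ (d := ψ (C d)) ⟨_, rfl⟩ (hC d hd0) (IsScalarTower.toAlgHom F A _)
    (IsFractionRing.injective A _) S hS fun x hx => (hdS x hx).imp fun _ h => h.symm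
  rintro ⟨_, g, rfl⟩ hg
  let l : FractionRing A →ₐ[F] K := IsFractionRing.liftAlgHom hι
  let ev : K × (σ → K) → (MvPolynomial σ F)[X] →ₐ[F] K :=
    fun x => aevalTower (MvPolynomial.aeval x.2) x.1
  let x0 : K × (σ → K) := (l (ψ X), fun i => l (ψ (C (MvPolynomial.X i))))
  have hx0 : ∀ h, ev x0 h = l (ψ h) := by
    have : ev x0 = l.comp ψ := by
      refine Polynomial.algHom_ext' (MvPolynomial.algHom_ext fun i => ?_) ?_ <;> simp [ev, x0]
    intro h
    rw [this]; rfl
  have hev : ∀ (T : σ → K) (y : K) h, ev (y, T) h =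
      (h.map (MvPolynomial.aeval T : MvPolynomial σ F →ₐ[F] K).toRingHom).eval y :=
    fun T y h => by rw [eval_map]; rfl
  have h1 := ift1 (K := K) (E := fun x => ev x P) (v0 := x0.1) (z0 := x0.2) (analytic_ev P _)
    (d := ev x0 (derivative P))
    (by simpa only [hev, ← derivative_map] using Polynomial.hasDerivAt _ x0.1)
    (by rw [hx0]; exact (map_ne_zero l).2 hder) (Pr := fun x => ev x g ≠ 0)
    ((analytic_ev g _).continuousAt.eventually_ne (by
      show ev x0 g ≠ 0
      rw [hx0]
      exact (map_ne_zero l).2 fun e => hg (Subtype.ext e)))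
  obtain ⟨T, hT, y, hy, hyg⟩ := (dense_pi Set.univ fun (_ : σ) _ => hd).inter_nhds_nonempty h1
  have hy0 : ev (y, T) P = 0 := by
    rw [show ev (y, T) P = ev x0 P from hy, hx0, (hker P).2 dvd_rfl, map_zero]
  let Kalg := (Subalgebra.algebraicClosure R K).restrictScalars F
  have hT' : ∀ r : MvPolynomial σ F, MvPolynomial.aeval T r ∈ Kalg := fun r => by
    have : (MvPolynomial.aeval T).range ≤ Kalg := by
      rw [← Algebra.adjoin_range_eq_range_aeval]
      exact Algebra.adjoin_le (by rintro _ ⟨i, rfl⟩; exact hT i (Set.mem_univ i))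
    exact this ⟨r, rfl⟩
  have hy' : y ∈ Kalg := by
    have : IsIntegral (Subalgebra.algebraicClosure R K) y := by
      refine ⟨P.map (((MvPolynomial.aeval T : MvPolynomial σ F →ₐ[F] K).toRingHom).codRestrict
        (Subalgebra.algebraicClosure R K) hT'), hP.map _, ?_⟩
      rw [eval₂_map]
      exact hy0
    exact this.isAlgebraic.restrictScalars R
  have halg : ∀ h, ev (y, T) h ∈ Kalg := fun h => by
    induction h using Polynomial.induction_on' with
    | add p q hp hq => rw [map_add]; exact add_mem hp hq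
    | monomial n d =>
      simp only [ev, ← C_mul_X_pow_eq_monomial, map_mul, map_pow, aevalTower_C, aevalTower_X]
      exact mul_mem (hT' d) (pow_mem hy' n)
  have : Algebra.FiniteType F (ev (y, T)).range :=
    .of_surjective (ev (y, T)).rangeRestrict (AlgHom.rangeRestrict_surjective _)
  obtain ⟨m0, hm0⟩ := tr_alg H (ev (y, T)).range (Subalgebra.val _) Subtype.val_injective
    (by rintro ⟨_, h, rfl⟩; exact halg h) ((ev (y, T)).rangeRestrict g)
    (fun e => hyg (congrArg Subtype.val e))
  refine ⟨m0, fun m hm E _ _ hE => ?_⟩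
  obtain ⟨π, hπ⟩ := hm0 m hm E hE
  let ρ := π.comp (ev (y, T)).rangeRestrict
  have hρ : ∀ a ∈ RingHom.ker ψ.rangeRestrict, ρ a = 0 := fun a ha => by
    obtain ⟨b, rfl⟩ := (hker a).1 (congrArg Subtype.val (RingHom.mem_ker.1 ha))
    have : (ev (y, T)).rangeRestrict P = 0 := Subtype.ext hy0
    simp [ρ, this]
  have : (Ideal.quotientKerAlgEquivOfSurjective (AlgHom.rangeRestrict_surjective ψ)).symm
      ⟨ψ g, g, rfl⟩ = Ideal.Quotient.mk _ g := by
    rw [AlgEquiv.symm_apply_eq]; rfl
  exact ⟨(Ideal.Quotient.liftₐ (RingHom.ker ψ.rangeRestrict) ρ hρ).comp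
    (Ideal.quotientKerAlgEquivOfSurjective (AlgHom.rangeRestrict_surjective ψ)).symm.toAlgHom,
    fun e => hπ ((congrArg (Ideal.Quotient.liftₐ _ ρ hρ) this).symm.trans e)⟩

open RatFunc in
/-- there is a complete field all of whose points specialise to all large finite extensions -/
theorem exists_field (F : Type) [Field F] [Fintype F] :
    ∃ (K : Type) (_ : NontriviallyNormedField K) (_ : CompleteSpace K) (_ : Algebra F K),
      ∀ (A : Type) [CommRing A] [Algebra F A] [Algebra.FiniteType F A] (ι : A →ₐ[F] K),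
        Function.Injective ι → Tr F A := by
  have : (Valued.v : Valuation (LaurentSeries F) _).IsRankOneDiscrete :=
    inferInstanceAs ((PowerSeries.idealX F).valuation (LaurentSeries F)).IsRankOneDiscrete
  let _ : (Valued.v : Valuation (LaurentSeries F) _).RankOne :=
    Valuation.IsRankOneDiscrete.rankOne _ (e := 2) one_lt_two
  let _ : Algebra F (LaurentSeries F) := ((algebraMap F[X] (LaurentSeries F)).comp Polynomial.C).toAlgebra
  refine ⟨LaurentSeries F, Valued.toNontriviallyNormedField _ _,
    LaurentSeries.instLaurentSeriesComplete, inferInstance, ?_⟩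
  refine @tr_complete F (LaurentSeries F) F[X] _ _ (Valued.toNontriviallyNormedField _ _)
    LaurentSeries.instLaurentSeriesComplete _ _ _ _ _ _
    (IsScalarTower.of_algebraMap_eq fun _ => rfl) ?_ ?_
  · refine Dense.mono ?_ (LaurentSeries.coe_range_dense (K := F))
    rintro _ ⟨f, rfl⟩
    exact (IsFractionRing.isAlgebraic_iff F[X] (RatFunc F) (LaurentSeries F)).2
      (isAlgebraic_algebraMap f)
  · intro A _ _ _ ι hι hint
    exact tr_laurent (ι : A →+* LaurentSeries F) hι ι.commutes hint

end Pool.Agent.Lib.MP_587b89_lc
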