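import Pool.Agent.Lib.MP_587b89_lc.Ift

/-!
Gluing configurations with residues in the prime field.
-/

set_option autoImplicit false
set_option linter.unusedSectionVars false
open Filter Topology Polynomial

namespace Pool.Agent.Lib.MP_587b89_lc

lemma vand_surj {K ι : Type} [Field K] [Fintype ι] {z : ι → K} (hz : Function.Injective z)
    (t : ℕ → K) : ∃ h : ι → K, ∀ n, n < Fintype.card ι → ∑ i, h i * z i ^ n = t n := by
  let e := (Fintype.equivFin ι).symm
  let L : (Fin (Fintype.card ι) → K) →ₗ[K] (Fin (Fintype.card ι) → K) :=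
    Matrix.vecMulLinear (Matrix.vandermonde (z ∘ e))
  have hL : Function.Injective L := by
    rw [← LinearMap.ker_eq_bot, LinearMap.ker_eq_bot']
    exact fun v hv => Matrix.eq_zero_of_vecMul_eq_zero
      (Matrix.det_vandermonde_ne_zero_iff.2 (hz.comp e.injective)) hv
  obtain ⟨h, hh⟩ := LinearMap.injective_iff_surjective.1 hL fun n => t n
  refine ⟨h ∘ e.symm, fun n hn => ?_⟩
  rw [← e.sum_comp]
  simpa [L, Matrix.vecMul, dotProduct] using congrFun hh ⟨n, hn⟩

theorem ift2 {K V Z W : Type} [NontriviallyNormedField K] [NormedAddCommGroup V] [NormedSpace K V]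
    [CompleteSpace V] [NormedAddCommGroup Z] [NormedSpace K Z] [CompleteSpace Z]
    [NormedAddCommGroup W] [NormedSpace K W] [CompleteSpace W] {E : V × Z → W} {v0 : V} {z0 : Z}
    (hE : AnalyticAt K E (v0, z0))
    (hs : ∀ w, ∃ v, HasDerivAt (fun t : K => E (v0 + t • v, z0)) w 0)
    {Pr : V × Z → Prop} (h : ∀ᶠ x in 𝓝 (v0, z0), Pr x) :
    ∀ᶠ z in 𝓝 z0, ∃ v, E (v, z) = E (v0, z0) ∧ Pr (v, z) := by
  have h1 := hE.differentiableAt.hasFDerivAt.comp v0 (hasFDerivAt_prodMk_left (𝕜 := K) v0 z0)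
  refine ift hE h1 (fun w => ?_) h
  obtain ⟨v, hv⟩ := hs w
  refine ⟨v, HasDerivAt.unique ?_ hv⟩
  have h2 : HasDerivAt (fun t : K => v0 + t • v) v 0 := by
    simpa using ((hasDerivAt_id (0 : K)).smul_const v).const_add v0
  have h3 := HasFDerivAt.comp_hasDerivAt_of_eq (0 : K) h1 h2 (by simp)
  exact h3

lemma pow_nhds {K : Type} [NontriviallyNormedField K] [CompleteSpace K] {n : ℕ} (hn : (n : K) ≠ 0) :
    ∀ᶠ x in 𝓝 (1 : K), ∃ y, y ≠ 0 ∧ y ^ n = x := by
  have := ift1 (K := K) (E := fun x : K × K => x.1 ^ n - x.2) (v0 := 1) (z0 := 1)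
    (ContDiffAt.analyticAt (by fun_prop))
    (d := n) (by simpa using (hasDerivAt_pow n (1 : K)).sub_const 1) hn (Pr := fun x => x.1 ≠ 0)
    (continuous_fst.continuousAt.eventually_ne one_ne_zero)
  filter_upwards [this] with x ⟨y, h1, h2⟩
  exact ⟨y, h2, by simpa [sub_eq_zero] using h1⟩

/-- weighted power sums -/
def ps {K ι : Type} [Field K] [Fintype ι] (c x : ι → K) (n : ℕ) : K := ∑ i, c i * x i ^ n

lemma ps_mul {K ι : Type} [Field K] [Fintype ι] (p : ℕ) [Fact p.Prime] [CharP K p] {c : ι → K}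
    (x : ι → K) (hc : ∀ i, c i ^ p = c i) (n : ℕ) : ps c x (p * n) = ps c x n ^ p := by
  rw [ps, ps, sum_pow_char]
  exact Finset.sum_congr rfl fun i _ => by rw [mul_pow, hc, ← pow_mul, mul_comm n]

/-- the algebraic part of the gluing step -/
lemma all_zero {K ι : Type} [NormedField K] [Fintype ι] (p : ℕ) [hp : Fact p.Prime] [CharP K p]
    {c : ι → K} (x : ι → K) (hc : ∀ i, c i ^ p = c i) {b : ℕ} (hb : 1 ≤ b)
    (h1 : ∀ j, 1 ≤ j → j < b → ¬ p ∣ j → ps c x (j + p) = ps c x j)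
    (h2 : ∀ i, 1 ≤ i → i < p → ∑ l, c l * (x l ^ b * (x l - 1) ^ i) = 0)
    (h3 : ‖ps c x b‖ < 1) : ∀ n, 1 ≤ n → n < b + p → ps c x n = 0 := by
  have hp1 := hp.out.one_lt
  have t1 : ∀ n i, 1 ≤ i → n + i < p → ∑ l, c l * (x l ^ (b + n) * (x l - 1) ^ i) = 0 := by
    intro n
    induction n with
    | zero => exact fun i hi h => h2 i hi (by omega)
    | succ n ih =>
      intro i hi h
      rw [← add_zero (0 : K)]
      nth_rewrite 1 [← ih (i + 1) (by omega) (by omega)]
      rw [← ih i hi (by omega), ← Finset.sum_add_distrib]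
      exact Finset.sum_congr rfl fun l _ => by ring
  have t2 : ∀ n, n < p → ps c x (b + n) = ps c x b := by
    intro n
    induction n with
    | zero => exact fun _ => rfl
    | succ n ih =>
      intro h
      rw [← ih (by omega), ← sub_eq_zero, ← t1 n 1 le_rfl (by omega), ps, ps,
        ← Finset.sum_sub_distrib]
      exact Finset.sum_congr rfl fun l _ => by ring
  have t3 : ∀ m n, b ≤ n + m → 1 ≤ n → n < b + p → ¬ p ∣ n → ps c x n = ps c x b := by
    intro m
    induction m with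
    | zero =>
      intro n h _ h' _
      obtain ⟨d, rfl⟩ := Nat.exists_eq_add_of_le (show b ≤ n from h)
      exact t2 d (by omega)
    | succ m ih =>
      intro n h hn h' hd
      by_cases hbn : b ≤ n
      · obtain ⟨d, rfl⟩ := Nat.exists_eq_add_of_le hbn
        exact t2 d (by omega)
      · rw [← h1 n hn (by omega) hd]
        exact ih _ (by omega) (by omega) (by omega) (by simpa using hd)
  have t4 : ∀ n, 1 ≤ n → n < b + p → ∃ u, 1 ≤ u ∧ ps c x n = ps c x b ^ u ∧ (p ∣ n → 2 ≤ u) := by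
    intro n
    induction n using Nat.strong_induction_on with
    | _ n ih =>
      intro hn h
      by_cases hd : p ∣ n
      · obtain ⟨m, rfl⟩ := hd
        have hm : 1 ≤ m := Nat.pos_of_ne_zero (by rintro rfl; omega)
        have : m < p * m := by nlinarith
        obtain ⟨u, hu, e, -⟩ := ih m this hm (by omega)
        exact ⟨u * p, by nlinarith, by rw [ps_mul p x hc, e, pow_mul], fun _ => by nlinarith⟩
      · exact ⟨1, le_rfl, by rw [pow_one, t3 b n (by omega) hn h hd], fun h => absurd h hd⟩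
  have t5 : ps c x b = 0 := by
    by_contra h0
    have a1 := Nat.div_add_mod (b + p - 1) p
    have a2 := Nat.mod_lt (b + p - 1) (show 0 < p by omega)
    obtain ⟨u, -, e, hu⟩ := t4 (p * ((b + p - 1) / p)) (by omega) (by omega)
    obtain ⟨d, hd⟩ := Nat.exists_eq_add_of_le (show b ≤ p * ((b + p - 1) / p) by omega)
    rw [hd, t2 d (by omega)] at e
    have := pow_lt_self_of_lt_one₀ (norm_pos_iff.2 h0) h3 (hu (dvd_mul_right _ _))
    rw [← norm_pow, ← e] at this
    exact lt_irrefl _ this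
  intro n hn h
  obtain ⟨u, hu, e, -⟩ := t4 n hn h
  rw [e, t5, zero_pow (by omega)]

/-- `b + 1` distinct points with integer weights whose first `b` power sums vanish -/
def Conf (K : Type) [Field K] (p b : ℕ) : Prop :=
  ∃ (ι : Type) (_ : Fintype ι) (x : ι → K) (c : ι → ℤ) (c0 : ℤ) (ρ : K),
    Fintype.card ι = b + 1 ∧ Function.Injective x ∧ (∀ i, (c i : K) ≠ 0) ∧ (c0 : K) ≠ 0 ∧ ρ ≠ 0 ∧
    (∀ j, j < b → ps (fun i => (c i : K)) x j = 0) ∧
    ps (fun i => (c i : K)) x b = c0 * ρ ^ (p - 1)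

lemma conf_base (K : Type) [Field K] (p : ℕ) [Fact p.Prime] [CharP K p] {b : ℕ} (hb : b < p) :
    Conf K p b := by
  classical
  let v : Fin (b + 1) → ZMod p := fun i => ((i : ℕ) : ZMod p)
  have hv : Function.Injective v := fun i j h => Fin.ext (by
    have := (ZMod.natCast_eq_natCast_iff' _ _ _).1 h
    rwa [Nat.mod_eq_of_lt (by omega), Nat.mod_eq_of_lt (by omega)] at this)
  let f := ZMod.castHom (dvd_refl p) K
  let w : Fin (b + 1) → ZMod p := fun i => (∏ j ∈ Finset.univ.erase i, (v i - v j))⁻¹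
  have hw : ∀ i, (((w i).val : ℤ) : K) = f (w i) := fun i => by
    simp [f, ZMod.natCast_val]
  have key : ∀ n, n ≤ b → ps (fun i => (((w i).val : ℤ) : K)) (fun i => f (v i)) n =
      f ((X ^ n : (ZMod p)[X]).coeff b) := by
    intro n hn
    have := Lagrange.coeff_eq_sum (s := Finset.univ) (v := v) hv.injOn (P := X ^ n) (by
      rw [degree_X_pow, Finset.card_univ, Fintype.card_fin]
      exact_mod_cast Nat.lt_succ_of_le hn)
    rw [Finset.card_univ, Fintype.card_fin, Nat.add_sub_cancel] at this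
    rw [this, map_sum, ps]
    refine Finset.sum_congr rfl fun i _ => ?_
    rw [hw, ← map_pow, ← map_mul, eval_pow, eval_X, div_eq_inv_mul]
  refine ⟨Fin (b + 1), inferInstance, fun i => f (v i), fun i => (w i).val, 1, 1, by simp,
    f.injective.comp hv, fun i => ?_, by simp, one_ne_zero, fun j hj => ?_, ?_⟩
  · rw [hw, _root_.map_ne_zero]
    refine inv_ne_zero (Finset.prod_ne_zero_iff.2 fun j hj => sub_ne_zero.2 fun h => ?_)
    exact (Finset.mem_erase.1 hj).1 (hv h).symm
  · rw [key j hj.le, coeff_X_pow, if_neg hj.ne', map_zero]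
  · rw [key b le_rfl]; simp

section step

variable {K ι : Type} [NontriviallyNormedField K] [CompleteSpace K] [Fintype ι] (p : ℕ)
  [hp : Fact p.Prime] [CharP K p] (b : ℕ) (c : ι → K) (c0 ρ : K)

/-- the first family of rescaled equations -/
noncomputable def eqA (j : ℕ) (x : ((ι → K) × (ZMod p → K)) × K) : K :=
  ∑ i, c i * (x.1.1 i ^ j * ((x.2 ^ (p - 1) * x.1.1 i) ^ p - 1)) +
    ∑ l, c0 * ((1 + ρ * x.2 ^ b * x.1.2 l) ^ j * ρ ^ p * x.2 ^ (p * b - j * (p - 1)) * x.1.2 l ^ p)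

/-- the second family of rescaled equations -/
noncomputable def eqB (n : ℕ) (x : ((ι → K) × (ZMod p → K)) × K) : K :=
  ∑ i, c i * (x.1.1 i ^ b * (x.2 ^ (p - 1) * x.1.1 i - 1) ^ n * x.2 ^ (b * (p - 1 - n)) / ρ ^ n) +
    ∑ l, c0 * ((1 + ρ * x.2 ^ b * x.1.2 l) ^ b * x.1.2 l ^ n)

/-- the new points -/
def pts (x : ((ι → K) × (ZMod p → K)) × K) : ι ⊕ ZMod p → K :=
  Sum.elim (fun i => x.2 ^ (p - 1) * x.1.1 i) fun l => 1 + ρ * x.2 ^ b * x.1.2 l

lemma eqA_id {j : ℕ} (hj : j ≤ b) (x : ((ι → K) × (ZMod p → K)) × K) :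
    ps (Sum.elim c fun _ => c0) (pts p b ρ x) (j + p) = ps (Sum.elim c fun _ => c0) (pts p b ρ x) j
      + (x.2 ^ (p - 1)) ^ j * eqA p b c c0 ρ j x := by
  have h1 : j * (p - 1) ≤ p * b := by
    calc j * (p - 1) ≤ b * p := Nat.mul_le_mul hj (Nat.sub_le _ _)
      _ = p * b := mul_comm _ _
  obtain ⟨d, hd⟩ := Nat.exists_eq_add_of_le h1
  simp only [ps, eqA, pts, Fintype.sum_sum_type, Sum.elim_inl, Sum.elim_inr, mul_add,
    Finset.mul_sum]
  rw [add_add_add_comm, ← Finset.sum_add_distrib, ← Finset.sum_add_distrib]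
  congr 1
  · exact Finset.sum_congr rfl fun i _ => by ring
  · refine Finset.sum_congr rfl fun i _ => ?_
    rw [pow_add, add_pow_char _ _ p, mul_pow, mul_pow, ← pow_mul x.2 b p, mul_comm b p, hd,
      Nat.add_sub_cancel_left]
    ring

lemma eqB_id (hρ : ρ ≠ 0) {n : ℕ} (hn : n < p) (x : ((ι → K) × (ZMod p → K)) × K) :
    ∑ l, Sum.elim c (fun _ => c0) l * (pts p b ρ x l ^ b * (pts p b ρ x l - 1) ^ n) =
      (ρ * x.2 ^ b) ^ n * eqB p b c c0 ρ n x := by
  obtain ⟨d, hd⟩ := Nat.exists_eq_add_of_le (show n ≤ p - 1 by omega)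
  simp only [eqB, pts, Fintype.sum_sum_type, Sum.elim_inl, Sum.elim_inr, mul_add, Finset.mul_sum]
  congr 1
  · refine Finset.sum_congr rfl fun i _ => ?_
    rw [hd, Nat.add_sub_cancel_left, mul_pow ρ]
    field_simp
    ring
  · exact Finset.sum_congr rfl fun i _ => by rw [add_sub_cancel_left]; ring

lemma eqA_an (j : ℕ) (z : ((ι → K) × (ZMod p → K)) × K) : AnalyticAt K (eqA p b c c0 ρ j) z := by
  refine ContDiffAt.analyticAt ?_
  unfold eqA
  fun_prop

lemma eqB_an (j : ℕ) (z : ((ι → K) × (ZMod p → K)) × K) : AnalyticAt K (eqB p b c c0 ρ j) z := by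
  refine ContDiffAt.analyticAt ?_
  unfold eqB
  simp only [div_eq_mul_inv]
  fun_prop

lemma eqA_zero (hb : 1 ≤ b) {j : ℕ} (hj : j ≤ b) (y : (ι → K) × (ZMod p → K)) :
    eqA p b c c0 ρ j (y, 0) = -ps c y.1 j := by
  have hp1 := hp.out.one_lt
  have h1 : p * b - j * (p - 1) ≠ 0 := by
    have : j * (p - 1) < p * b := by
      calc j * (p - 1) ≤ b * (p - 1) := Nat.mul_le_mul_right _ hj
        _ < b * p := Nat.mul_lt_mul_of_pos_left (by omega) hb
        _ = p * b := mul_comm _ _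
    omega
  simp [eqA, ps, zero_pow h1, zero_pow (show p - 1 ≠ 0 by omega), zero_pow hp.out.ne_zero]

lemma eqB_zero (hb : 1 ≤ b) {n : ℕ} (hn : n < p) (y : (ι → K) × (ZMod p → K)) :
    eqB p b c c0 ρ n (y, 0) =
      (if n = p - 1 then (ρ ^ n)⁻¹ else 0) * ps c y.1 b + ps (fun _ => c0) y.2 n := by
  have hp1 := hp.out.one_lt
  simp only [eqB, ps, zero_pow (show p - 1 ≠ 0 by omega), zero_pow (show b ≠ 0 by omega),
    zero_mul, mul_zero, add_zero, one_pow, one_mul, zero_sub]
  congr 1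
  split_ifs with h
  · have h1 : (-1 : K) ^ n = 1 := by
      have := neg_one_pow_char K p
      rw [show p = n + 1 by omega, pow_succ] at this
      simpa using this
    rw [Finset.mul_sum]
    refine Finset.sum_congr rfl fun i _ => ?_
    rw [h1, h, Nat.sub_self, mul_zero, pow_zero]
    ring
  · have : b * (p - 1 - n) ≠ 0 := Nat.mul_ne_zero (by omega) (by omega)
    simp [zero_pow this]

lemma ps_deriv {ι : Type} [Fintype ι] (c z h : ι → K) (n : ℕ) :
    HasDerivAt (fun t : K => ps c (z + t • h) n) (n * ∑ i, c i * h i * z i ^ (n - 1)) 0 := by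
  have : ∀ i, HasDerivAt (fun t : K => c i * (z i + t * h i) ^ n)
      (n * (c i * h i * z i ^ (n - 1))) 0 := fun i => by
    have := ((((hasDerivAt_id (0 : K)).mul_const (h i)).const_add (z i)).pow n).const_mul (c i)
    refine this.congr_deriv ?_
    simp only [id, zero_mul, add_zero]
    ring
  rw [Finset.mul_sum]
  exact HasDerivAt.fun_sum fun i _ => this i

end step

lemma sum_top (p : ℕ) [hp : Fact p.Prime] : ∑ l : ZMod p, l ^ (p - 1) = -1 := by
  have hp1 := hp.out.one_lt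
  rw [← Finset.add_sum_erase _ _ (Finset.mem_univ 0), zero_pow (by omega), zero_add,
    Finset.sum_congr rfl fun l hl => ZMod.pow_card_sub_one_eq_one (Finset.mem_erase.1 hl).1,
    Finset.sum_const, Finset.card_erase_of_mem (Finset.mem_univ _), Finset.card_univ, ZMod.card,
    nsmul_one, Nat.cast_sub hp1.le]
  simp

theorem conf_step {K : Type} [NontriviallyNormedField K] [CompleteSpace K] (p : ℕ)
    [hp : Fact p.Prime] [CharP K p] {b : ℕ} (hb : 1 ≤ b) (h : Conf K p b) : Conf K p (b + p) := by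
  classical
  have hp1 := hp.out.one_lt
  obtain ⟨ι, _, z, c', c0', ρ, hcard, hz, hc, hc0, hρ, hS, hS'⟩ := h
  obtain ⟨c, hcc⟩ : ∃ c : ι → K, c = fun i => (c' i : K) := ⟨_, rfl⟩
  obtain ⟨c0, hcc0⟩ : ∃ c0 : K, c0 = c0' := ⟨_, rfl⟩
  have hc1 : ∀ i, c i ≠ 0 := hcc ▸ hc
  rw [← hcc] at hS hS'
  rw [← hcc0] at hS' hc0
  let f := ZMod.castHom (dvd_refl p) K
  let x0 : (ι → K) × (ZMod p → K) := (z, fun l => f l)
  let E : ((ι → K) × (ZMod p → K)) × K → ({j : Fin b // ¬ p ∣ j} → K) × (Fin (p - 1) → K) :=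
    fun x => (fun j => eqA p b c c0 ρ j.1 x, fun n => eqB p b c c0 ρ (n + 1) x)
  have hE0 : E (x0, 0) = 0 := by
    refine Prod.ext (funext fun j => ?_) (funext fun n => ?_)
    · show eqA p b c c0 ρ j.1 (x0, 0) = 0
      rw [eqA_zero p b c c0 ρ hb j.1.2.le, hS _ j.1.2, neg_zero]
    · show eqB p b c c0 ρ (n + 1) (x0, 0) = 0
      have hn := n.2
      rw [eqB_zero p b c c0 ρ hb (by omega), hS', ps, ← Finset.mul_sum]
      have e1 : ∑ l : ZMod p, x0.2 l ^ ((n : ℕ) + 1) = f (∑ l : ZMod p, l ^ ((n : ℕ) + 1)) := by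
        simp [x0]
      rw [e1]
      split_ifs with h
      · rw [h, sum_top p]
        field_simp
        simp
      · rw [FiniteField.sum_pow_lt_card_sub_one _ _ (by rw [ZMod.card]; omega)]
        simp
  have hPr : ∀ᶠ x in 𝓝 (x0, (0 : K)), (∀ i j, i ≠ j → x.1.1 i - x.1.1 j ≠ 0) ∧
      (∀ i j, i ≠ j → x.1.2 i - x.1.2 j ≠ 0) ∧
      (∀ i j, pts p b ρ x (.inl i) - pts p b ρ x (.inr j) ≠ 0) ∧
      ‖ps (Sum.elim c fun _ => c0) (pts p b ρ x) b‖ < 1 ∧
      ∃ y, y ≠ 0 ∧ y ^ (p - 1) = eqA p b c c0 ρ b x / (-(c0 * ρ ^ (p - 1))) := by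
    have z1 : (0 : K) ^ (p - 1) = 0 := zero_pow (by omega)
    have z2 : (0 : K) ^ b = 0 := zero_pow (by omega)
    refine Eventually.and ?_ (Eventually.and ?_ (Eventually.and ?_ (Eventually.and ?_ ?_)))
    · refine eventually_all.2 fun i => eventually_all.2 fun j => eventually_all.2 fun hij => ?_
      exact ContinuousAt.eventually_ne (by fun_prop) (sub_ne_zero.2 (hz.ne hij))
    · refine eventually_all.2 fun i => eventually_all.2 fun j => eventually_all.2 fun hij => ?_
      exact ContinuousAt.eventually_ne (by fun_prop) (sub_ne_zero.2 (f.injective.ne hij))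
    · refine eventually_all.2 fun i => eventually_all.2 fun j => ?_
      refine ContinuousAt.eventually_ne (by simp only [pts, Sum.elim_inl, Sum.elim_inr]; fun_prop) ?_
      simp [pts, z1, z2]
    · refine ContinuousAt.eventually_lt (f := fun x => ‖ps (Sum.elim c fun _ => c0) (pts p b ρ x) b‖)
        (g := fun _ => 1) ?_ continuousAt_const ?_
      · simp only [ps, pts, Fintype.sum_sum_type, Sum.elim_inl, Sum.elim_inr]
        fun_prop
      · simp [ps, pts, z1, z2]
    · have h1 : ContinuousAt (fun x => eqA p b c c0 ρ b x / (-(c0 * ρ ^ (p - 1)))) (x0, 0) :=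
        (eqA_an p b c c0 ρ b _).continuousAt.div_const _
      refine h1.eventually (p := fun x => ∃ y, y ≠ 0 ∧ y ^ (p - 1) = x) ?_
      beta_reduce
      rw [eqA_zero p b c c0 ρ hb le_rfl, hS', div_self (by simp [hc0, hρ])]
      refine pow_nhds ?_
      rw [Nat.cast_sub hp1.le]
      simp
  have key := ift2 (K := K) (E := E) (v0 := x0) (z0 := 0)
    (AnalyticAt.prod (analyticAt_pi_iff.2 fun j => eqA_an p b c c0 ρ _ _)
      (analyticAt_pi_iff.2 fun j => eqB_an p b c c0 ρ _ _)) (fun w => by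
      obtain ⟨h, hh⟩ := vand_surj hz fun n => if hn : n + 1 < b ∧ ¬ p ∣ n + 1 then
        -w.1 ⟨⟨n + 1, hn.1⟩, hn.2⟩ / ((n + 1 : ℕ) : K) else 0
      obtain ⟨T, hT⟩ : ∃ T : ℕ → K, T = fun n => (if n = p - 1 then (ρ ^ n)⁻¹ else 0) *
        (b * ∑ i, c i * (h i / c i) * z i ^ (b - 1)) := ⟨_, rfl⟩
      obtain ⟨g, hg⟩ := vand_surj f.injective fun n => if hn : n < p - 1 then
        (w.2 ⟨n, hn⟩ - T (n + 1)) / ((n + 1 : ℕ) : K) else 0
      refine ⟨(fun i => h i / c i, fun l => g l / c0), HasDerivAt.prodMk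
        (hasDerivAt_pi.2 fun j => ?_) (hasDerivAt_pi.2 fun n => ?_)⟩
      · simp only [eqA_zero p b c c0 ρ hb j.1.2.le]
        refine (ps_deriv c z (fun i => h i / c i) j.1).neg.congr_deriv ?_
        obtain ⟨⟨j, hj⟩, hj'⟩ := j
        obtain ⟨n, rfl⟩ := Nat.exists_eq_succ_of_ne_zero (show j ≠ 0 by rintro rfl; simp at hj')
        have h1 : ((n + 1 : ℕ) : K) ≠ 0 := by rwa [Ne, CharP.cast_eq_zero_iff K p]
        simp only [mul_div_cancel₀ _ (hc1 _), Nat.succ_sub_one]
        rw [hh n (by omega), dif_pos ⟨hj, hj'⟩]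
        field_simp
      · have hn := n.2
        simp only [eqB_zero p b c c0 ρ hb (show (n : ℕ) + 1 < p by omega)]
        refine (((ps_deriv c z (fun i => h i / c i) b).const_mul _).add
          (ps_deriv (fun _ => c0) (fun l => f l) (fun l => g l / c0) (n + 1))).congr_deriv ?_
        have h1 : (((n : ℕ) + 1 : ℕ) : K) ≠ 0 := by
          rw [Ne, CharP.cast_eq_zero_iff K p]
          exact Nat.not_dvd_of_pos_of_lt (by omega) (by omega)
        simp only [mul_div_cancel₀ _ hc0, Nat.add_sub_cancel]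
        rw [hg n (by rw [ZMod.card]; omega), dif_pos hn, mul_div_cancel₀ _ h1, hT]
        simp) hPr
  obtain ⟨s, ⟨v, hv, d1, d2, d3, d4, y, hy0, hy⟩, hs⟩ :=
    ((key.filter_mono nhdsWithin_le_nhds).and (self_mem_nhdsWithin (s := {0}ᶜ))).exists
  have hs0 : s ≠ 0 := hs
  rw [hE0] at hv
  have hcp : ∀ i, Sum.elim c (fun _ : ZMod p => c0) i ^ p = Sum.elim c (fun _ => c0) i := by
    rintro (i | i)
    · rw [hcc]; exact map_intCast (frobenius K p) _
    · rw [hcc0]; exact map_intCast (frobenius K p) _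
  have hall := all_zero p (pts p b ρ (v, s)) hcp hb
    (fun j _ hj hj' => by
      rw [eqA_id p b c c0 ρ hj.le,
        show eqA p b c c0 ρ j (v, s) = 0 from congrFun (congrArg Prod.fst hv) ⟨⟨j, hj⟩, hj'⟩]
      simp)
    (fun i hi hi' => by
      obtain ⟨n, rfl⟩ := Nat.exists_eq_add_of_le' hi
      rw [eqB_id p b c c0 ρ hρ hi', show eqB p b c c0 ρ (n + 1) (v, s) = 0 from
        congrFun (congrArg Prod.snd hv) ⟨n, by omega⟩, mul_zero]) d4
  have hce : (fun i => ((Sum.elim c' (fun _ : ZMod p => c0') i : ℤ) : K)) =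
      Sum.elim c fun _ => c0 := by
    ext (i | i)
    · rw [hcc]; rfl
    · rw [hcc0]; rfl
  refine ⟨ι ⊕ ZMod p, inferInstance, pts p b ρ (v, s), Sum.elim c' fun _ => c0', -c0',
    ρ * s ^ b * y, by simp [hcard]; ring, ?_, ?_, by simpa [← hcc0] using hc0,
    by simp [hρ, hs0, hy0], fun j hj => ?_, ?_⟩
  · rintro (i | i) (j | j) hij
    · by_contra hne
      exact d1 i j (fun e => hne (by rw [e]))
        (sub_eq_zero.2 (mul_left_cancel₀ (pow_ne_zero _ hs0) hij))
    · exact absurd (sub_eq_zero.2 hij) (d3 i j)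
    · exact absurd (sub_eq_zero.2 hij.symm) (d3 j i)
    · by_contra hne
      exact d2 i j (fun e => hne (by rw [e])) (sub_eq_zero.2
        (mul_left_cancel₀ (mul_ne_zero hρ (pow_ne_zero _ hs0)) (add_left_cancel hij)))
  · rintro (i | i)
    · exact hc i
    · exact hcc0 ▸ hc0
  · rw [hce]
    rcases Nat.eq_zero_or_pos j with rfl | hj0
    · have := hS 0 hb
      simp only [ps, pow_zero, mul_one] at this
      simp [ps, this]
    · exact hall j hj0 hj
  · rw [hce, eqA_id p b c c0 ρ le_rfl, hall b hb (by omega), mul_pow, mul_pow, hy, Int.cast_neg,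
      ← hcc0]
    field_simp
    ring

theorem conf_all (K : Type) [NontriviallyNormedField K] [CompleteSpace K] (p : ℕ)
    [hp : Fact p.Prime] [CharP K p] (b : ℕ) (hb : ¬ p ∣ b) : Conf K p b := by
  induction b using Nat.strong_induction_on with
  | _ b ih =>
    by_cases h : b < p
    · exact conf_base K p h
    · obtain ⟨a, rfl⟩ := Nat.exists_eq_add_of_le' (not_lt.1 h)
      have ha : ¬ p ∣ a := by simpa using hb
      exact conf_step p (Nat.pos_of_ne_zero (by rintro rfl; simp at ha))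
        (ih a (by have := hp.out.pos; omega) ha)

end Pool.Agent.Lib.MP_587b89_lc
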