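import Pool.Agent.Lib.MP_587b89_lc.Gal

/-!
Points over all large finite fields of a geometrically integral curve.
-/

set_option autoImplicit false
set_option linter.unusedSectionVars false
set_option linter.overlappingInstances false
open Polynomial Module

namespace Pool.Agent.Lib.MP_587b89_lc

/-- every nonzero element survives in all large finite extensions -/
def Tr (F A : Type) [Field F] [CommRing A] [Algebra F A] : Prop :=
  ∀ g : A, g ≠ 0 → ∃ m0, ∀ m, m0 ≤ m → ∀ (E : Type) [Field E] [Algebra F E],
    finrank F E = m → ∃ π : A →ₐ[F] E, π g ≠ 0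

lemma exists_sep {E U : Type} [Field E] [Field U] [Algebra E U] (p : ℕ) [Fact p.Prime] [CharP E p]
    {x : U} (hx : IsIntegral E x) : ∃ n, ∀ m, n ≤ m → IsSeparable E (x ^ p ^ m) := by
  obtain ⟨n, y, hy⟩ := IsPurelyInseparable.pow_mem (separableClosure E (algebraicClosure E U)) p
    (⟨x, hx⟩ : algebraicClosure E U)
  refine ⟨n, fun m hm => ?_⟩
  have h1 : IsSeparable E (x ^ p ^ n) := by
    have := IsSeparable.map (algebraicClosure E U).val Subtype.val_injective
      (show IsSeparable E (y : algebraicClosure E U) from y.2)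
    have e : (y : algebraicClosure E U) = ⟨x, hx⟩ ^ p ^ n := hy
    rw [e] at this
    exact this
  obtain ⟨d, rfl⟩ := Nat.exists_eq_add_of_le hm
  rw [pow_add, pow_mul]
  exact pow_mem (show x ^ p ^ n ∈ separableClosure E U from h1) _

lemma periodic {F k : Type} [Field F] [Fintype F] [Field k] [Algebra F k]
    [Algebra.IsAlgebraic F k] (c : k) : ∃ N, 0 < N ∧ c ^ Fintype.card F ^ N = c := by
  have := IntermediateField.adjoin.finiteDimensional (Algebra.IsIntegral.isIntegral (R := F) c)
  have : Finite (IntermediateField.adjoin F {c}) := Module.finite_of_finite F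
  have := Fintype.ofFinite (IntermediateField.adjoin F {c})
  refine ⟨finrank F (IntermediateField.adjoin F {c}), finrank_pos, ?_⟩
  rw [← Module.card_eq_pow_finrank]
  exact congrArg Subtype.val
    (FiniteField.pow_card (⟨c, IntermediateField.mem_adjoin_simple_self F c⟩ :
      IntermediateField.adjoin F {c}))

lemma descend {F k A E : Type} [Field F] [Fintype F] [Field k] [Algebra F k] [IsAlgClosed k]
    [CommRing A] [Algebra F A] [Field E] [Algebra F E] {m : ℕ} (hm : 0 < m)
    (hE : finrank F E = m) (ρ : A →ₐ[F] k) (hρ : ∀ a, ρ a ^ Fintype.card F ^ m = ρ a) :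
    ∃ π : A →ₐ[F] E, ∀ a, ρ a ≠ 0 → π a ≠ 0 := by
  have : FiniteDimensional F E := FiniteDimensional.of_finrank_pos (hE ▸ hm)
  have : Finite E := Module.finite_of_finite F
  have := Fintype.ofFinite E
  let j : E →ₐ[F] k := IsAlgClosed.lift
  have hr : ∀ a, ρ a ∈ j.range := by
    intro a
    have h1 := (FiniteField.isSplittingField_sub E E).splits
    rw [Algebra.algebraMap_self, Polynomial.map_id] at h1
    refine h1.mem_range_of_isRoot (i := (j : E →+* k))
      (FiniteField.X_pow_card_sub_X_ne_zero _ Fintype.one_lt_card) ?_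
    simp [Module.card_eq_pow_finrank (K := F) (V := E), hE, hρ]
  refine ⟨(AlgEquiv.ofInjective j j.injective).symm.toAlgHom.comp (ρ.codRestrict _ hr),
    fun a ha h => ha ?_⟩
  have h2 : (AlgEquiv.ofInjective j j.injective).symm (ρ.codRestrict _ hr a) = 0 := h
  rw [map_eq_zero_iff _ (AlgEquiv.injective _)] at h2
  exact congrArg Subtype.val h2

attribute [local instance] FractionRing.liftAlgebra

lemma stable {k U : Type} [Field k] [Field U] [Algebra k[X] U] [FaithfulSMul k[X] U] (τ : k →+* k)
    (Φ : U →+* U) (hΦ : ∀ r : k[X], Φ (algebraMap k[X] U r) = algebraMap k[X] U (r.map τ))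
    {σ : Type} (x : σ → U) (hint : ∀ i, IsIntegral k[X] (x i)) (hfix : ∀ i, Φ (x i) = x i) :
    ∀ y ∈ IntermediateField.adjoin (FractionRing k[X])
      (⋃ i, (minpoly (FractionRing k[X]) (x i)).rootSet U),
    Φ y ∈ IntermediateField.adjoin (FractionRing k[X])
      (⋃ i, (minpoly (FractionRing k[X]) (x i)).rootSet U) := by
  have key : ∀ (P : k[X][X]) (y : U), Φ (aeval y P) = aeval (Φ y) (P.map (mapRingHom τ)) := by
    intro P y
    rw [aeval_def, aeval_def, hom_eval₂, eval₂_map]
    congr 1
    exact RingHom.ext fun r => hΦ r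
  intro y hy
  induction hy using IntermediateField.adjoin_induction with
  | mem y hy =>
    obtain ⟨i, hi⟩ := Set.mem_iUnion.1 hy
    refine IntermediateField.subset_adjoin _ _ (Set.mem_iUnion.2 ⟨i, ?_⟩)
    have hm := minpoly.monic (hint i)
    have h1 : (minpoly k[X] (x i)).map (mapRingHom τ) = minpoly k[X] (x i) := by
      refine eq_of_monic_of_dvd_of_natDegree_le hm (hm.map _)
        (minpoly.isIntegrallyClosed_dvd (hint i) ?_) natDegree_map_le
      rw [← hfix i, ← key, hfix i, minpoly.aeval, map_zero]
    rw [minpoly.isIntegrallyClosed_eq_field_fractions' _ (hint i),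
      mem_rootSet_of_ne (hm.map _).ne_zero, aeval_map_algebraMap] at hi ⊢
    rw [← h1, ← key, hi, map_zero]
  | algebraMap a =>
    obtain ⟨r, s, -, rfl⟩ := IsFractionRing.div_surjective (A := k[X]) a
    rw [map_div₀, ← IsScalarTower.algebraMap_apply, ← IsScalarTower.algebraMap_apply, map_div₀,
      hΦ, hΦ, IsScalarTower.algebraMap_apply k[X] (FractionRing k[X]) U,
      IsScalarTower.algebraMap_apply k[X] (FractionRing k[X]) U]
    exact div_mem (IntermediateField.algebraMap_mem _ _) (IntermediateField.algebraMap_mem _ _)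
  | add y z _ _ h1 h2 => rw [map_add]; exact add_mem h1 h2
  | inv y _ h1 => rw [map_inv₀]; exact inv_mem h1
  | mul y z _ _ h1 h2 => rw [map_mul]; exact mul_mem h1 h2

theorem tr_of_fixed {F k U A : Type} [Field F] [Fintype F] [Field k] [Algebra F k] [IsAlgClosed k]
    [Algebra.IsAlgebraic F k] (p : ℕ) [Fact p.Prime] [CharP k p] {e : ℕ}
    (hq : Fintype.card F = p ^ e) [Field U] [IsAlgClosed U] [Algebra k[X] U] [FaithfulSMul k[X] U]
    [Algebra k U] [IsScalarTower k k[X] U] [Algebra F U] [IsScalarTower F k U] (Φ : U →+* U)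
    (hΦ : ∀ r : k[X], Φ (algebraMap k[X] U r) =
      algebraMap k[X] U (r.map (iterateFrobenius k p e)))
    [CommRing A] [Algebra F A] [Algebra.FiniteType F A] (ι : A →ₐ[F] U)
    (hι : Function.Injective ι) (hint : ∀ a, IsIntegral k[X] (ι a)) (hfix : ∀ a, Φ (ι a) = ι a) :
    Tr F A := by
  classical
  have he : e ≠ 0 := by
    rintro rfl
    have := Fintype.one_lt_card (α := F)
    rw [pow_zero] at hq
    omega
  have : CharP (FractionRing k[X]) p :=
    charP_of_injective_algebraMap (algebraMap k (FractionRing k[X])).injective p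
  obtain ⟨S, hS⟩ := Algebra.FiniteType.out (R := F) (A := A)
  choose n hn using fun a : S =>
    exists_sep (E := FractionRing k[X]) p (hint a).tower_top
  obtain ⟨N, hN⟩ := (Set.finite_range n).bddAbove
  let κ : A →ₐ[F] U := (FiniteField.frobeniusAlgHom F U ^ N).comp ι
  have hκ : ∀ a, κ a = ι a ^ p ^ (e * N) := fun a => by
    simp [κ, AlgHom.coe_pow, FiniteField.coe_frobeniusAlgHom, pow_iterate, hq, pow_mul]
  have hint' : ∀ a, IsIntegral k[X] (κ a) := fun a => by rw [hκ]; exact (hint a).pow _
  have hfix' : ∀ a, Φ (κ a) = κ a := fun a => by rw [hκ, map_pow, hfix]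
  have hsep : ∀ a : S, IsSeparable (FractionRing k[X]) (κ a) := fun a => by
    rw [hκ]
    exact hn a _ ((hN ⟨a, rfl⟩).trans (Nat.le_mul_of_pos_left N (Nat.pos_of_ne_zero he)))
  have hst := stable _ Φ hΦ (fun a : S => κ a) (fun a => hint' a) (fun a => hfix' a)
  obtain ⟨M, hM⟩ : ∃ M, M = IntermediateField.adjoin (FractionRing k[X])
      (⋃ a : S, (minpoly (FractionRing k[X]) (κ a)).rootSet U) := ⟨_, rfl⟩
  have hsp : ∀ a : S, IsSplittingField (FractionRing k[X]) (IntermediateField.adjoin
      (FractionRing k[X]) ((minpoly (FractionRing k[X]) (κ a)).rootSet U))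
      (minpoly (FractionRing k[X]) (κ a)) :=
    fun a => IntermediateField.adjoin_rootSet_isSplittingField (IsAlgClosed.splits _)
  have hgal := fun a : S => IsGalois.of_separable_splitting_field (hsep a) (E :=
    IntermediateField.adjoin (FractionRing k[X]) ((minpoly (FractionRing k[X]) (κ a)).rootSet U))
  have hfd := fun a : S => IsSplittingField.finiteDimensional (IntermediateField.adjoin
    (FractionRing k[X]) ((minpoly (FractionRing k[X]) (κ a)).rootSet U))
      (minpoly (FractionRing k[X]) (κ a))
  have : FiniteDimensional (FractionRing k[X]) M := by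
    rw [hM, IntermediateField.adjoin_iUnion]; infer_instance
  have : IsGalois (FractionRing k[X]) M := by
    rw [hM, IntermediateField.adjoin_iUnion]
    exact { }
  rw [← hM] at hst
  have hmem : ∀ a, κ a ∈ M := by
    intro a
    have ha : a ∈ Algebra.adjoin F (S : Set A) := hS ▸ Algebra.mem_top
    induction ha using Algebra.adjoin_induction with
    | mem a ha =>
      rw [hM]
      refine IntermediateField.subset_adjoin _ _ (Set.mem_iUnion.2 ⟨⟨a, ha⟩, ?_⟩)
      exact (mem_rootSet_of_ne (minpoly.ne_zero (hint' a).tower_top)).2 (minpoly.aeval _ _)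
    | algebraMap c =>
      rw [AlgHom.commutes, IsScalarTower.algebraMap_apply F k U,
        IsScalarTower.algebraMap_apply k (FractionRing k[X]) U]
      exact IntermediateField.algebraMap_mem _ _
    | add y z _ _ h1 h2 => rw [map_add]; exact add_mem h1 h2
    | mul y z _ _ h1 h2 => rw [map_mul]; exact mul_mem h1 h2
  let κ' : A →+* integralClosure k[X] M :=
    ((κ : A →+* U).codRestrict M hmem).codRestrict (integralClosure k[X] M) fun a =>
      (isIntegral_algHom_iff (M.val.restrictScalars k[X]) Subtype.val_injective).1 (hint' a)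
  intro g hg
  have : IsScalarTower k k[X] M := IsScalarTower.of_algebraMap_eq fun c =>
    Subtype.ext (IsScalarTower.algebraMap_apply k k[X] U c)
  obtain ⟨s0, hs0⟩ := galois_case p he
    (fun c => by simpa only [hq, ← pow_mul] using periodic (F := F) c)
    ((Φ.comp (M.val : M →+* U)).codRestrict M fun y => hst y y.2)
    (fun r => Subtype.ext (hΦ r)) (g := κ' g) (fun h => by
      have h1 : κ g = 0 := congrArg (fun y : integralClosure k[X] M => ((y : M) : U)) h
      rw [hκ] at h1
      exact hg (hι (by rw [pow_eq_zero_iff (pow_ne_zero _ (NeZero.ne p)) |>.1 h1, map_zero])))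
  refine ⟨s0 + 1, fun m hm E _ _ hE => ?_⟩
  obtain ⟨π, h1, h2⟩ := hs0 m (by omega)
  let ρ : A →ₐ[F] k :=
    { (π : integralClosure k[X] M →+* k).comp κ' with
      commutes' := fun c => by
        have : κ' (algebraMap F A c) = algebraMap k _ (algebraMap F k c) := by
          refine Subtype.ext (Subtype.ext ?_)
          show κ _ = algebraMap k U _
          rw [AlgHom.commutes, IsScalarTower.algebraMap_apply F k U]
        show π (κ' _) = _
        rw [this, AlgHom.commutes]; rfl }
  obtain ⟨π', hπ'⟩ := descend (by omega) hE ρ fun a => by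
    rw [hq, ← pow_mul]
    exact h2 (κ' a) (Subtype.ext (hfix' a))
  exact ⟨π', hπ' g h1⟩

end Pool.Agent.Lib.MP_587b89_lc
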