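import Pool.Agent.Lib.MP_587b89_lc.Weil

/-!
Integral elements of the Laurent series field over a finite field.
-/

set_option autoImplicit false
set_option linter.unusedSectionVars false
set_option linter.overlappingInstances false
open Polynomial Module LaurentSeries

namespace Pool.Agent.Lib.MP_587b89_lc

theorem tr_of_fixed' {F k U A : Type} [Field F] [Fintype F] [Field k] [Algebra F k] [IsAlgClosed k]
    [Algebra.IsAlgebraic F k] (p : ℕ) [Fact p.Prime] [CharP k p] {e : ℕ}
    (hq : Fintype.card F = p ^ e) [Field U] [IsAlgClosed U] (j : k[X] →+* U)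
    (hj : Function.Injective j) (Φ : U →+* U)
    (hΦ : ∀ r : k[X], Φ (j r) = j (r.map (iterateFrobenius k p e)))
    [CommRing A] [Algebra F A] [Algebra.FiniteType F A] (ι : A →+* U)
    (hc : ∀ c, ι (algebraMap F A c) = j (C (algebraMap F k c)))
    (hι : Function.Injective ι) (hint : ∀ a, j.IsIntegralElem (ι a)) (hfix : ∀ a, Φ (ι a) = ι a) :
    Tr F A := by
  let _ : Algebra k[X] U := j.toAlgebra
  let _ : Algebra k U := (j.comp C).toAlgebra
  let _ : Algebra F U := ((j.comp C).comp (algebraMap F k)).toAlgebra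
  have : FaithfulSMul k[X] U := (faithfulSMul_iff_algebraMap_injective _ _).2 hj
  have : IsScalarTower k k[X] U := IsScalarTower.of_algebraMap_eq fun _ => rfl
  have : IsScalarTower F k U := IsScalarTower.of_algebraMap_eq fun _ => rfl
  exact tr_of_fixed p hq Φ hΦ { ι with commutes' := hc } hι hint hfix

/-- coefficientwise application of a ring homomorphism -/
noncomputable def hmap {R S : Type} [Field R] [Field S] (f : R →+* S) : R⸨X⸩ →+* S⸨X⸩ where
  toFun x := x.map f
  map_one' := HahnSeries.map_one f.toMonoidWithZeroHom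
  map_mul' _ _ := HahnSeries.map_mul f.toNonUnitalRingHom
  map_zero' := HahnSeries.map_zero f.toMonoidWithZeroHom.toZeroHom
  map_add' _ _ := HahnSeries.map_add f.toAddMonoidHom

lemma hmap_coeff {R S : Type} [Field R] [Field S] (f : R →+* S) (x : R⸨X⸩) (n : ℤ) :
    (hmap f x).coeff n = f (x.coeff n) := rfl

lemma hmap_poly {R S : Type} [Field R] [Field S] (f : R →+* S) (r : R[X]) :
    hmap f (algebraMap R[X] R⸨X⸩ r) = algebraMap S[X] S⸨X⸩ (r.map f) := by
  have : (hmap f).comp (algebraMap R[X] R⸨X⸩) = (algebraMap S[X] S⸨X⸩).comp (mapRingHom f) := by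
    refine Polynomial.ringHom_ext (fun a => ?_) ?_
    · ext n
      simp [hmap_coeff, HahnSeries.coeff_single]
      split_ifs <;> simp
    · ext n
      simp [hmap_coeff, HahnSeries.coeff_single]
  exact RingHom.congr_fun this r

theorem tr_laurent {F A : Type} [Field F] [Fintype F] [CommRing A] [Algebra F A]
    [Algebra.FiniteType F A] (ι : A →+* F⸨X⸩) (hι : Function.Injective ι)
    (hc : ∀ c, ι (algebraMap F A c) = algebraMap F[X] F⸨X⸩ (C c))
    (hint : ∀ a, IsIntegral F[X] (ι a)) : Tr F A := by
  obtain ⟨p, hp⟩ := CharP.exists F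
  obtain ⟨e, hpp, hq⟩ := FiniteField.card F p
  have : Fact p.Prime := ⟨hpp⟩
  let k := AlgebraicClosure F
  let Φ0 : k⸨X⸩ ≃+* k⸨X⸩ := RingEquiv.ofRingHom (hmap (iterateFrobenius k p e))
    (hmap (iterateFrobeniusEquiv k p e).symm)
    (RingHom.ext fun x => by
      ext n
      exact (iterateFrobeniusEquiv k p e).apply_symm_apply _)
    (RingHom.ext fun x => by
      ext n
      exact (iterateFrobeniusEquiv k p e).symm_apply_apply _)
  let U := AlgebraicClosure k⸨X⸩
  refine tr_of_fixed' (k := k) (U := U) p hq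
    ((algebraMap k⸨X⸩ U).comp (algebraMap k[X] k⸨X⸩))
    ((algebraMap k⸨X⸩ U).injective.comp (FaithfulSMul.algebraMap_injective _ _))
    (IsAlgClosure.equivOfEquiv U U Φ0 : U →+* U) (fun r => ?_)
    (((algebraMap k⸨X⸩ U).comp (hmap (algebraMap F k))).comp ι) (fun c => ?_)
    (((algebraMap k⸨X⸩ U).comp (hmap (algebraMap F k))).injective.comp hι) (fun a => ?_) (fun a => ?_)
  · simp only [RingHom.comp_apply, RingHom.coe_coe, IsAlgClosure.equivOfEquiv_algebraMap]
    exact congrArg _ (hmap_poly _ r)
  · simp only [RingHom.comp_apply]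
    rw [hc, hmap_poly, map_C]
  · obtain ⟨P, hP, hPa⟩ := hint a
    refine ⟨P.map (mapRingHom (algebraMap F k)), hP.map _, ?_⟩
    rw [eval₂_map, RingHom.comp_apply]
    have := congrArg ((algebraMap k⸨X⸩ U).comp (hmap (algebraMap F k))) hPa
    rw [hom_eval₂, map_zero] at this
    rw [← this]
    congr 1
    exact RingHom.ext fun r => congrArg (algebraMap k⸨X⸩ U) (hmap_poly _ r).symm
  · simp only [RingHom.comp_apply, RingHom.coe_coe, IsAlgClosure.equivOfEquiv_algebraMap]
    congr 1
    ext n
    show iterateFrobenius k p e (algebraMap F k _) = algebraMap F k _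
    rw [iterateFrobenius_def, ← map_pow, ← hq, FiniteField.pow_card]

end Pool.Agent.Lib.MP_587b89_lc
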