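import Pool.Agent.Lib.MP_587b89_lc.Spec
import Pool.Agent.Lib.MP_587b89_lc.Glue

/-!
From configurations to codewords, and the BCH bound.
-/

set_option autoImplicit false
set_option linter.unusedSectionVars false
open Module

namespace Pool.Agent.Lib.MP_587b89_lc

/-- `δ` distinct nonzero points with nonzero weights in `F` and vanishing power sums -/
def Word (F K : Type) [Field F] [Field K] [Algebra F K] (δ : ℕ) : Prop :=
  ∃ (ι : Type) (_ : Fintype ι) (x : ι → K) (c : ι → F), Fintype.card ι = δ ∧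
    Function.Injective x ∧ (∀ i, x i ≠ 0) ∧ (∀ i, c i ≠ 0) ∧
    ∀ j, 1 ≤ j → j < δ → ∑ i, algebraMap F K (c i) * x i ^ j = 0

lemma word_of_conf (F K : Type) [Field F] [Field K] [Algebra F K] {p δ : ℕ} (h : Conf K p δ) :
    Word F K δ := by
  classical
  obtain ⟨ι, _, x, c, -, -, hcard, hx, hc, -, -, hS, -⟩ := h
  obtain ⟨i0⟩ : Nonempty ι := Fintype.card_pos_iff.1 (by omega)
  refine ⟨{i // i ≠ i0}, inferInstance, fun i => x i - x i0, fun i => c i, by simp [hcard],
    fun i j h => Subtype.ext (hx (sub_left_injective h)), fun i => sub_ne_zero.2 (hx.ne i.2),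
    fun i h => hc i ?_, fun j hj hj' => ?_⟩
  · rw [← map_intCast (algebraMap F K), show ((c i : ℤ) : F) = 0 from h, map_zero]
  · have h1 : ∑ i, (c i : K) * (x i + -x i0) ^ j = 0 := by
      simp only [add_pow, Finset.mul_sum]
      rw [Finset.sum_comm]
      refine Finset.sum_eq_zero fun m hm => ?_
      have := hS m (by have := Finset.mem_range.1 hm; omega)
      rw [← zero_mul ((-x i0) ^ (j - m) * (j.choose m : K)), ← this, ps, Finset.sum_mul]
      exact Finset.sum_congr rfl fun i _ => by ring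
    rw [Fintype.sum_eq_add_sum_subtype_ne _ i0, add_neg_cancel, zero_pow (by omega), mul_zero,
      zero_add] at h1
    simpa [sub_eq_add_neg] using h1

lemma word_transfer {F K : Type} [Field F] [Field K] [Algebra F K]
    (H : ∀ (A : Type) [CommRing A] [Algebra F A] [Algebra.FiniteType F A] (ι : A →ₐ[F] K),
      Function.Injective ι → Tr F A) {δ : ℕ} (h : Word F K δ) :
    ∃ m0, ∀ m, m0 ≤ m → ∀ (E : Type) [Field E] [Algebra F E], finrank F E = m → Word F E δ := by
  classical
  obtain ⟨ι, _, x, c, hcard, hx, hx0, hc, hS⟩ := h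
  have : Algebra.FiniteType F (Algebra.adjoin F (Set.range x)) :=
    Algebra.FiniteType.adjoin_of_finite (Set.finite_range x)
  let y : ι → Algebra.adjoin F (Set.range x) := fun i => ⟨x i, Algebra.subset_adjoin ⟨i, rfl⟩⟩
  obtain ⟨m0, hm0⟩ := H _ (Algebra.adjoin F (Set.range x)).val Subtype.val_injective
    ((∏ i, y i) * ∏ a ∈ (Finset.univ : Finset ι).offDiag, (y a.1 - y a.2))
    (mul_ne_zero (Finset.prod_ne_zero_iff.2 fun i _ e => hx0 i (congrArg Subtype.val e))
      (Finset.prod_ne_zero_iff.2 fun a ha e =>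
        (Finset.mem_offDiag.1 ha).2.2 (hx (congrArg Subtype.val (sub_eq_zero.1 e)))))
  refine ⟨m0, fun m hm E _ _ hE => ?_⟩
  obtain ⟨π, hπ⟩ := hm0 m hm E hE
  rw [map_mul, map_prod, map_prod, mul_ne_zero_iff, Finset.prod_ne_zero_iff,
    Finset.prod_ne_zero_iff] at hπ
  refine ⟨ι, inferInstance, fun i => π (y i), c, hcard, fun i j h => ?_,
    fun i => hπ.1 i (Finset.mem_univ i), hc, fun j hj hj' => ?_⟩
  · by_contra hne
    exact hπ.2 (i, j) (by simpa using hne) (by rw [map_sub, sub_eq_zero]; exact h)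
  · have : ∑ i, algebraMap F _ (c i) * y i ^ j = 0 := Subtype.ext (by simpa using hS j hj hj')
    simpa using congrArg π this

lemma bch_bound {F E : Type} [Field F] [DecidableEq F] [Field E] [Algebra F E] {n δ : ℕ} {α : E}
    (hα : IsPrimitiveRoot α n) {a : Fin n → F} (ha : a ≠ 0)
    (h : ∀ j, 1 ≤ j → j < δ → ∑ i, algebraMap F E (a i) * (α ^ j) ^ (i : ℕ) = 0) :
    δ ≤ hammingNorm a := by
  by_contra hlt
  rw [not_le] at hlt
  obtain ⟨i0, hi0⟩ := Function.ne_iff.1 ha
  have hn : n ≠ 0 := fun e => (e ▸ i0).elim0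
  let e := (Fintype.equivFin {i // a i ≠ 0}).symm
  have hc : Fintype.card {i // a i ≠ 0} = hammingNorm a := Fintype.card_subtype _
  have := Matrix.eq_zero_of_forall_pow_sum_mul_pow_eq_zero
    (f := fun l => α ^ ((e l).1 : ℕ)) (v := fun l => algebraMap F E (a (e l)) * α ^ ((e l).1 : ℕ))
    (fun l l' hl => e.injective (Subtype.ext (Fin.ext (hα.pow_inj (e l).1.2 (e l').1.2 hl))))
    (fun j => by
      rw [← h (j + 1) (by omega) (by have := j.2; omega),
        e.sum_comp fun i => algebraMap F E (a i) * α ^ (i.1 : ℕ) * (α ^ (i.1 : ℕ)) ^ (j : ℕ),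
        ← Finset.sum_subtype (Finset.univ.filter fun i => a i ≠ 0) (by simp)
          fun i => algebraMap F E (a i) * α ^ (i : ℕ) * (α ^ (i : ℕ)) ^ (j : ℕ),
        Finset.sum_filter_of_ne (p := fun i => a i ≠ 0) fun i _ h0 h1 => h0 (by simp [h1])]
      exact Finset.sum_congr rfl fun i _ => by ring)
  have h1 := congrFun this (e.symm ⟨i0, hi0⟩)
  simp only [Equiv.apply_symm_apply, Pi.zero_apply, mul_eq_zero, map_eq_zero] at h1
  exact h1.elim hi0 (pow_ne_zero _ (hα.ne_zero hn))

lemma code_of_word {F E : Type} [Field F] [DecidableEq F] [Field E] [Fintype E] [Algebra F E]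
    {n δ : ℕ} (hδ : 1 ≤ δ) (hn : n = Fintype.card E - 1) {α : E} (hα : IsPrimitiveRoot α n)
    (h : Word F E δ) : ∃ a : Fin n → F, a ≠ 0 ∧
      (∀ j, 1 ≤ j → j < δ → ∑ i, algebraMap F E (a i) * (α ^ j) ^ (i : ℕ) = 0) ∧
      hammingNorm a = δ := by
  classical
  obtain ⟨ι, _, x, c, hcard, hx, hx0, hc, hS⟩ := h
  have : NeZero n := ⟨by have := Fintype.one_lt_card (α := E); omega⟩
  choose e he he' using fun i => hα.eq_pow_of_pow_eq_one
    (hn ▸ FiniteField.pow_card_sub_one_eq_one (x i) (hx0 i))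
  let e' : ι → Fin n := fun i => ⟨e i, he i⟩
  have hinj : Function.Injective e' := fun i j h => hx (by
    rw [← he', ← he', show e i = e j from congrArg Fin.val h])
  have hw : hammingNorm (Function.extend e' c 0) = δ := by
    rw [← hcard, ← Finset.card_univ, ← Finset.card_image_of_injective _ hinj, hammingNorm]
    congr 1
    ext l
    by_cases hl : ∃ i, e' i = l
    · obtain ⟨i, rfl⟩ := hl
      simp [hinj.extend_apply, hc]
    · simp [hl]
  refine ⟨Function.extend e' c 0, fun h0 => ?_, fun j hj hj' => ?_, hw⟩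
  · rw [h0, hammingNorm_zero] at hw
    omega
  · rw [← hS j hj hj']
    refine (Finset.sum_of_injOn e' hinj.injOn (fun _ _ => Finset.mem_univ _) (fun l _ hl => ?_)
      fun i _ => ?_).symm
    · rw [Function.extend_apply' _ _ _ (by simpa using hl)]
      simp
    · rw [hinj.extend_apply, ← he', ← pow_mul, ← pow_mul, mul_comm j]

theorem main {F : Type} [Field F] [Fintype F] [DecidableEq F] {δ : ℕ} (hδ : 2 ≤ δ)
    (h : ¬ Fintype.card F ∣ δ → ∀ (K : Type) [NontriviallyNormedField K] [CompleteSpace K]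
      [Algebra F K], Word F K δ) :
    ∃ m₀ : ℕ, ∀ m ≥ m₀, ∀ (E : Type) [Field E] [Algebra F E], finrank F E = m →
      ∀ α : E, IsPrimitiveRoot α (Fintype.card F ^ m - 1) →
        (IsLeast {w | ∃ a : Fin (Fintype.card F ^ m - 1) → F, a ≠ 0 ∧
          (∀ j, 1 ≤ j → j < δ → ∑ i, algebraMap F E (a i) * (α ^ j) ^ (i : ℕ) = 0) ∧
          hammingNorm a = w} δ ↔ ¬ Fintype.card F ∣ δ) := by
  by_cases hd : Fintype.card F ∣ δ
  · refine ⟨0, fun m _ E _ _ _ α hα => iff_of_false ?_ (not_not.2 hd)⟩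
    rintro ⟨⟨a, ha, h1, h2⟩, -⟩
    obtain ⟨d, hd⟩ := hd
    have hq := Fintype.one_lt_card (α := F)
    have hd0 : 1 ≤ d := Nat.pos_of_ne_zero (by rintro rfl; omega)
    have := bch_bound (δ := δ + 1) hα ha fun j hj hj' => by
      rcases Nat.lt_succ_iff_lt_or_eq.1 hj' with hj' | rfl
      · exact h1 j hj hj'
      · have h3 := congrArg (FiniteField.frobeniusAlgHom F E) (h1 d hd0 (by nlinarith))
        rw [map_zero, map_sum] at h3
        rw [← h3]
        refine Finset.sum_congr rfl fun i _ => ?_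
        rw [map_mul, AlgHom.commutes, FiniteField.frobeniusAlgHom_apply, hd]
        ring
    omega
  · obtain ⟨K, _, _, _, H⟩ := exists_field F
    obtain ⟨m0, hm0⟩ := word_transfer H (h hd K)
    refine ⟨m0 + 1, fun m hm E _ _ hE α hα => iff_of_true ⟨?_, ?_⟩ hd⟩
    · have : FiniteDimensional F E := FiniteDimensional.of_finrank_pos (by omega)
      have : Finite E := Module.finite_of_finite F
      have := Fintype.ofFinite E
      exact code_of_word (by omega) (by rw [Module.card_eq_pow_finrank (K := F) (V := E), hE]) hα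
        (hm0 m (by omega) E hE)
    · rintro w ⟨a, ha, h1, rfl⟩
      exact bch_bound hα ha h1

lemma word_coprime (F : Type) [Field F] [Fintype F] {δ : ℕ} (h : ¬ ringChar F ∣ δ) (K : Type)
    [NontriviallyNormedField K] [CompleteSpace K] [Algebra F K] : Word F K δ := by
  have : Fact (ringChar F).Prime := ⟨CharP.char_is_prime F _⟩
  have : CharP K (ringChar F) := charP_of_injective_algebraMap (algebraMap F K).injective _
  exact word_of_conf F K (conf_all K _ δ h)

end Pool.Agent.Lib.MP_587b89_lc
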