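import Pool.Agent.Lib.MP_587b89_lc.Step

/-!
Bombieri's averaging argument: a lower bound from the upper bounds for all twists.
-/

set_option autoImplicit false
set_option linter.unusedSectionVars false
set_option linter.overlappingInstances false
open Polynomial Module WithZero

namespace Pool.Agent.Lib.MP_587b89_lc

variable {k : Type} [Field k] {B : Type} [CommRing B] [Algebra k[X] B] {D : ℕ}
  (b : Basis (Fin D) k[X] B) [IsDomain B] [Algebra k B] [IsScalarTower k k[X] B]

lemma algHom_poly (π : B →ₐ[k] k) (r : k[X]) :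
    π (algebraMap k[X] B r) = r.eval (π (algebraMap k[X] B X)) := by
  have : π.comp (IsScalarTower.toAlgHom k k[X] B) = aeval (π (algebraMap k[X] B X)) := by
    ext; simp
  have := AlgHom.congr_fun this r
  simpa [coe_aeval_eq_eval] using this

include b in
lemma inj_poly : Function.Injective (algebraMap k[X] B) := by
  have := Module.Free.of_basis b
  exact FaithfulSMul.algebraMap_injective _ _

include b in
lemma exists_point [IsAlgClosed k] (x : k) : ∃ π : B →ₐ[k] k, π (algebraMap k[X] B X) = x := by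
  have := Module.Finite.of_basis b
  have hm := PrincipalIdealRing.isMaximal_of_irreducible (irreducible_X_sub_C x)
  obtain ⟨Q, hQ, hQ'⟩ := Ideal.exists_ideal_over_maximal_of_isIntegral (S := B)
    (Ideal.span {X - C x}) (by rw [(RingHom.injective_iff_ker_eq_bot _).1 (inj_poly b)]; simp)
  have hf : algebraMap k[X] B (X - C x) ∈ Q := by
    rw [← Ideal.mem_comap, hQ']
    exact Ideal.mem_span_singleton_self _
  have h0 : algebraMap k[X] B (X - C x) ≠ 0 :=
    (map_ne_zero_iff _ (inj_poly b)).2 (X_sub_C_ne_zero x)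
  have := finite_quot b h0
  have hle : Ideal.span {algebraMap k[X] B (X - C x)} ≤ Q := by
    rwa [Ideal.span_singleton_le_iff_mem]
  have : Module.Finite k (B ⧸ Q) := Module.Finite.of_surjective
    (Ideal.Quotient.factorₐ k hle).toLinearMap (Ideal.Quotient.factor_surjective hle)
  let l : (B ⧸ Q) →ₐ[k] k := IsAlgClosed.lift
  refine ⟨l.comp (Ideal.Quotient.mkₐ k Q), ?_⟩
  have e : (l.comp (Ideal.Quotient.mkₐ k Q)) (algebraMap k[X] B (X - C x)) = 0 := by
    rw [AlgHom.comp_apply, Ideal.Quotient.mkₐ_eq_mk, Ideal.Quotient.eq_zero_iff_mem.2 hf, map_zero]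
  rw [algHom_poly] at e
  simpa [sub_eq_zero] using e

variable {G : Type} [Group G] [Finite G] [MulSemiringAction G B] [SMulCommClass G k[X] B]
  [Algebra.IsInvariant k[X] B G]

lemma smul_const (g : G) (c : k) : g • algebraMap k B c = algebraMap k B c := by
  rw [IsScalarTower.algebraMap_apply k k[X] B, smul_algebraMap]

variable (G) in
lemma trans_point (π π' : B →ₐ[k] k) (h : π (algebraMap k[X] B X) = π' (algebraMap k[X] B X)) :
    ∃ g : G, ∀ f, π' f = π (g • f) := by
  have := RingHom.ker_isPrime π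
  have := RingHom.ker_isPrime π'
  obtain ⟨g, hg⟩ := Algebra.IsInvariant.exists_smul_of_under_eq k[X] B G (RingHom.ker π)
    (RingHom.ker π') (by
      ext r
      simp only [Ideal.under, Ideal.mem_comap, RingHom.mem_ker]
      rw [algHom_poly π r, algHom_poly π' r, h])
  refine ⟨g⁻¹, fun f => ?_⟩
  have h1 : f - algebraMap k B (π' f) ∈ RingHom.ker π' := by simp [RingHom.mem_ker]
  rw [hg, Ideal.mem_pointwise_smul_iff_inv_smul_mem, RingHom.mem_ker, smul_sub, smul_const,
    map_sub, sub_eq_zero] at h1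
  simpa using h1.symm

/-- the twist of a point by a group element -/
def twist (π : B →ₐ[k] k) (g : G) : B →ₐ[k] k :=
  { (π : B →+* k).comp (MulSemiringAction.toRingHom G B g) with
    commutes' := fun c => by simp [smul_const] }

lemma twist_apply (π : B →ₐ[k] k) (g : G) (f : B) : twist π g f = π (g • f) := rfl

lemma exists_twist [IsAlgClosed k] (p : ℕ) [Fact p.Prime] [CharP k p] (n : ℕ) (φ : B →+* B)
    (hφ : ∀ r : k[X], φ (algebraMap k[X] B r) = algebraMap k[X] B (r.map (iterateFrobenius k p n)))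
    (π : B →ₐ[k] k) (h : π (algebraMap k[X] B X) ^ p ^ n = π (algebraMap k[X] B X)) :
    ∃ g : G, ∀ f, π (φ (g • f)) = π f ^ p ^ n := by
  let τ : B →ₐ[k] k :=
    { ((iterateFrobeniusEquiv k p n).symm : k →+* k).comp ((π : B →+* k).comp φ) with
      commutes' := fun c => by
        show (iterateFrobeniusEquiv k p n).symm (π (φ (algebraMap k B c))) = c
        rw [RingEquiv.symm_apply_eq, IsScalarTower.algebraMap_apply k k[X] B, hφ, algHom_poly]
        simp [iterateFrobenius_def] }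
  have hτ : ∀ f, τ f ^ p ^ n = π (φ f) := fun f => by
    show (iterateFrobeniusEquiv k p n).symm (π (φ f)) ^ p ^ n = _
    rw [← iterateFrobeniusEquiv_def, RingEquiv.apply_symm_apply]
  obtain ⟨g, hg⟩ := trans_point G τ π (by
    apply (iterateFrobeniusEquiv k p n).injective
    rw [iterateFrobeniusEquiv_def, iterateFrobeniusEquiv_def, hτ, hφ, h, map_X])
  exact ⟨g, fun f => by rw [← hτ, hg]⟩

lemma exists_fixed [IsAlgClosed k] (p : ℕ) [Fact p.Prime] [CharP k p] {n : ℕ} (hn : n ≠ 0) :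
    ∃ S : Finset k, S.card = p ^ n ∧ ∀ x ∈ S, x ^ p ^ n = x := by
  classical
  have hp : 1 < p := (Fact.out : p.Prime).one_lt
  have hsep := galois_poly_separable (K := k) p (p ^ n) (dvd_pow_self p hn)
  refine ⟨(X ^ p ^ n - X : k[X]).roots.toFinset, ?_, fun x hx => ?_⟩
  · rw [Multiset.toFinset_card_of_nodup (nodup_roots hsep), IsAlgClosed.card_roots_eq_natDegree,
      FiniteField.X_pow_card_pow_sub_X_natDegree_eq k hn hp]
  · have := (mem_roots hsep.ne_zero).1 (Multiset.mem_toFinset.1 hx)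
    simpa [sub_eq_zero] using this

include b in
theorem lower (G : Type) [Group G] [Finite G] [MulSemiringAction G B] [SMulCommClass G k[X] B]
    [Algebra.IsInvariant k[X] B G] [IsAlgClosed k] [IsDedekindDomain B] (p : ℕ) [Fact p.Prime] [CharP k p] {e : ℕ}
    (he : e ≠ 0) (φ : ℕ → B →+* B)
    (hφ : ∀ s (r : k[X]), φ s (algebraMap k[X] B r) =
      algebraMap k[X] B (r.map (iterateFrobenius k p (e * s))))
    (hfin : ∀ f, (Set.range fun s => φ s f).Finite) {g : B} (hg : g ≠ 0) :
    ∃ s0, ∀ s, s0 ≤ s → ∃ π : B →ₐ[k] k, π g ≠ 0 ∧ ∀ f, π (φ s f) = π f ^ p ^ (e * s) := by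
  classical
  have := Fintype.ofFinite G
  have hp : 1 < p := (Fact.out : p.Prime).one_lt
  choose π0 hπ0 using exists_point b
  obtain ⟨v, hv⟩ := exists_good k (π0 0) (by
    intro h
    have h1 : algebraMap k[X] B X ∈ RingHom.ker (π0 0) := hπ0 0
    rw [h, Ideal.mem_bot, map_eq_zero_iff _ (inj_poly b)] at h1
    exact X_ne_zero h1)
  obtain ⟨c1, hc1⟩ : ∃ c1, ∀ s (σ : G) i, dg b (φ s (σ • b i)) ≤ c1 := by
    have : (⋃ x : G × Fin D, Set.range fun s => φ s (x.1 • b x.2)).Finite :=
      Set.finite_iUnion fun x => hfin _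
    obtain ⟨c1, hc1⟩ := (this.image (dg b)).bddAbove
    exact ⟨c1, fun s σ i => hc1 ⟨_, Set.mem_iUnion.2 ⟨(σ, i), s, rfl⟩, rfl⟩⟩
  have hdg : ∀ s (σ : G) f, dg b (φ s (σ • f)) ≤ dg b f + c1 := by
    intro s σ f
    conv_lhs => rw [← b.sum_repr f, Finset.smul_sum, map_sum]
    refine dg_sum_le b _ _ fun i _ => ?_
    rw [smul_comm, Algebra.smul_def, map_mul, hφ, ← Algebra.smul_def]
    exact (dg_smul_le b _ _).trans
      (Nat.add_le_add (natDegree_map_le.trans (le_dg b f i)) (hc1 s σ i))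
  obtain ⟨n, hn⟩ : ∃ n, Fintype.card G = n + 1 :=
    Nat.exists_eq_succ_of_ne_zero Fintype.card_ne_zero
  obtain ⟨C, s0, hup⟩ := upper b p hv c1 (n + 1)
  obtain ⟨Z, hZ⟩ : ∃ Z, Z = D * (dg b g + c0 b) := ⟨_, rfl⟩
  refine ⟨s0 + ((n + 1) * Z + n * C) + 1, fun s hs => ?_⟩
  have hes : s ≤ e * s := Nat.le_mul_of_pos_left s (Nat.pos_of_ne_zero he)
  obtain ⟨Q, hQ⟩ : ∃ Q, Q = p ^ (e * s) := ⟨_, rfl⟩
  have hQl : (n + 1) * Z + n * C < Q := by
    rw [hQ]
    exact lt_of_le_of_lt (by omega) (Nat.lt_pow_self hp)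
  by_contra hcon
  push Not at hcon
  obtain ⟨S, hS, hSx⟩ := exists_fixed (k := k) p (n := e * s) (by omega)
  choose! γ hγ using exists_twist (G := G) p (e * s) (φ s) (hφ s)
  choose r hr using fun π : B →ₐ[k] k => trans_point G (π0 (π (algebraMap k[X] B X))) π (hπ0 _)
  have htw : ∀ x (h : G), twist (π0 x) h (algebraMap k[X] B X) = x := fun x h => by
    rw [twist_apply, smul_algebraMap, hπ0]
  let J : k × G → G := fun x => γ (twist (π0 x.1) x.2) * (r (twist (π0 x.1) x.2))⁻¹ * x.2
  have hJ : ∀ x : k × G, x.1 ∈ S → ∀ f,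
      twist (π0 x.1) x.2 (φ s (J x • f)) = twist (π0 x.1) x.2 f ^ p ^ (e * s) := by
    intro x hx f
    simp only [J]
    rw [mul_assoc, mul_smul, hγ _ (by rw [htw]; exact hSx _ hx), hr, htw, mul_smul,
      smul_inv_smul, twist_apply]
  have hfib : ∀ σ : G, ∃ T : Finset (B →ₐ[k] k), ((S ×ˢ Finset.univ).filter (J · = σ)).card =
      T.card ∧ ∀ π ∈ T, ∀ f, π (φ s (σ • f)) = π f ^ p ^ (e * s) := by
    intro σ
    refine ⟨((S ×ˢ Finset.univ).filter (J · = σ)).image fun x => twist (π0 x.1) x.2, ?_, ?_⟩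
    · refine (Finset.card_image_of_injOn fun x hx y hy hxy => ?_).symm
      have h1 : x.1 = y.1 := by rw [← htw x.1 x.2, ← htw y.1 y.2]; exact AlgHom.congr_fun hxy _
      have h2 := (Finset.mem_filter.1 hx).2.trans (Finset.mem_filter.1 hy).2.symm
      simp only [J] at h2
      have h3 : twist (π0 x.1) x.2 = twist (π0 y.1) y.2 := hxy
      rw [h3] at h2
      exact Prod.ext h1 (mul_left_cancel h2)
    · intro π hπ f
      obtain ⟨x, hx, rfl⟩ := Finset.mem_image.1 hπ
      obtain ⟨h1, rfl⟩ := Finset.mem_filter.1 hx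
      exact hJ x (Finset.mem_product.1 h1).1 f
  have hsum := Finset.card_eq_sum_card_fiberwise (s := S ×ˢ Finset.univ) (t := Finset.univ)
    (f := J) (fun _ _ => Finset.mem_univ _)
  rw [Finset.card_product, hS, Finset.card_univ, hn, ← hQ,
    ← Finset.add_sum_erase _ _ (Finset.mem_univ (1 : G))] at hsum
  have h1 : ((S ×ˢ Finset.univ).filter (J · = 1)).card ≤ Z := by
    obtain ⟨T, hT, hT'⟩ := hfib 1
    rw [hT, hZ]
    refine card_zeros_le b hg T fun π hπ => ?_
    by_contra h0
    obtain ⟨f, hf⟩ := hcon π h0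
    exact hf (by simpa using hT' π hπ f)
  have h2 : (n + 1) * ∑ σ ∈ Finset.univ.erase (1 : G),
      ((S ×ˢ Finset.univ).filter (J · = σ)).card ≤ n * ((n + 1 + 1) * Q + C) := by
    rw [Finset.mul_sum]
    refine (Finset.sum_le_card_nsmul _ _ ((n + 1 + 1) * Q + C) fun σ _ => ?_).trans ?_
    · obtain ⟨T, hT, hT'⟩ := hfib σ
      rw [hT, hQ]
      exact hup (e * s) (by omega) (fun f => φ s (σ • f)) (hdg s σ) T hT'
    · rw [Finset.card_erase_of_mem (Finset.mem_univ _), Finset.card_univ, hn]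
      simp
  nlinarith

end Pool.Agent.Lib.MP_587b89_lc
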