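import Mathlib

/-!
A degree function on a finite free `k[X]`-algebra, and the number of zeros of an element.
-/

set_option autoImplicit false
set_option linter.unusedSectionVars false
open Polynomial Module

namespace Pool.Agent.Lib.MP_587b89_lc

variable {k : Type} [Field k] {B : Type} [CommRing B] [Algebra k[X] B] {D : ℕ}
  (b : Basis (Fin D) k[X] B)

/-- the largest degree of a coordinate -/
noncomputable def dg (f : B) : ℕ := Finset.univ.sup fun i => (b.repr f i).natDegree

lemma dg_le_iff {f : B} {n : ℕ} : dg b f ≤ n ↔ ∀ i, (b.repr f i).natDegree ≤ n := by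
  simp [dg, Finset.sup_le_iff]

lemma le_dg (f : B) (i : Fin D) : (b.repr f i).natDegree ≤ dg b f := (dg_le_iff b).1 le_rfl i

lemma dg_zero : dg b 0 = 0 := Nat.le_zero.1 ((dg_le_iff b).2 (by simp))

lemma dg_add_le {f g : B} {n : ℕ} (hf : dg b f ≤ n) (hg : dg b g ≤ n) : dg b (f + g) ≤ n := by
  rw [dg_le_iff] at *
  intro i
  rw [map_add, Finsupp.add_apply]
  exact (natDegree_add_le _ _).trans (max_le (hf i) (hg i))

lemma dg_sum_le {ι : Type*} (s : Finset ι) (f : ι → B) {n : ℕ} (h : ∀ i ∈ s, dg b (f i) ≤ n) :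
    dg b (∑ i ∈ s, f i) ≤ n :=
  Finset.sum_induction f (fun x => dg b x ≤ n) (fun _ _ => dg_add_le b)
    (by rw [dg_zero]; exact Nat.zero_le _) h

lemma dg_smul_le (r : k[X]) (f : B) : dg b (r • f) ≤ r.natDegree + dg b f := by
  rw [dg_le_iff]
  intro i
  rw [map_smul, Finsupp.smul_apply, smul_eq_mul]
  exact natDegree_mul_le.trans (Nat.add_le_add_left (le_dg b f i) _)

lemma dg_basis (j : Fin D) : dg b (b j) = 0 := by
  refine Nat.le_zero.1 ((dg_le_iff b).2 fun i => ?_)
  rw [b.repr_self, Finsupp.single_apply]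
  split_ifs <;> simp

/-- the constant in the submultiplicativity of `dg` -/
noncomputable def c0 : ℕ :=
  max (dg b 1) (Finset.univ.sup fun x : Fin D × Fin D => dg b (b x.1 * b x.2))

lemma dg_one_le : dg b 1 ≤ c0 b := le_max_left _ _

lemma dg_bb_le (i j : Fin D) : dg b (b i * b j) ≤ c0 b := by
  have h := Finset.le_sup (f := fun x : Fin D × Fin D => dg b (b x.1 * b x.2))
    (Finset.mem_univ (i, j))
  unfold c0
  exact le_max_of_le_right h

lemma dg_mul_le (f g : B) : dg b (f * g) ≤ dg b f + dg b g + c0 b := by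
  conv_lhs => rw [← b.sum_repr f, ← b.sum_repr g, Finset.sum_mul_sum]
  refine dg_sum_le b _ _ fun i _ => dg_sum_le b _ _ fun j _ => ?_
  rw [smul_mul_smul_comm]
  refine (dg_smul_le b _ _).trans (Nat.add_le_add ?_ ?_)
  · exact natDegree_mul_le.trans (Nat.add_le_add (le_dg b f i) (le_dg b g j))
  · exact dg_bb_le b i j

lemma dg_pow_le (f : B) (n : ℕ) : dg b (f ^ n) ≤ n * (dg b f + c0 b) + c0 b := by
  induction n with
  | zero => rw [pow_zero, zero_mul, zero_add]; exact dg_one_le b
  | succ n ih =>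
    rw [pow_succ]
    refine (dg_mul_le b _ _).trans ?_
    rw [add_mul, one_mul]
    omega

lemma natDegree_norm_le (f : B) : (Algebra.norm k[X] f).natDegree ≤ D * (dg b f + c0 b) := by
  classical
  rw [Algebra.norm_eq_matrix_det b, Matrix.det_apply]
  refine natDegree_sum_le_of_forall_le _ _ fun g _ => ?_
  have h1 : natDegree (Equiv.Perm.sign g • ∏ i, Algebra.leftMulMatrix b f (g i) i) ≤
      natDegree (∏ i, Algebra.leftMulMatrix b f (g i) i) := by
    rcases Int.units_eq_one_or (Equiv.Perm.sign g) with sg | sg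
    · rw [sg, one_smul]
    · rw [sg, Units.neg_smul, one_smul, natDegree_neg]
  refine h1.trans ((natDegree_prod_le _ _).trans ?_)
  refine (Finset.sum_le_card_nsmul _ _ (dg b f + c0 b) fun i _ => ?_).trans (by simp)
  rw [Algebra.leftMulMatrix_eq_repr_mul]
  refine (le_dg b _ _).trans ((dg_mul_le b _ _).trans ?_)
  rw [dg_basis]
  omega

variable [IsDomain B] [Algebra k B] [IsScalarTower k k[X] B]

include b in
lemma finite_quot {f : B} (hf : f ≠ 0) : Module.Finite k (B ⧸ Ideal.span {f}) := by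
  have h := Ideal.span_singleton_eq_bot.not.2 hf
  exact Module.Finite.equiv (Ideal.quotientEquivDirectSum k b h).symm

lemma finrank_quot_le {f : B} (hf : f ≠ 0) :
    finrank k (B ⧸ Ideal.span {f}) ≤ D * (dg b f + c0 b) := by
  rw [finrank_quotient_span_eq_natDegree_norm b hf]
  exact natDegree_norm_le b f

/-- a nonzero element has few zeros -/
lemma card_zeros_le {f : B} (hf : f ≠ 0) (S : Finset (B →ₐ[k] k)) (hS : ∀ π ∈ S, π f = 0) :
    S.card ≤ D * (dg b f + c0 b) := by
  have := finite_quot b hf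
  refine le_trans ?_ ((card_algHom_le_finrank k (B ⧸ Ideal.span {f}) k).trans
    (finrank_quot_le b hf))
  rw [← Nat.card_eq_finsetCard]
  refine Nat.card_le_card_of_injective (fun π : S => Ideal.Quotient.liftₐ (Ideal.span {f}) π.1
    (fun a ha => ?_)) ?_
  · obtain ⟨c, rfl⟩ := Ideal.mem_span_singleton'.1 ha
    rw [map_mul, hS π.1 π.2, mul_zero]
  · intro π π' h
    refine Subtype.ext (AlgHom.ext fun x => ?_)
    have := AlgHom.congr_fun h (Ideal.Quotient.mk _ x)
    simpa using this

lemma dg_csmul_le (c : k) (f : B) : dg b (c • f) ≤ dg b f := by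
  have : c • f = (C c) • f := by
    rw [← algebraMap_smul k[X] c f]; rfl
  rw [this]
  simpa using dg_smul_le b (C c) f

/-- the monomial family -/
noncomputable def mon (n : ℕ) (x : Fin D × Fin (n + 1)) : B := (X ^ (x.2 : ℕ) : k[X]) • b x.1

lemma dg_mon (n : ℕ) (x : Fin D × Fin (n + 1)) : dg b (mon b n x) ≤ n := by
  refine (dg_smul_le b _ _).trans ?_
  rw [dg_basis, natDegree_X_pow]
  have := x.2.2
  omega

/-- the coefficient map -/
noncomputable def co (n : ℕ) : B →ₗ[k] (Fin D × Fin (n + 1) → k) :=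
  LinearMap.pi fun x => (lcoeff k x.2).comp ((b.coord x.1).restrictScalars k)

lemma co_apply (n : ℕ) (f : B) (x : Fin D × Fin (n + 1)) :
    co b n f x = (b.repr f x.1).coeff x.2 := rfl

lemma eq_zero_of_co {n : ℕ} {f : B} (hf : dg b f ≤ n) (h : co b n f = 0) : f = 0 := by
  rw [← b.repr.map_eq_zero_iff]
  ext i j
  by_cases hj : j ≤ n
  · exact congrFun h (i, ⟨j, Nat.lt_succ_of_le hj⟩)
  · exact coeff_eq_zero_of_natDegree_lt (lt_of_le_of_lt ((le_dg b f i).trans hf) (not_le.1 hj))

lemma co_mon (n : ℕ) (x : Fin D × Fin (n + 1)) : co b n (mon b n x) = Pi.single x 1 := by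
  ext y
  rw [co_apply, mon, map_smul, b.repr_self, Finsupp.smul_apply, Finsupp.single_apply,
    Pi.single_apply]
  by_cases h : x.1 = y.1
  · rw [if_pos h, smul_eq_mul, mul_one, coeff_X_pow]
    congr 1
    simp [Prod.ext_iff, Fin.ext_iff, h]
  · rw [if_neg h, if_neg (fun e => h (by rw [e]))]
    simp

lemma mon_indep (n : ℕ) : LinearIndependent k (mon b n) := by
  apply LinearIndependent.of_comp (co b n)
  have : co b n ∘ mon b n = Pi.basisFun k _ := by
    ext x y
    simp [co_mon]
  rw [this]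
  exact (Pi.basisFun k _).linearIndependent

/-- too many elements of bounded degree are linearly dependent -/
lemma exists_rel {ι : Type} [Fintype ι] {n : ℕ} (g : ι → B) (hg : ∀ i, dg b (g i) ≤ n)
    (h : D * (n + 1) < Fintype.card ι) : ∃ a : ι → k, ∑ i, a i • g i = 0 ∧ ∃ i, a i ≠ 0 := by
  have : ¬ LinearIndependent k (fun i => co b n (g i)) := by
    intro hl
    have := hl.fintype_card_le_finrank
    simp at this
    omega
  obtain ⟨a, h1, h2⟩ := Fintype.not_linearIndependent_iff.1 this
  refine ⟨a, eq_zero_of_co b (n := n)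
    (dg_sum_le b _ _ fun i _ => (dg_csmul_le b _ _).trans (hg i)) ?_, h2⟩
  rw [map_sum]
  simpa using h1

end Pool.Agent.Lib.MP_587b89_lc
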