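import Pool.Agent.Lib.MP_587b89_lc.Count

/-!
The point count for the integral closure in a Galois extension of the rational function field.
-/

set_option autoImplicit false
set_option linter.unusedSectionVars false
set_option linter.overlappingInstances false
open Polynomial Module

namespace Pool.Agent.Lib.MP_587b89_lc

lemma pow_mul_fix {R : Type} [CommRing R] (φ : R →+* R) {a : R} {N : ℕ} (h : (φ ^ N) a = a)
    (m : ℕ) : (φ ^ (N * m)) a = a := by
  induction m with
  | zero => simp
  | succ m ih => rw [Nat.mul_succ, pow_add, RingHom.mul_def, RingHom.comp_apply, h, ih]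

lemma common_period {R : Type} [CommRing R] (φ : R →+* R) (S : Finset R)
    (h : ∀ a ∈ S, ∃ N, 0 < N ∧ (φ ^ N) a = a) : ∃ N, 0 < N ∧ ∀ a ∈ S, (φ ^ N) a = a := by
  classical
  choose! N hN using h
  refine ⟨∏ a ∈ S, N a, Finset.prod_pos fun a ha => (hN a ha).1, fun a ha => ?_⟩
  rw [← Finset.mul_prod_erase S N ha]
  exact pow_mul_fix φ (hN a ha).2 _

lemma map_fix {R : Type} [CommRing R] (φ : R →+* R) (P : R[X]) (h : ∀ a ∈ P.coeffs, φ a = a) :
    P.map φ = P := by
  ext n
  rw [coeff_map]
  by_cases h0 : P.coeff n = 0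
  · rw [h0, map_zero]
  · exact h _ (coeff_mem_coeffs h0)

lemma finite_orbit {R : Type} [CommRing R] [IsDomain R] (φ : R →+* R) {P : R[X]} (hP : P ≠ 0)
    (h : ∀ a ∈ P.coeffs, ∃ N, 0 < N ∧ (φ ^ N) a = a) {f : R} (hf : P.eval f = 0) :
    (Set.range fun s => (φ ^ s) f).Finite := by
  classical
  obtain ⟨N, hN, hN'⟩ := common_period φ _ h
  refine Set.Finite.subset (Set.finite_iUnion (ι := Fin N) fun j =>
    (P.roots.toFinset.finite_toSet).image (φ ^ (j : ℕ))) ?_
  rintro _ ⟨s, rfl⟩
  refine Set.mem_iUnion.2 ⟨⟨s % N, Nat.mod_lt _ hN⟩, (φ ^ (N * (s / N))) f, ?_, ?_⟩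
  · rw [Finset.mem_coe, Multiset.mem_toFinset, mem_roots hP, IsRoot.def,
      ← map_fix (φ ^ (N * (s / N))) P fun a ha => pow_mul_fix φ (hN' a ha) _, eval_map,
      eval₂_at_apply, hf, map_zero]
  · show ((φ ^ (s % N)) * (φ ^ (N * (s / N)))) f = _
    rw [← pow_add, Nat.mod_add_div]

lemma iter_pow (k : Type) [Field k] (p : ℕ) [Fact p.Prime] [CharP k p] (e s : ℕ) :
    iterateFrobenius k p e ^ s = iterateFrobenius k p (e * s) := by
  induction s with
  | zero => rw [pow_zero, mul_zero, iterateFrobenius_zero]; rfl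
  | succ s ih => rw [pow_succ, ih, Nat.mul_succ, iterateFrobenius_add]; rfl

theorem galois_case {k : Type} [Field k] [IsAlgClosed k] (p : ℕ) [Fact p.Prime] [CharP k p]
    {e : ℕ} (he : e ≠ 0) (hk : ∀ c : k, ∃ N, 0 < N ∧ c ^ p ^ (e * N) = c)
    {M : Type} [Field M] [Algebra k[X] M] [Algebra (FractionRing k[X]) M] [Algebra k M]
    [IsScalarTower k[X] (FractionRing k[X]) M] [IsScalarTower k k[X] M]
    [FiniteDimensional (FractionRing k[X]) M] [IsGalois (FractionRing k[X]) M] (Φ : M →+* M)
    (hΦ : ∀ r : k[X], Φ (algebraMap k[X] M r) =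
      algebraMap k[X] M (r.map (iterateFrobenius k p e)))
    {g : integralClosure k[X] M} (hg : g ≠ 0) :
    ∃ s0, ∀ s, s0 ≤ s → ∃ π : integralClosure k[X] M →ₐ[k] k, π g ≠ 0 ∧
      ∀ f : integralClosure k[X] M, Φ f = f → π f ^ p ^ (e * s) = π f := by
  have hinj : Function.Injective (algebraMap k[X] M) := by
    rw [IsScalarTower.algebraMap_eq k[X] (FractionRing k[X]) M]
    exact (algebraMap (FractionRing k[X]) M).injective.comp (IsFractionRing.injective _ _)
  have : FaithfulSMul k[X] M := (faithfulSMul_iff_algebraMap_injective _ _).2 hinj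
  have := IsIntegralClosure.isDedekindDomain k[X] (FractionRing k[X]) M (integralClosure k[X] M)
  have := IsIntegralClosure.finite k[X] (FractionRing k[X]) M (integralClosure k[X] M)
  have := IsIntegralClosure.module_free k[X] (FractionRing k[X]) M (integralClosure k[X] M)
  have := IsIntegralClosure.isFractionRing_of_finite_extension k[X] (FractionRing k[X]) M
    (integralClosure k[X] M)
  have := Algebra.isInvariant_of_isGalois' k[X] (FractionRing k[X]) M (integralClosure k[X] M)
  have : Finite (integralClosure k[X] M ≃ₐ[k[X]] integralClosure k[X] M) :=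
    Finite.of_equiv _ (galRestrict k[X] (FractionRing k[X]) M (integralClosure k[X] M)).toEquiv
  let φ : integralClosure k[X] M →+* integralClosure k[X] M :=
    (Φ.comp (integralClosure k[X] M).val.toRingHom).codRestrict (integralClosure k[X] M)
      fun f => IsIntegral.map_of_comp_eq (mapRingHom (iterateFrobenius k p e)) Φ
        (RingHom.ext fun r => (hΦ r).symm) f.2
  have hφ : ∀ s (r : k[X]), (φ ^ s) (algebraMap k[X] _ r) =
      algebraMap k[X] _ (r.map (iterateFrobenius k p (e * s))) := by
    intro s r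
    induction s with
    | zero => simp
    | succ s ih =>
      rw [pow_succ', RingHom.mul_def, RingHom.comp_apply, ih, Nat.mul_succ, add_comm,
        iterateFrobenius_add, ← Polynomial.map_map]
      exact Subtype.ext (hΦ _)
  obtain ⟨s0, hs0⟩ := lower (Module.finBasis k[X] (integralClosure k[X] M))
    (integralClosure k[X] M ≃ₐ[k[X]] integralClosure k[X] M) p he (fun s => φ ^ s) hφ
    (fun f => by
      obtain ⟨P, hP, hPf⟩ : IsIntegral k[X] f := Algebra.IsIntegral.isIntegral f
      refine finite_orbit φ (hP.map (algebraMap k[X] _)).ne_zero (fun a ha => ?_)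
        (by rw [eval_map]; exact hPf)
      obtain ⟨n, -, rfl⟩ := mem_coeffs_iff.1 ha
      obtain ⟨N, hN, hN'⟩ := common_period (iterateFrobenius k p e) (P.coeff n).coeffs
        fun c _ => by simpa only [iter_pow, iterateFrobenius_def] using hk c
      refine ⟨N, hN, ?_⟩
      rw [coeff_map, hφ, ← iter_pow, map_fix _ _ hN']) hg
  refine ⟨s0, fun s hs => ?_⟩
  obtain ⟨π, h1, h2⟩ := hs0 s hs
  refine ⟨π, h1, fun f hf => ?_⟩
  rw [← h2]
  have := pow_mul_fix φ (a := f) (N := 1) (by rw [pow_one]; exact Subtype.ext hf) s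
  rw [one_mul] at this
  rw [this]

end Pool.Agent.Lib.MP_587b89_lc
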