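import Pool.Agent.Lib.MP_587b89_lc.Code

/-!
Functionals supported at finitely many points, and Hermite interpolation.
-/

set_option autoImplicit false
set_option linter.unusedSectionVars false
open Polynomial

namespace Pool.Agent.Lib.MP_587b89_lc

section herm

variable {K κ : Type} [Field K] [Fintype κ]

/-- pairing of a sequence with the coefficients of a polynomial -/
noncomputable def phi (a : ℕ → K) : K[X] →ₗ[K] K := lsum fun n => LinearMap.mul K K (a n)

lemma phi_monomial (a : ℕ → K) (n : ℕ) (c : K) : phi a (monomial n c) = a n * c := by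
  simp [phi]

lemma phi_range (a : ℕ → K) (f : K[X]) {N : ℕ} (h : f.natDegree < N) :
    phi a f = ∑ n ∈ Finset.range N, a n * f.coeff n := by
  conv_lhs => rw [f.as_sum_range' N h, map_sum]
  simp only [phi_monomial]

lemma phi_single {a : ℕ → K} {g : K[X]} (m : ℕ) (h : ∀ n, n ≠ m → a n * g.coeff n = 0) :
    phi a g = a m * g.coeff m := by
  rw [phi_range a g (N := max g.natDegree m + 1) (by omega)]
  exact Finset.sum_eq_single m (fun n _ hn => h n hn) fun hm => absurd (by simp) hm

lemma phi_mul {a : ℕ → K} {m : ℕ} (h : ∀ n, m < n → a n = 0) (g : K[X]) :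
    phi a (X ^ m * g) = a m * g.coeff 0 := by
  rw [phi_single m fun n hn => ?_]
  · simpa using congrArg (a m * ·) (coeff_X_pow_mul g m 0)
  · rcases lt_or_gt_of_ne hn with h1 | h1
    · rw [coeff_X_pow_mul', if_neg (by omega), mul_zero]
    · rw [h n h1, zero_mul]

lemma phi_expand {p : ℕ} (a : ℕ → K) (g : K[X]) :
    phi a (expand K p g) = phi (fun n => a (p * n)) g := by
  induction g using Polynomial.induction_on' with
  | add f g hf hg => simp only [map_add, hf, hg]
  | monomial n c => rw [expand_monomial, phi_monomial, phi_monomial, mul_comm n]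

/-- the functional with coefficients `a k` at the point `y k` -/
noncomputable def lam (y : κ → K) (a : κ → ℕ → K) : K[X] →ₗ[K] K :=
  ∑ k, phi (a k) ∘ₗ taylor (y k)

lemma lam_apply (y : κ → K) (a : κ → ℕ → K) (f : K[X]) :
    lam y a f = ∑ k, phi (a k) (taylor (y k) f) := by
  simp [lam]

lemma lam_pow (y : κ → K) (a : κ → ℕ → K) {j N : ℕ} (h : j < N) :
    lam y a (X ^ j) = ∑ k, ∑ n ∈ Finset.range N, (j.choose n : K) * y k ^ (j - n) * a k n := by
  rw [lam_apply]
  refine Finset.sum_congr rfl fun k _ => ?_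
  rw [taylor_X_pow, phi_range _ _ (N := N) (by rw [natDegree_pow, natDegree_X_add_C]; omega)]
  exact Finset.sum_congr rfl fun n _ => by rw [coeff_X_add_C_pow]; ring

lemma lam_comb (y : κ → K) (a b : κ → ℕ → K) (s : K) (f : K[X]) :
    lam y (fun k n => a k n + s * b k n) f = lam y a f + s * lam y b f := by
  simp only [lam_apply, phi_range _ _ (Nat.lt_succ_self _), Finset.mul_sum,
    ← Finset.sum_add_distrib]
  exact Finset.sum_congr rfl fun k _ => Finset.sum_congr rfl fun n _ => by ring

lemma lin_top {L : K[X] →ₗ[K] K} {D : ℕ} (h : ∀ j, j < D → L (X ^ j) = 0) {f : K[X]}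
    (hf : f.natDegree ≤ D) : L f = f.coeff D * L (X ^ D) := by
  conv_lhs => rw [f.as_sum_range' (D + 1) (by omega), map_sum, Finset.sum_range_succ]
  simp only [← C_mul_X_pow_eq_monomial, ← smul_eq_C_mul, map_smul]
  rw [Finset.sum_eq_zero fun j hj => by rw [h j (Finset.mem_range.1 hj), smul_zero], zero_add,
    smul_eq_mul]

lemma lam_expand {p : ℕ} [Fact p.Prime] [CharP K p] {y : κ → K} (hy : ∀ k, y k ^ p = y k)
    (a : κ → ℕ → K) (f : K[X]) :
    lam y a (expand K p f) = lam y (fun k n => a k (p * n)) f := by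
  simp only [lam_apply]
  refine Finset.sum_congr rfl fun k _ => ?_
  rw [← phi_expand]
  congr 1
  induction f using Polynomial.induction_on' with
  | add f g hf hg => simp only [map_add, hf, hg]
  | monomial n c =>
    rw [expand_monomial, taylor_monomial, taylor_monomial, mul_comm n, pow_mul, add_pow_char,
      ← C_pow, hy]
    simp

/-- the nodal polynomial with multiplicities -/
noncomputable def nod (y : κ → K) (m : κ → ℕ) : K[X] := ∏ k, (X - C (y k)) ^ m k

lemma nod_monic (y : κ → K) (m : κ → ℕ) : (nod y m).Monic :=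
  monic_prod_of_monic _ _ fun _ _ => (monic_X_sub_C _).pow _

lemma nod_deg (y : κ → K) (m : κ → ℕ) : (nod y m).natDegree = ∑ k, m k := by
  rw [nod, natDegree_prod_of_monic _ _ fun _ _ => (monic_X_sub_C _).pow _]
  simp [natDegree_pow]

lemma phi_taylor {a : ℕ → K} {m : ℕ} (h : ∀ n, m < n → a n = 0) (y : K) (g : K[X]) :
    phi a (taylor y ((X - C y) ^ m * g)) = a m * g.eval y := by
  rw [taylor_mul, taylor_pow, map_sub, taylor_X, taylor_C, add_sub_cancel_right, phi_mul h,
    taylor_coeff_zero]

lemma lam_nod {y : κ → K} {a : κ → ℕ → K} {m : κ → ℕ} (h : ∀ k n, m k < n → a k n = 0)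
    (g : K[X]) : ∃ u : κ → K, (Function.Injective y → ∀ k, u k ≠ 0) ∧
      lam y a (nod y m * g) = ∑ k, a k (m k) * (u k * g.eval (y k)) := by
  classical
  refine ⟨fun k => ∏ l ∈ Finset.univ.erase k, (y k - y l) ^ m l, fun hy k =>
    Finset.prod_ne_zero_iff.2 fun l hl => pow_ne_zero _
      (sub_ne_zero.2 (hy.ne (Finset.ne_of_mem_erase hl).symm)), ?_⟩
  rw [lam_apply]
  refine Finset.sum_congr rfl fun k _ => ?_
  rw [nod, ← Finset.mul_prod_erase _ _ (Finset.mem_univ k), mul_assoc, phi_taylor (h k)]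
  simp [eval_prod]

lemma lam_one {y : κ → K} (hy : Function.Injective y) {a : κ → ℕ → K} {m : κ → ℕ} (k0 : κ)
    (h : ∀ k n, m k < n → a k n = 0) (h' : ∀ k, k ≠ k0 → a k (m k) = 0) :
    ∃ u, u ≠ 0 ∧ lam y a (nod y m) = a k0 (m k0) * u := by
  obtain ⟨u, hu, e⟩ := lam_nod (y := y) h 1
  refine ⟨u k0, hu hy k0, ?_⟩
  rw [mul_one, Finset.sum_eq_single k0 (fun k _ hk => by rw [h' k hk, zero_mul]) (by simp)] at e
  simpa using e

theorem herm_inj {y : κ → K} (hy : Function.Injective y) (D : ℕ) : ∀ (m : κ → ℕ)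
    {a : κ → ℕ → K}, ∑ k, m k ≤ D → (∀ k n, m k ≤ n → a k n = 0) →
    (∀ j, j < D → lam y a (X ^ j) = 0) → ∀ k n, a k n = 0 := by
  classical
  intro m
  induction hs : ∑ k, m k using Nat.strong_induction_on generalizing m with
  | _ s ih =>
    intro a hD ha hk
    by_cases h0 : ∀ k, m k = 0
    · exact fun k n => ha k n (by rw [h0]; omega)
    push Not at h0
    obtain ⟨k0, hk0⟩ := h0
    let m' := Function.update m k0 (m k0 - 1)
    have e1 : ∑ k, m' k + 1 = s := by
      rw [← hs, Finset.sum_update_of_mem (Finset.mem_univ _),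
        ← Finset.add_sum_erase _ m (Finset.mem_univ k0), Finset.sdiff_singleton_eq_erase]
      omega
    have e2 : ∀ k, k ≠ k0 → m' k = m k := fun k hk => Function.update_of_ne hk _ _
    have e3 : m' k0 = m k0 - 1 := Function.update_self _ _ _
    obtain ⟨u, hu, e⟩ := lam_one hy (a := a) (m := m') k0 (fun k n hn => ha k n (by
      by_cases hk : k = k0
      · subst hk; omega
      · rw [e2 k hk] at hn; omega)) fun k hk => ha k _ (e2 k hk).ge
    obtain ⟨D', rfl⟩ : ∃ D', D = D' + 1 := ⟨D - 1, by omega⟩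
    rw [lin_top (fun j hj => hk j (by omega)) (D := D') (by rw [nod_deg]; omega),
      hk D' (by omega), mul_zero] at e
    refine ih _ (by omega) m' rfl (by omega) (fun k n hn => ?_) hk
    by_cases hk : k = k0
    · subst hk
      rcases hn.eq_or_lt with h | h
      · exact h ▸ (mul_eq_zero.1 e.symm).resolve_right hu
      · exact ha k n (by omega)
    · exact ha k n (e2 k hk ▸ hn)

theorem herm_surj {y : κ → K} (hy : Function.Injective y) (m : κ → ℕ) (τ : ℕ → K) :
    ∃ a : κ → ℕ → K, (∀ k n, m k ≤ n → a k n = 0) ∧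
      ∀ j, j < ∑ k, m k → lam y a (X ^ j) = τ j := by
  classical
  let ex : ((Σ k, Fin (m k)) → K) → κ → ℕ → K :=
    fun v k n => if h : n < m k then v ⟨k, n, h⟩ else 0
  have hex : ∀ v k n, m k ≤ n → ex v k n = 0 := fun v k n h => dif_neg (by omega)
  let L : ((Σ k, Fin (m k)) → K) →ₗ[K] (Fin (∑ k, m k) → K) :=
    { toFun := fun v j => lam y (ex v) (X ^ (j : ℕ))
      map_add' := fun v w => funext fun j => by
        have := lam_comb y (ex v) (ex w) 1 (X ^ (j : ℕ))
        rw [one_mul] at this
        rw [Pi.add_apply, ← this]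
        congr 2
        ext k n
        simp only [ex]
        split_ifs <;> simp
      map_smul' := fun s v => funext fun j => by
        have h0 : lam y (fun _ _ => (0 : K)) (X ^ (j : ℕ)) = 0 := by
          simp [lam_pow y _ (Nat.lt_succ_self _)]
        have := lam_comb y (fun _ _ => 0) (ex v) s (X ^ (j : ℕ))
        rw [h0, zero_add] at this
        rw [Pi.smul_apply, RingHom.id_apply, smul_eq_mul, ← this]
        congr 2
        ext k n
        simp only [ex]
        split_ifs <;> simp }
  have hL : Function.Injective L := by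
    rw [← LinearMap.ker_eq_bot, LinearMap.ker_eq_bot']
    intro v hv
    ext ⟨k, n⟩
    have := herm_inj hy _ m le_rfl (hex v) (fun j hj => congrFun hv ⟨j, hj⟩) k n
    simpa [ex] using this
  obtain ⟨v, hv⟩ := (LinearMap.injective_iff_surjective_of_finrank_eq_finrank
    (by simp)).1 hL fun j => τ j
  exact ⟨ex v, hex v, fun j hj => congrFun hv ⟨j, hj⟩⟩

end herm

end Pool.Agent.Lib.MP_587b89_lc
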