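import Pool.Agent.Lib.MP_587b89_lc.SqN

/-!
The elementary smooth configurations.
-/

set_option autoImplicit false
set_option linter.unusedSectionVars false
open Polynomial

namespace Pool.Agent.Lib.MP_587b89_lc

variable {K : Type} [Field K] {p : ℕ} [hp : Fact p.Prime] [CharP K p]

lemma surj_of_inj {J ι : Type} [Fintype J] [Fintype ι] (R : J → ι → K)
    (h : ∀ l : J → K, (∀ i, ∑ j, l j * R j i = 0) → ∀ j, l j = 0) (w : J → K) :
    ∃ v : ι → K, ∀ j, ∑ i, R j i * v i = w j := by
  have h1 : LinearIndependent K (Matrix.of R).row := Fintype.linearIndependent_iff.2 fun l hl =>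
    h l fun i => by simpa [Matrix.row] using congrFun hl i
  have h2 : LinearMap.range (Matrix.of R).mulVecLin = ⊤ :=
    Submodule.eq_top_of_finrank_eq (h1.rank_matrix.trans (by simp))
  obtain ⟨v, hv⟩ := LinearMap.range_eq_top.1 h2 w
  exact ⟨v, fun j => congrFun hv j⟩

lemma smo_nodes {ι : Type} [Fintype ι] [DecidableEq ι] {x : ι → K} (hx : Function.Injective x)
    {b : ℕ} (hb : Fintype.card ι = b + 1) (hq : ∀ i, (x i ^ p) ^ p = x i)
    (h : ∀ α β : ℕ → K, ∃ v : ι → K, (∀ j, j < b → ¬ p ∣ j →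
      ∑ i, Lagrange.nodalWeight Finset.univ x i * v i * x i ^ (j - 1) = α j) ∧
      ∀ j, p * j < b → ¬ p ∣ j →
        ∑ i, Lagrange.nodalWeight Finset.univ x i ^ p * v i * x i ^ (j - 1) = β j) :
    Smo K p b 1 := by
  have key : ∀ n, n ≤ b → ps (Lagrange.nodalWeight Finset.univ x) x n = (X ^ n : K[X]).coeff b := by
    intro n hn
    have := Lagrange.coeff_eq_sum (s := Finset.univ) (v := x) hx.injOn (P := X ^ n) (by
      rw [degree_X_pow, Finset.card_univ, hb]
      exact_mod_cast Nat.lt_succ_of_le hn)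
    rw [Finset.card_univ, hb, Nat.add_sub_cancel] at this
    rw [this, ps]
    refine Finset.sum_congr rfl fun i _ => ?_
    rw [Lagrange.nodalWeight, Finset.prod_inv_distrib, eval_pow, eval_X, div_eq_inv_mul]
  refine ⟨ι, inferInstance, x, _, hb, hx,
    fun i => Lagrange.nodalWeight_ne_zero hx.injOn (Finset.mem_univ i), fun i => ?_,
    fun j hj => ?_, ?_, h⟩
  · simp only [Lagrange.nodalWeight, ← Finset.prod_pow, inv_pow, sub_pow_char, hq]
  · rw [key j hj.le, coeff_X_pow, if_neg hj.ne']
  · rw [key b le_rfl]; simp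

lemma cast_inj {i j : ℕ} (hi : i < p) (hj : j < p) (h : (i : K) = j) : i = j :=
  CharP.natCast_injOn_Iio K p hi hj h

lemma cast_pow (n : ℕ) : (n : K) ^ p = n := map_natCast (frobenius K p) n

theorem smo_small {b : ℕ} (hb : b < p) : Smo K p b 1 := by
  classical
  have hx : Function.Injective fun i : Fin (b + 1) => ((i : ℕ) : K) := fun i j h =>
    Fin.ext (cast_inj (p := p) (by omega) (by omega) h)
  refine smo_nodes hx (by simp) (fun i => by rw [cast_pow, cast_pow]) fun α β => ?_
  obtain ⟨h, hh⟩ := vand_surj hx fun n => α (n + 1)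
  refine ⟨fun i => h i / Lagrange.nodalWeight Finset.univ (fun i : Fin (b + 1) => ((i : ℕ) : K)) i,
    fun j hj hj' => ?_, fun j hj hj' => ?_⟩
  · obtain ⟨n, rfl⟩ := Nat.exists_eq_succ_of_ne_zero (show j ≠ 0 by rintro rfl; simp at hj')
    simp only [mul_div_cancel₀ _ (Lagrange.nodalWeight_ne_zero hx.injOn (Finset.mem_univ _))]
    exact hh n (by simp; omega)
  · have : p * 1 ≤ p * j := Nat.mul_le_mul_left p (Nat.pos_of_ne_zero (by rintro rfl; simp at hj'))
    omega

lemma gg_coeff {ι : Type} (e : ι → K) (s : Finset ι) : s.card < p → ∀ i n, n < p → s.card ≤ i + n →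
    (∏ l ∈ s, (X ^ p - X + C (e l))).coeff (p * i + n) =
      if i + n = s.card then (-1) ^ n * (s.card.choose n : K) else 0 := by
  classical
  have hp2 := hp.out.two_le
  induction s using Finset.induction_on with
  | empty =>
    intro _ i n _ _
    by_cases h : i + n = 0
    · obtain ⟨rfl, rfl⟩ := Nat.add_eq_zero_iff.1 h
      simp
    · have : p * i + n ≠ 0 := fun h' => h (by simpa [hp.out.ne_zero] using h')
      simp only [Finset.prod_empty, coeff_one, if_neg this, Finset.card_empty, if_neg h]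
  | insert l s hl ih =>
    intro hs i n hn hi
    rw [Finset.card_insert_of_notMem hl] at *
    replace ih := ih (by omega)
    rw [Finset.prod_insert hl, add_mul, sub_mul, coeff_add, coeff_sub, coeff_C_mul,
      ih i n hn (by omega), if_neg (by omega), mul_zero, add_zero, coeff_X_pow_mul']
    rcases i with _ | i <;> rcases n with _ | n
    · omega
    · rw [if_neg (by omega), ← add_assoc, coeff_X_mul, ih 0 n (by omega) (by omega)]
      by_cases h : 0 + n = s.card
      · rw [if_pos h, if_pos (by omega), ← h]; simp [pow_succ]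
      · rw [if_neg h, if_neg (by omega), sub_zero]
    · rw [if_pos (by rw [mul_add]; omega), show p * (i + 1) + 0 - p = p * i + 0 by
        rw [mul_add]; omega, show p * (i + 1) + 0 = p * i + (p - 1) + 1 by rw [mul_add]; omega,
        coeff_X_mul, ih i 0 hn (by omega), ih i (p - 1) (by omega) (by omega),
        if_neg (show i + (p - 1) ≠ _ by omega)]
      simp
    · rw [if_pos (by rw [mul_add]; omega), show p * (i + 1) + (n + 1) - p = p * i + (n + 1) by
        rw [mul_add]; omega, ← add_assoc (p * (i + 1)), coeff_X_mul, ih i _ hn (by omega),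
        ih (i + 1) n (by omega) (by omega)]
      by_cases h : i + (n + 1) = s.card
      · rw [if_pos h, if_pos (by omega), if_pos (by omega), Nat.choose_succ_succ']
        push_cast
        ring
      · rw [if_neg h, if_neg (by omega), if_neg (by omega), sub_zero]

lemma gg_monic {ι : Type} (e : ι → K) (s : Finset ι) :
    (∏ l ∈ s, (X ^ p - X + C (e l))).Monic ∧
      (∏ l ∈ s, (X ^ p - X + C (e l))).natDegree = p * s.card := by
  have hp2 := hp.out.two_le
  have h : ∀ l, (X ^ p - X + C (e l)).Monic ∧ (X ^ p - X + C (e l)).natDegree = p := fun l => by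
    obtain ⟨n, rfl⟩ := Nat.exists_eq_add_of_le' hp2
    constructor
    · monicity!
    · compute_degree!
  refine ⟨monic_prod_of_monic _ _ fun l _ => (h l).1, ?_⟩
  rw [natDegree_prod_of_monic _ _ fun l _ => (h l).1]
  simp [fun l => (h l).2, mul_comm]

lemma gg_zero {ι : Type} (e : ι → K) {s : Finset ι} (hs : s.card < p) {F : K[X]}
    (h : ∏ l ∈ s, (X ^ p - X + C (e l)) ∣ F) (hd : F.natDegree ≤ p * s.card + (p - 3))
    (h1 : ∀ i, F.coeff (p * i + (p - 2)) = 0)
    (h3 : ∀ n, s.card ≤ n → n < p - 2 → F.coeff n = 0) : F = 0 := by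
  have hp2 := hp.out.two_le
  obtain ⟨Q, rfl⟩ := h
  by_contra h0
  have hQ := right_ne_zero_of_mul h0
  rw [(gg_monic e s).1.natDegree_mul' hQ, (gg_monic e s).2] at hd
  have key : ∀ i n, i + n = s.card → n + Q.natDegree < p →
      ((∏ l ∈ s, (X ^ p - X + C (e l))) * Q).coeff (p * i + (n + Q.natDegree)) ≠ 0 := by
    intro i n h4 h5
    rw [coeff_mul, Finset.sum_eq_single (p * i + n, Q.natDegree), gg_coeff e s hs i n (by omega)
      h4.ge, if_pos h4]
    · refine mul_ne_zero (mul_ne_zero (by simp) ?_) (leadingCoeff_ne_zero.2 hQ)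
      rw [Ne, CharP.cast_eq_zero_iff K p]
      intro h6
      have := hp.out.dvd_factorial.1 (Nat.choose_mul_factorial_mul_factorial
        (show n ≤ s.card by omega) ▸ (h6.mul_right _).mul_right _)
      omega
    · rintro ⟨u, r⟩ h6 h7
      have h8 : u + r = p * i + (n + Q.natDegree) := by simpa using h6
      rcases lt_trichotomy r Q.natDegree with h | h | h
      · rw [show u = p * i + (n + (Q.natDegree - r)) by omega,
          gg_coeff e s hs i _ (by omega) (by omega), if_neg (by omega), zero_mul]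
      · exact absurd (Prod.ext (show u = _ by omega) h) h7
      · rw [coeff_eq_zero_of_natDegree_lt h, mul_zero]
    · simp [add_assoc]
  by_cases h4 : s.card + Q.natDegree < p - 2
  · exact key 0 s.card (by omega) (by omega) (h3 _ (by omega) (by omega))
  · refine key (s.card - (p - 2 - Q.natDegree)) (p - 2 - Q.natDegree) (by omega) (by omega) ?_
    rw [show p - 2 - Q.natDegree + Q.natDegree = p - 2 by omega, h1]

theorem smo_coset (h2 : p ≠ 2) {θ : K} (h0 : θ ≠ 0) (hθ : θ ^ p = -θ) {a : ℕ} (ha : a < p) :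
    Smo K p (p * a) 1 := by
  classical
  have hp2 := hp.out.two_le
  let f := ZMod.castHom (dvd_refl p) K
  obtain ⟨z, hz⟩ : ∃ z : Fin a × ZMod p → K,
    z = fun i => f i.2 + ((i.1 : ℕ) + 1 : ℕ) * θ := ⟨_, rfl⟩
  obtain ⟨e, he⟩ : ∃ e : Fin a → K, e = fun l : Fin a => 2 * (((l : ℕ) + 1 : ℕ) * θ) := ⟨_, rfl⟩
  have h3 := two_ne (K := K) h2
  have z1 : ∀ i, z i ^ p = z i - e i.1 := fun i => by
    simp only [hz, he]
    rw [add_pow_char, mul_pow, cast_pow, hθ, ← map_pow, ZMod.pow_card]
    ring
  have e1 : ∀ l, e l ^ p = -e l := fun l => by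
    simp only [he]
    rw [mul_pow, mul_pow, cast_pow, hθ, show (2 : K) ^ p = 2 by simpa using cast_pow (K := K) 2]
    ring
  have e2 : Function.Injective e := fun l l' h => by
    simp only [he] at h
    have := cast_inj (p := p) (by omega) (by omega) (mul_right_cancel₀ h0 (mul_left_cancel₀ h3 h))
    omega
  have z2 : Function.Injective z := fun i j h => by
    have h4 : i.1 = j.1 := e2 (by linear_combination z1 i - z1 j + h - congrArg (· ^ p) h)
    simp only [hz, h4] at h
    exact Prod.ext h4 (f.injective (add_right_cancel h))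
  have z3 : ∀ i, z i ≠ 0 := fun i h => by
    have h4 := z1 i
    simp only [h, zero_pow hp.out.ne_zero, he, zero_sub, zero_eq_neg, mul_eq_zero, h3, h0,
      false_or, or_false, CharP.cast_eq_zero_iff K p] at h4
    have := Nat.le_of_dvd (by omega) h4
    omega
  obtain ⟨G, hG⟩ : ∃ G : K[X], G = ∏ l, (X ^ p - X + C (e l)) := ⟨_, rfl⟩
  obtain ⟨g1, g2⟩ := hG ▸ gg_monic (p := p) e Finset.univ
  rw [Finset.card_univ, Fintype.card_fin] at g2
  have g3 : ∀ i l, (X ^ p - X + C (e l)).eval (z i) = e l - e i.1 := fun i l => by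
    simp only [eval_add, eval_sub, eval_pow, eval_X, eval_C, z1]
    ring
  have g4 : ∀ i, G.eval (z i) = 0 := fun i => by
    rw [hG, eval_prod]
    exact Finset.prod_eq_zero (Finset.mem_univ i.1) (by rw [g3, sub_self])
  let x : Option (Fin a × ZMod p) → K := fun o => o.elim 0 z
  have hx : Function.Injective x := by
    rintro (_ | i) (_ | j) h
    · rfl
    · exact absurd h.symm (z3 j)
    · exact absurd h (z3 i)
    · rw [z2 h]
  have hc : Fintype.card (Option (Fin a × ZMod p)) = p * a + 1 := by simp [mul_comm]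
  have n1 : Lagrange.nodal Finset.univ x = X * G :=
    eq_of_degree_le_of_eval_index_eq Finset.univ hx.injOn Lagrange.degree_nodal.le (by
      rw [Lagrange.degree_nodal, degree_mul, degree_X, degree_eq_natDegree g1.ne_zero, g2,
        Finset.card_univ, hc]
      push_cast
      ring) (Lagrange.nodal_monic.trans (monic_X.mul g1).symm) fun i hi => by
      rw [Lagrange.eval_nodal_at_node hi]
      rcases i with _ | i <;> simp [x, g4]
  obtain ⟨c, hcc⟩ : ∃ c, c = Lagrange.nodalWeight Finset.univ x := ⟨_, rfl⟩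
  have c0 : ∀ i, c i ≠ 0 := fun i =>
    hcc ▸ Lagrange.nodalWeight_ne_zero hx.injOn (Finset.mem_univ i)
  have c1 : ∀ i, c (some i) ^ p * z i ^ (p - 1) = (-1) ^ (a - 1) * c (some i) := fun i => by
    obtain ⟨g, hg⟩ : ∃ g, g = ∏ l ∈ Finset.univ.erase i.1, (e l - e i.1) := ⟨_, rfl⟩
    have h4 : c (some i) = (-(z i * g))⁻¹ := by
      rw [hcc, Lagrange.nodalWeight_eq_eval_derivative_nodal (Finset.mem_univ _), n1,
        derivative_mul, eval_add, eval_mul, show x (some i) = z i from rfl, g4, hG,
        ← Finset.mul_prod_erase _ _ (Finset.mem_univ i.1), derivative_mul]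
      simp only [eval_mul, eval_add (p := _ * _), g3, eval_prod, ← hg]
      simp [derivative_X_pow]
    have h5 : g ^ p = (-1) ^ (a - 1) * g := by
      simp only [hg, ← Finset.prod_pow, sub_pow_char, e1, ← neg_sub', Finset.prod_neg]
      simp
    have h6 : g ≠ 0 := fun h => c0 (some i) (by simp [h4, h])
    have h7 := z3 i
    rw [h4, inv_pow, neg_pow, neg_one_pow_char, mul_pow, h5,
      show z i ^ p = z i ^ (p - 1) * z i by rw [← pow_succ, Nat.sub_add_cancel (by omega)]]
    rcases neg_one_pow_eq_or K (a - 1) with h | h <;> rw [h] <;> field_simp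
  refine smo_nodes hx hc (fun i => ?_) fun α β => ?_
  · rcases i with _ | i
    · simp [x, hp.out.ne_zero]
    · change (z i ^ p) ^ p = z i
      rw [z1, sub_pow_char, z1, e1]
      ring
  rw [← hcc]
  have hj0 : ∀ j, ¬ p ∣ j → 1 ≤ j := fun j hj => Nat.pos_of_ne_zero (by rintro rfl; simp at hj)
  obtain ⟨v, hv⟩ := surj_of_inj
    (J := {j : Fin (p * a) // ¬ p ∣ j} ⊕ {j : Fin a // ¬ p ∣ j})
    (Sum.elim (fun j i => c i * x i ^ ((j : ℕ) - 1)) fun j i => c i ^ p * x i ^ ((j : ℕ) - 1))
    (fun l hl => by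
      obtain ⟨ex, hex⟩ : ∃ ex : {j : Fin (p * a) // ¬ p ∣ j} ⊕ {j : Fin a // ¬ p ∣ j} → ℕ,
        ex = Sum.elim (fun j => j.1.1 + (p - 2)) fun j => j.1.1 - 1 := ⟨_, rfl⟩
      obtain ⟨sg, hsg⟩ : ∃ sg : {j : Fin (p * a) // ¬ p ∣ j} ⊕ {j : Fin a // ¬ p ∣ j} → K,
        sg = Sum.elim (fun _ => 1) fun _ => (-1) ^ (a - 1) := ⟨_, rfl⟩
      have f1 : ∀ N, (∀ j, ex j ≠ N) → (∑ j, monomial (ex j) (sg j * l j)).coeff N = 0 :=
        fun N hN => by simp [coeff_monomial, hN]
      have f2 : ∀ i, (∑ j, monomial (ex j) (sg j * l j)).eval (z i) = 0 := fun i => by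
        refine mul_left_cancel₀ (c0 (some i)) ?_
        rw [mul_zero, ← mul_zero (z i ^ (p - 1)), ← hl (some i), eval_finsetSum, Finset.mul_sum,
          Finset.mul_sum]
        refine Finset.sum_congr rfl ?_
        rintro (⟨j, hj⟩ | ⟨j, hj⟩) -
        · have := hj0 j hj
          simp only [hex, hsg, eval_monomial, Sum.elim_inl, show x (some i) = z i from rfl]
          rw [show (j : ℕ) + (p - 2) = p - 1 + (j - 1) by omega, pow_add]
          ring
        · simp only [hex, hsg, eval_monomial, Sum.elim_inr, show x (some i) = z i from rfl]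
          linear_combination -(l (.inr ⟨j, hj⟩) * z i ^ ((j : ℕ) - 1)) * c1 i
      have f3 := gg_zero e (s := Finset.univ) (by simpa using ha)
        (F := ∑ j, monomial (ex j) (sg j * l j)) (hG ▸ (modByMonic_eq_zero_iff_dvd g1).1
          (eq_zero_of_degree_lt_of_eval_index_eq_zero Finset.univ z2.injOn
            ((degree_modByMonic_lt _ g1).trans_eq (by
              rw [degree_eq_natDegree g1.ne_zero, g2]; simp [mul_comm])) fun i _ => by
            rw [modByMonic_eq_sub_mul_div, eval_sub, eval_mul, f2, g4]; simp))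
        (natDegree_sum_le_of_forall_le _ _ fun j _ => (natDegree_monomial_le _).trans (by
          have := Nat.le_mul_of_pos_left a hp.out.pos
          rcases j with ⟨j, hj⟩ | ⟨j, hj⟩ <;> simp [hex] <;> omega))
        (fun i => f1 _ (by
          rintro (⟨j, hj⟩ | ⟨j, hj⟩) h <;> simp only [hex, Sum.elim_inl, Sum.elim_inr] at h
          · exact hj ⟨i, by omega⟩
          · have := hj0 j hj
            omega))
        fun n hn hn' => f1 _ (by
          rintro (⟨j, hj⟩ | ⟨j, hj⟩) h <;> simp [hex] at h hn <;> omega)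
      intro j
      have f4 : Function.Injective ex := by
        rintro (⟨j, hj⟩ | ⟨j, hj⟩) (⟨k, hk⟩ | ⟨k, hk⟩) h <;>
          have := hj0 j hj <;> have := hj0 k hk <;> simp [hex, Fin.ext_iff] at h ⊢ <;> omega
      have f5 := congrArg (coeff · (ex j)) f3
      simp only [finsetSum_coeff, coeff_monomial, f4.eq_iff, Finset.sum_ite_eq', Finset.mem_univ,
        if_true, coeff_zero] at f5
      refine (mul_eq_zero.1 f5).resolve_left ?_
      rcases j with j | j <;> simp [hsg])
    (Sum.elim (fun j => α j) fun j => β j)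
  refine ⟨v, fun j hj hj' => ?_, fun j hj hj' => ?_⟩
  · simpa [mul_right_comm] using hv (.inl ⟨⟨j, hj⟩, hj'⟩)
  · simpa [mul_right_comm] using hv (.inr ⟨⟨j, Nat.lt_of_mul_lt_mul_left hj⟩, hj'⟩)

end Pool.Agent.Lib.MP_587b89_lc
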