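import Pool.Agent.Lib.MP_587b89_lc.SqH
import Pool.Agent.Lib.MP_587b89_lc.SqC

/-!
Words of weight `p * d`, `p ∤ d`, over fields of square order and odd characteristic.
-/

set_option autoImplicit false
set_option linter.unusedSectionVars false

namespace Pool.Agent.Lib.MP_587b89_lc

theorem smo_all {K : Type} [NontriviallyNormedField K] [CompleteSpace K] {p : ℕ}
    [hp : Fact p.Prime] [CharP K p] (h2 : p ≠ 2) {θ : K} (h0 : θ ≠ 0) (hθ : θ ^ p = -θ) (d : ℕ) :
    ¬ p ∣ d → ∃ ρ : K, ρ ≠ 0 ∧ Smo K p (p * d) (ρ ^ (p * ((p - 1) * (p - 2)))) := by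
  have hp2 := hp.out.two_le
  induction d using Nat.strong_induction_on with
  | _ d ih =>
    intro hd
    by_cases h : d < p
    · exact ⟨1, one_ne_zero, by simpa using smo_coset h2 h0 hθ h⟩
    obtain ⟨a, rfl⟩ := Nat.exists_eq_add_of_le' (not_lt.1 h)
    have ha : ¬ p ∣ a := by simpa using hd
    have ha0 : a ≠ 0 := by rintro rfl; simp at ha
    obtain ⟨ρ, hρ, hS⟩ := ih a (by omega) ha
    obtain ⟨α, hR⟩ := root3 (K := K) h2 ha
    have h3 := hR.2.2.1
    have h4 := hR.2.2.2.2.2.1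
    obtain ⟨t, u, ht, hu, h5⟩ := glue hR rfl (m := ρ ^ ((p - 1) * (p - 2)))
      (W := a * ((p - 1) * (p - 2))) (w := ![(p - 1) * (p - 2), p * a * (p - 1), a * (p - 2)])
      (M := (p - 1) * (p - 2)) (by
        obtain ⟨n, rfl⟩ := Nat.exists_eq_add_of_le' hp2
        simp [Fin.sum_univ_three]
        ring) (pow_ne_zero _ hρ) (fun k => by fin_cases k <;> simp <;> ring)
      (Nat.mul_ne_zero ha0 (Nat.mul_ne_zero (by omega) (by omega))) (by
        rw [Nat.cast_mul, Nat.cast_sub hp2, Nat.cast_sub (by omega)]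
        simpa using two_ne h2) fun k => by
        have h6 : ∀ {b : ℕ} {s τ : K}, Smo K p b τ → s ≠ 0 →
            s ^ b * τ = (ρ ^ ((p - 1) * (p - 2))) ^ p → ∀ f, f ≠ 0 → f ^ p = f →
            Smo K p b ((ρ ^ ((p - 1) * (p - 2))) ^ p * f) := fun g1 g2 g3 f g4 g5 => by
          rw [← g3, mul_comm, ← mul_assoc]
          exact g1.scale g2 g4 g5
        refine (?_ : ∀ f, f ≠ 0 → f ^ p = f → Smo K p (![p * a, p - 2, p * (p - 1)] k)
          ((ρ ^ ((p - 1) * (p - 2))) ^ p * f)) _ (h4 k) (h3 k _)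
        fin_cases k
        · exact h6 hS one_ne_zero (by ring)
        · exact h6 (b := p - 2) (smo_small (show p - 2 < p by omega)) (pow_ne_zero (p * (p - 1)) hρ) (by ring)
        · exact h6 (b := p * (p - 1)) (smo_coset h2 h0 hθ (show p - 1 < p by omega))
            (pow_ne_zero (p - 2) hρ) (by ring)
    refine ⟨ρ * t ^ a * u, by simp [hρ, ht, hu], ?_⟩
    convert h5 using 1
    ring

lemma exists_theta (F : Type) [Field F] [Fintype F] {p : ℕ} [hp : Fact p.Prime] [CharP F p]
    (h2 : p ≠ 2) (h : IsSquare (Fintype.card F)) : ∃ θ : F, θ ≠ 0 ∧ θ ^ p = -θ := by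
  classical
  obtain ⟨n, -, hn⟩ := FiniteField.card F p
  obtain ⟨s, hs⟩ := h
  obtain ⟨k, -, rfl⟩ := (Nat.dvd_prime_pow hp.out).1 (hn ▸ hs ▸ dvd_mul_right s s)
  obtain ⟨r, hr⟩ := hp.out.odd_of_ne_two h2
  have h3 : 2 * (p - 1) ∣ Fintype.card F - 1 := by
    have := Nat.sub_dvd_pow_sub_pow (p * p) 1 k
    rw [one_pow, mul_pow, ← hs] at this
    refine Dvd.dvd.trans ⟨r + 1, ?_⟩ this
    subst hr
    rw [Nat.sub_eq_iff_eq_add (Nat.succ_le_of_lt (by positivity)), Nat.add_sub_cancel]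
    ring
  obtain ⟨c, hc⟩ := h3
  obtain ⟨g, hg⟩ := IsCyclic.exists_ofOrder_eq_natCard (α := Fˣ)
  have h4 : IsPrimitiveRoot (g : F) (Fintype.card F - 1) := by
    rw [IsPrimitiveRoot.coe_units_iff, ← Fintype.card_units, ← Nat.card_eq_fintype_card, ← hg]
    exact IsPrimitiveRoot.orderOf g
  have h5 := (h4.pow (by have := Fintype.one_lt_card (α := F); omega) (a := c * (p - 1)) (b := 2)
    (by rw [hc]; ring)).eq_neg_one_of_two_right
  refine ⟨g ^ c, by simp, ?_⟩
  rw [show p = p - 1 + 1 by omega, pow_succ, ← pow_mul, h5, neg_one_mul]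

theorem word_sq (F : Type) [Field F] [Fintype F] {δ : ℕ} (h2 : ringChar F ≠ 2)
    (h : IsSquare (Fintype.card F)) (hd : ¬ ringChar F ^ 2 ∣ δ) (K : Type)
    [NontriviallyNormedField K] [CompleteSpace K] [Algebra F K] : Word F K δ := by
  classical
  by_cases h1 : ¬ ringChar F ∣ δ
  · exact word_coprime F h1 K
  obtain ⟨d, rfl⟩ := not_not.1 h1
  have : Fact (ringChar F).Prime := ⟨CharP.char_is_prime F _⟩
  have : CharP K (ringChar F) := charP_of_injective_algebraMap (algebraMap F K).injective _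
  obtain ⟨θ, h0, hθ⟩ := exists_theta F h2 h
  have h0' : algebraMap F K θ ≠ 0 := by simpa using h0
  have hθ' : algebraMap F K θ ^ ringChar F = -algebraMap F K θ := by rw [← map_pow, hθ, map_neg]
  obtain ⟨ρ, -, ι, _, x, c, hcard, hx, hc, hq, hS, -⟩ := smo_all h2 h0' hθ' d
    fun hd' => hd (sq (ringChar F) ▸ Nat.mul_dvd_mul_left _ hd')
  have h3 := two_ne (K := K) h2
  have h4 : (2 : K) ^ ringChar F = 2 := by simpa using cast_pow (K := K) (p := ringChar F) 2
  have h5 : ∀ z : K, z ^ ringChar F = z → z ∈ (algebraMap F K).fieldRange := fun z hz =>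
    bot_le (a := (algebraMap F K).fieldRange) ((Subfield.mem_bot_iff_pow_eq_self _ _).2 hz)
  have h6 : ∀ i, ∃ e, algebraMap F K e = c i := fun i => by
    have := add_mem (h5 ((c i + c i ^ ringChar F) / 2) (by
      rw [div_pow, add_pow_char, hq, h4, add_comm])) (mul_mem
      (h5 ((c i - c i ^ ringChar F) / (2 * algebraMap F K θ)) (by
        rw [div_pow, sub_pow_char, hq, mul_pow, h4, hθ']; field_simp; ring)) ⟨θ, rfl⟩)
    rwa [show (c i + c i ^ ringChar F) / 2 + (c i - c i ^ ringChar F) / (2 * algebraMap F K θ) *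
      algebraMap F K θ = c i by field_simp; ring] at this
  choose e he using h6
  obtain ⟨i0⟩ : Nonempty ι := Fintype.card_pos_iff.1 (by omega)
  refine ⟨{i // i ≠ i0}, inferInstance, fun i => x i - x i0, fun i => e i, by simp [hcard],
    fun i j h => Subtype.ext (hx (sub_left_injective h)), fun i => sub_ne_zero.2 (hx.ne i.2),
    fun i h => hc i ?_, fun j hj hj' => ?_⟩
  · rw [← he, show e i = 0 from h, map_zero]
  · have h1 : ∑ i, c i * (x i + -x i0) ^ j = 0 := by
      simp only [add_pow, Finset.mul_sum]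
      rw [Finset.sum_comm]
      refine Finset.sum_eq_zero fun m hm => ?_
      have := hS m (by have := Finset.mem_range.1 hm; omega)
      rw [← zero_mul ((-x i0) ^ (j - m) * (j.choose m : K)), ← this, ps, Finset.sum_mul]
      exact Finset.sum_congr rfl fun i _ => by ring
    rw [Fintype.sum_eq_add_sum_subtype_ne _ i0, add_neg_cancel, zero_pow (by omega), mul_zero,
      zero_add] at h1
    simpa [sub_eq_add_neg, he] using h1

end Pool.Agent.Lib.MP_587b89_lc
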