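import Pool.Agent.Lib.MP_587b89_lc.SqN

/-!
The rescaled equations of the gluing step.
-/

set_option autoImplicit false
set_option linter.unusedSectionVars false
open Filter Topology Polynomial

namespace Pool.Agent.Lib.MP_587b89_lc

section zz

variable {K : Type} [NontriviallyNormedField K]

/-- vanishing to second order -/
def Zz (g : K → K) : Prop := g 0 = 0 ∧ HasDerivAt g 0 0

lemma Zz.mul {f g : K → K} (hg : Zz g) (hf : DifferentiableAt K f 0) : Zz fun s => f s * g s :=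
  ⟨by simp [hg.1], (hf.hasDerivAt.mul hg.2).congr_deriv (by simp [hg.1])⟩

lemma Zz.sub {f g : K → K} (hf : Zz f) (hg : Zz g) : Zz fun s => f s - g s :=
  ⟨by simp [hf.1, hg.1], (hf.2.sub hg.2).congr_deriv (by simp)⟩

lemma Zz.pow {g : K → K} (hg : Zz g) {n : ℕ} (hn : n ≠ 0) : Zz fun s => g s ^ n :=
  ⟨by simp [hg.1, hn], (hg.2.pow n).congr_deriv (by simp)⟩

lemma Zz.sum {ι : Type} [Fintype ι] {g : ι → K → K} (hg : ∀ i, Zz (g i)) :
    Zz fun s => ∑ i, g i s :=
  ⟨by simp [fun i => (hg i).1], (HasDerivAt.fun_sum fun i _ => (hg i).2).congr_deriv (by simp)⟩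

lemma lam_deriv {κ : Type} [Fintype κ] (y η : κ → K) (a a' : κ → ℕ → K) (j : ℕ) :
    HasDerivAt (fun s : K => lam (y + s • η) (fun k n => a k n + s * a' k n) (X ^ j))
      (lam y (fun k n => a' k n + η k * (n * a k (n - 1))) (X ^ j)) 0 := by
  simp only [lam_pow _ _ (Nat.lt_succ_self j)]
  refine HasDerivAt.fun_sum fun k _ => ?_
  have h1 : ∀ n, HasDerivAt (fun s : K => (j.choose n : K) * (y k + s * η k) ^ (j - n) *
      (a k n + s * a' k n)) ((j.choose n : K) * y k ^ (j - n) * a' k n +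
        η k * ((j.choose n * (j - n) : ℕ) * y k ^ (j - (n + 1)) * a k n)) 0 := fun n => by
    refine ((((((hasDerivAt_id (0 : K)).mul_const (η k)).const_add (y k)).pow (j - n)).const_mul
      (j.choose n : K)).mul
      (((hasDerivAt_id (0 : K)).mul_const (a' k n)).const_add (a k n))).congr_deriv ?_
    simp only [id, zero_mul, add_zero, Nat.cast_mul, Nat.sub_sub, Pi.pow_apply]
    ring
  refine (HasDerivAt.fun_sum fun n _ => h1 n).congr_deriv ?_
  simp only [mul_add, Finset.sum_add_distrib]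
  congr 1
  rw [Finset.sum_range_succ, Finset.sum_range_succ']
  simp only [Nat.sub_self, mul_zero, Nat.cast_zero, zero_mul, add_zero, Nat.add_sub_cancel]
  refine Finset.sum_congr rfl fun n _ => ?_
  rw [← Nat.choose_succ_right_eq, Nat.cast_mul]
  ring

end zz

/-- exponents -/
def pe (p : ℕ) : Fin 2 → ℕ := ![p, 1]

/-- exponents -/
def le (p : ℕ) : Fin 2 → ℕ := ![1, p]

/-- exponents -/
def qe (p : ℕ) : Fin 2 → ℕ := ![0, p * p - 1]

/-- quotient of an index -/
def dv (p : ℕ) {D : ℕ} (n : Fin (D + 1)) : Fin (D + 1) :=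
  ⟨n / p, lt_of_le_of_lt (Nat.div_le_self _ _) n.2⟩

section eqs

variable {K κ : Type} [NontriviallyNormedField K] [CompleteSpace K] [Fintype κ] {ι : κ → Type}
  [∀ k, Fintype (ι k)] (p : ℕ) [hp : Fact p.Prime] [CharP K p] (C : Fin 2 → (Σ k, ι k) → K)
  (m : K) (W : ℕ) (w : κ → ℕ) {D : ℕ}

/-- power sums of one cluster -/
def cs (x : (Σ k, ι k) → K) (k : κ) (r : Fin 2) (n : ℕ) : K :=
  ps (fun i : ι k => C r ⟨k, i⟩) (fun i => x ⟨k, i⟩) n

/-- the inner equations -/
def eqI (k : κ) (r : Fin 2) (n : Fin (D + 1))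
    (P : (((Σ k, ι k) → K) × (κ → K) × (κ → Fin 2 → Fin (D + 1) → K)) × K) : K :=
  if (n : ℕ) = 0 then P.1.2.2 k r n else if p ∣ n then
    P.1.2.2 k r n - (m * P.2 ^ W) ^ qe p r * P.1.2.2 k (r + 1) (dv p n) ^ p
  else P.2 ^ (w k * n - W * pe p r) * cs C P.1.1 k r n -
    P.2 ^ (W * pe p r - w k * n) * (m ^ pe p r * P.1.2.2 k r n)

/-- the outer equations -/
def eqO (r : Fin 2) (j : ℕ)
    (P : (((Σ k, ι k) → K) × (κ → K) × (κ → Fin 2 → Fin (D + 1) → K)) × K) : K :=
  ∑ k, ∑ n : Fin (D + 1), (j.choose n : K) * P.1.2.1 k ^ (j - n) * P.1.2.2 k r n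

/-- the new points -/
def npt (P : (((Σ k, ι k) → K) × (κ → K) × (κ → Fin 2 → Fin (D + 1) → K)) × K)
    (i : Σ k, ι k) : K := P.1.2.1 i.1 + P.2 ^ w i.1 * P.1.1 i

/-- the defects -/
def del (k : κ) (r : Fin 2) (n : Fin (D + 1))
    (P : (((Σ k, ι k) → K) × (κ → K) × (κ → Fin 2 → Fin (D + 1) → K)) × K) : K :=
  (P.2 ^ w k) ^ (n : ℕ) * cs C P.1.1 k r n - (m * P.2 ^ W) ^ pe p r * P.1.2.2 k r n

lemma eqI_an (k : κ) (r : Fin 2) (n : Fin (D + 1))
    (P : (((Σ k, ι k) → K) × (κ → K) × (κ → Fin 2 → Fin (D + 1) → K)) × K) :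
    AnalyticAt K (eqI p C m W w k r n) P := by
  refine ContDiffAt.analyticAt ?_
  unfold eqI cs ps
  split_ifs <;> fun_prop

lemma eqO_an (r : Fin 2) (j : ℕ)
    (P : (((Σ k, ι k) → K) × (κ → K) × (κ → Fin 2 → Fin (D + 1) → K)) × K) :
    AnalyticAt K (eqO r j) P := by
  refine ContDiffAt.analyticAt ?_
  unfold eqO
  fun_prop

lemma eqO_lam (r : Fin 2) {j : ℕ} (hj : j ≤ D)
    (P : (((Σ k, ι k) → K) × (κ → K) × (κ → Fin 2 → Fin (D + 1) → K)) × K) {a : κ → ℕ → K}
    (ha : ∀ k n, P.1.2.2 k r n = a k n) : eqO r j P = lam P.1.2.1 a (X ^ j) := by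
  rw [lam_pow _ _ (Nat.lt_succ_of_le hj), eqO]
  simp only [ha, Finset.sum_range]

lemma del_sum (r : Fin 2) {j : ℕ} (hj : j ≤ D)
    (P : (((Σ k, ι k) → K) × (κ → K) × (κ → Fin 2 → Fin (D + 1) → K)) × K) :
    ps (C r) (npt w P) j - (m * P.2 ^ W) ^ pe p r * eqO r j P =
      ∑ k, ∑ n : Fin (D + 1), (j.choose n : K) * P.1.2.1 k ^ (j - n) * del p C m W w k r n P := by
  have h1 : ∀ a b : K, (a + b) ^ j =
      ∑ n : Fin (D + 1), (j.choose n : K) * a ^ (j - n) * b ^ (n : ℕ) := fun a b => by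
    rw [add_comm, add_pow, ← Finset.sum_range fun n => (j.choose n : K) * a ^ (j - n) * b ^ n,
      Finset.sum_subset (Finset.range_mono (Nat.succ_le_succ hj)) fun n _ hn => by
        rw [Nat.choose_eq_zero_of_lt (by simpa using hn)]; simp]
    exact Finset.sum_congr rfl fun n _ => by ring
  simp only [ps, npt, eqO, del, cs, Fintype.sum_sigma, h1, Finset.mul_sum, mul_sub,
    Finset.sum_sub_distrib]
  congr 1
  · refine Finset.sum_congr rfl fun k _ => ?_
    rw [Finset.sum_comm]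
    exact Finset.sum_congr rfl fun n _ => Finset.sum_congr rfl fun i _ => by ring
  · exact Finset.sum_congr rfl fun k _ => Finset.sum_congr rfl fun n _ => by ring

lemma del_zz (hC : ∀ r i, C (r + 1) i ^ p = C r i) (h0 : ∀ k r, ∑ i : ι k, C r ⟨k, i⟩ = 0)
    {γ : K → ((Σ k, ι k) → K) × (κ → K) × (κ → Fin 2 → Fin (D + 1) → K)} {t : K}
    (h : ∀ k r n, Zz fun s => eqI p C m W w k r n (γ s, t)) (k : κ) (N : ℕ) :
    ∀ r (n : Fin (D + 1)), (n : ℕ) = N → Zz fun s => del p C m W w k r n (γ s, t) := by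
  induction N using Nat.strong_induction_on with
  | _ N ih =>
    intro r n hn
    by_cases h1 : (n : ℕ) = 0
    · convert (h k r n).mul (f := fun _ => -(m * t ^ W) ^ pe p r) (by fun_prop) using 2 with s
      simp [del, eqI, h1, cs, ps, h0]
    by_cases h2 : p ∣ n
    · have h3 : p * (dv p n : ℕ) = n := Nat.mul_div_cancel' h2
      have h4 : pe p (r + 1) * p = pe p r + qe p r := by
        have := Nat.mul_pos hp.out.pos hp.out.pos
        fin_cases r <;> simp [pe, qe]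
        omega
      convert ((ih (dv p n) (hn ▸ Nat.div_lt_self (Nat.pos_of_ne_zero h1) hp.out.one_lt) (r + 1) _
        rfl).pow hp.out.ne_zero).sub
        ((h k r n).mul (f := fun _ => (m * t ^ W) ^ pe p r) (by fun_prop)) using 2 with s
      simp only [del, eqI, if_neg h1, if_pos h2, cs]
      rw [sub_pow_char, mul_pow _ _ p, mul_pow _ _ p,
        ← ps_frob _ (c := fun i => C r ⟨k, i⟩) (fun i => hC r _), h3, ← pow_mul _ _ p,
        ← pow_mul _ _ p, mul_comm _ p, h3, h4]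
      ring
    · convert (h k r n).mul (f := fun _ => t ^ min (w k * n) (W * pe p r)) (by fun_prop)
        using 2 with s
      simp only [del, eqI, if_neg h1, if_neg h2]
      rw [mul_sub, ← mul_assoc, ← mul_assoc (t ^ _) (t ^ _), ← pow_add, ← pow_add,
        show min (w k * n) (W * pe p r) + (w k * n - W * pe p r) = w k * n by omega,
        show min (w k * n) (W * pe p r) + (W * pe p r - w k * n) = W * pe p r by omega]
      ring

lemma line_zz (hC : ∀ r i, C (r + 1) i ^ p = C r i) (h0 : ∀ k r, ∑ i : ι k, C r ⟨k, i⟩ = 0)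
    {v u : ((Σ k, ι k) → K) × (κ → K) × (κ → Fin 2 → Fin (D + 1) → K)} {t : K}
    (h : ∀ k r n, Zz fun s => eqI p C m W w k r n (v + s • u, t)) (r : Fin 2) {j : ℕ}
    (hj : j ≤ D) : Zz fun s => ps (C r) (npt w (v + s • u, t)) j -
      (m * t ^ W) ^ pe p r * eqO r j (v + s • u, t) := by
  convert Zz.sum fun k => Zz.sum fun n : Fin (D + 1) =>
    (del_zz p C m W w hC h0 h k _ r n rfl).mul
      (f := fun s => (j.choose n : K) * (v + s • u).2.1 k ^ (j - n)) (by fun_prop) using 2 with s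
  exact del_sum p C m W w r hj _

lemma eqI_zero {b : ℕ} {k : κ} (hw : w k * b = W * p) (hW : W ≠ 0) (r : Fin 2) {n : Fin (D + 1)}
    (hn : ¬ p ∣ n) (v : ((Σ k, ι k) → K) × (κ → K) × (κ → Fin 2 → Fin (D + 1) → K)) :
    eqI p C m W w k r n (v, 0) = (if le p r * n ≤ b then 1 else 0) * cs C v.1 k r n -
      (if b ≤ le p r * n then 1 else 0) * (m ^ pe p r * v.2.2 k r n) := by
  have h1 : (n : ℕ) ≠ 0 := fun h => hn (h ▸ dvd_zero p)
  have h2 : 0 < w k := Nat.pos_of_ne_zero fun h => by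
    rw [h, zero_mul] at hw
    exact Nat.mul_ne_zero hW hp.out.ne_zero hw.symm
  have h3 : 0 < le p r := by fin_cases r <;> simp [le, hp.out.pos]
  have h4 : le p r * (W * pe p r) = w k * b := by
    rw [hw]; fin_cases r <;> simp [le, pe, mul_comm]
  have h5 : le p r * (w k * n) = w k * (le p r * n) := by ring
  simp only [eqI, if_neg h1, if_neg hn, zero_pow_eq, Nat.sub_eq_zero_iff_le]
  simp only [← Nat.mul_le_mul_left_iff (m := w k * n) h3,
    ← Nat.mul_le_mul_left_iff (n := w k * n) h3, h4, h5, Nat.mul_le_mul_left_iff h2]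

end eqs

end Pool.Agent.Lib.MP_587b89_lc
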