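import Pool.Agent.Lib.MP_587b89_lc.SqG

/-!
The gluing step.
-/

set_option autoImplicit false
set_option linter.unusedSectionVars false
open Filter Topology Polynomial

namespace Pool.Agent.Lib.MP_587b89_lc

variable {K κ : Type} [NontriviallyNormedField K] [CompleteSpace K] [Fintype κ] {ι : κ → Type}
  [∀ k, Fintype (ι k)] {p : ℕ} [hp : Fact p.Prime] [CharP K p] {C : Fin 2 → (Σ k, ι k) → K}
  {m : K} {W : ℕ} {w : κ → ℕ} {D : ℕ} {y : κ → K} {b : κ → ℕ} {α : κ → ℕ → K}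
  {x : (Σ k, ι k) → K}

lemma cs_deriv (C : Fin 2 → (Σ k, ι k) → K) (x v : (Σ k, ι k) → K) (k : κ) (r : Fin 2) (n : ℕ) :
    HasDerivAt (fun s : K => cs C (x + s • v) k r n)
      (n * ∑ i : ι k, C r ⟨k, i⟩ * v ⟨k, i⟩ * x ⟨k, i⟩ ^ (n - 1)) 0 :=
  ps_deriv (fun i : ι k => C r ⟨k, i⟩) (fun i => x ⟨k, i⟩) (fun i => v ⟨k, i⟩) n

lemma base_surj (hR : Root p y b D α) (hm : m ≠ 0) (hw : ∀ k, w k * b k = W * p) (hW : W ≠ 0)
    (hrow : ∀ k (A : Fin 2 → ℕ → K), ∃ v : ι k → K, ∀ r j, le p r * j ≤ b k → ¬ p ∣ j →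
      ∑ i, C r ⟨k, i⟩ * v i * x ⟨k, i⟩ ^ (j - 1) = A r j)
    (w1 : κ → Fin 2 → Fin (D + 1) → K) (w2 : Fin 2 → ℕ → K) :
    ∃ u : ((Σ k, ι k) → K) × (κ → K) × (κ → Fin 2 → Fin (D + 1) → K),
      (∀ k r n, HasDerivAt (fun s : K => eqI p C m W w k r n
        ((x, y, fun k r (n : Fin (D + 1)) => α k (le p r * n)) + s • u, 0)) (w1 k r n) 0) ∧
      ∀ r j, le p r * j < D → ¬ p ∣ j → HasDerivAt (fun s : K => eqO r j
        ((x, y, fun k r (n : Fin (D + 1)) => α k (le p r * n)) + s • u, 0)) (w2 r j) 0 := by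
  classical
  obtain ⟨g, hg⟩ : ∃ g : κ → Fin 2 → ℕ → K, ∀ k r (n : Fin (D + 1)), g k r n = w1 k r n :=
    ⟨fun k r n => if h : n < D + 1 then w1 k r ⟨n, h⟩ else 0, fun k r n => dif_pos n.2⟩
  obtain ⟨f, hf⟩ : ∃ f : Fin 2 → κ → ℕ → K, f = fun r k n => if p ∣ n then g k r n else
    if b k < le p r * n then -g k r n / m ^ pe p r else 0 := ⟨_, rfl⟩
  obtain ⟨η, a0, a1, e0, e1, e2, e3⟩ := hR.2.2.2.2.2.2.2.2
    (fun j => w2 0 j - lam y (f 0) (X ^ j)) fun j => w2 1 j - lam y (f 1) (X ^ j)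
  obtain ⟨a, ha1, ha2⟩ : ∃ a : Fin 2 → κ → ℕ → K,
      (∀ r k n, p ∣ n ∨ b k < le p r * n → a r k n = 0) ∧ ∀ r j, le p r * j < D → ¬ p ∣ j →
        lam y (fun k n => a r k n + η k * (n * α k (le p r * (n - 1)))) (X ^ j) =
          w2 r j - lam y (f r) (X ^ j) :=
    ⟨![a0, a1], Fin.forall_fin_two.2 ⟨by simpa [le] using e0, by simpa [le] using e1⟩,
      Fin.forall_fin_two.2 ⟨by simpa [le] using e2, by simpa [le] using e3⟩⟩
  choose v hv using fun k => hrow k fun r j =>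
    (g k r j + (if b k ≤ le p r * j then 1 else 0) * (m ^ pe p r * (f r k j + a r k j))) / j
  have hl : ∀ c c' : K, HasDerivAt (fun s : K => c + s * c') c' 0 := fun c c' => by
    simpa using ((hasDerivAt_id (0 : K)).mul_const c').const_add c
  refine ⟨(fun i => v i.1 i.2, η, fun k r n => f r k n + a r k n), fun k r n => ?_,
    fun r j hj hj' => ?_⟩
  · by_cases h2 : p ∣ n
    · have h3 : f r k n + a r k n = w1 k r n := by
        rw [ha1 r k n (.inl h2), hf, add_zero, ← hg]; exact if_pos h2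
      by_cases h1 : (n : ℕ) = 0
      · simp only [eqI, if_pos h1]
        exact h3 ▸ hl _ _
      · simp only [eqI, if_neg h1, if_pos h2]
        exact ((hl _ _).sub (((hl _ _).pow p).const_mul _)).congr_deriv (by simp [h3])
    · simp only [eqI_zero p C m W w (hw k) hW r h2]
      refine (((cs_deriv C x (fun i => v i.1 i.2) k r n).const_mul _).sub
        (((hl _ _).const_mul _).const_mul _)).congr_deriv ?_
      have h3 : ((n : ℕ) : K) ≠ 0 := by rwa [Ne, CharP.cast_eq_zero_iff K p]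
      by_cases h4 : le p r * n ≤ b k
      · rw [hv k r n h4 h2, if_pos h4, one_mul, mul_div_cancel₀ _ h3, hg, add_sub_cancel_right]
      · dsimp only
        rw [if_neg h4, if_pos (by omega), ha1 r k n (.inr (by omega)), hf]
        simp only [if_neg h2, if_pos (not_le.1 h4), hg]
        field_simp
        ring
  · have h1 : j ≤ D := by
      have : 1 ≤ le p r := by fin_cases r <;> simp [le, hp.out.one_le]
      nlinarith
    have h2 := lam_deriv y η (fun k n => α k (le p r * n)) (fun k n => f r k n + a r k n) j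
    have h3 := lam_comb y (fun k n => a r k n + η k * (n * α k (le p r * (n - 1)))) (f r) 1 (X ^ j)
    rw [ha2 r j hj hj', one_mul (lam _ _ _), sub_add_cancel] at h3
    refine (h2.congr_deriv ?_).congr_of_eventuallyEq (Eventually.of_forall fun s =>
      eqO_lam r h1 _ fun k n => rfl)
    rw [← h3]
    congr 2
    ext k n
    ring

lemma base_zero (hR : Root p y b D α) (hw : ∀ k, w k * b k = W * p) (hW : W ≠ 0)
    (hC : ∀ r i, C (r + 1) i ^ p = C r i) (hS : ∀ k j, j < b k → cs C x k 0 j = 0)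
    (hτ : ∀ k, cs C x k 0 (b k) = m ^ p * α k (b k)) (k : κ) (r : Fin 2) (n : Fin (D + 1)) :
    eqI p C m W w k r n ((x, y, fun k r n => α k (le p r * n)), 0) = 0 := by
  obtain ⟨-, -, h3, h4, h5, -⟩ := hR
  have h6 : ∀ j, cs C x k 0 (p * j) = cs C x k 1 j ^ p := fun j => ps_frob _ (fun i => hC 0 _) j
  by_cases h2 : p ∣ n
  · by_cases h1 : (n : ℕ) = 0
    · simpa [eqI, h1] using h5 k 0
    · have h7 : p * (dv p n : ℕ) = n := Nat.mul_div_cancel' h2
      have h8 : p * p - 1 ≠ 0 := by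
        have := hp.out.two_le
        have := Nat.mul_le_mul this this
        omega
      simp only [eqI, if_neg h1, if_pos h2]
      fin_cases r
      · simp [qe, le, h7, h3]
      · simpa [qe, le, hW, h8, h7] using h5 k (dv p n)
  · rw [eqI_zero p C m W w (hw k) hW r h2]
    rcases lt_trichotomy (le p r * n) (b k) with h | h | h
    · rw [if_neg h.not_ge, zero_mul, sub_zero, if_pos h.le, one_mul]
      fin_cases r
      · exact hS k n (by simpa [le] using h)
      · exact (pow_eq_zero_iff hp.out.ne_zero).1 ((h6 n).symm.trans (hS k _ h))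
    · rw [if_pos h.le, if_pos h.ge, one_mul, one_mul, sub_eq_zero]
      simp only [h]
      fin_cases r
      · have : (n : ℕ) = b k := by simpa [le] using h
        exact this ▸ hτ k
      · refine frobenius_inj K p ?_
        have : p * n = b k := h
        rw [frobenius_def, frobenius_def, mul_pow, h3]
        simpa [pe, this, hτ] using (h6 n).symm
    · simp [h.not_ge, h4 k _ h]

theorem glue (hR : Root p y b D α) {d : ℕ} (hD : D = p * d) (hcard : ∑ k, (b k + 1) = D + 1)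
    (hm : m ≠ 0) (hw : ∀ k, w k * b k = W * p) (hW : W ≠ 0) {M : ℕ} (hM : (M : K) ≠ 0)
    (h : ∀ k, Smo K p (b k) (m ^ p * α k (b k))) :
    ∃ t u : K, t ≠ 0 ∧ u ≠ 0 ∧ Smo K p D ((m * t ^ W * u ^ M) ^ p) := by
  classical
  choose ι _ x0 c g1 g2 g3 g4 g5 g6 g7 using h
  obtain ⟨C, hC0, hC1⟩ : ∃ C : Fin 2 → (Σ k, ι k) → K, C 0 = (fun i => c i.1 i.2) ∧
    C 1 = fun i => c i.1 i.2 ^ p := ⟨![_, _], rfl, rfl⟩
  obtain ⟨x, hx⟩ : ∃ x : (Σ k, ι k) → K, x = fun i => x0 i.1 i.2 := ⟨_, rfl⟩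
  have hC : ∀ r i, C (r + 1) i ^ p = C r i := Fin.forall_fin_two.2
    ⟨fun i => by simp [hC0, hC1, g4], fun i => by simp [hC0, hC1, show (1 + 1 : Fin 2) = 0 from rfl]⟩
  have hw0 : ∀ k, w k ≠ 0 ∧ b k ≠ 0 := fun k =>
    mul_ne_zero_iff.1 (hw k ▸ Nat.mul_ne_zero hW hp.out.ne_zero)
  have h0 : ∀ k r, ∑ i : ι k, C r ⟨k, i⟩ = 0 := fun k r => by
    have h1 : ∑ i, c k i = 0 := by simpa [ps] using g5 k 0 (Nat.pos_of_ne_zero (hw0 k).2)
    fin_cases r
    · simpa [hC0] using h1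
    · simpa [hC1, sum_pow_char, hp.out.ne_zero] using congrArg (· ^ p) h1
  let v0 : ((Σ k, ι k) → K) × (κ → K) × (κ → Fin 2 → Fin (D + 1) → K) :=
    (x, y, fun k r n => α k (le p r * n))
  let E : (((Σ k, ι k) → K) × (κ → K) × (κ → Fin 2 → Fin (D + 1) → K)) × K →
      (κ → Fin 2 → Fin (D + 1) → K) ×
        ({z : Fin 2 × Fin (D + 1) // le p z.1 * z.2 < D ∧ ¬ p ∣ z.2} → K) :=
    fun P => (fun k r n => eqI p C m W w k r n P, fun z => eqO z.1.1 z.1.2 P)
  have hb : ∀ r j, j ≤ D → eqO r j (v0, 0) = lam y α (X ^ (le p r * j)) := fun r j hj => by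
    rw [eqO_lam r hj _ (a := fun k n => α k (le p r * n)) fun _ _ => rfl]
    fin_cases r
    · simp [le, v0]
    · exact lam_sec hR.2.1 α j
  have hd : d ≤ D := hD ▸ Nat.le_mul_of_pos_left d hp.out.pos
  have hE0 : E (v0, 0) = 0 := Prod.ext (funext fun k => funext fun r => funext fun n =>
    base_zero hR hw hW hC (fun k j hj => by simpa [cs, hC0, hx] using g5 k j hj)
      (fun k => by simpa [cs, hC0, hx] using g6 k) k r n) (funext fun z =>
        (hb _ _ (Nat.lt_succ_iff.1 z.1.2.2)).trans (hR.2.2.2.2.2.2.1 _ z.2.1))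
  have hPr : ∀ᶠ P in 𝓝 (v0, (0 : K)), (∀ i j, i.1 = j.1 → i ≠ j → P.1.1 i - P.1.1 j ≠ 0) ∧
      (∀ i j, i.1 ≠ j.1 → npt w P i - npt w P j ≠ 0) ∧ ∃ u, u ≠ 0 ∧ u ^ M = eqO 1 d P := by
    refine Eventually.and ?_ (Eventually.and ?_ ?_)
    · refine eventually_all.2 fun ⟨k, i⟩ => eventually_all.2 fun ⟨l, j⟩ =>
        eventually_all.2 fun (hkl : k = l) => eventually_all.2 fun hij => ?_
      subst hkl
      exact ContinuousAt.eventually_ne (by fun_prop)
        (by simpa [v0, hx, sub_eq_zero] using (g2 k).ne fun e => hij (by rw [e]))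
    · refine eventually_all.2 fun i => eventually_all.2 fun j => eventually_all.2 fun hij => ?_
      refine ContinuousAt.eventually_ne (by simp only [npt]; fun_prop) ?_
      simpa [npt, hw0, v0, sub_eq_zero] using hR.1.ne hij
    · refine (eqO_an 1 d _).continuousAt.eventually (p := fun z => ∃ u, u ≠ 0 ∧ u ^ M = z) ?_
      rw [hb 1 d hd, show le p 1 * d = D from hD.symm, hR.2.2.2.2.2.2.2.1]
      exact pow_nhds hM
  have key := ift3 (K := K) (E := E) (v0 := v0) (z0 := 0)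
    (AnalyticAt.prod (analyticAt_pi_iff.2 fun k => analyticAt_pi_iff.2 fun r =>
      analyticAt_pi_iff.2 fun n => eqI_an p C m W w k r n _)
      (analyticAt_pi_iff.2 fun z => eqO_an _ _ _)) (fun z => by
      obtain ⟨u, u1, u2⟩ := base_surj (C := C) (x := x) hR hm hw hW (fun k A => by
        obtain ⟨v, v1, v2⟩ := smo_top (g4 k) (g5 k) (by
          rw [g6]; exact mul_ne_zero (pow_ne_zero _ hm) (hR.2.2.2.2.2.1 k)) (g7 k) (A 0) (A 1)
        exact ⟨v, Fin.forall_fin_two.2 ⟨by simpa [le, hC0, hx] using v1,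
          by simpa [le, hC1, hx] using v2⟩⟩) z.1
        fun r j => if h : j < D + 1 ∧ le p r * j < D ∧ ¬ p ∣ j then z.2 ⟨(r, ⟨j, h.1⟩), h.2⟩ else 0
      exact ⟨u, HasDerivAt.prodMk (hasDerivAt_pi.2 fun k => hasDerivAt_pi.2 fun r =>
        hasDerivAt_pi.2 fun n => u1 k r n) (hasDerivAt_pi.2 fun j =>
          (u2 _ _ j.2.1 j.2.2).congr_deriv (dif_pos ⟨j.1.2.2, j.2⟩))⟩) hPr
  obtain ⟨t, ⟨v, hv, ⟨d1, d2, u, hu0, hu⟩, hs⟩, ht⟩ :=
    ((key.filter_mono nhdsWithin_le_nhds).and (self_mem_nhdsWithin (s := {0}ᶜ))).exists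
  have ht0 : t ≠ 0 := ht
  rw [hE0] at hv
  have hI : ∀ k r n, eqI p C m W w k r n (v, t) = 0 := fun k r n =>
    congrFun (congrFun (congrFun (congrArg Prod.fst hv) k) r) n
  have hle : ∀ r j, le p r * j < D → j < D + 1 := fun r j hj => by
    have : 1 ≤ le p r := by fin_cases r <;> simp [le, hp.out.one_le]
    nlinarith
  have val : ∀ r j, j ≤ D → ps (C r) (npt w (v, t)) j =
      (m * t ^ W) ^ pe p r * eqO r j (v, t) := fun r j hj => by
    have := (line_zz p C m W w hC h0 (v := v) (u := 0) (t := t) (fun k r n => by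
      simp only [smul_zero, add_zero, hI]
      exact ⟨rfl, hasDerivAt_const _ _⟩) r hj).1
    simpa [sub_eq_zero] using this
  have van : ∀ r j, le p r * j < D → ¬ p ∣ j → ps (C r) (npt w (v, t)) j = 0 := fun r j hj hj' => by
    rw [val r j (Nat.lt_succ_iff.1 (hle r j hj)), show eqO r j (v, t) = 0 from
      congrFun (congrArg Prod.snd hv) ⟨(r, ⟨j, hle r j hj⟩), hj, hj'⟩, mul_zero]
  have hC2 : (fun i => C 0 i ^ p) = C 1 := funext (hC 1)
  have hC3 : ∀ i, (C 0 i ^ p) ^ p = C 0 i := fun i => by rw [hC0]; exact g4 _ _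
  refine ⟨t, u, ht0, hu0, Σ k, ι k, inferInstance, npt w (v, t), C 0, by simp [g1, hcard],
    fun i j hij => ?_, fun i => hC0 ▸ g3 _ _, hC3, all_van hC3 (by simp [ps, Fintype.sum_sigma, h0])
      (fun j hj => van 0 j (by simpa [le] using hj)) (hC2 ▸ van 1), ?_, fun A B => ?_⟩
  · by_contra hne
    by_cases h : i.1 = j.1
    · refine d1 i j h hne (sub_eq_zero.2 ?_)
      simp only [npt, h] at hij
      exact mul_left_cancel₀ (pow_ne_zero _ ht0) (add_left_cancel hij)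
    · exact d2 i j h (sub_eq_zero.2 hij)
  · have := ps_frob (npt w (v, t)) (hC 0) d
    rw [← hD] at this
    rw [this, show (0 + 1 : Fin 2) = 1 from rfl, val 1 d hd, ← hu]
    simp [pe]
  · obtain ⟨z, hz⟩ := hs (0, fun j => (j.1.2 : ℕ) * ![A, B] j.1.1 j.1.2 / (m * t ^ W) ^ pe p j.1.1)
    have fin : ∀ r j, le p r * j < D → ¬ p ∣ j → ∑ i, C r i * (z.2.1 i.1 + t ^ w i.1 * z.1 i) *
        npt w (v, t) i ^ (j - 1) = ![A, B] r j := fun r j hj hj' => by
      have h1 := (line_zz p C m W w hC h0 (v := v) (u := z) (t := t) (fun k r n =>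
        ⟨by simp [hI], hasDerivAt_pi.1 (hasDerivAt_pi.1 (hasDerivAt_pi.1 hz.fst k) r) n⟩) r
        (Nat.lt_succ_iff.1 (hle r j hj))).2
      have h2 : HasDerivAt (fun s : K => eqO r j (v + s • z, t))
          (j * ![A, B] r j / (m * t ^ W) ^ pe p r) 0 :=
        hasDerivAt_pi.1 hz.snd ⟨(r, ⟨j, hle r j hj⟩), hj, hj'⟩
      have h3 := ((ps_deriv (C r) (npt w (v, t)) (fun i => z.2.1 i.1 + t ^ w i.1 * z.1 i)
        j).congr_of_eventuallyEq (f₁ := fun s => ps (C r) (npt w (v + s • z, t)) j)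
        (Eventually.of_forall fun s => by
          beta_reduce
          congr 1
          ext i
          simp [npt]
          ring)).sub (h2.const_mul ((m * t ^ W) ^ pe p r))
      have h4 := h3.unique h1
      rw [mul_div_cancel₀ _ (pow_ne_zero _ (mul_ne_zero hm (pow_ne_zero _ ht0))), sub_eq_zero] at h4
      exact mul_left_cancel₀ (by rwa [Ne, CharP.cast_eq_zero_iff K p]) h4
    exact ⟨fun i => z.2.1 i.1 + t ^ w i.1 * z.1 i,
      fun j hj hj' => fin 0 j (by simpa [le] using hj) hj', fun j hj hj' => by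
        simp only [show ∀ i, C 0 i ^ p = C 1 i from hC 1]
        exact fin 1 j hj hj'⟩

end Pool.Agent.Lib.MP_587b89_lc
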