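import Pool.Agent.Lib.MP_587b89_lc.SqR

/-!
Smooth configurations with residues in the field with `p ^ 2` elements.
-/

set_option autoImplicit false
set_option linter.unusedSectionVars false
open Filter Topology

namespace Pool.Agent.Lib.MP_587b89_lc

theorem ift3 {K V Z W : Type} [NontriviallyNormedField K] [CompleteSpace K] [NormedAddCommGroup V]
    [NormedSpace K V] [CompleteSpace V] [NormedAddCommGroup Z] [NormedSpace K Z] [CompleteSpace Z]
    [NormedAddCommGroup W] [NormedSpace K W] [CompleteSpace W] [FiniteDimensional K W]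
    {E : V × Z → W} {v0 : V} {z0 : Z} (hE : AnalyticAt K E (v0, z0))
    (hs : ∀ w, ∃ v, HasDerivAt (fun t : K => E (v0 + t • v, z0)) w 0)
    {Pr : V × Z → Prop} (h : ∀ᶠ x in 𝓝 (v0, z0), Pr x) :
    ∀ᶠ z in 𝓝 z0, ∃ v, E (v, z) = E (v0, z0) ∧ Pr (v, z) ∧
      ∀ w, ∃ u, HasDerivAt (fun t : K => E (v + t • u, z)) w 0 := by
  have key : ∀ x : V × Z, AnalyticAt K E x → ∀ u, HasDerivAt (fun t : K => E (x.1 + t • u, x.2))
      (((fderiv K E x).comp (ContinuousLinearMap.inl K V Z)) u) 0 := fun x hx u => by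
    have h1 := hx.differentiableAt.hasFDerivAt.comp x.1 (hasFDerivAt_prodMk_left (𝕜 := K) x.1 x.2)
    have h2 : HasDerivAt (fun t : K => x.1 + t • u) u 0 := by
      simpa using ((hasDerivAt_id (0 : K)).smul_const u).const_add x.1
    have h3 := HasFDerivAt.comp_hasDerivAt_of_eq (0 : K) h1 h2 (by simp)
    exact h3
  have hr : ∀ f : V →L[K] W, (Module.finrank K W : Cardinal) ≤ (f : V →ₗ[K] W).rank ↔
      Function.Surjective f := fun f => by
    have h1 : (f : V →ₗ[K] W).rank = Module.finrank K (LinearMap.range (f : V →ₗ[K] W)) :=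
      (Module.finrank_eq_rank _ _).symm
    rw [h1, Nat.cast_le]
    constructor
    · exact fun h2 => LinearMap.range_eq_top.1
        (Submodule.eq_top_of_finrank_eq (le_antisymm (Submodule.finrank_le _) h2))
    · intro h2
      rw [LinearMap.range_eq_top.2 h2, finrank_top]
  have hc : ContinuousAt (fun x => (fderiv K E x).comp (ContinuousLinearMap.inl K V Z)) (v0, z0) :=
    hE.fderiv.continuousAt.clm_comp continuousAt_const
  have h3 := hc.eventually ((isOpen_setOfPred_nat_le_rank (𝕜 := K) (E := V) (F := W)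
    (Module.finrank K W)).mem_nhds ((hr _).2 fun w =>
      (hs w).imp fun v hv => (key _ hE v).unique hv))
  refine ift2 hE hs (Pr := fun x => Pr x ∧
    ∀ w, ∃ u, HasDerivAt (fun t : K => E (x.1 + t • u, x.2)) w 0) (h.and ?_)
  filter_upwards [h3, hE.eventually_analyticAt] with x h4 h5 w
  obtain ⟨u, hu⟩ := (hr _).1 h4 w
  exact ⟨u, hu ▸ key x h5 u⟩

variable {K : Type} [Field K]

/-- `b + 1` points, weights in the field with `p ^ 2` elements, independent reduced equations -/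
def Smo (K : Type) [Field K] (p b : ℕ) (τ : K) : Prop :=
  ∃ (ι : Type) (_ : Fintype ι) (x c : ι → K), Fintype.card ι = b + 1 ∧ Function.Injective x ∧
    (∀ i, c i ≠ 0) ∧ (∀ i, (c i ^ p) ^ p = c i) ∧ (∀ j, j < b → ps c x j = 0) ∧ ps c x b = τ ∧
    ∀ α β : ℕ → K, ∃ v : ι → K,
      (∀ j, j < b → ¬ p ∣ j → ∑ i, c i * v i * x i ^ (j - 1) = α j) ∧
      ∀ j, p * j < b → ¬ p ∣ j → ∑ i, c i ^ p * v i * x i ^ (j - 1) = β j

variable {p : ℕ} [hp : Fact p.Prime] [CharP K p]

lemma ps_frob {ι : Type} [Fintype ι] {c c' : ι → K} (x : ι → K) (hc : ∀ i, c' i ^ p = c i)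
    (n : ℕ) : ps c x (p * n) = ps c' x n ^ p := by
  rw [ps, ps, sum_pow_char]
  exact Finset.sum_congr rfl fun i _ => by rw [mul_pow, hc, ← pow_mul, mul_comm n]

lemma smo_top {ι : Type} [Fintype ι] {x c : ι → K} {b : ℕ} (hc : ∀ i, (c i ^ p) ^ p = c i)
    (hS : ∀ j, j < b → ps c x j = 0) (hτ : ps c x b ≠ 0)
    (h : ∀ α β : ℕ → K, ∃ v : ι → K,
      (∀ j, j < b → ¬ p ∣ j → ∑ i, c i * v i * x i ^ (j - 1) = α j) ∧
      ∀ j, p * j < b → ¬ p ∣ j → ∑ i, c i ^ p * v i * x i ^ (j - 1) = β j) (α β : ℕ → K) :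
    ∃ v : ι → K, (∀ j, j ≤ b → ¬ p ∣ j → ∑ i, c i * v i * x i ^ (j - 1) = α j) ∧
      ∀ j, p * j ≤ b → ¬ p ∣ j → ∑ i, c i ^ p * v i * x i ^ (j - 1) = β j := by
  obtain ⟨v, h1, h2⟩ := h α β
  have e : ∀ (c : ι → K) (s : K) (j : ℕ), ¬ p ∣ j → ∑ i, c i * (v i + s * x i) * x i ^ (j - 1) =
      ∑ i, c i * v i * x i ^ (j - 1) + s * ps c x j := fun c s j hj => by
    obtain ⟨n, rfl⟩ := Nat.exists_eq_succ_of_ne_zero (show j ≠ 0 by rintro rfl; simp at hj)
    rw [ps, Finset.mul_sum, ← Finset.sum_add_distrib]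
    exact Finset.sum_congr rfl fun i _ => by rw [Nat.succ_sub_one, pow_succ]; ring
  have e2 : ∀ j, p * j < b → ps (fun i => c i ^ p) x j = 0 := fun j hj =>
    pow_eq_zero_iff hp.out.ne_zero |>.1 (by rw [← ps_frob x hc, hS _ hj])
  by_cases hb : p ∣ b
  · obtain ⟨d, rfl⟩ := hb
    have h3 : ps (fun i => c i ^ p) x d ≠ 0 := fun h => hτ (by
      rw [ps_frob x hc, h, zero_pow hp.out.ne_zero])
    refine ⟨fun i => v i + (β d - ∑ i, c i ^ p * v i * x i ^ (d - 1)) /
      ps (fun i => c i ^ p) x d * x i, fun j hj hj' => ?_, fun j hj hj' => ?_⟩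
    · have : j < p * d := lt_of_le_of_ne hj (by rintro rfl; simp at hj')
      rw [e c _ j hj', h1 j this hj', hS j this, mul_zero, add_zero]
    · rw [e (fun i => c i ^ p) _ j hj']
      rcases hj.eq_or_lt with h | h
      · rw [Nat.eq_of_mul_eq_mul_left hp.out.pos h, div_mul_cancel₀ _ h3, add_sub_cancel]
      · rw [h2 j h hj', e2 j h, mul_zero, add_zero]
  · refine ⟨fun i => v i + (α b - ∑ i, c i * v i * x i ^ (b - 1)) / ps c x b * x i,
      fun j hj hj' => ?_, fun j hj hj' => ?_⟩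
    · rw [e c _ j hj']
      rcases hj.eq_or_lt with rfl | h
      · rw [div_mul_cancel₀ _ hτ, add_sub_cancel]
      · rw [h1 j h hj', hS j h, mul_zero, add_zero]
    · have : p * j < b := lt_of_le_of_ne hj (by rintro rfl; simp at hb)
      rw [e (fun i => c i ^ p) _ j hj', h2 j this hj', e2 j this, mul_zero, add_zero]

lemma Smo.scale {b : ℕ} {τ : K} (h : Smo K p b τ) {s f : K} (hs : s ≠ 0) (hf : f ≠ 0)
    (hf' : f ^ p = f) : Smo K p b (f * s ^ b * τ) := by
  obtain ⟨ι, _, x, c, h1, h2, h3, h4, h5, h6, h7⟩ := h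
  have e : ∀ j, ps (fun i => f * c i) (fun i => s * x i) j = f * s ^ j * ps c x j := fun j => by
    rw [ps, ps, Finset.mul_sum]
    exact Finset.sum_congr rfl fun i _ => by ring
  refine ⟨ι, inferInstance, fun i => s * x i, fun i => f * c i, h1,
    fun i j hij => h2 (mul_left_cancel₀ hs hij), fun i => mul_ne_zero hf (h3 i),
    fun i => by rw [mul_pow, mul_pow, hf', hf', h4], fun j hj => by rw [e, h5 j hj, mul_zero],
    by rw [e, h6], fun α β => ?_⟩
  obtain ⟨v, g1, g2⟩ := h7 (fun j => α j / (f * s ^ (j - 1))) fun j => β j / (f * s ^ (j - 1))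
  refine ⟨v, fun j hj hj' => ?_, fun j hj hj' => ?_⟩
  · rw [← mul_div_cancel₀ (α j) (mul_ne_zero hf (pow_ne_zero (j - 1) hs)), ← g1 j hj hj',
      Finset.mul_sum]
    exact Finset.sum_congr rfl fun i _ => by ring
  · rw [← mul_div_cancel₀ (β j) (mul_ne_zero hf (pow_ne_zero (j - 1) hs)), ← g2 j hj hj',
      Finset.mul_sum]
    exact Finset.sum_congr rfl fun i _ => by rw [mul_pow f, hf']; ring

lemma all_van {ι : Type} [Fintype ι] {x c : ι → K} {D : ℕ} (hc : ∀ i, (c i ^ p) ^ p = c i)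
    (h0 : ps c x 0 = 0) (h1 : ∀ j, j < D → ¬ p ∣ j → ps c x j = 0)
    (h2 : ∀ j, p * j < D → ¬ p ∣ j → ps (fun i => c i ^ p) x j = 0) (j : ℕ) :
    j < D → ps c x j = 0 := by
  induction j using Nat.strong_induction_on with
  | _ j ih =>
    intro hj
    rcases Nat.eq_zero_or_pos j with rfl | hj0
    · exact h0
    by_cases h3 : p ∣ j
    · obtain ⟨n, rfl⟩ := h3
      rw [ps_frob x hc, pow_eq_zero_iff hp.out.ne_zero]
      by_cases h4 : p ∣ n
      · obtain ⟨l, rfl⟩ := h4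
        have h5 : l < p * (p * l) := by
          have h6 : 0 < l := Nat.pos_of_ne_zero (by rintro rfl; simp at hj0)
          have := hp.out.two_le
          nlinarith [Nat.mul_le_mul this (Nat.mul_le_mul_right l this)]
        rw [ps_frob x (c' := c) (fun _ => rfl), ih l h5 (by omega), zero_pow hp.out.ne_zero]
      · exact h2 n hj h4
    · exact h1 j hj h3

end Pool.Agent.Lib.MP_587b89_lc
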