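import Pool.Agent.Lib.MP_587b89_lc.SqA

/-!
The outer component of the gluing step: three points `0, 1, -1`.
-/

set_option autoImplicit false
set_option linter.unusedSectionVars false
open Polynomial

namespace Pool.Agent.Lib.MP_587b89_lc

variable {K : Type} [Field K]

/-- polar data of the outer differential form, and its smoothness -/
def Root {κ : Type} [Fintype κ] (p : ℕ) (y : κ → K) (b : κ → ℕ) (D : ℕ) (α : κ → ℕ → K) : Prop :=
  Function.Injective y ∧ (∀ k, y k ^ p = y k) ∧ (∀ k n, α k n ^ p = α k n) ∧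
    (∀ k n, b k < n → α k n = 0) ∧ (∀ k n, α k (p * (p * n)) = 0) ∧ (∀ k, α k (b k) ≠ 0) ∧
    (∀ j, j < D → lam y α (X ^ j) = 0) ∧ lam y α (X ^ D) = 1 ∧
    ∀ τ0 τ1 : ℕ → K, ∃ (η : κ → K) (a0 a1 : κ → ℕ → K),
      (∀ k n, p ∣ n ∨ b k < n → a0 k n = 0) ∧ (∀ k n, p ∣ n ∨ b k < p * n → a1 k n = 0) ∧
      (∀ j, j < D → ¬ p ∣ j →
        lam y (fun k n => a0 k n + η k * (n * α k (n - 1))) (X ^ j) = τ0 j) ∧
      ∀ j, p * j < D → ¬ p ∣ j →
        lam y (fun k n => a1 k n + η k * (n * α k (p * (n - 1)))) (X ^ j) = τ1 j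

variable {p : ℕ} [hp : Fact p.Prime] [CharP K p]

lemma lam_sec {κ : Type} [Fintype κ] {y : κ → K} (hy : ∀ k, y k ^ p = y k) (a : κ → ℕ → K)
    (j : ℕ) : lam y (fun k n => a k (p * n)) (X ^ j) = lam y a (X ^ (p * j)) := by
  rw [← lam_expand hy, map_pow, expand_X, pow_mul]

lemma lam_frob {κ : Type} [Fintype κ] {y : κ → K} (hy : ∀ k, y k ^ p = y k) (a : κ → ℕ → K)
    (j : ℕ) : lam y (fun k n => a k n ^ p) (X ^ j) = lam y a (X ^ j) ^ p := by
  simp only [lam_pow y _ (Nat.lt_succ_self j), sum_pow_char, mul_pow]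
  refine Finset.sum_congr rfl fun k _ => Finset.sum_congr rfl fun n _ => ?_
  rw [← pow_mul, mul_comm (j - n), pow_mul, hy,
    show ((j.choose n : ℕ) : K) ^ p = j.choose n from map_natCast (frobenius K p) _]

/-- the three points -/
def y3 (K : Type) [Field K] : Fin 3 → K := ![0, 1, -1]

lemma two_ne (h2 : p ≠ 2) : (2 : K) ≠ 0 := fun h =>
  h2 ((Nat.prime_dvd_prime_iff_eq hp.out Nat.prime_two).1
    ((CharP.cast_eq_zero_iff K p 2).1 (by simpa using h)))

lemma y3_inj (h2 : p ≠ 2) : Function.Injective (y3 K) := by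
  have h := two_ne (K := K) h2
  have h1 : (1 : K) ≠ -1 := fun e => h (by linear_combination e)
  intro i j hij
  fin_cases i <;> fin_cases j <;> simp_all [y3, h1.symm]

lemma y3_pow (k : Fin 3) : y3 K k ^ p = y3 K k := by
  fin_cases k
  · simp [y3, hp.out.ne_zero]
  · simp [y3]
  · simpa [y3] using neg_one_pow_char K p

lemma res_one (h2 : p ≠ 2) {d s e : ℕ} (hs : s + e = p * p) {a : Fin 3 → ℕ → K}
    (ha : ∀ k n, ![p * d + 1, p - 1, s] k ≤ n → a k n = 0)
    (hk : ∀ j, j < p * d + 1 + s + (p - 2) → lam (y3 K) a (X ^ j) = 0) {R : K[X]}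
    (hR : (X - C 1) ^ (p - 1) ∣ X ^ (p - 1) * (X + C 1) ^ e - R) (hd : R.natDegree ≤ p - 2) :
    ∃ u, u ≠ 0 ∧ a 1 0 * u = R.coeff (p - 2) * lam (y3 K) a (X ^ (p * d + 1 + s + (p - 2))) := by
  have hp2 := hp.out.two_le
  obtain ⟨u, hu, e1⟩ := lam_one (y3_inj h2) (a := fun k n => a k (p * n)) (m := ![d + 1, 0, p]) 1
    (fun k n hn => ha k _ (by
      fin_cases k <;> simp at hn ⊢
      · nlinarith
      · have := Nat.mul_le_mul_left p hn; omega
      · nlinarith))
    (fun k hk => ha k _ (by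
      fin_cases k <;> simp at hk ⊢
      · rw [mul_add]; omega
      · omega))
  refine ⟨u, hu, ?_⟩
  obtain ⟨Q, hQ⟩ := hR
  obtain ⟨w, -, e2⟩ := lam_nod (y := y3 K) (a := a) (m := ![p * d + 1, p - 1, s])
    (fun k n hn => ha k n hn.le) Q
  rw [Finset.sum_eq_zero fun k _ => by rw [ha k _ le_rfl, zero_mul]] at e2
  have e3 : expand K p (nod (y3 K) ![d + 1, 0, p]) = nod (y3 K) ![p * d + 1, p - 1, s] * Q +
      nod (y3 K) ![p * d + 1, 0, s] * R := by
    have h1 : (X ^ p + 1 : K[X]) = (X + 1) ^ p := by rw [add_pow_char, one_pow]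
    have h3 : p * (d + 1) = p * d + 1 + (p - 1) := by rw [mul_add]; omega
    simp only [nod, Fin.prod_univ_three, y3, Matrix.cons_val_zero, Matrix.cons_val_one,
      Matrix.cons_val, map_zero, sub_zero, pow_zero, mul_one, map_neg, map_one, sub_neg_eq_add,
      map_mul, map_pow, map_add, expand_X] at hQ ⊢
    rw [h1, ← pow_mul, ← pow_mul, ← hs, h3, pow_add, pow_add _ s]
    linear_combination X ^ (p * d + 1) * (X + 1) ^ s * hQ
  have e4 : (nod (y3 K) ![p * d + 1, 0, s]).natDegree = p * d + 1 + s := by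
    simp [nod_deg, Fin.sum_univ_three]
  rw [← lam_expand y3_pow, e3, map_add, e2, zero_add,
    lin_top hk (natDegree_mul_le.trans (by omega)),
    coeff_mul_add_eq_of_natDegree_le e4.le hd, ← e4, (nod_monic _ _).coeff_natDegree, one_mul, e4]
    at e1
  simpa using e1.symm

lemma cop (h2 : p ≠ 2) (n : ℕ) : IsCoprime ((X - C 1 : K[X]) ^ n) (X * (X + C 1) ^ 2) := by
  have h1 : IsCoprime (X - C 1 : K[X]) (X - C 0) :=
    isCoprime_X_sub_C_of_isUnit_sub (by simp)
  have h3 : IsCoprime (X - C 1 : K[X]) (X - C (-1)) :=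
    isCoprime_X_sub_C_of_isUnit_sub (by
      rw [sub_neg_eq_add, one_add_one_eq_two]; exact (two_ne h2).isUnit)
  rw [map_zero, sub_zero] at h1
  rw [map_neg, sub_neg_eq_add] at h3
  exact (h1.mul_right h3.pow_right).pow_left

lemma rem_data (h2 : p ≠ 2) : ∃ R0 R1 : K[X],
    (X - C 1) ^ (p - 1) ∣ X ^ (p - 1) * (X + C 1) ^ (p - 1) - R0 ∧ R0.natDegree ≤ p - 2 ∧
    R0.coeff (p - 2) = 0 ∧ (X - C 1) ^ (p - 1) ∣ X ^ (p - 1) * (X + C 1) ^ (p - 2) - R1 ∧
    R1.natDegree ≤ p - 2 ∧ R1.coeff (p - 2) = -1 := by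
  have h1 : (X : K[X]) ^ p = (X - C 1) ^ p + 1 := by rw [sub_pow_char]; simp
  have h3 : (X + C 1 : K[X]) ^ p = (X - C 1) ^ p + 2 := by
    rw [sub_pow_char, add_pow_char]; simp; ring
  have hc := cop (K := K) h2 (p - 1)
  obtain ⟨n, rfl⟩ : ∃ n, p = n + 2 := ⟨p - 2, by have := hp.out.two_le; omega⟩
  simp only [Nat.add_sub_cancel, show n + 2 - 1 = n + 1 from rfl] at hc ⊢
  have c1 : ∀ k, (X ^ (n + 1) + X ^ (n + 1) - (X + C 1) ^ (n + 1) - (X - C 1) ^ (n + 1) :
      K[X]).coeff k = (if k = n + 1 then 1 else 0) + (if k = n + 1 then 1 else 0) -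
      ((n + 1).choose k : K) - (-1) ^ (n + 1 - k) * ((n + 1).choose k : K) := fun k => by
    rw [sub_eq_add_neg X, ← map_neg]
    simp only [coeff_sub, coeff_add, coeff_X_pow, coeff_X_add_C_pow, one_pow, one_mul]
  have d0 : (X ^ (n + 1) + X ^ (n + 1) - (X + C 1) ^ (n + 1) - (X - C 1) ^ (n + 1) :
      K[X]).natDegree ≤ n := natDegree_le_iff_coeff_eq_zero.2 fun k hk => by
    rw [c1]
    rcases (show k = n + 1 ∨ n + 1 < k by omega) with rfl | h
    · simp
    · simp [Nat.choose_eq_zero_of_lt h, h.ne']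
  have d1 : ((X + C 1 : K[X]) ^ n).natDegree ≤ n := by
    rw [natDegree_pow, natDegree_X_add_C, mul_one]
  refine ⟨_, _ - (X + C 1) ^ n, hc.dvd_of_dvd_mul_left ⟨(X + C 1) * ((X - C 1) *
    ((X - C 1) ^ (n + 2) + 1 - X) + X * (X + C 1)), ?_⟩, d0, by rw [c1]; simp,
    hc.dvd_of_dvd_mul_left ⟨(X - C 1) * ((X - C 1) ^ (n + 2) + 3 - 2 * (X + C 1) ^ 2 +
      X * (X + C 1) + X) + X * (X + C 1) ^ 2, ?_⟩,
    (natDegree_sub_le _ _).trans (max_le d0 d1), by rw [coeff_sub, c1, coeff_X_add_C_pow]; simp⟩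
  · rw [map_one] at *
    linear_combination (X + 1) * ((X + 1) ^ (n + 2) - 2 * (X + 1)) * h1 +
      (X + 1) * ((X - 1) ^ (n + 2) + 1 + X) * h3
  · rw [map_one] at *
    linear_combination ((X + 1) ^ (n + 2) - 2 * (X + 1) ^ 2) * h1 +
      ((X - 1) ^ (n + 2) + 1 + X * (X + 1) + X) * h3

lemma sec_zero (h2 : p ≠ 2) {d : ℕ} (hd : ¬ p ∣ d) {a : Fin 3 → ℕ → K}
    (ha : ∀ k n, ![d + 1, 0, p] k ≤ n → a k n = 0)
    (hk : ∀ j, p * j < d + p → lam (y3 K) a (X ^ (p * j)) = 0) (k : Fin 3) (n : ℕ) :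
    a k (p * n) = 0 := by
  have h1 := Nat.div_add_mod d p
  have h3 : d % p ≠ 0 := fun h => hd (Nat.dvd_of_mod_eq_zero h)
  have h4 := Nat.mod_lt d hp.out.pos
  refine herm_inj (y3_inj h2) (d / p + 2) ![d / p + 1, 0, 1] (a := fun k n => a k (p * n))
    (by simp [Fin.sum_univ_three]) (fun k n hn => ha k _ ?_) (fun j hj => ?_) k n
  · fin_cases k <;> simp at hn ⊢
    · have := Nat.mul_le_mul_left p (show d / p + 1 ≤ n from hn)
      rw [mul_add] at this
      omega
    · simpa using Nat.mul_le_mul_left p hn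
  · rw [lam_sec y3_pow]
    refine hk j ?_
    have := Nat.mul_le_mul_left p (show j ≤ d / p + 1 by omega)
    rw [mul_add] at this
    omega

theorem root3 (h2 : p ≠ 2) {d : ℕ} (hd : ¬ p ∣ d) : ∃ α : Fin 3 → ℕ → K,
    Root p (y3 K) ![p * d, p - 2, p * (p - 1)] (p * (d + p)) α := by
  classical
  have hy := y3_inj (K := K) h2
  obtain ⟨R0, R1, r1, r2, r3, r4, r5, r6⟩ := rem_data (K := K) h2
  obtain ⟨B, hB⟩ : ∃ B, B = p * (p - 1) := ⟨_, rfl⟩
  have hp2 := hp.out.two_le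
  have hB1 : B + p = p * p := by
    obtain ⟨n, rfl⟩ := Nat.exists_eq_add_of_le' hp.out.one_le
    rw [hB, Nat.add_sub_cancel]; ring
  have hD : p * (d + p) = p * d + B + p := by rw [mul_add]; omega
  rw [← hB, hD]
  obtain ⟨α, a1, a2⟩ := herm_surj hy ![p * d + 1, p - 1, B + 1]
    fun j => if j = p * d + B + p then 1 else 0
  obtain ⟨β, b1, b2⟩ := herm_surj hy ![p * d + 1, p - 1, B + 2]
    fun j => if j = p * d + B + p + 1 then 1 else 0
  simp only [Fin.sum_univ_three, Matrix.cons_val_zero, Matrix.cons_val_one, Matrix.cons_val]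
    at a2 b2
  have a3 : ∀ j, j < p * d + B + p → lam (y3 K) α (X ^ j) = 0 := fun j hj => by
    rw [a2 j (by omega), if_neg (by omega)]
  have a4 : lam (y3 K) α (X ^ (p * d + B + p)) = 1 := by rw [a2 _ (by omega), if_pos rfl]
  have b3 : ∀ j, j < p * d + B + p + 1 → lam (y3 K) β (X ^ j) = 0 := fun j hj => by
    rw [b2 j (by omega), if_neg (by omega)]
  have a5 : α 1 0 = 0 := by
    obtain ⟨u, hu, e⟩ := res_one h2 (e := p - 1) (by omega) a1 (fun j hj => a3 j (by omega)) r1 r2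
    rw [r3, zero_mul] at e
    exact (mul_eq_zero.1 e).resolve_right hu
  have b5 : β 1 0 ≠ 0 := fun h => by
    obtain ⟨u, -, e⟩ := res_one h2 (e := p - 2) (by omega) b1 (fun j hj => b3 j (by omega)) r4 r5
    rw [h, r6, b2 _ (by omega), if_pos (by omega)] at e
    simp at e
  have sup : ∀ {a : Fin 3 → ℕ → K}, (∀ k n, ![p * d + 1, p - 1, B + 2] k ≤ n → a k n = 0) →
      a 1 0 = 0 → ∀ k n, ![d + 1, 0, p] k ≤ n → a k (p * n) = 0 := fun {a} ha h0 k n hn => by
    fin_cases k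
    · exact ha _ _ (by simp at hn ⊢; nlinarith)
    · rcases Nat.eq_zero_or_pos n with rfl | h
      · exact h0
      · exact ha _ _ (by have := Nat.mul_le_mul_left p h; simp; omega)
    · exact ha _ _ (by have := Nat.mul_le_mul_left p hn; simp at this ⊢; omega)
  have a1' : ∀ k n, ![p * d + 1, p - 1, B + 2] k ≤ n → α k n = 0 := fun k n hn =>
    a1 k n (by fin_cases k <;> simp at hn ⊢ <;> omega)
  have a6 : ∀ k n, ![p * d, p - 2, B] k < n → α k n = 0 := fun k n hn =>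
    a1 k n (by fin_cases k <;> simp at hn ⊢ <;> omega)
  have a7 : ∀ k, α k (![p * d, p - 2, B] k) ≠ 0 := fun k h => by
    have := herm_inj hy (p * d + B + p) (a := α)
      (Function.update ![p * d + 1, p - 1, B + 1] k (![p * d, p - 2, B] k))
      (by fin_cases k <;> simp [Fin.sum_univ_three] <;> omega) (fun l n hn => by
        by_cases hl : l = k
        · subst hl
          rw [Function.update_self] at hn
          exact hn.eq_or_lt.elim (fun e => e ▸ h) (a6 l n)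
        · exact a1 l n (by rwa [Function.update_of_ne hl] at hn)) a3
    rw [lam_pow _ _ (Nat.lt_succ_self _)] at a4
    simp [this] at a4
  refine ⟨α, hy, y3_pow, fun k n => ?_, a6, sec_zero h2 hd (sup a1' a5) fun j hj => ?_, a7, a3, a4,
    fun τ0 τ1 => ?_⟩
  · have := herm_inj hy (p * d + B + p + 1) (a := fun k n => α k n ^ p + (-1) * α k n)
      ![p * d + 1, p - 1, B + 1] (by simp [Fin.sum_univ_three]; omega)
      (fun k n hn => by simp [a1 k n hn, hp.out.ne_zero]) (fun j hj => by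
        rw [lam_comb, lam_frob y3_pow, a2 j (by omega)]
        split_ifs <;> simp [hp.out.ne_zero]) k n
    linear_combination this
  · rw [lam_sec y3_pow]
    exact a3 _ (hD ▸ Nat.mul_lt_mul_of_pos_left hj hp.out.pos)
  obtain ⟨a, c1, c2⟩ := herm_surj hy ![p * d + 1, p - 1, B + 2]
    fun j => if p ∣ j then 0 else τ0 j
  simp only [Fin.sum_univ_three, Matrix.cons_val_zero, Matrix.cons_val_one, Matrix.cons_val] at c2
  obtain ⟨s1, hs1⟩ : ∃ s, a 1 0 + s * β 1 0 = 0 := ⟨-a 1 0 / β 1 0, by field_simp; ring⟩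
  obtain ⟨s2, hs2⟩ : ∃ s, a 0 (p * d) + s1 * β 0 (p * d) + s * α 0 (p * d) = 0 :=
    ⟨-(a 0 (p * d) + s1 * β 0 (p * d)) / α 0 (p * d), by
      have : α 0 (p * d) ≠ 0 := a7 0
      field_simp; ring⟩
  obtain ⟨g, hg⟩ : ∃ g : Fin 3 → ℕ → K, g = fun k n => a k n + s1 * β k n + s2 * α k n := ⟨_, rfl⟩
  have g1 : ∀ k n, ![p * d + 1, p - 1, B + 2] k ≤ n → g k n = 0 := fun k n hn => by
    simp [hg, c1 k n hn, b1 k n hn, a1' k n hn]
  have g2 : ∀ j, j < p * d + B + p → lam (y3 K) g (X ^ j) = if p ∣ j then 0 else τ0 j :=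
    fun j hj => by
      rw [hg, lam_comb, lam_comb, a3 j hj, b3 j (by omega), c2 j (by omega)]; simp
  have g3 : ∀ k n, g k (p * n) = 0 := herm_inj hy (d + p) ![d, 0, p] (a := fun k n => g k (p * n))
    (by simp [Fin.sum_univ_three]) (fun k n hn => by
      by_cases h : k = 0 ∧ n = d
      · rw [h.1, h.2, hg]; exact hs2
      · refine sup g1 (by rw [hg]; simp [hs1, a5]) k n ?_
        fin_cases k <;> simp at hn h ⊢ <;> omega) fun j hj => by
      rw [lam_sec y3_pow, g2 _ (hD ▸ Nat.mul_lt_mul_of_pos_left hj hp.out.pos),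
        if_pos (dvd_mul_right _ _)]
  obtain ⟨η, hη⟩ : ∃ η : Fin 3 → K, η = ![0, 0, g 2 (B + 1) / α 2 B] := ⟨_, rfl⟩
  obtain ⟨f, f1, f2⟩ := herm_surj hy ![d + 1, 0, p] fun j => if p ∣ j then 0 else
    τ1 j - lam (y3 K) (fun k n => η k * (n * α k (p * (n - 1)))) (X ^ j)
  simp only [Fin.sum_univ_three, Matrix.cons_val_zero, Matrix.cons_val_one, Matrix.cons_val] at f2
  have f3 := sec_zero h2 hd f1 fun j hj => by rw [f2 _ (by omega), if_pos (dvd_mul_right _ _)]
  refine ⟨η, fun k n => g k n - η k * (n * α k (n - 1)), f, fun k n hn => ?_, fun k n hn => ?_,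
    fun j hj hj' => ?_, fun j hj hj' => ?_⟩
  · rcases hn with ⟨n, rfl⟩ | hn
    · simp [g3]
    · by_cases h : k = 2 ∧ n = B + 1
      · have h1 : α 2 B ≠ 0 := a7 2
        have h3 : (B : K) = 0 := by simp [hB]
        rw [h.1, h.2, hη]
        simp [h3, h1]
      · beta_reduce
        rw [g1 k n (by fin_cases k <;> simp at hn h ⊢ <;> omega)]
        by_cases h1 : k = 2
        · rw [a6 k (n - 1) (by subst h1; simp at hn h ⊢; omega)]; simp
        · have : η k = 0 := by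
            rw [hη]
            fin_cases k <;> simp at h1 ⊢
          rw [this]; simp
  · rcases hn with ⟨n, rfl⟩ | hn
    · exact f3 k n
    · refine f1 k n ?_
      fin_cases k <;> simp at hn ⊢
      · exact Nat.lt_of_mul_lt_mul_left hn
      · have : p - 1 < n := Nat.lt_of_mul_lt_mul_left (hB ▸ hn)
        omega
  · simp only [sub_add_cancel]
    rw [g2 j hj, if_neg hj']
  · have := lam_comb (y3 K) f (fun k n => η k * (n * α k (p * (n - 1)))) 1 (X ^ j)
    simp only [one_mul] at this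
    rw [this, f2 j (by have := Nat.lt_of_mul_lt_mul_left (hD ▸ hj); omega), if_neg hj',
      sub_add_cancel]

end Pool.Agent.Lib.MP_587b89_lc
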