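import Mathlib

/-!
Discrete valuations with residue field the ground field.
-/

set_option autoImplicit false
set_option linter.unusedSectionVars false
set_option linter.overlappingInstances false
open Module WithZero

namespace Pool.Agent.Lib.MP_587b89_lc

variable (k : Type) [Field k] {B : Type} [CommRing B] [IsDomain B] [Algebra k B]

/-- a discrete valuation, bounded by one, with residue field `k` -/
structure Good (v : Valuation B ℤᵐ⁰) : Prop where
  ne : ∀ f, f ≠ 0 → v f ≠ 0
  le : ∀ f, v f ≤ 1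
  res : ∀ a b, a ≠ 0 → v b ≤ v a → ∃ c : k, v (b - c • a) < v a
  uni : ∃ w, v w = exp (-1 : ℤ)

lemma exists_good [IsDedekindDomain B] (π : B →ₐ[k] k) (h : RingHom.ker π ≠ ⊥) :
    ∃ v : Valuation B ℤᵐ⁰, Good k v := by
  let P : IsDedekindDomain.HeightOneSpectrum B := ⟨RingHom.ker π, RingHom.ker_isPrime π, h⟩
  refine ⟨P.intValuation, P.intValuation_ne_zero, P.intValuation_le_one, fun a b ha hab => ?_,
    P.intValuation_exists_uniformizer⟩
  have h0 := P.intValuation_ne_zero a ha
  obtain ⟨y, hy⟩ := P.exists_intValuation_mul_sub_lt hab (unzero h0)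
  rw [coe_unzero] at hy
  refine ⟨π y, ?_⟩
  have e : b - π y • a = (b - y * a) + (y - algebraMap k B (π y)) * a := by
    rw [Algebra.smul_def]; ring
  rw [e]
  refine P.intValuation.map_add_lt hy ?_
  rw [map_mul]
  have : P.intValuation (y - algebraMap k B (π y)) < 1 := by
    rw [P.intValuation_lt_one_iff_mem]
    show _ ∈ RingHom.ker π
    simp [RingHom.mem_ker]
  exact mul_lt_of_lt_one_left (zero_lt_iff.2 h0) this

variable {k} {v : Valuation B ℤᵐ⁰}

lemma Good.smul (h : Good k v) {c : k} (hc : c ≠ 0) (f : B) : v (c • f) = v f := by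
  have h1 : v (algebraMap k B c) * v (algebraMap k B c⁻¹) = 1 := by
    rw [← map_mul, ← map_mul, mul_inv_cancel₀ hc, map_one, map_one]
  have h2 : v (algebraMap k B c) = 1 := by
    refine le_antisymm (h.le _) ?_
    calc 1 = _ := h1.symm
      _ ≤ v (algebraMap k B c) * 1 := mul_le_mul_right (h.le _) _
      _ = _ := mul_one _
  rw [Algebra.smul_def, map_mul, h2, one_mul]

lemma Good.sum_eq (h : Good k v) {ι : Type} [Fintype ι] (t : ι → B)
    (hd : ∀ i j, t i ≠ 0 → t j ≠ 0 → v (t i) = v (t j) → i = j) (h0 : ∃ i, t i ≠ 0) :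
    ∃ i, t i ≠ 0 ∧ v (∑ j, t j) = v (t i) := by
  classical
  obtain ⟨i0, hi0⟩ := h0
  obtain ⟨i, -, hi⟩ := Finset.exists_max_image Finset.univ (fun i => v (t i))
    ⟨i0, Finset.mem_univ _⟩
  have hne : t i ≠ 0 := by
    intro e
    have := hi i0 (Finset.mem_univ _)
    rw [e, map_zero, le_zero_iff] at this
    exact h.ne _ hi0 this
  refine ⟨i, hne, v.map_sum_eq_of_lt (Finset.mem_univ i) fun j hj => ?_⟩
  refine lt_of_le_of_ne (hi j (Finset.mem_univ _)) fun e => ?_
  have hj0 : t j ≠ 0 := fun e' => h.ne _ hne (by rw [← e, e', map_zero])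
  simp [hd j i hj0 hne e] at hj

lemma Good.bound (h : Good k v) {f : B} [Module.Finite k (B ⧸ Ideal.span {f})] {N : ℕ}
    (hN : finrank k (B ⧸ Ideal.span {f}) ≤ N) : exp (-(N : ℤ)) ≤ v f := by
  by_contra hlt
  rw [not_le] at hlt
  obtain ⟨w, hw⟩ := h.uni
  have hw0 : w ≠ 0 := fun e => by
    rw [e, map_zero] at hw
    exact exp_ne_zero hw.symm
  have hv : ∀ (i : ℕ) (c : k), c ≠ 0 → v (c • w ^ i) = exp (-(i : ℤ)) := by
    intro i c hc
    rw [h.smul hc, map_pow, hw, ← exp_nsmul]
    simp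
  have : ¬ LinearIndependent k
      (fun i : Fin (N + 1) => Ideal.Quotient.mkₐ k (Ideal.span {f}) (w ^ (i : ℕ))) := by
    intro hl
    have := hl.fintype_card_le_finrank
    simp only [Fintype.card_fin] at this
    omega
  obtain ⟨a, h1, i0, h2⟩ := Fintype.not_linearIndependent_iff.1 this
  have h3 : ∑ i : Fin (N + 1), a i • w ^ (i : ℕ) ∈ Ideal.span {f} := by
    rw [← Ideal.Quotient.eq_zero_iff_mem]
    show Ideal.Quotient.mkₐ k (Ideal.span {f}) _ = 0
    rw [map_sum]
    simpa only [map_smul] using h1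
  obtain ⟨g, hg⟩ := Ideal.mem_span_singleton'.1 h3
  obtain ⟨i, hi, e⟩ := h.sum_eq (fun i : Fin (N + 1) => a i • w ^ (i : ℕ))
    (fun i j hi hj e => by
      rw [hv _ _ (left_ne_zero_of_smul hi), hv _ _ (left_ne_zero_of_smul hj), exp_inj] at e
      exact Fin.ext (by omega))
    ⟨i0, smul_ne_zero h2 (pow_ne_zero _ hw0)⟩
  rw [← hg, hv _ _ (left_ne_zero_of_smul hi), map_mul] at e
  have h4 : v g * v f ≤ v f := mul_le_of_le_one_left' (h.le g)
  have h5 := (e ▸ h4).trans_lt hlt
  rw [exp_lt_exp] at h5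
  have := i.2
  omega

/-- the elements of small valuation -/
def Good.lt (h : Good k v) (γ : ℤᵐ⁰) (hγ : γ ≠ 0) : Submodule k B where
  carrier := {g | v g < γ}
  add_mem' := fun ha hb => v.map_add_lt ha hb
  zero_mem' := by simpa using zero_lt_iff.2 hγ
  smul_mem' := fun c x hx => by
    rcases eq_or_ne c 0 with rfl | hc
    · simpa using zero_lt_iff.2 hγ
    · show v (c • x) < γ
      rw [h.smul hc]; exact hx

lemma Good.distinct (h : Good k v) (N : ℕ) : ∀ (W : Submodule k B) [FiniteDimensional k W],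
    N ≤ finrank k W → ∃ w : Fin N → B, (∀ i, w i ∈ W ∧ w i ≠ 0) ∧
      Function.Injective fun i => v (w i) := by
  classical
  induction N with
  | zero => exact fun W _ _ => ⟨Fin.elim0, fun i => i.elim0, fun i => i.elim0⟩
  | succ N ih =>
    intro W _ hW
    have hex : ∀ g : B, g ≠ 0 → ∃ n : ℕ, v g = exp (-(n : ℤ)) := by
      intro g hg
      have h1 := h.le g
      rw [← exp_log (h.ne g hg), ← exp_zero, exp_le_exp] at h1
      refine ⟨(-log (v g)).toNat, ?_⟩
      rw [Int.toNat_of_nonneg (by omega), neg_neg, exp_log (h.ne g hg)]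
    have hP : ∃ n : ℕ, ∃ f ∈ W, f ≠ 0 ∧ v f = exp (-(n : ℤ)) := by
      have : W ≠ ⊥ := by
        rintro rfl
        simp at hW
      obtain ⟨f, hf, hf0⟩ := W.exists_mem_ne_zero_of_ne_bot this
      obtain ⟨n, hn⟩ := hex f hf0
      exact ⟨n, f, hf, hf0, hn⟩
    obtain ⟨f, hf, hf0, hvf⟩ := Nat.find_spec hP
    have hmax : ∀ g ∈ W, v g ≤ v f := by
      intro g hg
      rcases eq_or_ne g 0 with rfl | hg0
      · simp
      obtain ⟨n, hn⟩ := hex g hg0
      have := Nat.find_min' hP ⟨g, hg, hg0, hn⟩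
      rw [hn, hvf, exp_le_exp]
      omega
    let W' := W ⊓ h.lt (v f) (h.ne f hf0)
    have : FiniteDimensional k W' := Submodule.finiteDimensional_of_le inf_le_left
    have hle : W ≤ W' ⊔ Submodule.span k {f} := by
      intro g hg
      obtain ⟨c, hc⟩ := h.res f g hf0 (hmax g hg)
      have e : g = (g - c • f) + c • f := by ring
      rw [e]
      exact Submodule.add_mem_sup ⟨W.sub_mem hg (W.smul_mem c hf), hc⟩
        (Submodule.smul_mem _ _ (Submodule.mem_span_singleton_self f))
    have h1 := (Submodule.finrank_mono hle).trans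
      (Submodule.finrank_add_le_finrank_add_finrank _ _)
    rw [finrank_span_singleton hf0] at h1
    obtain ⟨w, hw, hinj⟩ := ih W' (by omega)
    refine ⟨Fin.cons f w, fun i => ?_, ?_⟩
    · refine Fin.cases ?_ (fun i => ?_) i
      · exact ⟨hf, hf0⟩
      · exact ⟨(hw i).1.1, (hw i).2⟩
    · have : (fun i => v ((Fin.cons f w : Fin (N + 1) → B) i)) =
          Fin.cons (v f) (fun i => v (w i)) := by
        ext i
        refine Fin.cases rfl (fun i => rfl) i
      rw [this, Fin.cons_injective_iff]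
      refine ⟨?_, hinj⟩
      rintro ⟨i, hi⟩
      exact (ne_of_lt (show v (w i) < v f from (hw i).1.2)) hi

end Pool.Agent.Lib.MP_587b89_lc
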