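import Pool.Agent.Lib.MP_587b89_lc.Deg
import Pool.Agent.Lib.MP_587b89_lc.Val

/-!
The Stepanov-Bombieri upper bound for the number of fixed points of a twisted Frobenius.
-/

set_option autoImplicit false
set_option linter.unusedSectionVars false
open Polynomial Module WithZero

namespace Pool.Agent.Lib.MP_587b89_lc

variable {k : Type} [Field k] {B : Type} [CommRing B] [Algebra k[X] B] {D : ℕ}
  (b : Basis (Fin D) k[X] B) [IsDomain B] [Algebra k B] [IsScalarTower k k[X] B]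

lemma dg_span {n : ℕ} {f : B} (hf : f ∈ Submodule.span k (Set.range (mon b n))) : dg b f ≤ n := by
  obtain ⟨a, rfl⟩ := (Submodule.mem_span_range_iff_exists_fun k).1 hf
  exact dg_sum_le b _ _ fun i _ => (dg_csmul_le b _ _).trans (dg_mon b n i)

lemma val_ge {v : Valuation B ℤᵐ⁰} (h : Good k v) {f : B} (hf : f ≠ 0) {l : ℕ} (hl : dg b f ≤ l) :
    exp (-((D * (l + c0 b) : ℕ) : ℤ)) ≤ v f := by
  have := finite_quot b hf
  exact h.bound ((finrank_quot_le b hf).trans (Nat.mul_le_mul_left _ (Nat.add_le_add_right hl _)))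

lemma sum_ne_zero {v : Valuation B ℤᵐ⁰} (h : Good k v) {ι : Type} [Fintype ι] (u w : ι → B)
    (hw : ∀ i, w i ≠ 0) (hinj : Function.Injective fun i => v (w i)) {l Q : ℕ}
    (hu : ∀ i, dg b (u i) ≤ l) (hQ : D * (l + c0 b) < Q) (h0 : ∃ i, u i ≠ 0) :
    ∑ i, u i * w i ^ Q ≠ 0 := by
  obtain ⟨i0, hi0⟩ := h0
  obtain ⟨i, hi, e⟩ := h.sum_eq (fun i => u i * w i ^ Q) (fun i j hi hj e => by
    have hi' := left_ne_zero_of_mul hi
    have hj' := left_ne_zero_of_mul hj
    apply hinj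
    have a1 := val_ge b h hi' (hu i)
    have a2 := val_ge b h hj' (hu j)
    have a3 := h.le (u i)
    have a4 := h.le (u j)
    simp only [map_mul, map_pow] at e
    show v (w i) = v (w j)
    rw [← exp_log (h.ne _ hi')] at a1 a3 e
    rw [← exp_log (h.ne _ hj')] at a2 a4 e
    rw [← exp_log (h.ne _ (hw i)), ← exp_log (h.ne _ (hw j))] at e ⊢
    rw [← exp_nsmul, ← exp_nsmul, ← exp_add, ← exp_add, exp_inj] at e
    rw [← exp_zero] at a3 a4
    rw [exp_le_exp] at a1 a2 a3 a4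
    rw [exp_inj]
    simp only [nsmul_eq_mul] at e
    generalize log (v (w i)) = x at *
    generalize log (v (w j)) = y at *
    generalize D * (l + c0 b) = T at *
    have hQ' : (T : ℤ) < Q := by exact_mod_cast hQ
    rcases lt_trichotomy x y with hxy | hxy | hxy
    · nlinarith
    · exact hxy
    · nlinarith) ⟨i0, mul_ne_zero hi0 (pow_ne_zero _ (hw i0))⟩
  intro hz
  rw [hz, map_zero] at e
  exact h.ne _ hi e.symm

theorem upper [IsAlgClosed k] (p : ℕ) [Fact p.Prime] [CharP k p] {v : Valuation B ℤᵐ⁰}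
    (h : Good k v) (c1 t : ℕ) : ∃ C s0 : ℕ, ∀ s, s0 ≤ s → ∀ ψ : B → B,
      (∀ f, dg b (ψ f) ≤ dg b f + c1) → ∀ S : Finset (B →ₐ[k] k),
      (∀ π ∈ S, ∀ f, π (ψ f) = π f ^ p ^ s) → t * S.card ≤ (t + 1) * p ^ s + C := by
  classical
  have hp : 1 < p := (Fact.out : p.Prime).one_lt
  have hD : 0 < D := by
    have := b.index_nonempty
    exact Fin.pos_iff_nonempty.2 this
  obtain ⟨c, hc⟩ : ∃ c, c = c0 b := ⟨_, rfl⟩
  obtain ⟨μ, hμ⟩ : ∃ μ, μ = t * D * c := ⟨_, rfl⟩
  obtain ⟨P, hP⟩ : ∃ P, P = p ^ μ := ⟨_, rfl⟩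
  have hμP : μ < P := hP ▸ Nat.lt_pow_self hp
  obtain ⟨n, hn⟩ : ∃ n, n = P / D := ⟨_, rfl⟩
  have hn1 : D * n ≤ P := hn ▸ Nat.mul_div_le P D
  have hn2 : P < D * (n + 1) := hn ▸ Nat.lt_mul_div_succ P hD
  obtain ⟨l, hl⟩ : ∃ l, l = P * c + n + 2 * c + c1 := ⟨_, rfl⟩
  have : FiniteDimensional k (Submodule.span k (Set.range (mon b n))) :=
    FiniteDimensional.span_of_finite k (Set.finite_range _)
  obtain ⟨w, hw, hinj⟩ := h.distinct (D * (n + 1)) (Submodule.span k (Set.range (mon b n)))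
    (by rw [finrank_span_eq_card (mon_indep b n)]; simp)
  refine ⟨t * (D * (l + 3 * c)), μ + D * (l + c), fun s hs ψ hψ S hS => ?_⟩
  obtain ⟨Q, hQ⟩ : ∃ Q, Q = p ^ (s - μ) := ⟨_, rfl⟩
  have hQP : p ^ s = Q * P := by rw [hQ, hP, ← pow_add]; congr 1; omega
  have hQl : D * (l + c) < Q := by
    rw [hQ]
    exact lt_of_le_of_lt (by omega) (Nat.lt_pow_self hp)
  obtain ⟨a, ha, x0, hx0⟩ := exists_rel b (n := P * (l + c) + c + (n + c1) + c)
    (fun x : (Fin D × Fin (l + 1)) × Fin (D * (n + 1)) => mon b l x.1 ^ P * ψ (w x.2))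
    (fun x => by
      refine (dg_mul_le b _ _).trans ?_
      have a1 := dg_pow_le b (mon b l x.1) P
      have a2 := dg_mon b l x.1
      have a3 := hψ (w x.2)
      have a4 := dg_span b (hw x.2).1
      rw [← hc] at a1 ⊢
      have a5 : P * (dg b (mon b l x.1) + c) ≤ P * (l + c) := Nat.mul_le_mul_left _ (by omega)
      omega)
    (by
      simp only [Fintype.card_prod, Fintype.card_fin]
      rw [mul_assoc]
      refine Nat.mul_lt_mul_of_pos_left ?_ hD
      have a1 : (l + 1) * (P + 1) ≤ (l + 1) * (D * (n + 1)) := Nat.mul_le_mul_left _ hn2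
      refine lt_of_lt_of_le ?_ a1
      nlinarith)
  have hP0 : 0 < P := by omega
  choose a' ha' using fun x => IsAlgClosed.exists_pow_nat_eq (a x) hP0
  let u : Fin (D * (n + 1)) → B := fun i => ∑ j, a' (j, i) • mon b l j
  have hu : ∀ i, dg b (u i) ≤ l := fun i =>
    dg_sum_le b _ _ fun j _ => (dg_csmul_le b _ _).trans (dg_mon b l j)
  have hu0 : u x0.2 ≠ 0 := by
    intro e
    have := Fintype.linearIndependent_iff.1 (mon_indep b l) _ e x0.1
    apply hx0
    rw [← ha' x0]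
    simp only [Prod.mk.eta] at this
    rw [this, zero_pow hP0.ne']
  have hf0 := sum_ne_zero b h u w (fun i => (hw i).2) hinj hu (hc ▸ hQl) ⟨_, hu0⟩
  have hcard := card_zeros_le b hf0 S (fun π hπ => by
    apply pow_eq_zero_iff hP0.ne' |>.1
    have e := congrArg π ha
    rw [map_sum, map_zero, Fintype.sum_prod_type_right] at e
    rw [← e, map_sum, hP, sum_pow_char_pow]
    refine Finset.sum_congr rfl fun i _ => ?_
    rw [map_mul, mul_pow, map_sum, sum_pow_char_pow, Finset.sum_mul]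
    refine Finset.sum_congr rfl fun j _ => ?_
    rw [map_smul, map_smul, map_mul, hS π hπ, hQP, ← hP, map_pow, map_pow, smul_eq_mul,
      smul_eq_mul, mul_pow, ha', ← pow_mul, mul_assoc])
  have hdg : dg b (∑ i, u i * w i ^ Q) ≤ l + (Q * (n + c) + c) + c := by
    refine dg_sum_le b _ _ fun i _ => (dg_mul_le b _ _).trans ?_
    have a1 := dg_pow_le b (w i) Q
    have a2 := hu i
    have a4 := dg_span b (hw i).1
    rw [← hc] at a1 ⊢
    have a5 : Q * (dg b (w i) + c) ≤ Q * (n + c) := Nat.mul_le_mul_left _ (by omega)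
    omega
  rw [← hc] at hcard
  have a1 : S.card ≤ D * (l + (Q * (n + c) + c) + c + c) :=
    hcard.trans (Nat.mul_le_mul_left _ (by omega))
  have a2 : t * (D * (n + c)) ≤ (t + 1) * P := by nlinarith
  calc t * S.card ≤ t * (D * (l + (Q * (n + c) + c) + c + c)) := Nat.mul_le_mul_left _ a1
    _ = Q * (t * (D * (n + c))) + t * (D * (l + 3 * c)) := by ring
    _ ≤ Q * ((t + 1) * P) + t * (D * (l + 3 * c)) :=
        Nat.add_le_add_right (Nat.mul_le_mul_left _ a2) _
    _ = _ := by rw [hQP]; ring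

end Pool.Agent.Lib.MP_587b89_lc
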