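import Pool.Agent.Lib.MP_587b89_lc.Code

/-!
Characteristic two: polynomials `X G(X)^2` many of whose fibres split.
-/

set_option autoImplicit false
set_option linter.unusedSectionVars false
open Filter Topology Polynomial

namespace Pool.Agent.Lib.MP_587b89_lc

/-- a polynomial `X G^2` of degree `2 g + 1` whose fibres over the points `s j` split -/
def Comp (K : Type) [Field K] {σ : Type} (s : σ → K) (g : ℕ) : Prop :=
  ∃ (G : K[X]) (ι : Type) (_ : Fintype ι) (x : σ → ι → K), G.natDegree = g ∧ G ≠ 0 ∧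
    Fintype.card ι = 2 * g + 1 ∧ (∀ j, Function.Injective (x j)) ∧
    ∀ j i, x j i * G.eval (x j i) ^ 2 = s j

lemma word_of_comp {F K : Type} [Field F] [Field K] [Algebra F K] [CharP K 2] (S : Finset F)
    (hS : ∀ s ∈ S, s ≠ 0) {g : ℕ} (h : Comp K (fun s : S => algebraMap F K s) g) :
    Word F K (S.card * (2 * g + 1)) := by
  classical
  obtain ⟨G, ι, _, x, hG, hG0, hcard, hinj, hx⟩ := h
  beta_reduce at hx
  obtain ⟨u, hu⟩ : ∃ u, u = X * G ^ 2 := ⟨_, rfl⟩
  have hue : ∀ (j : S) i, u.eval (x j i) = algebraMap F K j := fun j i => by simp [hu, hx]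
  have hu0 : u ≠ 0 := hu ▸ mul_ne_zero X_ne_zero (pow_ne_zero _ hG0)
  have hud : u.natDegree = 2 * g + 1 := by
    rw [hu, natDegree_mul X_ne_zero (pow_ne_zero _ hG0), natDegree_pow, hG, natDegree_X]; ring
  have hγ : u.leadingCoeff ≠ 0 := leadingCoeff_ne_zero.2 hu0
  have hfac : ∀ j : S, u - C (algebraMap F K j) =
      C u.leadingCoeff * Lagrange.nodal Finset.univ (x j) := by
    intro j
    have hd : (u - C (algebraMap F K j)).degree = (Finset.univ : Finset ι).card := by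
      rw [degree_sub_C (natDegree_pos_iff_degree_pos.1 (by omega)), degree_eq_natDegree hu0, hud,
        Finset.card_univ, hcard]
    refine eq_of_degree_sub_lt_of_eval_index_eq Finset.univ (hinj j).injOn ?_ fun i hi => ?_
    · rw [← hd]
      refine degree_sub_lt_left ?_ (fun h => by simp [h] at hd) ?_
      · rw [hd, degree_C_mul hγ, Lagrange.degree_nodal]
      · rw [leadingCoeff_sub_of_degree_lt (degree_C_le.trans_lt
          (natDegree_pos_iff_degree_pos.1 (by omega))), leadingCoeff_mul, leadingCoeff_C,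
          Lagrange.nodal_monic.leadingCoeff, mul_one]
    · simp [hue, Lagrange.eval_nodal_at_node hi]
  have hx0 : ∀ (j : S) i, x j i ≠ 0 := fun j i h => hS j j.2 (by
    have := hx j i
    rw [h, zero_mul] at this
    exact (_root_.map_eq_zero _).1 this.symm)
  have hinj' : Function.Injective fun a : S × ι => x a.1 a.2 := by
    rintro ⟨j, i⟩ ⟨j', i'⟩ h
    have h' : x j i = x j' i' := h
    have : j = j' := Subtype.ext ((algebraMap F K).injective (by rw [← hue j i, h', hue]))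
    subst this
    rw [hinj j h']
  let P : F[X] := Lagrange.nodal Finset.univ fun j : S => (j : F)
  have hP : ∀ j : S, (derivative P).eval (j : F) ≠ 0 := fun j => by
    rw [Lagrange.eval_nodal_derivative_eval_node_eq (v := fun j : S => (j : F)) (Finset.mem_univ j)]
    exact Lagrange.eval_nodal_not_at_node fun i hi h =>
      (Finset.mem_erase.1 hi).1 (Subtype.ext h.symm)
  have hcomp : (P.map (algebraMap F K)).comp u = C (u.leadingCoeff ^ S.card) *
      Lagrange.nodal Finset.univ fun a : S × ι => x a.1 a.2 := by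
    simp only [P, Lagrange.nodal, Polynomial.map_prod, prod_comp, Polynomial.map_sub, map_X, map_C,
      sub_comp, X_comp, C_comp, hfac, Finset.prod_mul_distrib, Fintype.prod_prod_type]
    simp
  have hder : ∀ a : S × ι, u.leadingCoeff ^ S.card * x a.1 a.2 *
      ∏ b ∈ Finset.univ.erase a, (x a.1 a.2 - x b.1 b.2) =
      algebraMap F K (a.1 * (derivative P).eval (a.1 : F)) := by
    intro a
    have h1 := congrArg (fun r => (derivative r).eval (x a.1 a.2)) hcomp
    simp only [derivative_comp, derivative_C_mul, eval_mul, eval_C, eval_comp, hue] at h1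
    rw [Lagrange.eval_nodal_derivative_eval_node_eq (v := fun a : S × ι => x a.1 a.2)
      (Finset.mem_univ a), Lagrange.eval_nodal, derivative_map, eval_map_algebraMap,
      aeval_algebraMap_apply_eq_algebraMap_eval] at h1
    rw [mul_right_comm, ← h1, map_mul, ← hx a.1 a.2, hu]
    simp [derivative_pow, CharTwo.two_eq_zero]
    ring
  refine ⟨S × ι, inferInstance, fun a => x a.1 a.2,
    fun a => (a.1 * (derivative P).eval (a.1 : F))⁻¹, by simp [hcard], hinj',
    fun a => hx0 _ _, fun a => inv_ne_zero (mul_ne_zero (hS _ a.1.2) (hP _)), fun j hj hj' => ?_⟩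
  obtain ⟨n, rfl⟩ := Nat.exists_eq_add_of_le' hj
  have hc : (Finset.univ : Finset (S × ι)).card = S.card * (2 * g + 1) := by simp [hcard]
  have := Lagrange.coeff_eq_sum (s := Finset.univ) hinj'.injOn (P := X ^ n) (by
    rw [degree_X_pow, hc]; exact_mod_cast (by omega))
  rw [coeff_X_pow, if_neg (by omega)] at this
  rw [← mul_zero (u.leadingCoeff ^ S.card)⁻¹, this, Finset.mul_sum]
  refine Finset.sum_congr rfl fun a _ => ?_
  have h0 := hx0 a.1 a.2
  rw [map_inv₀, ← hder, eval_pow, eval_X, mul_inv, mul_inv, div_eq_mul_inv, pow_succ]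
  field_simp

/-- the homogenisation of `G` -/
noncomputable def hom {K : Type} [Field K] (G : K[X]) (ε t : K) : K :=
  ∑ j ∈ Finset.range (G.natDegree + 1), G.coeff j * t ^ j * ε ^ (G.natDegree - j)

/-- the divided difference of the homogenisation -/
noncomputable def hom1 {K : Type} [Field K] (G : K[X]) (ε ζ : K) : K :=
  ∑ j ∈ Finset.range (G.natDegree + 1),
    G.coeff j * (∑ m ∈ Finset.range j, (1 + ζ) ^ m) * ε ^ (G.natDegree - j)

lemma hom_eq {K : Type} [Field K] (G : K[X]) (ε y : K) :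
    hom G ε (ε * y) = ε ^ G.natDegree * G.eval y := by
  rw [hom, eval_eq_sum_range, Finset.mul_sum]
  refine Finset.sum_congr rfl fun j hj => ?_
  obtain ⟨d, hd⟩ := Nat.exists_eq_add_of_le (Nat.lt_succ_iff.1 (Finset.mem_range.1 hj))
  rw [hd, Nat.add_sub_cancel_left]
  ring

lemma hom1_eq {K : Type} [Field K] (G : K[X]) (ε ζ : K) :
    ζ * hom1 G ε ζ = hom G ε (1 + ζ) - hom G ε 1 := by
  rw [hom, hom, hom1, Finset.mul_sum, ← Finset.sum_sub_distrib]
  refine Finset.sum_congr rfl fun j _ => ?_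
  have := mul_geom_sum (1 + ζ) j
  rw [add_sub_cancel_left] at this
  rw [one_pow, ← sub_mul, ← mul_sub, ← this]
  ring

lemma hom_zero {K : Type} [Field K] (G : K[X]) : hom G 0 1 = G.leadingCoeff := by
  rw [hom, Finset.sum_range_succ, Finset.sum_eq_zero fun j hj => by
    rw [zero_pow (by have := Finset.mem_range.1 hj; omega), mul_zero]]
  simp

lemma hom1_zero {K : Type} [Field K] (G : K[X]) : hom1 G 0 0 = G.leadingCoeff * G.natDegree := by
  rw [hom1, Finset.sum_range_succ, Finset.sum_eq_zero fun j hj => by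
    rw [zero_pow (by have := Finset.mem_range.1 hj; omega), mul_zero]]
  simp

lemma tele {K : Type} [Field K] [CharP K 2] (w : K) (e : ℕ) :
    (∑ i ∈ Finset.range e, w ^ 2 ^ i) ^ 2 + ∑ i ∈ Finset.range e, w ^ 2 ^ i = w ^ 2 ^ e + w := by
  induction e with
  | zero => simp [CharTwo.add_self_eq_zero]
  | succ e ih =>
    rw [Finset.sum_range_succ, CharTwo.add_sq, ← pow_mul, ← pow_succ]
    linear_combination ih + (w ^ 2 ^ e) * (CharTwo.two_eq_zero (R := K))

/-- the denominator of the local coordinate of a new root -/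
noncomputable def den {K : Type} [Field K] (e : ℕ) (a z D : K) : K :=
  ∑ i ∈ Finset.range (e + 1), a ^ 2 ^ i * z ^ (2 ^ e - 2 ^ i) + D * z ^ 2 ^ e

lemma den_zero {K : Type} [Field K] (e : ℕ) (a D : K) : den e a 0 D = a ^ 2 ^ e := by
  rw [den, Finset.sum_range_succ, Finset.sum_eq_zero fun j hj => by
    have := Nat.pow_lt_pow_right one_lt_two (Finset.mem_range.1 hj)
    rw [zero_pow (by omega), mul_zero]]
  simp

/-- the equation for a new root -/
noncomputable def eqN {K : Type} [Field K] (G : K[X]) (κ ε ζ D : K) : K :=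
  hom1 G ε ζ ^ 2 + (1 + (1 + ζ) * (D ^ 2 + D + κ)) * hom G ε (1 + ζ) ^ 2

lemma new_root {K : Type} [Field K] [CharP K 2] (G : K[X]) {e : ℕ} {a θ ε z D : K} (ha : a ≠ 0)
    (haq : a ^ 2 ^ (e + 1) = a) (hε : ε ≠ 0) (hz : z ≠ 0) (hd : den e a z D ≠ 0)
    (h0 : hom G ε 1 ≠ 0)
    (h1 : hom G ε 1 ^ 2 * z ^ 2 ^ (e + 1) =
      ε ^ (2 * G.natDegree + 1) * (1 + z ^ (2 ^ (e + 1) - 1) + θ * z ^ 2 ^ (e + 1)))
    (h2 : eqN G (a * θ) ε (z ^ 2 ^ e / den e a z D) D = 0) :
    (1 + z ^ 2 ^ e / den e a z D) / ε *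
      (G * (C ε * X + 1)).eval ((1 + z ^ 2 ^ e / den e a z D) / ε) ^ 2 = a⁻¹ := by
  have two := CharTwo.two_eq_zero (R := K)
  obtain ⟨W, hW⟩ : ∃ W, W = ∑ i ∈ Finset.range (e + 1), (a * z⁻¹) ^ 2 ^ i := ⟨_, rfl⟩
  have hden : den e a z D = z ^ 2 ^ e * (W + D) := by
    rw [den, hW, mul_add, Finset.mul_sum, mul_comm D]
    congr 1
    refine Finset.sum_congr rfl fun i hi => ?_
    rw [pow_sub₀ _ hz (Nat.pow_le_pow_right two_pos (Nat.lt_succ_iff.1 (Finset.mem_range.1 hi))),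
      mul_pow, inv_pow]
    ring
  obtain ⟨ζ, hζ⟩ : ∃ ζ, ζ = z ^ 2 ^ e / den e a z D := ⟨_, rfl⟩
  have hV : ζ * (W + D) = 1 := by
    rw [hζ, div_mul_eq_mul_div, ← hden, div_self hd]
  have hWW := tele (a * z⁻¹) (e + 1)
  rw [← hW, mul_pow, haq] at hWW
  obtain ⟨U, hU⟩ : ∃ U, U = z⁻¹ ^ 2 ^ (e + 1) + z⁻¹ + θ := ⟨_, rfl⟩
  have hT0 : hom G ε 1 ^ 2 = ε ^ (2 * G.natDegree + 1) * U := by
    apply mul_right_cancel₀ (pow_ne_zero (2 ^ (e + 1)) hz)
    rw [h1, hU, pow_sub₀ _ hz Nat.one_le_two_pow, inv_pow]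
    field_simp
  have hU0 : U ≠ 0 := fun h => h0 (by simpa [h] using hT0)
  rw [← hζ] at h2 ⊢
  have h3 := hom1_eq G ε ζ
  have h4 := hom_eq G ε ((1 + ζ) / ε)
  rw [mul_div_cancel₀ _ hε] at h4
  rw [eqN] at h2
  obtain ⟨T, hT⟩ : ∃ T, T = hom G ε (1 + ζ) := ⟨_, rfl⟩
  rw [← hT] at h2 h3 h4
  have h5 : a * U * ζ ^ 2 = 1 + ζ + (D ^ 2 + D + a * θ) * ζ ^ 2 := by
    rw [hU]
    linear_combination (-ζ ^ 2) * hWW + (ζ * (W - D) + 1 + ζ) * hV
      - (ζ * D + D * ζ ^ 2) * two
  have h6 : hom G ε 1 ^ 2 = T ^ 2 * (1 + ζ) * (a * U * ζ ^ 2) := by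
    rw [h5]
    linear_combination (-ζ ^ 2) * h2 + (ζ * hom1 G ε ζ + (T - hom G ε 1)) * h3 +
      (hom G ε 1 ^ 2 - T * hom G ε 1 - T ^ 2 * ζ) * two
  have h7 : ε ^ (2 * G.natDegree + 1) = T ^ 2 * (1 + ζ) * a * ζ ^ 2 :=
    mul_right_cancel₀ hU0 (by rw [← hT0, h6]; ring)
  have h8 : (G * (C ε * X + 1)).eval ((1 + ζ) / ε) = T / ε ^ G.natDegree * ζ := by
    rw [eval_mul, h4, mul_div_cancel_left₀ _ (pow_ne_zero _ hε)]
    simp only [eval_add, eval_mul, eval_C, eval_X, eval_one, mul_div_cancel₀ _ hε]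
    congr 1
    linear_combination two
  rw [h8]
  field_simp
  linear_combination (-1 : K) * h7

lemma bez {K : Type} [Field K] {γ : K} (hγ : γ ≠ 0) (g e : ℕ) :
    ∃ A B : K, A ≠ 0 ∧ B ≠ 0 ∧ γ * B ^ 2 ^ (e + 1) = A ^ (2 * g + 1) := by
  obtain ⟨a, -, ha⟩ := Nat.exists_mul_mod_eq_one_of_coprime (k := 2 ^ (e + 1)) (n := 2 * g + 1)
    (Nat.Coprime.pow_right _ (by simp)) (Nat.one_lt_two_pow (by omega))
  refine ⟨γ ^ a, γ ^ ((2 * g + 1) * a / 2 ^ (e + 1)), pow_ne_zero _ hγ, pow_ne_zero _ hγ, ?_⟩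
  rw [← pow_mul, ← pow_mul, ← pow_succ', mul_comm a]
  congr 1
  have := Nat.div_add_mod' ((2 * g + 1) * a) (2 ^ (e + 1))
  omega

lemma eqN_an {K Y : Type} [NontriviallyNormedField K] [NormedAddCommGroup Y] [NormedSpace K Y]
    (G : K[X]) (κ : K) {ε ζ D : Y → K} {y : Y} (h1 : ContDiffAt K ⊤ ε y) (h2 : ContDiffAt K ⊤ ζ y)
    (h3 : ContDiffAt K ⊤ D y) : ContDiffAt K ⊤ (fun x => eqN G κ (ε x) (ζ x) (D x)) y := by
  unfold eqN hom hom1
  fun_prop

lemma eqN_zero {K : Type} [Field K] (G : K[X]) (κ D : K) :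
    eqN G κ 0 0 D = G.leadingCoeff ^ 2 * (G.natDegree ^ 2 + 1 + (D ^ 2 + D + κ)) := by
  rw [eqN, hom1_zero, add_zero, hom_zero]; ring

theorem comp_step {K σ : Type} [NontriviallyNormedField K] [CompleteSpace K] [CharP K 2]
    [Fintype σ] (a : σ → K) (ha : ∀ j, a j ≠ 0) {e : ℕ} (haq : ∀ j, a j ^ 2 ^ (e + 1) = a j)
    {θ : K} {g : ℕ} (hd : ∀ j, ∃ d, (g : K) ^ 2 + 1 + (d ^ 2 + d + a j * θ) = 0)
    (h : Comp K (fun j => (a j)⁻¹) g) : Comp K (fun j => (a j)⁻¹) (g + 1) := by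
  classical
  have two := CharTwo.two_eq_zero (R := K)
  obtain ⟨G, ι, _, x, hG, hG0, hcard, hinj, hx⟩ := h
  beta_reduce at hx
  choose d hd using hd
  have hγ : G.leadingCoeff ^ 2 ≠ 0 := pow_ne_zero _ (leadingCoeff_ne_zero.2 hG0)
  obtain ⟨A, B, hA, hB, hAB⟩ := bez hγ g e
  let Y := (K × (σ × ι → K) × (σ × Bool → K)) × K
  let ε : Y → K := fun y => A * y.2 ^ 2 ^ (e + 1) * y.1.1
  let z : Y → K := fun y => B * y.2 ^ (2 * g + 1)
  let ζ : σ × Bool → Y → K := fun j y => z y ^ 2 ^ e / den e (a j.1) (z y) (y.1.2.2 j)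
  let E : Y → K × (σ × ι → K) × (σ × Bool → K) := fun y =>
    (y.1.1 ^ (2 * g + 1) * (1 + z y ^ (2 ^ (e + 1) - 1) + θ * z y ^ 2 ^ (e + 1)) *
      G.leadingCoeff ^ 2 - hom G (ε y) 1 ^ 2,
    fun j => y.1.2.1 j * (G.eval (y.1.2.1 j) * (ε y * y.1.2.1 j + 1)) ^ 2 - (a j.1)⁻¹,
    fun j => eqN G (a j.1 * θ) (ε y) (ζ j y) (y.1.2.2 j))
  let v0 : K × (σ × ι → K) × (σ × Bool → K) :=
    (1, fun j => x j.1 j.2, fun j => d j.1 + if j.2 then 1 else 0)
  have p1 : 2 ^ (e + 1) - 1 ≠ 0 := by have := Nat.one_lt_two_pow (n := e + 1) (by omega); omega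
  have hε0 : ∀ v, ε (v, 0) = 0 := fun v => by simp [ε]
  have hz0 : ∀ v, z (v, 0) = 0 := fun v => by simp [z]
  have hζ0 : ∀ j v, ζ j (v, 0) = 0 := fun j v => by simp [ζ, hz0]
  have hE0 : ∀ v, E (v, 0) = (v.1 ^ (2 * g + 1) * G.leadingCoeff ^ 2 - G.leadingCoeff ^ 2,
      fun j => v.2.1 j * G.eval (v.2.1 j) ^ 2 - (a j.1)⁻¹,
      fun j => G.leadingCoeff ^ 2 * (g ^ 2 + 1 + (v.2.2 j ^ 2 + v.2.2 j + a j.1 * θ))) := by
    intro v
    simp [E, hε0, hz0, hζ0, hom_zero, eqN_zero, hG, zero_pow p1]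
  have hE00 : E (v0, 0) = 0 := by
    rw [hE0]
    refine Prod.ext (by simp [v0]) (Prod.ext (funext fun j => by simp [v0, hx])
      (funext fun j => ?_))
    obtain ⟨j, b⟩ := j
    cases b
    · simp [v0, hd]
    · simp only [v0, if_true, Prod.snd_zero, Pi.zero_apply]
      linear_combination G.leadingCoeff ^ 2 * hd j + G.leadingCoeff ^ 2 * (d j + 1) * two
  have cε : ContDiffAt K ⊤ ε (v0, 0) := by simp only [ε]; fun_prop
  have cz : ContDiffAt K ⊤ z (v0, 0) := by simp only [z]; fun_prop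
  have cden : ∀ j : σ × Bool,
      ContDiffAt K ⊤ (fun y : Y => den e (a j.1) (z y) (y.1.2.2 j)) (v0, 0) := fun j => by
    unfold den; fun_prop
  have hden0 : ∀ j : σ × Bool, den e (a j.1) (z (v0, 0)) (v0.2.2 j) ≠ 0 := fun j => by
    rw [hz0, den_zero]; exact pow_ne_zero _ (ha _)
  have cζ : ∀ j, ContDiffAt K ⊤ (ζ j) (v0, 0) := fun j => (cz.pow _).div (cden j) (hden0 j)
  have chom : ContDiffAt K ⊤ (fun y => hom G (ε y) 1) (v0, 0) := by unfold hom; fun_prop
  have hPr : ∀ᶠ y in 𝓝 ((v0, 0) : Y), y.1.1 ≠ 0 ∧ hom G (ε y) 1 ≠ 0 ∧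
      (∀ j, den e (a j.1) (z y) (y.1.2.2 j) ≠ 0) ∧
      (∀ j i i', i ≠ i' → y.1.2.1 (j, i) - y.1.2.1 (j, i') ≠ 0) ∧
      (∀ j i i', i ≠ i' → y.1.2.2 (j, i) - y.1.2.2 (j, i') ≠ 0) ∧
      ∀ j i b, ε y * y.1.2.1 (j, i) - (1 + ζ (j, b) y) ≠ 0 := by
    refine Eventually.and ?_ (Eventually.and ?_ (Eventually.and ?_ (Eventually.and ?_
      (Eventually.and ?_ ?_))))
    · exact ContinuousAt.eventually_ne (by fun_prop) one_ne_zero
    · refine chom.continuousAt.eventually_ne ?_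
      rw [hε0, hom_zero]
      exact leadingCoeff_ne_zero.2 hG0
    · exact eventually_all.2 fun j => (cden j).continuousAt.eventually_ne (hden0 j)
    · refine eventually_all.2 fun j => eventually_all.2 fun i => eventually_all.2 fun i' =>
        eventually_all.2 fun hi => ?_
      exact ContinuousAt.eventually_ne (by fun_prop) (sub_ne_zero.2 ((hinj j).ne hi))
    · refine eventually_all.2 fun j => eventually_all.2 fun i => eventually_all.2 fun i' =>
        eventually_all.2 fun hi => ?_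
      refine ContinuousAt.eventually_ne (by fun_prop) ?_
      cases i <;> cases i' <;> simp [v0] at hi ⊢
    · refine eventually_all.2 fun j => eventually_all.2 fun i => eventually_all.2 fun b => ?_
      have h1 := cε.continuousAt
      have h2 := (cζ (j, b)).continuousAt
      refine ContinuousAt.eventually_ne (by fun_prop) ?_
      simp [hε0, hζ0]
  have key := ift2 (K := K) (E := E) (v0 := v0) (z0 := 0)
    (ContDiffAt.analyticAt (ContDiffAt.prodMk (by fun_prop) (ContDiffAt.prodMk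
      (contDiffAt_pi.2 fun j => by
        simp only [eval_eq_sum_range]
        fun_prop)
      (contDiffAt_pi.2 fun j => eqN_an G _ cε (cζ j) (by fun_prop))))) (fun w => by
      have hG1 : ∀ j : σ × ι, G.eval (x j.1 j.2) ^ 2 ≠ 0 := fun j h =>
        inv_ne_zero (ha j.1) (by rw [← hx j.1 j.2, h, mul_zero])
      refine ⟨(w.1 / G.leadingCoeff ^ 2, fun j => w.2.1 j / G.eval (x j.1 j.2) ^ 2,
        fun j => w.2.2 j / G.leadingCoeff ^ 2), ?_⟩
      simp only [hE0]
      have hl : ∀ c c' : K, HasDerivAt (fun t : K => c + t * c') c' 0 := fun c c' => by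
        simpa using ((hasDerivAt_id (0 : K)).mul_const c').const_add c
      refine HasDerivAt.prodMk ?_ (HasDerivAt.prodMk (hasDerivAt_pi.2 fun j => ?_)
        (hasDerivAt_pi.2 fun j => ?_))
      · refine ((((hl 1 _).pow _).mul_const _).sub_const _).congr_deriv ?_
        simp [two, hγ]
      · have h1 := hl (x j.1 j.2) (w.2.1 j / G.eval (x j.1 j.2) ^ 2)
        have h2 := (G.hasDerivAt _).comp (0 : K) h1
        refine ((h1.mul (h2.pow 2)).sub_const _).congr_deriv ?_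
        simp [two, hG1]
      · have h1 := hl (v0.2.2 j) (w.2.2 j / G.leadingCoeff ^ 2)
        refine (((((h1.pow 2).add h1).add_const _).const_add _).const_mul _).congr_deriv ?_
        simp [two, hγ, mul_div_cancel₀]) hPr
  obtain ⟨s, ⟨v, hv, d0, d1, d2, d3, d4, d5⟩, hs⟩ :=
    ((key.filter_mono nhdsWithin_le_nhds).and (self_mem_nhdsWithin (s := {0}ᶜ))).exists
  have hs0 : s ≠ 0 := hs
  rw [hE00] at hv
  have hε : ε (v, s) ≠ 0 := mul_ne_zero (mul_ne_zero hA (pow_ne_zero _ hs0)) d0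
  have hz : z (v, s) ≠ 0 := mul_ne_zero hB (pow_ne_zero _ hs0)
  have hne : (C (ε (v, s)) * X + 1 : K[X]) ≠ 0 := fun h => by
    simpa using congrArg (eval 0) h
  refine ⟨G * (C (ε (v, s)) * X + 1), ι ⊕ Bool, inferInstance,
    fun j => Sum.elim (fun i => v.2.1 (j, i)) fun b => (1 + ζ (j, b) (v, s)) / ε (v, s), ?_,
    mul_ne_zero hG0 hne, by simp [hcard]; ring, fun j => ?_, fun j => ?_⟩
  · rw [natDegree_mul hG0 hne, hG, ← C_1, natDegree_linear hε]
  · rintro (i | i) (i' | i') hi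
    · by_contra hne
      exact d3 j i i' (fun e => hne (by rw [e])) (sub_eq_zero.2 hi)
    · exact absurd (sub_eq_zero.2 ((eq_div_iff hε).1 hi ▸ mul_comm _ _)) (d5 j i i')
    · exact absurd (sub_eq_zero.2 ((eq_div_iff hε).1 hi.symm ▸ mul_comm _ _)) (d5 j i' i)
    · by_contra hne
      refine d4 j i i' (fun e => hne (by rw [e])) (sub_eq_zero.2 ?_)
      have h1 : ζ (j, i) (v, s) = ζ (j, i') (v, s) :=
        add_left_cancel ((div_left_inj' hε).1 hi)
      have h2 := (div_eq_div_iff (d2 (j, i)) (d2 (j, i'))).1 h1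
      have h3 := mul_left_cancel₀ (pow_ne_zero _ hz) h2
      exact (mul_right_cancel₀ (pow_ne_zero _ hz) (add_left_cancel h3)).symm
  · rintro (i | b)
    · have := congrFun (congrArg (fun w => w.2.1) hv) (j, i)
      simpa [E, sub_eq_zero] using this
    · refine new_root G (θ := θ) (ha j) (haq j) hε hz (d2 (j, b)) d1 ?_
        (congrFun (congrArg (fun w => w.2.2) hv) (j, b))
      have h1 := sub_eq_zero.1 (congrArg Prod.fst hv)
      rw [← h1, hG]
      simp only [ε, z, mul_pow, ← hAB, ← pow_mul, mul_comm (2 * g + 1)]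
      ring

lemma exists_set (F : Type) [Field F] [Fintype F] [CharP F 2] : ∃ (θ : F) (T : Finset F),
    Fintype.card F ≤ 2 * T.card ∧ ∀ a ∈ T, a ≠ 0 ∧ ∃ d, 1 + (d ^ 2 + d + a * θ) = 0 := by
  classical
  by_cases h : ∃ d : F, 1 + (d ^ 2 + d) = 0
  · refine ⟨0, Finset.univ.erase 0, ?_, fun a ha => ⟨(Finset.mem_erase.1 ha).1, by simpa using h⟩⟩
    rw [Finset.card_erase_of_mem (Finset.mem_univ _), Finset.card_univ]
    have := Fintype.one_lt_card (α := F)
    omega
  · refine ⟨1, Finset.univ.image fun d : F => 1 + (d ^ 2 + d), ?_, fun a ha => ?_⟩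
    · refine Finset.card_le_mul_card_image _ 2 fun b hb => ?_
      obtain ⟨d, -, rfl⟩ := Finset.mem_image.1 hb
      refine (Finset.card_le_card (t := {d, d + 1}) fun y hy => ?_).trans Finset.card_le_two
      have h1 := (Finset.mem_filter.1 hy).2
      have h2 : (y - d) * (y - (d + 1)) = 0 := by
        linear_combination h1 + (d ^ 2 + d - y * d - y) * (CharTwo.two_eq_zero (R := F))
      simpa [sub_eq_zero] using h2
    · obtain ⟨d, -, rfl⟩ := Finset.mem_image.1 ha
      exact ⟨fun e => h ⟨d, e⟩, d, by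
        linear_combination (1 + d ^ 2 + d) * (CharTwo.two_eq_zero (R := F))⟩

theorem word_two (F : Type) [Field F] [Fintype F] (h2 : ringChar F = 2) {δ : ℕ}
    (hd : ¬ Fintype.card F ∣ δ) (K : Type) [NontriviallyNormedField K] [CompleteSpace K]
    [Algebra F K] : Word F K δ := by
  classical
  have : CharP F 2 := h2 ▸ ringChar.charP F
  have : CharP K 2 := charP_of_injective_algebraMap (algebraMap F K).injective _
  obtain ⟨⟨e, he⟩, -, hq⟩ := FiniteField.card F 2
  obtain ⟨e, rfl⟩ := Nat.exists_eq_add_of_le' he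
  change _ = 2 ^ (e + 1) at hq
  obtain ⟨r, _, ⟨g, rfl⟩, rfl⟩ := Nat.exists_eq_two_pow_mul_odd (n := δ) (by rintro rfl; simp at hd)
  have hr : r ≤ e := by
    by_contra h
    exact hd (hq ▸ (pow_dvd_pow 2 (by omega)).mul_right _)
  obtain ⟨θ, T, hT, hT'⟩ := exists_set F
  obtain ⟨T', hTT, hT'c⟩ := Finset.exists_subset_card_eq (s := T) (n := 2 ^ r) (by
    have := Nat.pow_le_pow_right two_pos hr
    rw [hq, pow_succ] at hT
    omega)
  let S := T'.image (·⁻¹)
  have hS : ∀ s ∈ S, s⁻¹ ∈ T := fun s hs => by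
    obtain ⟨t, ht, rfl⟩ := Finset.mem_image.1 hs
    simpa using hTT ht
  have hSc : S.card = 2 ^ r := by rw [Finset.card_image_of_injective _ inv_injective, hT'c]
  rw [← hSc]
  refine word_of_comp S (fun s hs => by simpa using (hT' _ (hS s hs)).1) ?_
  have e1 : (fun s : S => algebraMap F K s) = fun s : S => (algebraMap F K (s : F)⁻¹)⁻¹ := by simp
  rw [e1]
  clear hd
  induction g with
  | zero =>
    exact ⟨1, Unit, inferInstance, fun j _ => (algebraMap F K (j : F)⁻¹)⁻¹, by simp, by simp,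
      by simp, fun j => Function.injective_of_subsingleton _, by simp⟩
  | succ g ih =>
    refine comp_step (e := e) (θ := (g + 1) ^ 2 * algebraMap F K θ)
      (fun s : S => algebraMap F K (s : F)⁻¹)
      (fun j => (_root_.map_ne_zero _).2 (hT' _ (hS j j.2)).1)
      (fun j => by rw [← map_pow, ← hq, FiniteField.pow_card]) (fun j => ?_) ih
    obtain ⟨d, hd⟩ := (hT' _ (hS j j.2)).2
    have h1 := congrArg (algebraMap F K) hd
    simp only [map_add, map_mul, map_pow, map_one, map_zero] at h1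
    have h3 : (g : K) ^ 2 = g := map_natCast (frobenius K 2) g
    have two := CharTwo.two_eq_zero (R := K)
    refine ⟨(g + 1) * algebraMap F K d, ?_⟩
    linear_combination (g + 1) ^ 2 * h1 - algebraMap F K d * h3 - (g + g * algebraMap F K d) * two

end Pool.Agent.Lib.MP_587b89_lc
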