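import Mathlib

/-!
Residue classes of exponents in power series over a field of characteristic two.
-/

set_option autoImplicit false
set_option linter.unusedSectionVars false
open PowerSeries

namespace Pool.Agent.Lib.MP_587b89_lc.Win

variable {E : Type} [Field E]

lemma coeff_sq [CharP E 2] (f : E⟦X⟧) (i : ℕ) :
    coeff i (f ^ 2) = if 2 ∣ i then coeff (i / 2) f ^ 2 else 0 := by
  classical
  rw [sq, coeff_mul]
  have h := Finset.sum_involution (s := (Finset.HasAntidiagonal.antidiagonal i).filter fun p => p.1 ≠ p.2)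
    (f := fun p => coeff p.1 f * coeff p.2 f) (fun p _ => p.swap)
    (fun p _ => by simp only [Prod.fst_swap, Prod.snd_swap]; rw [mul_comm, CharTwo.add_self_eq_zero])
    (fun p hp _ e => (Finset.mem_filter.1 hp).2 (by simpa using (congrArg Prod.snd e)))
    (fun p hp => by
      have := Finset.mem_filter.1 hp
      simp only [Finset.mem_filter, Finset.HasAntidiagonal.mem_antidiagonal, Prod.fst_swap, Prod.snd_swap] at this ⊢
      exact ⟨by omega, fun e => this.2 e.symm⟩)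
    (fun p _ => rfl)
  rw [← Finset.sum_filter_add_sum_filter_not _ (fun p : ℕ × ℕ => p.1 ≠ p.2), h, zero_add]
  split_ifs with hi
  · obtain ⟨k, rfl⟩ := hi
    rw [Finset.sum_eq_single (k, k)]
    · simp [sq]
    · intro p hp hne
      simp only [Finset.mem_filter, Finset.HasAntidiagonal.mem_antidiagonal, not_not] at hp
      exact absurd (Prod.ext (by simp; omega) (by simp; omega)) hne
    · intro h
      exact absurd (by simp; omega) h
  · refine Finset.sum_eq_zero fun p hp => ?_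
    simp only [Finset.mem_filter, Finset.HasAntidiagonal.mem_antidiagonal, not_not] at hp
    exact absurd ⟨p.1, by omega⟩ hi

lemma coeff_four [CharP E 2] (f : E⟦X⟧) (i : ℕ) :
    coeff i (f ^ 4) = if 4 ∣ i then coeff (i / 4) f ^ 4 else 0 := by
  rw [show f ^ 4 = (f ^ 2) ^ 2 by ring, coeff_sq, coeff_sq]
  by_cases h4 : 4 ∣ i
  · obtain ⟨k, rfl⟩ := h4
    rw [if_pos (by omega), if_pos (by omega), if_pos (by omega),
      show 4 * k / 2 / 2 = 4 * k / 4 by omega]
    ring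
  · rw [if_neg h4]
    split_ifs with h1 h2
    · omega
    · simp
    · rfl

lemma exists_pair [CharP E 2] {f g : E⟦X⟧} {D : ℕ} (h : coeff D (f * g ^ 2) ≠ 0) :
    ∃ a b, a + 2 * b = D ∧ coeff a f ≠ 0 ∧ coeff b g ≠ 0 := by
  rw [coeff_mul] at h
  obtain ⟨p, hp, h1⟩ := Finset.exists_ne_zero_of_sum_ne_zero h
  rw [Finset.HasAntidiagonal.mem_antidiagonal] at hp
  rw [coeff_sq] at h1
  split_ifs at h1 with h2
  · exact ⟨p.1, p.2 / 2, by omega, left_ne_zero_of_mul h1,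
      fun e => right_ne_zero_of_mul h1 (by rw [e]; simp)⟩
  · simp at h1

lemma exists_other_pair [CharP E 2] {f : E⟦X⟧} {a b : ℕ} (h : coeff (a + 2 * b) (f * f ^ 2) = 0)
    (ha : coeff a f ≠ 0) (hb : coeff b f ≠ 0) :
    ∃ a' b', a' + 2 * b' = a + 2 * b ∧ b' ≠ b ∧ coeff a' f ≠ 0 ∧ coeff b' f ≠ 0 := by
  by_contra hne
  push Not at hne
  rw [coeff_mul, Finset.sum_eq_single (a, 2 * b)] at h
  · rw [coeff_sq, if_pos (by omega), show 2 * b / 2 = b by omega] at h
    exact mul_ne_zero ha (pow_ne_zero _ hb) h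
  · intro p hp hp'
    rw [Finset.HasAntidiagonal.mem_antidiagonal] at hp
    rw [coeff_sq]
    split_ifs with h2
    · by_cases h1 : coeff p.1 f = 0
      · rw [h1, zero_mul]
      · rw [hne p.1 (p.2 / 2) (by omega) (fun e => hp' (Prod.ext (by simp; omega) (by simp; omega)))
          h1]
        simp
    · simp
  · intro h
    exact absurd (by simp) h

/-- all exponents `u` of `f` satisfy `o + u = L` modulo `M` -/
def Cl (o M L : ℕ) (f : E⟦X⟧) : Prop := ∀ u, coeff u f ≠ 0 → o + u ≡ L [MOD M]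

/-- the part of `f` with `o + u = L` modulo `M` -/
noncomputable def pr (o M L : ℕ) (f : E⟦X⟧) : E⟦X⟧ :=
  PowerSeries.mk fun u => if o + u ≡ L [MOD M] then coeff u f else 0

lemma coeff_pr (o M L : ℕ) (f : E⟦X⟧) (u : ℕ) :
    coeff u (pr o M L f) = if o + u ≡ L [MOD M] then coeff u f else 0 := by
  simp [pr]

lemma cl_pr (o M L : ℕ) (f : E⟦X⟧) : Cl o M L (pr o M L f) := fun u h => by
  rw [coeff_pr] at h
  by_contra h1
  exact h (if_neg h1)

lemma pr_add (o M L : ℕ) (f g : E⟦X⟧) : pr o M L (f + g) = pr o M L f + pr o M L g := by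
  ext u
  simp only [coeff_pr, map_add]
  split_ifs <;> simp

lemma pr_sub (o M L : ℕ) (f g : E⟦X⟧) : pr o M L (f - g) = pr o M L f - pr o M L g := by
  ext u
  simp only [coeff_pr, map_sub]
  split_ifs <;> simp

lemma Cl.pr_eq {o M L : ℕ} {f : E⟦X⟧} (h : Cl o M L f) : pr o M L f = f := by
  ext u
  rw [coeff_pr]
  split_ifs with h1
  · rfl
  · by_contra h2
    exact h1 (h u (Ne.symm h2))

lemma Cl.pr_zero {o M L L' : ℕ} {f : E⟦X⟧} (h : Cl o M L f) (hL : ¬ L ≡ L' [MOD M]) :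
    pr o M L' f = 0 := by
  ext u
  rw [coeff_pr]
  split_ifs with h1
  · by_contra h2
    exact hL ((h u h2).symm.trans h1)
  · rfl

lemma Cl.of_dvd {o M M' L : ℕ} {f : E⟦X⟧} (h : Cl o M L f) (hM : M' ∣ M) : Cl o M' L f :=
  fun u hu => (h u hu).of_dvd hM

lemma Cl.congr {o M L L' : ℕ} {f : E⟦X⟧} (h : Cl o M L f) (hL : L ≡ L' [MOD M]) : Cl o M L' f :=
  fun u hu => (h u hu).trans hL

lemma pr_congr {o M L L' : ℕ} (f : E⟦X⟧) (hL : L ≡ L' [MOD M]) : pr o M L f = pr o M L' f := by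
  ext u
  simp only [coeff_pr]
  exact if_congr ⟨fun h => h.trans hL, fun h => h.trans hL.symm⟩ rfl rfl

lemma Cl.mul {o o' M L L' : ℕ} {f g : E⟦X⟧} (hf : Cl o M L f) (hg : Cl o' M L' g) :
    Cl (o + o') M (L + L') (f * g) := fun u hu => by
  rw [coeff_mul] at hu
  obtain ⟨p, hp, h1⟩ := Finset.exists_ne_zero_of_sum_ne_zero hu
  rw [Finset.HasAntidiagonal.mem_antidiagonal] at hp
  have := (hf _ (left_ne_zero_of_mul h1)).add (hg _ (right_ne_zero_of_mul h1))
  rwa [show o + p.1 + (o' + p.2) = o + o' + u by omega] at this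

lemma Cl.add {o M L : ℕ} {f g : E⟦X⟧} (hf : Cl o M L f) (hg : Cl o M L g) :
    Cl o M L (f + g) := fun u hu => by
  rw [map_add] at hu
  by_cases h : coeff u f = 0
  · exact hg u (by rwa [h, zero_add] at hu)
  · exact hf u h

lemma cl_X_pow (M k : ℕ) : Cl 0 M k ((X : E⟦X⟧) ^ k) := fun u hu => by
  rw [coeff_X_pow] at hu
  split_ifs at hu with h
  · rw [h, zero_add]
  · exact absurd rfl hu

lemma Cl.mul0 {M : ℕ} {f g : E⟦X⟧} (hf : Cl 0 M 0 f) (hg : Cl 0 M 0 g) : Cl 0 M 0 (f * g) :=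
  hf.mul hg

lemma Cl.pow {M : ℕ} {f : E⟦X⟧} (hf : Cl 0 M 0 f) (k : ℕ) : Cl 0 M 0 (f ^ k) := by
  induction k with
  | zero => simpa using cl_X_pow (E := E) M 0
  | succ k ih => rw [pow_succ]; exact ih.mul0 hf

lemma Cl.sq [CharP E 2] {M : ℕ} {f : E⟦X⟧} (hf : Cl 0 M 0 f) : Cl 0 (2 * M) 0 (f ^ 2) :=
  fun u hu => by
  rw [coeff_sq] at hu
  split_ifs at hu with h
  · obtain ⟨k, rfl⟩ := h
    have := hf (2 * k / 2) fun e => hu (by rw [e]; simp)
    rw [show 2 * k / 2 = k by omega] at this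
    simpa using this.mul_left' 2
  · exact absurd rfl hu

lemma Cl.two_pow [CharP E 2] {M : ℕ} {f : E⟦X⟧} (hf : Cl 0 M 0 f) (k : ℕ) :
    Cl 0 (2 ^ k * M) 0 (f ^ 2 ^ k) := by
  induction k with
  | zero => simpa using hf
  | succ k ih =>
    have := ih.sq
    rwa [← pow_mul, ← pow_succ, ← mul_assoc, ← pow_succ'] at this

/-- projection of a product whose first factor lies in one class -/
lemma pr_mul {o o' M L L' : ℕ} {f : E⟦X⟧} (hf : Cl o M L f) (g : E⟦X⟧) :
    pr (o + o') M (L + L') (f * g) = f * pr o' M L' g := by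
  ext u
  rw [coeff_pr, coeff_mul, coeff_mul]
  split_ifs with h
  · refine Finset.sum_congr rfl fun p hp => ?_
    rw [Finset.HasAntidiagonal.mem_antidiagonal] at hp
    by_cases h1 : coeff p.1 f = 0
    · simp [h1]
    · rw [coeff_pr, if_pos]
      have h2 : o + p.1 + (o' + p.2) ≡ L + L' [MOD M] := by
        rwa [show o + p.1 + (o' + p.2) = o + o' + u by omega]
      exact Nat.ModEq.add_left_cancel (hf _ h1) h2
  · refine (Finset.sum_eq_zero fun p hp => ?_).symm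
    rw [Finset.HasAntidiagonal.mem_antidiagonal] at hp
    by_cases h1 : coeff p.1 f = 0
    · simp [h1]
    · rw [coeff_pr, if_neg, mul_zero]
      intro h2
      have := (hf _ h1).add h2
      rw [show o + p.1 + (o' + p.2) = o + o' + u by omega] at this
      exact h this

lemma pr_mul0 {o M L : ℕ} {f : E⟦X⟧} (hf : Cl 0 M 0 f) (g : E⟦X⟧) :
    pr o M L (f * g) = f * pr o M L g := by
  simpa using pr_mul (o' := o) (L' := L) hf g

lemma pr_mulL {o M L L' : ℕ} {f : E⟦X⟧} (hf : Cl 0 M L f) (g : E⟦X⟧) :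
    pr o M (L + L') (f * g) = f * pr o M L' g := by
  simpa using pr_mul (o' := o) (L' := L') hf g

lemma pr_mulR {o M L L' : ℕ} {f : E⟦X⟧} (hf : Cl o M L f) (g : E⟦X⟧) :
    pr o M (L + L') (g * f) = pr 0 M L' g * f := by
  rw [mul_comm g, mul_comm _ f]
  simpa using pr_mul (o' := 0) (L' := L') hf g

lemma dvd_pr {W o M L : ℕ} {f : E⟦X⟧} (h : (X : E⟦X⟧) ^ W ∣ f) :
    (X : E⟦X⟧) ^ W ∣ pr o M L f := by
  rw [X_pow_dvd_iff] at h ⊢
  intro u hu
  rw [coeff_pr, h u hu, ite_self]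

lemma pr_pr {o M M' L L' : ℕ} (hM : M' ∣ M) (hL : L ≡ L' [MOD M']) (f : E⟦X⟧) :
    pr o M L (pr o M' L' f) = pr o M L f := by
  ext u
  simp only [coeff_pr]
  split_ifs with h1 h2
  · rfl
  · exact absurd ((h1.of_dvd hM).trans hL) h2
  · rfl

/-- a series in one class modulo `M` splits into two classes modulo `2 M` -/
lemma Cl.split {o M L : ℕ} {f : E⟦X⟧} (hM : 0 < M) (h : Cl o M L f) :
    f = pr o (2 * M) L f + pr o (2 * M) (L + M) f := by
  ext u
  rw [map_add, coeff_pr, coeff_pr]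
  by_cases h0 : coeff u f = 0
  · simp [h0]
  have h1 := (Nat.modEq_iff_dvd.1 (h u h0))
  obtain ⟨k, hk⟩ := h1
  rcases Int.even_or_odd' k with ⟨j, rfl | rfl⟩
  · rw [if_pos, if_neg, add_zero]
    · intro h2
      obtain ⟨j', hj'⟩ := Nat.modEq_iff_dvd.1 h2
      push_cast at hk hj'
      have : (M : ℤ) * (2 * j' - 2 * j - 1) = 0 := by linear_combination hk - hj'
      rcases mul_eq_zero.1 this with h3 | h3 <;> omega
    · exact Nat.modEq_iff_dvd.2 ⟨j, by push_cast at hk ⊢; linear_combination hk⟩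
  · rw [if_neg, if_pos, zero_add]
    · exact Nat.modEq_iff_dvd.2 ⟨j + 1, by push_cast at hk ⊢; linear_combination hk⟩
    · intro h2
      obtain ⟨j', hj'⟩ := Nat.modEq_iff_dvd.1 h2
      push_cast at hk hj'
      have : (M : ℤ) * (2 * j' - 2 * j - 1) = 0 := by linear_combination hk - hj'
      rcases mul_eq_zero.1 this with h3 | h3 <;> omega

lemma cancel {W d o : ℕ} {g y : E⟦X⟧} (h : (X : E⟦X⟧) ^ (W + d) ∣ g * y) (ho : coeff o g ≠ 0)
    (hd : o ≤ d) : (X : E⟦X⟧) ^ W ∣ y := by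
  have h1 : ((W + d : ℕ) : ℕ∞) ≤ order (g * y) := nat_le_order _ _ (X_pow_dvd_iff.1 h)
  have h2 : order g ≤ (d : ℕ) := (order_le o ho).trans (by exact_mod_cast hd)
  rw [order_mul] at h1
  rw [X_pow_dvd_iff]
  intro u hu
  by_contra h3
  have h4 := h1.trans (add_le_add h2 (order_le u h3))
  have : W + d ≤ d + u := by exact_mod_cast h4
  omega

/-- the class projection for polynomials -/
noncomputable def ppr (M L : ℕ) (G : Polynomial E) : Polynomial E :=
  trunc (G.natDegree + 1) (pr 0 M L (G : E⟦X⟧))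

lemma coeff_ppr (M L : ℕ) (G : Polynomial E) (u : ℕ) :
    (ppr M L G).coeff u = coeff u (pr 0 M L (G : E⟦X⟧)) := by
  rw [ppr, coeff_trunc]
  split_ifs with h
  · rfl
  · rw [coeff_pr, Polynomial.coeff_coe, Polynomial.coeff_eq_zero_of_natDegree_lt (by omega),
      ite_self]

lemma coe_ppr (M L : ℕ) (G : Polynomial E) :
    ((ppr M L G : Polynomial E) : E⟦X⟧) = pr 0 M L (G : E⟦X⟧) := by
  ext u
  rw [Polynomial.coeff_coe, coeff_ppr]

lemma natDegree_ppr (M L : ℕ) (G : Polynomial E) : (ppr M L G).natDegree ≤ G.natDegree := by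
  rw [Polynomial.natDegree_le_iff_coeff_eq_zero]
  intro u hu
  rw [coeff_ppr, coeff_pr, Polynomial.coeff_coe, Polynomial.coeff_eq_zero_of_natDegree_lt hu,
    ite_self]

lemma Cl.natDegree {M L : ℕ} {G : Polynomial E} (h : Cl 0 M L (G : E⟦X⟧)) (hG : G ≠ 0) :
    G.natDegree ≡ L [MOD M] := by
  simpa using h G.natDegree (by
    rw [Polynomial.coeff_coe]; exact Polynomial.leadingCoeff_ne_zero.2 hG)

lemma poly_zero {W : ℕ} {G : Polynomial E} (h : (X : E⟦X⟧) ^ W ∣ (G : E⟦X⟧))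
    (hd : G.natDegree < W) : G = 0 := by
  by_contra hG
  have := X_pow_dvd_iff.1 h _ hd
  rw [Polynomial.coeff_coe] at this
  exact Polynomial.leadingCoeff_ne_zero.2 hG this

/-- if `N V_o = N_o V` for coprime `N`, `V`, then both lie in the class zero -/
lemma class_up [CharP E 2] {β : ℕ} (hβ : 0 < β) {N V : Polynomial E} (hc : IsCoprime N V)
    (hV0 : V ≠ 0) (hN : Cl 0 β 0 (N : E⟦X⟧)) (hV : Cl 0 β 0 (V : E⟦X⟧))
    (h : N * ppr (2 * β) β V = ppr (2 * β) β N * V) :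
    Cl 0 (2 * β) 0 (N : E⟦X⟧) ∧ Cl 0 (2 * β) 0 (V : E⟦X⟧) := by
  have hz : ∀ G : Polynomial E, (ppr (2 * β) β G).coeff 0 = 0 := fun G => by
    rw [coeff_ppr, coeff_pr, if_neg]
    intro h
    have := Nat.le_of_dvd hβ ((Nat.modEq_zero_iff_dvd.1 (Nat.ModEq.symm h)))
    omega
  have hVo : ppr (2 * β) β V = 0 := by
    by_contra hne
    obtain ⟨u, hu⟩ : V ∣ ppr (2 * β) β V :=
      hc.symm.dvd_of_dvd_mul_left (h ▸ Dvd.intro_left _ rfl)
    have hu0 : u ≠ 0 := fun e => hne (by rw [hu, e, mul_zero])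
    have hd := natDegree_ppr (2 * β) β V
    rw [hu, Polynomial.natDegree_mul hV0 hu0] at hd
    obtain ⟨k, rfl⟩ := Polynomial.natDegree_eq_zero.1 (show u.natDegree = 0 by omega)
    have hk : k ≠ 0 := fun e => hu0 (by rw [e, map_zero])
    have h1 := hz V
    rw [hu, Polynomial.coeff_mul_C, mul_eq_zero, or_iff_left hk] at h1
    have h2 : ppr (2 * β) β N = N * Polynomial.C k := by
      apply mul_right_cancel₀ hV0
      rw [← h, hu]; ring
    have h3 := hz N
    rw [h2, Polynomial.coeff_mul_C, mul_eq_zero, or_iff_left hk] at h3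
    exact Polynomial.not_isUnit_X (hc.isUnit_of_dvd' (Polynomial.X_dvd_iff.2 h3)
      (Polynomial.X_dvd_iff.2 h1))
  have hNo : ppr (2 * β) β N = 0 := by
    rw [hVo, mul_zero] at h
    exact (mul_eq_zero.1 h.symm).resolve_right hV0
  constructor
  · have := hN.split hβ
    rw [zero_add, ← coe_ppr (2 * β) β, hNo, Polynomial.coe_zero, add_zero] at this
    rw [this]; exact cl_pr _ _ _ _
  · have := hV.split hβ
    rw [zero_add, ← coe_ppr (2 * β) β, hVo, Polynomial.coe_zero, add_zero] at this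
    rw [this]; exact cl_pr _ _ _ _

lemma class_up' [CharP E 2] {β : ℕ} (hβ : 0 < β) {N V : Polynomial E} (hc : IsCoprime N V)
    (hV0 : V ≠ 0) (hN : Cl 0 β 0 (N : E⟦X⟧)) (hV : Cl 0 β 0 (V : E⟦X⟧))
    (h : pr 0 (2 * β) β ((N : E⟦X⟧) * (V : E⟦X⟧)) = 0) :
    Cl 0 (2 * β) 0 (N : E⟦X⟧) ∧ Cl 0 (2 * β) 0 (V : E⟦X⟧) := by
  refine class_up hβ hc hV0 hN hV ?_
  apply Polynomial.coe_injective E
  simp only [Polynomial.coe_mul, coe_ppr]
  have h1 := hN.split hβ
  have h2 := hV.split hβ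
  rw [zero_add] at h1 h2
  set Ne := pr 0 (2 * β) 0 (N : E⟦X⟧)
  set No := pr 0 (2 * β) β (N : E⟦X⟧)
  set Ve := pr 0 (2 * β) 0 (V : E⟦X⟧)
  set Vo := pr 0 (2 * β) β (V : E⟦X⟧)
  have e1 : pr 0 (2 * β) β (Ne * (V : E⟦X⟧)) = Ne * Vo := pr_mul0 (cl_pr _ _ _ _) _
  have e2 : pr 0 (2 * β) β (No * (V : E⟦X⟧)) = No * Ve := by
    simpa using pr_mulL (o := 0) (L' := 0) (cl_pr 0 (2 * β) β (N : E⟦X⟧)) (V : E⟦X⟧)
  have e3 : (N : E⟦X⟧) * (V : E⟦X⟧) = Ne * (V : E⟦X⟧) + No * (V : E⟦X⟧) := by rw [← add_mul, ← h1]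
  rw [e3, pr_add, e1, e2] at h
  have two : (2 : E⟦X⟧) = 0 := by
    have : (2 : E⟦X⟧) = C (2 : E) := (map_ofNat _ 2).symm
    rw [this, CharTwo.two_eq_zero, map_zero]
  rw [h1, h2]
  linear_combination h - No * Ve * two

/-- the degree count -/
lemma degree_kill {N V U₁ U₂ : Polynomial E} (hc : IsCoprime N V) (hV0 : V ≠ 0) {M k s c Md : ℕ}
    (h : U₁ * V ^ M = Polynomial.X ^ k * N ^ M * U₂)
    (h1 : U₁.natDegree ≤ N.natDegree + s * V.natDegree)
    (h2 : U₂.natDegree ≤ N.natDegree + s * V.natDegree)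
    (hcl : Cl 0 Md c (U₁ : E⟦X⟧)) (hc' : c < Md) (hN0 : N ≠ 0) (hMd : Md ∣ M * N.natDegree)
    (hin : ∀ a b q : ℕ, c ≤ q → M * b + q ≤ k + a + s * b → M * a + q ≤ a + s * b → False) :
    U₁ = 0 ∧ U₂ = 0 := by
  obtain ⟨Q, hQ⟩ : V ^ M ∣ Polynomial.X ^ k * U₂ :=
    (hc.pow (m := M) (n := M)).symm.dvd_of_dvd_mul_left ⟨U₁, by linear_combination -h⟩
  have hU : U₁ = N ^ M * Q := by
    apply mul_right_cancel₀ (pow_ne_zero M hV0)
    rw [h]; linear_combination N ^ M * hQ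
  have hQ0 : Q = 0 := by
    by_contra hQ0
    have hU1 : U₁ ≠ 0 := hU ▸ mul_ne_zero (pow_ne_zero _ hN0) hQ0
    have hU2 : U₂ ≠ 0 := fun e => mul_ne_zero (pow_ne_zero M hV0) hQ0 (by rw [← hQ, e, mul_zero])
    have d1 := congrArg Polynomial.natDegree hU
    have d2 := congrArg Polynomial.natDegree hQ
    rw [Polynomial.natDegree_mul (pow_ne_zero _ hN0) hQ0, Polynomial.natDegree_pow] at d1
    rw [Polynomial.natDegree_mul (pow_ne_zero _ hV0) hQ0, Polynomial.natDegree_pow,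
      Polynomial.natDegree_mul (pow_ne_zero _ Polynomial.X_ne_zero) hU2,
      Polynomial.natDegree_X_pow] at d2
    have d3 := hcl.natDegree hU1
    rw [d1] at d3
    have d4 : Q.natDegree ≡ c [MOD Md] := by
      have : M * N.natDegree + Q.natDegree ≡ 0 + Q.natDegree [MOD Md] :=
        ((Nat.modEq_zero_iff_dvd.2 hMd)).add_right _
      simpa using this.symm.trans d3
    have d5 : c ≤ Q.natDegree := by
      have := d4
      rw [Nat.ModEq, Nat.mod_eq_of_lt hc'] at this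
      rw [← this]; exact Nat.mod_le _ _
    exact hin N.natDegree V.natDegree Q.natDegree d5 (by omega) (by omega)
  refine ⟨by rw [hU, hQ0, mul_zero], ?_⟩
  rw [hQ0, mul_zero] at hQ
  exact (mul_eq_zero.1 hQ).resolve_left (pow_ne_zero _ Polynomial.X_ne_zero)

end Pool.Agent.Lib.MP_587b89_lc.Win
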