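import Pool.Agent.Lib.MP_587b89_lc.WinA

/-!
The height lemma: the quotient of the two odd classes is a monomial.
-/

set_option autoImplicit false
set_option linter.unusedSectionVars false
open PowerSeries

namespace Pool.Agent.Lib.MP_587b89_lc.Win

variable {E : Type} [Field E] [CharP E 2]

lemma two_eq : (2 : E⟦X⟧) = 0 := by
  have : (2 : E⟦X⟧) = C (2 : E) := (map_ofNat _ 2).symm
  rw [this, CharTwo.two_eq_zero, map_zero]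

lemma pr_split {o M L : ℕ} (hM : 0 < M) (f : E⟦X⟧) :
    pr o M L f = pr o (2 * M) L f + pr o (2 * M) (L + M) f := by
  have := (cl_pr o M L f).split hM
  rwa [pr_pr (Dvd.intro_left 2 rfl) (Nat.ModEq.refl _),
    pr_pr (Dvd.intro_left 2 rfl) (by simp [Nat.ModEq])] at this

def gs : ℕ → ℕ
  | 0 => 0
  | i + 1 => 4 * gs i + 1

lemma gs_eq (i : ℕ) : 3 * gs i + 1 = 4 ^ i := by
  induction i with
  | zero => rfl
  | succ i ih => rw [gs, pow_succ]; omega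

noncomputable def Bs (ρ : ℕ) (A : E⟦X⟧) : ℕ → E⟦X⟧
  | 0 => A
  | i + 1 => X ^ ρ * Bs ρ A i ^ 4

lemma coeff_fr (ρ : ℕ) (f : E⟦X⟧) (u : ℕ) : coeff u (X ^ ρ * f ^ 4) =
    if ρ ≤ u ∧ 4 ∣ u - ρ then coeff ((u - ρ) / 4) f ^ 4 else 0 := by
  rw [coeff_X_pow_mul', coeff_four]
  by_cases h : ρ ≤ u <;> simp [h]

lemma fr_iff {a ρ Q M L v : ℕ} (ha : ρ + Q = 3 * a + 1) (hM : 4 * M ∣ Q) :
    a + (ρ + 4 * v) ≡ 4 * L + 1 [MOD 4 * M] ↔ a + v ≡ L [MOD M] := by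
  have h1 : a + (ρ + 4 * v) ≡ 4 * (a + v) + 1 [MOD 4 * M] := by
    have : a + (ρ + 4 * v) + Q ≡ a + (ρ + 4 * v) + 0 [MOD 4 * M] :=
      (Nat.modEq_zero_iff_dvd.2 hM).add_left _
    rw [show a + (ρ + 4 * v) + Q = 4 * (a + v) + 1 by omega] at this
    exact this.symm
  constructor
  · intro h
    exact Nat.ModEq.mul_left_cancel' (by norm_num) (Nat.ModEq.add_right_cancel' 1 (h1.symm.trans h))
  · intro h
    exact h1.trans ((h.mul_left' 4).add_right 1)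

lemma fr_pr {a ρ Q M L : ℕ} (ha : ρ + Q = 3 * a + 1) (hM : 4 * M ∣ Q) (f : E⟦X⟧) :
    pr a (4 * M) (4 * L + 1) (X ^ ρ * f ^ 4) = X ^ ρ * pr a M L f ^ 4 := by
  ext u
  rw [coeff_pr, coeff_fr, coeff_fr, coeff_pr]
  by_cases h : ρ ≤ u ∧ 4 ∣ u - ρ
  · obtain ⟨v, rfl⟩ : ∃ v, u = ρ + 4 * v := ⟨(u - ρ) / 4, by omega⟩
    rw [if_pos h, if_pos h, show (ρ + 4 * v - ρ) / 4 = v by omega]
    by_cases h1 : a + v ≡ L [MOD M]
    · rw [if_pos h1, if_pos ((fr_iff ha hM).2 h1)]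
    · rw [if_neg h1, if_neg (fun h2 => h1 ((fr_iff ha hM).1 h2))]; simp
  · simp [h]

structure Ht (E : Type) [Field E] where
  (a ρ Q e W o : ℕ)
  (A : E⟦X⟧)
  (N V : Polynomial E)
  ha : ρ + Q = 3 * a + 1
  hρ : ρ ≤ 2
  he : 2 ≤ e
  hW : 32 * e ^ 2 ≤ W
  hQ : ∀ k, 2 ^ k ≤ 16 * e → 2 ^ k ∣ Q
  hodd : Cl a 2 1 A
  hself : (X : E⟦X⟧) ^ W ∣ pr a 4 1 A - X ^ ρ * A ^ 4
  hF : ∀ k L, 2 ^ k ≤ 16 * e → 4 * (L + 1) ≤ 2 ^ k → pr a (2 ^ k) L A = 0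
  hc : IsCoprime N V
  hV : V ≠ 0
  dN : N.natDegree ≤ e
  dV : V.natDegree ≤ e
  hrel : (X : E⟦X⟧) ^ W ∣ pr a 4 3 A * (V : E⟦X⟧) - X ^ 2 * (N : E⟦X⟧) * pr a 4 1 A
  ho : o ≤ e
  hA : coeff o A ≠ 0

namespace Ht

variable (H : Ht E)

lemma four_dvd {i : ℕ} (h : 2 * 4 ^ i ≤ 16 * H.e) : 2 * 4 ^ i ∣ H.Q := by
  have e : 2 * 4 ^ i = 2 ^ (2 * i + 1) := by rw [pow_succ', pow_mul]; norm_num
  rw [e] at h ⊢
  exact H.hQ _ h

lemma clB (i : ℕ) (h : 2 * 4 ^ i ≤ 16 * H.e) :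
    Cl H.a (2 * 4 ^ i) (4 ^ i + gs i) (Bs H.ρ H.A i) := by
  induction i with
  | zero => simpa [gs, Bs] using H.hodd
  | succ i ih =>
    have h1 := ih (by rw [pow_succ] at h; omega)
    have h2 := fr_pr (L := 4 ^ i + gs i) (M := 2 * 4 ^ i) H.ha
      (by have := H.four_dvd h; rwa [show 2 * 4 ^ (i + 1) = 4 * (2 * 4 ^ i) by ring] at this)
      (Bs H.ρ H.A i)
    rw [h1.pr_eq] at h2
    rw [Bs, ← h2, show 2 * 4 ^ (i + 1) = 4 * (2 * 4 ^ i) by ring,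
      show 4 ^ (i + 1) + gs (i + 1) = 4 * (4 ^ i + gs i) + 1 by rw [gs]; ring]
    exact cl_pr _ _ _ _

lemma prB (i : ℕ) (h : 2 * 4 ^ i ≤ 16 * H.e) :
    (X : E⟦X⟧) ^ H.W ∣ pr H.a (4 ^ i) (gs i) H.A - Bs H.ρ H.A i := by
  induction i with
  | zero =>
    have : Cl H.a 1 0 H.A := fun u _ => Nat.modEq_one
    simp [gs, Bs, this.pr_eq]
  | succ i ih =>
    have h1 := ih (by rw [pow_succ] at h; omega)
    have h2 := fr_pr (L := gs i) (M := 4 ^ i) H.ha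
      ((Dvd.intro_left 2 (by ring)).trans (H.four_dvd h)) H.A
    have h3 := dvd_pr (o := H.a) (M := 4 * 4 ^ i) (L := 4 * gs i + 1) H.hself
    rw [pr_sub, h2, pr_pr (Dvd.intro _ rfl) (by simp [Nat.ModEq])] at h3
    have h4 := (h1.trans (sub_dvd_pow_sub_pow _ _ 4)).mul_left (X ^ H.ρ)
    rw [pow_succ', gs, Bs]
    convert dvd_add h3 h4 using 1
    ring

lemma relC (i : ℕ) (hi : 1 ≤ i) (h : 2 * 4 ^ i ≤ 16 * H.e) (hN : Cl 0 (4 ^ i) 0 (H.N : E⟦X⟧))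
    (hV : Cl 0 (4 ^ i) 0 (H.V : E⟦X⟧)) : (X : E⟦X⟧) ^ H.W ∣
      pr H.a (4 ^ i) (gs i + 2) H.A * (H.V : E⟦X⟧) - X ^ 2 * (H.N : E⟦X⟧) * Bs H.ρ H.A i := by
  obtain ⟨j, rfl⟩ : ∃ j, i = j + 1 := ⟨i - 1, by omega⟩
  have h4 : 4 ∣ 4 ^ (j + 1) := Dvd.intro_left _ (pow_succ _ _).symm
  have h1 := dvd_pr (o := H.a) (M := 4 ^ (j + 1)) (L := gs (j + 1) + 2) H.hrel
  have h2 : Cl 0 (4 ^ (j + 1)) 2 (X ^ 2 * (H.N : E⟦X⟧)) := (cl_X_pow _ 2).mul hN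
  rw [pr_sub, mul_comm _ (H.V : E⟦X⟧), pr_mul0 hV, pr_pr h4 (by simp [gs, Nat.ModEq]; omega),
    add_comm (gs (j + 1)), pr_mulL h2, pr_pr h4 (by simp [gs, Nat.ModEq])] at h1
  rw [add_comm (gs (j + 1))]
  convert dvd_add h1 ((H.prB _ h).mul_left (X ^ 2 * (H.N : E⟦X⟧))) using 1
  ring

lemma relB (i : ℕ) : (X : E⟦X⟧) ^ H.W ∣ (H.V : E⟦X⟧) ^ 4 ^ i * Bs H.ρ H.A i -
    Bs H.ρ H.A (i + 1) * ((H.V : E⟦X⟧) ^ 4 ^ i + X ^ (2 * 4 ^ i) * (H.N : E⟦X⟧) ^ 4 ^ i) := by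
  induction i with
  | zero =>
    have h1 := H.hodd.split (by norm_num)
    simp only [Bs, pow_zero, pow_one, mul_one]
    convert dvd_add H.hrel (H.hself.mul_left ((H.V : E⟦X⟧) + X ^ 2 * (H.N : E⟦X⟧))) using 1
    norm_num at h1
    linear_combination (H.V : E⟦X⟧) * h1
  | succ i ih =>
    have h4 := (ih.trans (sub_dvd_pow_sub_pow _ _ 4)).mul_left (X ^ H.ρ)
    convert h4 using 1
    rw [show Bs H.ρ H.A (i + 1 + 1) = X ^ H.ρ * Bs H.ρ H.A (i + 1) ^ 4 from rfl]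
    conv_lhs => rw [show Bs H.ρ H.A (i + 1) = X ^ H.ρ * Bs H.ρ H.A i ^ 4 from rfl]
    rw [show Bs H.ρ H.A (i + 1) = X ^ H.ρ * Bs H.ρ H.A i ^ 4 from rfl, pow_succ 4 i, ← mul_assoc 2,
      pow_mul, pow_mul, pow_mul (H.N : E⟦X⟧)]
    generalize (H.V : E⟦X⟧) ^ 4 ^ i = v
    generalize (H.N : E⟦X⟧) ^ 4 ^ i = w
    generalize (X : E⟦X⟧) ^ (2 * 4 ^ i) = x
    generalize (X : E⟦X⟧) ^ H.ρ = r
    generalize Bs H.ρ H.A i = b
    linear_combination r * (r * b ^ 4) ^ 4 * (2 * v ^ 3 * (x * w) + 3 * v ^ 2 * (x * w) ^ 2 +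
      2 * v * (x * w) ^ 3) * (two_eq (E := E))

lemma ordB (i : ℕ) : ∃ u, u + 1 ≤ 4 ^ i * (H.e + 1) ∧ coeff u (Bs H.ρ H.A i) ≠ 0 := by
  induction i with
  | zero => exact ⟨H.o, by have := H.ho; omega, H.hA⟩
  | succ i ih =>
    obtain ⟨u, h1, h2⟩ := ih
    refine ⟨H.ρ + 4 * u, by have := H.hρ; rw [pow_succ]; nlinarith, ?_⟩
    rw [Bs, coeff_fr, if_pos (by omega), show (H.ρ + 4 * u - H.ρ) / 4 = u by omega]
    exact pow_ne_zero _ h2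

lemma extract {k M' L Lf LB c j d : ℕ} {Z : E⟦X⟧} {G : Polynomial E}
    (h : (X : E⟦X⟧) ^ H.W ∣ pr H.a M' L H.A * Z - (G : E⟦X⟧) * (X ^ 2 * Bs H.ρ H.A j))
    (hZ : Cl 0 (2 ^ k) 0 Z) (hM : M' ∣ 2 ^ k) (hL : Lf ≡ L [MOD M']) (hk : 2 ^ k ≤ 16 * H.e)
    (hf : 4 * (Lf + 1) ≤ 2 ^ k) (hB : Cl H.a (2 ^ k) LB (Bs H.ρ H.A j))
    (hc : Lf ≡ 2 + LB + c [MOD 2 ^ k]) (hG : G.natDegree ≤ d)
    (hd : d + 2 + 4 ^ j * (H.e + 1) ≤ H.W) : pr 0 (2 ^ k) c (G : E⟦X⟧) = 0 := by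
  have h1 := dvd_pr (o := H.a) (M := 2 ^ k) (L := Lf) h
  have h2 : Cl H.a (2 ^ k) (2 + LB) (X ^ 2 * Bs H.ρ H.A j) := by
    simpa using (cl_X_pow (E := E) _ 2).mul hB
  rw [pr_sub, mul_comm _ Z, pr_mul0 hZ, pr_pr hM hL, H.hF k Lf hk hf, mul_zero, zero_sub, dvd_neg,
    pr_congr _ hc, pr_mulR h2, mul_comm] at h1
  obtain ⟨u, h3, h4⟩ := H.ordB j
  have h5 : coeff (u + 2) (X ^ 2 * Bs H.ρ H.A j) ≠ 0 := by rwa [coeff_X_pow_mul]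
  rw [show H.W = (H.W - (u + 2)) + (u + 2) by omega] at h1
  have h6 := cancel h1 h5 le_rfl
  rw [← coe_ppr] at h6 ⊢
  rw [poly_zero h6 (by have := natDegree_ppr (2 ^ k) c G; omega), Polynomial.coe_zero]

lemma case_one {i : ℕ} (hi : 2 ≤ i) (he : 4 ^ i ≤ H.e) (hN : Cl 0 (4 ^ i) 0 (H.N : E⟦X⟧))
    (hV : Cl 0 (4 ^ i) 0 (H.V : E⟦X⟧)) :
    pr 0 (2 * 4 ^ i) (4 ^ i) ((H.N : E⟦X⟧) * (H.V : E⟦X⟧)) = 0 := by
  have e : 2 * 4 ^ i = 2 ^ (2 * i + 1) := by rw [pow_succ', pow_mul]; norm_num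
  have h16 : 16 ≤ 4 ^ i := Nat.pow_le_pow_right (n := 4) (by norm_num) hi
  have hg := gs_eq i
  have hW := H.hW
  have h2 := H.he
  rw [e, ← Polynomial.coe_mul]
  refine H.extract (M' := 4 ^ i) (L := gs i + 2) (Lf := gs i + 2) (LB := 4 ^ i + gs i) (j := i)
    (d := H.e + H.e) (Z := (H.V : E⟦X⟧) ^ 2) ?_ (e ▸ hV.sq) (e ▸ Dvd.intro_left 2 rfl)
    (Nat.ModEq.refl _) (by omega) (by omega) (e ▸ H.clB i (by omega)) ?_
    (Polynomial.natDegree_mul_le_of_le H.dN H.dV) (by nlinarith)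
  · convert (H.relC i (by omega) (by omega) hN hV).mul_left (H.V : E⟦X⟧) using 1
    rw [Polynomial.coe_mul]; ring
  · rw [← e, show 2 + (4 ^ i + gs i) + 4 ^ i = gs i + 2 + 2 * 4 ^ i by ring]
    simp [Nat.ModEq]

lemma case_three (he : 4 ≤ H.e) (hN : Cl 0 4 0 (H.N : E⟦X⟧)) (hV : Cl 0 4 0 (H.V : E⟦X⟧)) :
    pr 0 (2 * 4) 4 ((H.N : E⟦X⟧) * (H.V : E⟦X⟧)) = 0 := by
  by_cases hN0 : H.N = 0
  · rw [hN0, Polynomial.coe_zero, zero_mul]; ext u; simp [coeff_pr]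
  have hW := H.hW
  have hV4 : Cl 0 16 0 ((H.V : E⟦X⟧) ^ 4) := hV.two_pow 2
  have hN4 : Cl 0 16 0 ((H.N : E⟦X⟧) ^ 4) := hN.two_pow 2
  have d3 : (H.N * H.V ^ 3).natDegree ≤ H.N.natDegree + 3 * H.V.natDegree :=
    Polynomial.natDegree_mul_le_of_le le_rfl Polynomial.natDegree_pow_le
  have h1 := H.extract (k := 4) (M' := 4) (L := 3) (Lf := 3) (LB := 5) (j := 2) (c := 12)
    (d := (H.e + 3 * H.e) + (8 + 4 * H.e))
    (G := H.N * H.V ^ 3 * (H.V ^ 4 + Polynomial.X ^ 8 * H.N ^ 4))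
    (Z := (H.V : E⟦X⟧) ^ 4 * (H.V : E⟦X⟧) ^ 4) ?_ (hV4.mul0 hV4) (by norm_num)
    (Nat.ModEq.refl _) (by omega) (by omega)
    (((H.clB 2 (by omega)).of_dvd (by norm_num)).congr (by decide)) (by decide)
    (Polynomial.natDegree_mul_le_of_le
      (Polynomial.natDegree_mul_le_of_le H.dN (Polynomial.natDegree_pow_le_of_le _ H.dV))
      (Polynomial.natDegree_add_le_of_degree_le
        ((Polynomial.natDegree_pow_le_of_le _ H.dV).trans (by omega))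
        (Polynomial.natDegree_mul_le_of_le (Polynomial.natDegree_X_pow_le _)
          (Polynomial.natDegree_pow_le_of_le _ H.dN)))) (by nlinarith)
  swap
  · have a1 := H.relC 1 le_rfl (by omega) hN hV
    have a2 := H.relB 1
    norm_num [gs] at a1 a2
    convert dvd_add (a1.mul_left ((H.V : E⟦X⟧) ^ 7))
      (a2.mul_left (X ^ 2 * (H.N : E⟦X⟧) * (H.V : E⟦X⟧) ^ 3)) using 1
    push_cast; ring
  have h2 : ppr 16 12 (H.N * H.V ^ 3) * H.V ^ 4 =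
      Polynomial.X ^ 8 * H.N ^ 4 * ppr 16 4 (H.N * H.V ^ 3) := by
    apply Polynomial.coe_injective E
    have c8 : Cl 0 16 8 (X ^ 8 * (H.N : E⟦X⟧) ^ 4) := (cl_X_pow _ 8).mul hN4
    have e1 := pr_mul0 (o := 0) (L := 12) hV4 ((H.N * H.V ^ 3 : Polynomial E) : E⟦X⟧)
    have e2 := pr_mulL (o := 0) (L' := 4) c8 ((H.N * H.V ^ 3 : Polynomial E) : E⟦X⟧)
    rw [show ((H.N * H.V ^ 3 * (H.V ^ 4 + Polynomial.X ^ 8 * H.N ^ 4) : Polynomial E) : E⟦X⟧) =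
      (H.V : E⟦X⟧) ^ 4 * ((H.N * H.V ^ 3 : Polynomial E) : E⟦X⟧) +
      X ^ 8 * (H.N : E⟦X⟧) ^ 4 * ((H.N * H.V ^ 3 : Polynomial E) : E⟦X⟧) by push_cast; ring,
      pr_add] at h1
    norm_num only at h1 e2
    rw [e1, e2] at h1
    simp only [Polynomial.coe_mul, coe_ppr, Polynomial.coe_pow, Polynomial.coe_X] at h1 ⊢
    linear_combination h1 - X ^ 8 * (H.N : E⟦X⟧) ^ 4 *
      pr 0 16 4 ((H.N : E⟦X⟧) * (H.V : E⟦X⟧) ^ 3) * (two_eq (E := E))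
  obtain ⟨h3, h4⟩ := degree_kill (s := 3) (c := 12) (Md := 16) H.hc H.hV h2
    ((natDegree_ppr _ _ _).trans d3) ((natDegree_ppr _ _ _).trans d3)
    (by rw [coe_ppr]; exact cl_pr _ _ _ _) (by norm_num) hN0
    (by have := (Nat.modEq_zero_iff_dvd.1 (hN.natDegree hN0)); omega) (by omega)
  have h5 := pr_split (o := 0) (M := 8) (L := 4) (by norm_num)
    ((H.N * H.V ^ 3 : Polynomial E) : E⟦X⟧)
  norm_num only at h5
  rw [← coe_ppr 16, ← coe_ppr 16, h3, h4, Polynomial.coe_zero, add_zero,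
    show ((H.N * H.V ^ 3 : Polynomial E) : E⟦X⟧) =
      (H.V : E⟦X⟧) ^ 2 * ((H.N : E⟦X⟧) * (H.V : E⟦X⟧)) by push_cast; ring,
    pr_mul0 hV.sq] at h5
  exact (mul_eq_zero.1 h5).resolve_left (pow_ne_zero _ (by simpa using H.hV))

lemma case_two {i : ℕ} (hi : 1 ≤ i) (he : 2 * 4 ^ i ≤ H.e)
    (hN : Cl 0 (2 * 4 ^ i) 0 (H.N : E⟦X⟧)) (hV : Cl 0 (2 * 4 ^ i) 0 (H.V : E⟦X⟧)) :
    pr 0 (2 * (2 * 4 ^ i)) (2 * 4 ^ i) ((H.N : E⟦X⟧) * (H.V : E⟦X⟧)) = 0 := by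
  by_cases hN0 : H.N = 0
  · rw [hN0, Polynomial.coe_zero, zero_mul]; ext u; simp [coeff_pr]
  have hW := H.hW
  have a1 := H.relC i hi (by omega) (hN.of_dvd (Dvd.intro_left 2 rfl))
    (hV.of_dvd (Dvd.intro_left 2 rfl))
  have a2 := H.relB i
  have a3 := H.relB (i + 1)
  have b1 := H.clB (i + 1) (by rw [pow_succ]; omega)
  have b2 := H.clB (i + 1 + 1) (by rw [pow_succ, pow_succ]; omega)
  have e8 : 2 ^ (2 * i + 3) = 8 * 4 ^ i := by rw [pow_add, pow_mul]; ring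
  have e16 : 2 ^ (2 * i + 4) = 16 * 4 ^ i := by rw [pow_add, pow_mul]; ring
  have g0 := gs_eq i
  have g1 : gs (i + 1) = gs i + 4 ^ i := by rw [gs]; omega
  have g2 : gs (i + 1 + 1) = gs i + 5 * 4 ^ i := by rw [gs]; omega
  have p1 : 4 ^ (i + 1) = 4 * 4 ^ i := by ring
  have p2 : 4 ^ (i + 1 + 1) = 16 * 4 ^ i := by ring
  have X1 := @H.extract _ _ _ (2 * i + 3) (4 ^ i) (gs i + 2) (gs i + 4 ^ i + 2)
    (4 * 4 ^ i + (gs i + 4 ^ i)) (4 * 4 ^ i) (i + 1)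
  have X2 := @H.extract _ _ _ (2 * i + 4) (4 ^ i) (gs i + 2) (gs i + 3 * 4 ^ i + 2)
    (gs i + 5 * 4 ^ i) (14 * 4 ^ i) (i + 1 + 1)
  rw [e8, p1] at X1
  rw [e16, p2] at X2
  rw [p1] at a3 b1
  rw [p2, g2] at b2
  rw [g1] at b1
  obtain ⟨m, hm⟩ : ∃ m, 4 ^ i = 4 * m :=
    ⟨4 ^ (i - 1), by rw [← pow_succ']; congr 1; omega⟩
  have hm0 : 0 < m := by have := Nat.pow_pos (n := i) (show 0 < 4 by norm_num); omega
  generalize 4 ^ i = M at *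
  have hV4 : Cl 0 (8 * M) 0 ((H.V : E⟦X⟧) ^ 4) := by
    have := hV.two_pow 2; rwa [show 2 ^ 2 * (2 * M) = 8 * M by ring] at this
  have hN4 : Cl 0 (8 * M) 0 ((H.N : E⟦X⟧) ^ 4) := by
    have := hN.two_pow 2; rwa [show 2 ^ 2 * (2 * M) = 8 * M by ring] at this
  have hV8 : Cl 0 (16 * M) 0 ((H.V : E⟦X⟧) ^ 8) := by
    have := hV.two_pow 3; rwa [show 2 ^ 3 * (2 * M) = 16 * M by ring] at this
  have hN8 : Cl 0 (16 * M) 0 ((H.N : E⟦X⟧) ^ 8) := by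
    have := hN.two_pow 3; rwa [show 2 ^ 3 * (2 * M) = 16 * M by ring] at this
  have hVM : Cl 0 (8 * M) 0 ((H.V : E⟦X⟧) ^ M) := by
    have := hV4.pow m; rwa [← pow_mul, ← hm] at this
  have hNM : Cl 0 (8 * M) 0 ((H.N : E⟦X⟧) ^ M) := by
    have := hN4.pow m; rwa [← pow_mul, ← hm] at this
  have hV2M : Cl 0 (16 * M) 0 ((H.V : E⟦X⟧) ^ (2 * M)) := by
    have := hV8.pow m; rwa [← pow_mul, show 8 * m = 2 * M by omega] at this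
  have hV4M : Cl 0 (16 * M) 0 ((H.V : E⟦X⟧) ^ (4 * M)) := by
    have := hV8.pow (2 * m); rwa [← pow_mul, show 8 * (2 * m) = 4 * M by omega] at this
  have hN4M : Cl 0 (16 * M) 0 ((H.N : E⟦X⟧) ^ (4 * M)) := by
    have := hN8.pow (2 * m); rwa [← pow_mul, show 8 * (2 * m) = 4 * M by omega] at this
  have hdN := Nat.modEq_zero_iff_dvd.1 (hN.natDegree hN0)
  have d3 : (H.N * H.V ^ 3).natDegree ≤ H.N.natDegree + 3 * H.V.natDegree :=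
    Polynomial.natDegree_mul_le_of_le le_rfl Polynomial.natDegree_pow_le
  have d7 : (H.N * H.V ^ 7).natDegree ≤ H.N.natDegree + 7 * H.V.natDegree :=
    Polynomial.natDegree_mul_le_of_le le_rfl Polynomial.natDegree_pow_le
  have dV := fun k => Polynomial.natDegree_pow_le_of_le k H.dV
  have dN := fun k => Polynomial.natDegree_pow_le_of_le k H.dN
  have hV0 : (H.V : E⟦X⟧) ≠ 0 := by simpa using H.hV
  have h1 := @X1 ((H.e + 3 * H.e) + (2 * M + M * H.e))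
    ((H.V : E⟦X⟧) ^ 4 * (H.V : E⟦X⟧) ^ M)
    (H.N * H.V ^ 3 * (H.V ^ M + Polynomial.X ^ (2 * M) * H.N ^ M)) ?_ (hV4.mul0 hVM)
    (Dvd.intro_left 8 rfl)
    (by rw [show gs i + M + 2 = gs i + 2 + M by ring]; simp [Nat.ModEq]) (by omega) (by omega)
    (by rwa [show 2 * (4 * M) = 8 * M by ring] at b1)
    (by rw [show 2 + (4 * M + (gs i + M)) + 4 * M = gs i + M + 2 + 8 * M by ring]; simp [Nat.ModEq])
    (Polynomial.natDegree_mul_le_of_le (Polynomial.natDegree_mul_le_of_le H.dN (dV _))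
      (Polynomial.natDegree_add_le_of_degree_le ((dV _).trans (by omega))
        (Polynomial.natDegree_mul_le_of_le (Polynomial.natDegree_X_pow_le _) (dN _))))
    (by nlinarith)
  swap
  · convert dvd_add (a1.mul_left ((H.V : E⟦X⟧) ^ 3 * (H.V : E⟦X⟧) ^ M))
      (a2.mul_left (X ^ 2 * (H.N : E⟦X⟧) * (H.V : E⟦X⟧) ^ 3)) using 1
    push_cast; ring
  have h2 : ppr (8 * M) (4 * M) (H.N * H.V ^ 3) * H.V ^ M =
      Polynomial.X ^ (2 * M) * H.N ^ M * ppr (8 * M) (2 * M) (H.N * H.V ^ 3) := by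
    apply Polynomial.coe_injective E
    have c8 : Cl 0 (8 * M) (2 * M) (X ^ (2 * M) * (H.N : E⟦X⟧) ^ M) := (cl_X_pow _ _).mul hNM
    have e1 := pr_mul0 (o := 0) (L := 4 * M) hVM ((H.N * H.V ^ 3 : Polynomial E) : E⟦X⟧)
    have e2 := pr_mulL (o := 0) (L' := 2 * M) c8 ((H.N * H.V ^ 3 : Polynomial E) : E⟦X⟧)
    rw [show 2 * M + 2 * M = 4 * M by ring] at e2
    rw [show ((H.N * H.V ^ 3 * (H.V ^ M + Polynomial.X ^ (2 * M) * H.N ^ M) : Polynomial E) :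
      E⟦X⟧) = (H.V : E⟦X⟧) ^ M * ((H.N * H.V ^ 3 : Polynomial E) : E⟦X⟧) +
      X ^ (2 * M) * (H.N : E⟦X⟧) ^ M * ((H.N * H.V ^ 3 : Polynomial E) : E⟦X⟧) by push_cast; ring,
      pr_add, e1, e2] at h1
    simp only [Polynomial.coe_mul, coe_ppr, Polynomial.coe_pow, Polynomial.coe_X] at h1 ⊢
    linear_combination h1 - X ^ (2 * M) * (H.N : E⟦X⟧) ^ M *
      pr 0 (8 * M) (2 * M) ((H.N : E⟦X⟧) * (H.V : E⟦X⟧) ^ 3) * (two_eq (E := E))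
  obtain ⟨h3, h4⟩ := degree_kill (s := 3) (c := 4 * M) (Md := 8 * M) H.hc H.hV h2
    ((natDegree_ppr _ _ _).trans d3) ((natDegree_ppr _ _ _).trans d3)
    (by rw [coe_ppr]; exact cl_pr _ _ _ _) (by omega) hN0
    (by obtain ⟨t, ht⟩ := hdN; exact ⟨m * t, by rw [ht]; nth_rewrite 1 [hm]; ring⟩)
    (fun a b q h1 h2 h3 => by
      have : 4 * a ≤ M * a := Nat.mul_le_mul_right _ (by omega)
      have : 4 * b ≤ M * b := Nat.mul_le_mul_right _ (by omega)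
      omega)
  have hY : ((H.N * H.V ^ 7 : Polynomial E) : E⟦X⟧) =
      (H.V : E⟦X⟧) ^ 4 * ((H.N * H.V ^ 3 : Polynomial E) : E⟦X⟧) := by push_cast; ring
  have y4 : pr 0 (8 * M) (4 * M) ((H.N * H.V ^ 7 : Polynomial E) : E⟦X⟧) = 0 := by
    rw [hY, pr_mul0 hV4, ← coe_ppr, h3, Polynomial.coe_zero, mul_zero]
  have y2 : pr 0 (8 * M) (2 * M) ((H.N * H.V ^ 7 : Polynomial E) : E⟦X⟧) = 0 := by
    rw [hY, pr_mul0 hV4, ← coe_ppr, h4, Polynomial.coe_zero, mul_zero]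
  have h5 := @X2 ((H.e + 7 * H.e) + (2 * M + (M * H.e + M * H.e)) + (8 * M + 4 * M * H.e))
    ((H.V : E⟦X⟧) ^ 8 * (H.V : E⟦X⟧) ^ (2 * M) * (H.V : E⟦X⟧) ^ (4 * M))
    (H.N * H.V ^ 7 * (H.V ^ (2 * M) + Polynomial.X ^ (2 * M) * (H.V ^ M * H.N ^ M)) *
      (H.V ^ (4 * M) + Polynomial.X ^ (8 * M) * H.N ^ (4 * M))) ?_ ((hV8.mul0 hV2M).mul0 hV4M)
    (Dvd.intro_left 16 rfl)
    (by rw [show gs i + 3 * M + 2 = gs i + 2 + M * 3 by ring]; simp [Nat.ModEq]) (by omega)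
    (by omega)
    ((b2.of_dvd (Dvd.intro_left 2 rfl)).congr (by simp [Nat.ModEq]))
    (by rw [show 2 + (gs i + 5 * M) + 14 * M = gs i + 3 * M + 2 + 16 * M by ring]; simp [Nat.ModEq])
    (Polynomial.natDegree_mul_le_of_le (Polynomial.natDegree_mul_le_of_le
      (Polynomial.natDegree_mul_le_of_le H.dN (dV _))
      (Polynomial.natDegree_add_le_of_degree_le ((dV _).trans (by nlinarith))
        (Polynomial.natDegree_mul_le_of_le (Polynomial.natDegree_X_pow_le _)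
          (Polynomial.natDegree_mul_le_of_le (dV _) (dN _)))))
      (Polynomial.natDegree_add_le_of_degree_le ((dV _).trans (by omega))
        (Polynomial.natDegree_mul_le_of_le (Polynomial.natDegree_X_pow_le _) (dN _))))
    (by nlinarith)
  swap
  · convert dvd_add (dvd_add
      (a1.mul_left ((H.V : E⟦X⟧) ^ 7 * (H.V : E⟦X⟧) ^ (2 * M) * (H.V : E⟦X⟧) ^ (4 * M)))
      (a2.mul_left (X ^ 2 * (H.N : E⟦X⟧) * (H.V : E⟦X⟧) ^ 7 * (H.V : E⟦X⟧) ^ M *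
        (H.V : E⟦X⟧) ^ (4 * M))))
      (a3.mul_left (X ^ 2 * (H.N : E⟦X⟧) * (H.V : E⟦X⟧) ^ 7 * (H.V : E⟦X⟧) ^ M *
        ((H.V : E⟦X⟧) ^ M + X ^ (2 * M) * (H.N : E⟦X⟧) ^ M))) using 1
    push_cast; ring
  have h6 : ppr (16 * M) (14 * M) (H.N * H.V ^ 7) * H.V ^ (4 * M) =
      Polynomial.X ^ (8 * M) * H.N ^ (4 * M) * ppr (16 * M) (6 * M) (H.N * H.V ^ 7) := by
    apply Polynomial.coe_injective E
    have c8 : Cl 0 (16 * M) (8 * M) (X ^ (8 * M) * (H.N : E⟦X⟧) ^ (4 * M)) :=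
      (cl_X_pow _ _).mul hN4M
    have c0 : Cl 0 (8 * M) 0 ((H.V : E⟦X⟧) ^ (4 * M) + X ^ (8 * M) * (H.N : E⟦X⟧) ^ (4 * M)) :=
      (hV4M.of_dvd ⟨2, by ring⟩).add ((c8.of_dvd ⟨2, by ring⟩).congr (by simp [Nat.ModEq]))
    have c2 : Cl 0 (8 * M) (2 * M) (X ^ (2 * M) * (((H.V : E⟦X⟧) ^ M * (H.N : E⟦X⟧) ^ M) *
        ((H.V : E⟦X⟧) ^ (4 * M) + X ^ (8 * M) * (H.N : E⟦X⟧) ^ (4 * M)))) :=
      (cl_X_pow _ _).mul ((hVM.mul0 hNM).mul0 c0)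
    generalize hy : ((H.N * H.V ^ 7 : Polynomial E) : E⟦X⟧) = Y at *
    have e1 := pr_mul0 (o := 0) (L := 14 * M) hV4M Y
    have e2 := pr_mulL (o := 0) (L' := 6 * M) c8 Y
    have e3 := pr_mulL (o := 0) (L' := 4 * M) c2 Y
    rw [show 8 * M + 6 * M = 14 * M by ring] at e2
    rw [y4, mul_zero] at e3
    have e4 := pr_pr (o := 0) (M := 16 * M) (M' := 8 * M) (L := 14 * M) (L' := 2 * M + 4 * M)
      ⟨2, by ring⟩ (by rw [show 14 * M = 2 * M + 4 * M + 8 * M by ring]; simp [Nat.ModEq])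
      (X ^ (2 * M) * (((H.V : E⟦X⟧) ^ M * (H.N : E⟦X⟧) ^ M) *
        ((H.V : E⟦X⟧) ^ (4 * M) + X ^ (8 * M) * (H.N : E⟦X⟧) ^ (4 * M))) * Y)
    rw [e3, show pr 0 (16 * M) (14 * M) (0 : E⟦X⟧) = 0 by ext u; simp [coeff_pr]] at e4
    rw [show ((H.N * H.V ^ 7 * (H.V ^ (2 * M) + Polynomial.X ^ (2 * M) * (H.V ^ M * H.N ^ M)) *
      (H.V ^ (4 * M) + Polynomial.X ^ (8 * M) * H.N ^ (4 * M)) : Polynomial E) : E⟦X⟧) =
      (H.V : E⟦X⟧) ^ (2 * M) * ((H.V : E⟦X⟧) ^ (4 * M) * Y +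
        X ^ (8 * M) * (H.N : E⟦X⟧) ^ (4 * M) * Y) +
      X ^ (2 * M) * (((H.V : E⟦X⟧) ^ M * (H.N : E⟦X⟧) ^ M) *
        ((H.V : E⟦X⟧) ^ (4 * M) + X ^ (8 * M) * (H.N : E⟦X⟧) ^ (4 * M))) * Y by
          rw [← hy]; push_cast; ring,
      pr_add, ← e4, add_zero, pr_mul0 hV2M, pr_add, e1, e2] at h5
    have h7 := (mul_eq_zero.1 h5).resolve_left (pow_ne_zero _ hV0)
    simp only [Polynomial.coe_mul, coe_ppr, Polynomial.coe_pow, Polynomial.coe_X] at hy ⊢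
    rw [hy]
    linear_combination h7 - X ^ (8 * M) * (H.N : E⟦X⟧) ^ (4 * M) *
      pr 0 (16 * M) (6 * M) Y * (two_eq (E := E))
  obtain ⟨h8, h9⟩ := degree_kill (s := 7) (c := 14 * M) (Md := 16 * M) H.hc H.hV h6
    ((natDegree_ppr _ _ _).trans d7) ((natDegree_ppr _ _ _).trans d7)
    (by rw [coe_ppr]; exact cl_pr _ _ _ _) (by omega) hN0
    (by obtain ⟨t, ht⟩ := hdN; exact ⟨2 * m * t, by rw [ht]; nth_rewrite 1 [hm]; ring⟩)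
    (fun a b q h1 h2 h3 => by
      have : 16 * a ≤ 4 * M * a := Nat.mul_le_mul_right _ (by omega)
      have : 16 * b ≤ 4 * M * b := Nat.mul_le_mul_right _ (by omega)
      omega)
  have s1 := pr_split (o := 0) (M := 4 * M) (L := 2 * M) (by omega)
    ((H.N * H.V ^ 7 : Polynomial E) : E⟦X⟧)
  have s2 := pr_split (o := 0) (M := 8 * M) (L := 6 * M) (by omega)
    ((H.N * H.V ^ 7 : Polynomial E) : E⟦X⟧)
  rw [show 2 * (8 * M) = 16 * M by ring, show 6 * M + 8 * M = 14 * M by ring, ← coe_ppr (16 * M),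
    ← coe_ppr (16 * M), h8, h9, Polynomial.coe_zero, add_zero] at s2
  rw [show 2 * (4 * M) = 8 * M by ring, show 2 * M + 4 * M = 6 * M by ring, s2, y2, add_zero,
    show ((H.N * H.V ^ 7 : Polynomial E) : E⟦X⟧) =
      ((H.V : E⟦X⟧) ^ 2) ^ 3 * ((H.N : E⟦X⟧) * (H.V : E⟦X⟧)) by push_cast; ring,
    show 4 * M = 2 * (2 * M) by ring, pr_mul0 (hV.sq.pow 3)] at s1
  exact (mul_eq_zero.1 s1).resolve_left (pow_ne_zero _ (pow_ne_zero _ hV0))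

theorem height (hN : Cl 0 4 0 (H.N : E⟦X⟧)) (hV : Cl 0 4 0 (H.V : E⟦X⟧)) :
    H.N.natDegree = 0 ∧ H.V.natDegree = 0 := by
  have key : ∀ k, 2 ^ (k + 1) ≤ H.e ∨ k = 0 →
      Cl 0 (2 ^ (k + 2)) 0 (H.N : E⟦X⟧) ∧ Cl 0 (2 ^ (k + 2)) 0 (H.V : E⟦X⟧) := by
    intro k
    induction k with
    | zero => exact fun _ => ⟨hN, hV⟩
    | succ k ih =>
      intro h
      have h1 : 2 ^ (k + 1 + 1) ≤ H.e := h.resolve_right (by omega)
      obtain ⟨i1, i2⟩ := ih (Or.inl (by rw [pow_succ] at h1; omega))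
      rw [show 2 ^ (k + 1 + 2) = 2 * 2 ^ (k + 2) by ring]
      refine class_up' (by positivity) H.hc H.hV i1 i2 ?_
      rcases Nat.even_or_odd' k with ⟨i, rfl | rfl⟩
      · rcases Nat.eq_zero_or_pos i with rfl | hi
        · exact H.case_three h1 i1 i2
        · have e : 2 ^ (2 * i + 2) = 4 ^ (i + 1) := by rw [pow_add, pow_mul]; ring
          rw [e] at i1 i2 h1 ⊢
          exact H.case_one (by omega) h1 i1 i2
      · have e : 2 ^ (2 * i + 1 + 2) = 2 * 4 ^ (i + 1) := by rw [pow_add, pow_add, pow_mul]; ring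
        rw [e] at i1 i2 h1 ⊢
        exact H.case_two (by omega) h1 i1 i2
  have he := H.he
  have l1 := Nat.pow_log_le_self 2 (show H.e ≠ 0 by omega)
  have l2 := Nat.lt_pow_succ_log_self (show 1 < 2 by norm_num) H.e
  have l3 : 1 ≤ Nat.log 2 H.e := Nat.le_log_of_pow_le (by norm_num) (by simpa using he)
  obtain ⟨k, hk⟩ : ∃ k, Nat.log 2 H.e = k + 1 := ⟨Nat.log 2 H.e - 1, by omega⟩
  rw [hk] at l1 l2
  obtain ⟨c1, c2⟩ := key k (Or.inl l1)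
  have z : ∀ G : Polynomial E, Cl 0 (2 ^ (k + 2)) 0 (G : E⟦X⟧) → G.natDegree ≤ H.e →
      G.natDegree = 0 := fun G h1 h2 => by
    by_cases hG : G = 0
    · rw [hG, Polynomial.natDegree_zero]
    · exact Nat.eq_zero_of_dvd_of_lt (Nat.modEq_zero_iff_dvd.1 (h1.natDegree hG))
        (lt_of_le_of_lt h2 l2)
  exact ⟨z _ c1 H.dN, z _ c2 H.dV⟩

end Ht

end Pool.Agent.Lib.MP_587b89_lc.Win
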