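import Pool.Agent.Lib.MP_587b89_lc.WinB

/-!
Power sums of a minimum weight word whose designed distance is slightly below a quarter of the
length.
-/

set_option autoImplicit false
set_option linter.unusedSectionVars false
open PowerSeries

namespace Pool.Agent.Lib.MP_587b89_lc.Win

variable {E : Type} [Field E] [CharP E 2]

structure Sys (E : Type) [Field E] where
  (r R n ε δ : ℕ)
  (P : ℕ → E)
  (σ : E⟦X⟧)
  hR : R = 2 ^ r
  hn : n + 1 = 4 * R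
  hδ : δ + 1 + ε = R
  hε : 2 ≤ ε
  hodd : δ % 2 = 1
  hbig : 400 * (ε + 2) ^ 3 ≤ R
  h2 : ∀ l, P (2 * l) = P l ^ 2
  hper : ∀ l, 1 ≤ l → P (l + n) = P l
  hlow : ∀ l, l < δ → P l = 0
  hc : P δ ≠ 0
  hσ : σ * PowerSeries.mk P = C (P δ) * X ^ δ
  hσd : ∀ i, δ + 1 < i → coeff i σ = 0
  hnorm : δ % 4 = 1 → P (δ + 2) = 0

namespace Sys

variable (S : Sys E)

lemma pow_two (k l : ℕ) : S.P (2 ^ k * l) = S.P l ^ 2 ^ k := by
  induction k with
  | zero => simp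
  | succ k ih => rw [pow_succ', mul_assoc, S.h2, ih, ← pow_mul, mul_comm]

lemma per (l j : ℕ) (hl : 1 ≤ l) : S.P (l + j * S.n) = S.P l := by
  induction j with
  | zero => simp
  | succ j ih => rw [add_mul, one_mul, ← add_assoc, S.hper _ (by omega), ih]

lemma rot {l l' : ℕ} (k j : ℕ) (h : S.P l ≠ 0) (e : 2 ^ k * l = l' + j * S.n) (hl : 1 ≤ l') :
    S.P l' ≠ 0 := by
  rw [← S.per l' j hl, ← e, S.pow_two]
  exact pow_ne_zero _ h

lemma unrot {l l' : ℕ} (k j : ℕ) (h : S.P l' ≠ 0) (e : 2 ^ k * l = l' + j * S.n) (hl : 1 ≤ l') :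
    S.P l ≠ 0 := by
  rw [← S.per l' j hl, ← e, S.pow_two] at h
  exact fun e => h (by rw [e]; simp)

lemma low {l : ℕ} (h : S.P l ≠ 0) : S.δ ≤ l := not_lt.1 fun h1 => h (S.hlow l h1)

lemma odd {l : ℕ} (h : S.P l ≠ 0) (hl : l < 2 * S.δ) : l % 2 = 1 := by
  by_contra h1
  obtain ⟨k, rfl⟩ : ∃ k, l = 2 * k := ⟨l / 2, by omega⟩
  rw [S.h2, S.hlow k (by omega)] at h
  simp at h

noncomputable def φ : E⟦X⟧ := PowerSeries.mk S.P
noncomputable def h : E⟦X⟧ := PowerSeries.mk fun j => S.P (S.δ + j)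
noncomputable def Φ : E⟦X⟧ := PowerSeries.mk fun j => coeff (S.n + j) (S.φ * S.φ ^ 2)

lemma star : S.h * S.Φ = pr S.δ 4 1 S.h := by
  have hn := S.hn
  have hδ := S.hδ
  have hodd := S.hodd
  have e1 : S.φ = X ^ S.δ * S.h := by
    ext i
    rw [coeff_X_pow_mul', φ, h, coeff_mk, coeff_mk]
    split_ifs with h1
    · congr 1; omega
    · exact S.hlow _ (by omega)
  have e2 : S.σ * S.h = C (S.P S.δ) := by
    apply mul_left_cancel₀ (pow_ne_zero S.δ (X_ne_zero (R := E)))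
    have := S.hσ
    rw [← φ, e1] at this
    linear_combination this
  have e3 : ∀ i, S.n ≤ i + 1 → coeff i (S.φ ^ 4 - X ^ (S.n + S.δ) * pr S.δ 4 1 S.h) = 0 := by
    intro i hi
    rw [map_sub, coeff_four, coeff_X_pow_mul', coeff_pr, φ, h, coeff_mk, coeff_mk, sub_eq_zero]
    by_cases h4 : 4 ∣ i
    · obtain ⟨l, rfl⟩ : ∃ l, i = l + S.n := ⟨i - S.n, by omega⟩
      have := S.pow_two 2 ((l + S.n) / 4)
      rw [show 2 ^ 2 * ((l + S.n) / 4) = l + S.n by omega, S.hper _ (by omega),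
        show (2 : ℕ) ^ 2 = 4 from rfl] at this
      rw [if_pos h4, ← this]
      split_ifs with h1 h2
      · congr 1; omega
      · exact absurd (show _ % 4 = 1 % 4 by omega) h2
      · exact S.hlow _ (by omega)
    · rw [if_neg h4]
      split_ifs with h1 h2
      · have : _ % 4 = 1 % 4 := h2
        omega
      · rfl
      · rfl
  have e4 : C (S.P S.δ) * S.Φ = S.σ * pr S.δ 4 1 S.h := by
    ext j
    have a1 : coeff (S.n + S.δ + j) (S.σ * (S.φ ^ 4 - X ^ (S.n + S.δ) * pr S.δ 4 1 S.h)) = 0 := by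
      rw [coeff_mul]
      refine Finset.sum_eq_zero fun p hp => ?_
      rw [Finset.HasAntidiagonal.mem_antidiagonal] at hp
      by_cases h1 : S.δ + 1 < p.1
      · rw [S.hσd _ h1, zero_mul]
      · rw [e3 _ (by omega), mul_zero]
    have a2 : S.σ * (S.φ ^ 4 - X ^ (S.n + S.δ) * pr S.δ 4 1 S.h) =
        X ^ S.δ * (C (S.P S.δ) * (S.φ * S.φ ^ 2)) - X ^ (S.n + S.δ) * (S.σ * pr S.δ 4 1 S.h) := by
      have := S.hσ
      rw [← φ] at this
      linear_combination S.φ ^ 3 * this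
    rw [a2, map_sub, sub_eq_zero, show S.n + S.δ + j = S.n + j + S.δ by ring, coeff_X_pow_mul,
      show S.n + j + S.δ = j + (S.n + S.δ) by ring, coeff_X_pow_mul] at a1
    rw [← a1, coeff_C_mul, coeff_C_mul, Φ, coeff_mk]
  apply mul_left_cancel₀ (show (C (S.P S.δ) : E⟦X⟧) ≠ 0 by simpa using S.hc)
  linear_combination S.h * e4 + pr S.δ 4 1 S.h * e2

lemma below (l : ℕ) : ∀ d, S.P l ≠ 0 → 3 * l + d = S.n → 0 < d → ∃ i η l₀, η ≤ S.ε ∧
    l₀ + 1 + η = S.R ∧ 4 ^ i * d = S.R + 2 + 3 * η ∧ S.P l₀ ≠ 0 ∧ (i = 0 → l₀ = l) ∧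
    (1 ≤ i → l₀ % 4 = 1) ∧ 4 ^ i ≤ 3 * S.ε + 2 := by
  have hn := S.hn
  have hδ := S.hδ
  have hb : ∀ i η d, η ≤ S.ε → 4 ^ i * d = S.R + 2 + 3 * η → 0 < d → 4 ^ i ≤ 3 * S.ε + 2 := by
    intro i η d h1 h2 h3
    have e : 4 ^ i = 2 ^ (2 * i) := by rw [pow_mul]; norm_num
    have hbig := S.hbig
    by_cases h4 : 2 * i ≤ S.r
    · have h5 : 4 ^ i ∣ S.R := by rw [e, S.hR]; exact pow_dvd_pow _ h4
      have h6 : 4 ^ i ∣ 2 + 3 * η := by
        have : 4 ^ i ∣ S.R + (2 + 3 * η) := ⟨d, by omega⟩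
        exact (Nat.dvd_add_right h5).1 this
      have := Nat.le_of_dvd (by omega) h6
      omega
    · have h5 : 2 * S.R ≤ 4 ^ i := by
        rw [e, S.hR, ← pow_succ']; exact Nat.pow_le_pow_right (by norm_num) (by omega)
      have : 4 ^ i * 1 ≤ 4 ^ i * d := Nat.mul_le_mul_left _ h3
      have : S.ε + 2 ≤ (S.ε + 2) ^ 3 := Nat.le_self_pow (by norm_num) _
      omega
  induction l using Nat.strong_induction_on with
  | _ l ih =>
    intro d h hd hd0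
    by_cases h1 : l < S.R
    · have := S.low h
      exact ⟨0, S.R - 1 - l, l, by omega, by omega, by omega, h, fun _ => rfl, by omega, by omega⟩
    · obtain ⟨i, η, l₀, a1, a2, a3, a4, a5, a6, -⟩ := ih (4 * l - S.n) (by omega) (4 * d)
        (S.rot 2 1 h (by omega) (by omega)) (by omega) (by omega)
      have a7 : 4 ^ (i + 1) * d = S.R + 2 + 3 * η := by rw [← a3]; ring
      refine ⟨i + 1, η, l₀, a1, a2, a7, a4, by omega, fun _ => ?_, hb _ _ _ a1 a7 hd0⟩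
      rcases Nat.eq_zero_or_pos i with h0 | h0
      · have := a5 h0; omega
      · exact a6 h0

/-- the window -/
def W : ℕ := 33 * (S.ε + 2) ^ 2

lemma W_le : 4 * ((3 * S.ε + 2) * S.W) + 4 * S.ε + 3 ≤ S.δ := by
  have h1 := S.hbig
  have h2 := S.hδ
  have h3 := S.hε
  rw [W]
  nlinarith [Nat.zero_le (S.ε ^ 2), Nat.zero_le (S.ε ^ 3)]

lemma pairs {l₀ l₁ j : ℕ} (e : l₀ + 2 * l₁ = S.n + j) (hj : j < S.W) (h₀ : S.P l₀ ≠ 0)
    (h₁ : S.P l₁ ≠ 0) : S.n ≤ 3 * l₀ ∧ S.n ≤ 3 * l₁ := by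
  have hn := S.hn
  have hW := S.W_le
  constructor
  · by_contra h
    obtain ⟨d, hd⟩ : ∃ d, 3 * l₀ + d = S.n := ⟨S.n - 3 * l₀, by omega⟩
    obtain ⟨i, η, -, a1, -, a3, -, -, -, a7⟩ := S.below l₀ d h₀ hd (by omega)
    have g := gs_eq i
    have b1 : 4 ^ i * j ≤ (3 * S.ε + 2) * S.W := Nat.mul_le_mul a7 hj.le
    have := S.low (S.rot (l' := 3 + 4 * η + 4 * (4 ^ i * j)) (2 * i + 3) (8 * gs i + 3) h₁ (by
      rw [show 2 ^ (2 * i + 3) = 8 * 4 ^ i by rw [pow_add, pow_mul]; ring]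
      generalize 4 ^ i = F at *
      apply Nat.eq_of_mul_eq_mul_left (show 0 < 3 by norm_num)
      zify at e hd a3 g hn ⊢
      linear_combination 12 * (F : ℤ) * e - 4 * (F : ℤ) * hd + 4 * a3 - 8 * (S.n : ℤ) * g - hn)
      (by omega))
    have : 4 ^ i * j < (3 * S.ε + 2) * S.W :=
      lt_of_le_of_lt (Nat.mul_le_mul_right _ a7) (Nat.mul_lt_mul_of_pos_left hj (by omega))
    omega
  · by_contra h
    obtain ⟨d, hd⟩ : ∃ d, 3 * l₁ + d = S.n := ⟨S.n - 3 * l₁, by omega⟩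
    obtain ⟨i, η, -, a1, -, a3, -, -, -, a7⟩ := S.below l₁ d h₁ hd (by omega)
    have g := gs_eq i
    have := S.low (S.rot (l' := 3 + 4 * η + 2 * (4 ^ i * j)) (2 * i + 1) (2 * gs i + 1) h₀ (by
      rw [show 2 ^ (2 * i + 1) = 2 * 4 ^ i by rw [pow_add, pow_mul]; ring]
      generalize 4 ^ i = F at *
      apply Nat.eq_of_mul_eq_mul_left (show 0 < 3 by norm_num)
      zify at e hd a3 g hn ⊢
      linear_combination 6 * (F : ℤ) * e - 4 * (F : ℤ) * hd + 4 * a3 - 2 * (S.n : ℤ) * g - hn)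
      (by omega))
    have : 4 ^ i * j < (3 * S.ε + 2) * S.W :=
      lt_of_le_of_lt (Nat.mul_le_mul_right _ a7) (Nat.mul_lt_mul_of_pos_left hj (by omega))
    omega

lemma two_pow_dvd {k : ℕ} (hk : 2 ^ k ≤ 16 * (S.ε + 2)) : 2 ^ k ∣ 4 * S.R := by
  have h1 := S.hbig
  have : S.ε + 2 ≤ (S.ε + 2) ^ 3 := Nat.le_self_pow (by norm_num) _
  have h2 : 2 ^ k ≤ 2 ^ S.r := by rw [← S.hR]; omega
  rw [S.hR]
  exact (pow_dvd_pow 2 ((Nat.pow_le_pow_iff_right (by norm_num)).1 h2)).mul_left 4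

lemma forb {k L l : ℕ} (hk : 2 ^ k ≤ 16 * (S.ε + 2)) (hL : 4 * (L + 1) ≤ 2 ^ k)
    (hl : l < 2 * S.R) (hc : l ≡ L [MOD 2 ^ k]) : S.P l = 0 := by
  by_contra h
  have hn := S.hn
  have hδ := S.hδ
  have hodd := S.hodd
  have h0 := S.low h
  obtain ⟨t, ht⟩ := S.two_pow_dvd hk
  obtain ⟨k', -, rfl⟩ : ∃ k' ≤ S.r + 2, t = 2 ^ k' :=
    (Nat.dvd_prime_pow Nat.prime_two).1 ⟨2 ^ k, by rw [pow_add, ← S.hR]; linarith⟩
  have e1 : l = 2 ^ k * (l / 2 ^ k) + L := by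
    have := Nat.div_add_mod l (2 ^ k)
    rw [show l % 2 ^ k = L from Eq.trans hc (Nat.mod_eq_of_lt (by omega))] at this
    omega
  generalize l / 2 ^ k = l1 at e1
  have b0 : 0 < 2 ^ k' := by positivity
  have b1 : 2 * l1 < 2 ^ k' := by
    apply Nat.lt_of_mul_lt_mul_left (a := 2 ^ k)
    nlinarith
  have b2 : 2 ^ k' * (L + 1) ≤ S.R := by nlinarith
  have b3 : 2 * (S.ε + 1) ≤ 2 ^ k' := by
    by_contra hh
    have h1 := S.hbig
    have : 2 ^ k * 2 ^ k' ≤ 16 * (S.ε + 2) * (2 * (S.ε + 2)) := Nat.mul_le_mul hk (by omega)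
    nlinarith [Nat.zero_le (S.ε ^ 2), Nat.zero_le (S.ε ^ 3)]
  have := S.low (S.rot (l' := l1 + 2 ^ k' * L) k' l1 h (by
    rw [e1]
    zify at hn ht ⊢
    linear_combination -(l1 : ℤ) * ht - (l1 : ℤ) * hn) (by
      rcases Nat.eq_zero_or_pos l1 with h1 | h1
      · have : 1 ≤ L := by rw [h1] at e1; omega
        nlinarith
      · omega))
  nlinarith

end Sys

end Pool.Agent.Lib.MP_587b89_lc.Win
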