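import Pool.Agent.Lib.MP_587b89_lc.WinC

/-!
The window near a third of the length, and the case of designed distance one modulo four.
-/

set_option autoImplicit false
set_option linter.unusedSectionVars false
open PowerSeries

namespace Pool.Agent.Lib.MP_587b89_lc.Win

variable {E : Type} [Field E] [CharP E 2]

namespace Sys

variable (S : Sys E)

def a : ℕ := (S.n + 2) / 3
def ρ : ℕ := 3 * S.a - S.n
noncomputable def A : E⟦X⟧ := PowerSeries.mk fun u => if u < S.W then S.P (S.a + u) else 0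
noncomputable def p : Polynomial E := trunc (S.ε + 1) (pr S.δ 4 1 S.h)
noncomputable def q : Polynomial E := trunc (S.ε + 1) (pr S.δ 4 3 S.h)

lemma aρ : 3 * S.a = S.n + S.ρ ∧ S.ρ ≤ 2 := by
  simp only [a, ρ]; omega

lemma W_small : 32 * S.W + 4 * S.ε + 3 ≤ S.δ ∧ 33 * (S.ε + 2) ≤ S.W := by
  have h1 := S.W_le
  have h2 := S.hε
  have : 8 * S.W ≤ (3 * S.ε + 2) * S.W := Nat.mul_le_mul_right _ (by omega)
  exact ⟨by omega, by rw [W]; nlinarith⟩

lemma coeff_A {u : ℕ} (hu : u < S.W) : coeff u S.A = S.P (S.a + u) := by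
  rw [A, coeff_mk, if_pos hu]

lemma A_ne {u : ℕ} (h : coeff u S.A ≠ 0) : u < S.W ∧ S.P (S.a + u) ≠ 0 := by
  rw [A, coeff_mk] at h
  split_ifs at h with h1
  · exact ⟨h1, h⟩
  · exact absurd rfl h

lemma A_odd : Cl S.a 2 1 S.A := fun u hu => by
  obtain ⟨h1, h2⟩ := S.A_ne hu
  have := S.aρ
  have := S.W_small
  have := S.hn
  have := S.hδ
  exact S.odd h2 (by omega)

lemma A_self : (X : E⟦X⟧) ^ S.W ∣ pr S.a 4 1 S.A - X ^ S.ρ * S.A ^ 4 := by
  rw [X_pow_dvd_iff]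
  intro u hu
  have := S.aρ
  have := S.hn
  have := S.hδ
  rw [map_sub, coeff_pr, coeff_fr, sub_eq_zero]
  split_ifs with h1 h2 h2
  · rw [S.coeff_A hu, S.coeff_A (by omega), ← S.hper _ (by omega),
      show S.a + u + S.n = 2 ^ 2 * (S.a + (u - S.ρ) / 4) by omega, S.pow_two]
    rfl
  · have : _ % 4 = 1 % 4 := h1
    omega
  · exact absurd (show _ % 4 = 1 % 4 by omega) h1
  · rfl

lemma A_forb (k L : ℕ) (hk : 2 ^ k ≤ 16 * (S.ε + 2)) (hL : 4 * (L + 1) ≤ 2 ^ k) :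
    pr S.a (2 ^ k) L S.A = 0 := by
  ext u
  rw [coeff_pr, map_zero]
  split_ifs with h1
  · by_contra h2
    obtain ⟨h3, h4⟩ := S.A_ne h2
    have := S.aρ
    have := S.W_small
    have := S.hn
    have := S.hδ
    exact h4 (S.forb hk hL (by omega) h1)
  · rfl

lemma window : (X : E⟦X⟧) ^ S.W ∣ S.Φ - X ^ S.ρ * S.A ^ 3 := by
  set F : E⟦X⟧ := PowerSeries.mk fun u => S.P (S.a + u) with hF
  have ha := S.aρ
  have h1 : (X : E⟦X⟧) ^ S.W ∣ F - S.A := by
    rw [X_pow_dvd_iff]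
    intro u hu
    rw [map_sub, S.coeff_A hu, hF, coeff_mk, sub_self]
  have h2 : (X : E⟦X⟧) ^ S.W ∣ S.Φ - X ^ S.ρ * F ^ 3 := by
    rw [X_pow_dvd_iff]
    intro j hj
    set lo := S.φ - X ^ S.a * F with hlo
    have c1 : ∀ l, coeff l lo ≠ 0 → l < S.a ∧ S.P l ≠ 0 := fun l hl => by
      rw [hlo, map_sub, coeff_X_pow_mul', φ, hF, coeff_mk, coeff_mk] at hl
      split_ifs at hl with h
      · rw [show S.a + (l - S.a) = l by omega, sub_self] at hl
        exact absurd rfl hl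
      · exact ⟨by omega, by simpa using hl⟩
    have c2 : ∀ l, coeff l (X ^ S.a * F) ≠ 0 → S.P l ≠ 0 := fun l hl => by
      rw [coeff_X_pow_mul', hF, coeff_mk] at hl
      split_ifs at hl with h
      · rwa [show S.a + (l - S.a) = l by omega] at hl
      · exact absurd rfl hl
    have c3 : coeff (S.n + j) (lo * S.φ ^ 2) = 0 := by
      by_contra h
      obtain ⟨x, y, e, hx, hy⟩ := exists_pair h
      rw [φ, coeff_mk] at hy
      have := S.pairs e hj (c1 _ hx).2 hy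
      have := (c1 _ hx).1
      omega
    have c4 : coeff (S.n + j) ((X ^ S.a * F) * lo ^ 2) = 0 := by
      by_contra h
      obtain ⟨x, y, e, hx, hy⟩ := exists_pair h
      have := S.pairs e hj (c2 _ hx) (c1 _ hy).2
      have := (c1 _ hy).1
      omega
    have c5 : S.φ * S.φ ^ 2 = lo * S.φ ^ 2 + (X ^ S.a * F) * lo ^ 2 +
        X ^ S.n * (X ^ S.ρ * F ^ 3) := by
      have : (X : E⟦X⟧) ^ S.n * X ^ S.ρ = (X ^ S.a) ^ 3 := by
        rw [← pow_add, ← pow_mul, ← ha.1, mul_comm]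
      rw [← mul_assoc, this, hlo]
      linear_combination (X ^ S.a * F) ^ 2 * (S.φ - X ^ S.a * F) * (two_eq (E := E))
    rw [map_sub, Φ, coeff_mk, c5, map_add, map_add, c3, c4, add_comm S.n, coeff_X_pow_mul]
    ring
  convert dvd_add h2 ((h1.trans (sub_dvd_pow_sub_pow _ _ 3)).mul_left (X ^ S.ρ)) using 1
  ring

lemma coeff_tr (c j : ℕ) : (trunc (S.ε + 1) (pr S.δ 4 c S.h)).coeff j =
    if j ≤ S.ε ∧ (S.δ + j) % 4 = c % 4 then S.P (S.δ + j) else 0 := by
  rw [coeff_trunc, coeff_pr, h, coeff_mk]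
  by_cases h1 : j ≤ S.ε <;> by_cases h2 : (S.δ + j) % 4 = c % 4 <;>
    simp [h1, h2, Nat.ModEq]

lemma tr_dvd (c : ℕ) : (X : E⟦X⟧) ^ S.W ∣
    pr S.δ 4 c S.h - ((trunc (S.ε + 1) (pr S.δ 4 c S.h) : Polynomial E) : E⟦X⟧) := by
  rw [X_pow_dvd_iff]
  intro j hj
  rw [map_sub, Polynomial.coeff_coe, coeff_trunc, sub_eq_zero]
  split_ifs with h1
  · rfl
  · have := S.W_small
    have := S.hn
    have := S.hδ
    rw [coeff_pr, h, coeff_mk]
    split_ifs
    · by_contra h2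
      have := S.low (S.rot (l' := 4 * (S.δ + j) - S.n) 2 1 h2 (by omega) (by omega))
      omega
    · rfl

lemma cl_tr (c : ℕ) : Cl S.δ 4 c ((trunc (S.ε + 1) (pr S.δ 4 c S.h) : Polynomial E) : E⟦X⟧) :=
  fun u hu => by
  rw [Polynomial.coeff_coe, S.coeff_tr] at hu
  split_ifs at hu with h
  · exact h.2
  · exact absurd rfl hu

lemma h_split : (X : E⟦X⟧) ^ S.δ ∣ S.h - (pr S.δ 4 1 S.h + pr S.δ 4 3 S.h) := by
  rw [X_pow_dvd_iff]
  intro j hj
  rw [map_sub, map_add, coeff_pr, coeff_pr, h, coeff_mk]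
  by_cases h0 : S.P (S.δ + j) = 0
  · simp [h0]
  have := S.odd h0 (by omega)
  simp only [Nat.ModEq]
  split_ifs <;> first | omega | simp

lemma rel0 : (X : E⟦X⟧) ^ S.W ∣
    ((S.p : E⟦X⟧) + (S.q : E⟦X⟧)) * (X ^ S.ρ * S.A ^ 3) - (S.p : E⟦X⟧) := by
  have h1 : (X : E⟦X⟧) ^ S.W ∣ _ :=
    (pow_dvd_pow _ (by have := S.W_small; omega)).trans S.h_split
  have h2 := S.tr_dvd 1
  have h3 := S.tr_dvd 3
  rw [← p] at h2
  rw [← q] at h3
  convert dvd_sub (dvd_sub h2 (S.window.mul_left S.h))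
    ((dvd_add h1 (dvd_add h2 h3)).mul_right (X ^ S.ρ * S.A ^ 3)) using 1
  linear_combination S.star

lemma rel1 : (X : E⟦X⟧) ^ S.W ∣
    pr S.a 4 1 S.A * (S.q : E⟦X⟧) - pr S.a 4 3 S.A * (S.p : E⟦X⟧) := by
  have h1 := S.A_odd.split (by norm_num)
  norm_num at h1
  convert dvd_add (S.rel0.mul_left S.A) (S.A_self.mul_left ((S.p : E⟦X⟧) + (S.q : E⟦X⟧))) using 1
  linear_combination (S.p : E⟦X⟧) * h1

lemma deg_p : S.p.natDegree ≤ S.ε := Nat.lt_succ_iff.1 (natDegree_trunc_lt _ _)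
lemma deg_q : S.q.natDegree ≤ S.ε := Nat.lt_succ_iff.1 (natDegree_trunc_lt _ _)

lemma ratio (hp : S.p ≠ 0) : ∃ b : E, S.q = Polynomial.C b * (Polynomial.X ^ 2 * S.p) := by
  classical
  obtain ⟨N, V, hN, hV, hu⟩ := extract_gcd S.q (Polynomial.X ^ 2 * S.p)
  generalize gcd S.q (Polynomial.X ^ 2 * S.p) = g at hN hV
  have hc : IsCoprime N V := (gcd_isUnit_iff N V).1 hu
  have h0 : g * V ≠ 0 := hV ▸ mul_ne_zero (pow_ne_zero _ Polynomial.X_ne_zero) hp
  have hg := left_ne_zero_of_mul h0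
  have hV0 := right_ne_zero_of_mul h0
  have d1 : g.natDegree + V.natDegree ≤ S.ε + 2 := by
    rw [← Polynomial.natDegree_mul hg hV0, ← hV]
    exact (Polynomial.natDegree_mul_le_of_le (Polynomial.natDegree_X_pow_le _) S.deg_p).trans
      (by omega)
  have d2 : N.natDegree ≤ S.ε + 2 := by
    by_cases hN0 : N = 0
    · simp [hN0]
    · have := S.deg_q
      rw [hN, Polynomial.natDegree_mul hg hN0] at this
      omega
  have hW := S.W_small
  have cN : (S.q : E⟦X⟧) = (g : E⟦X⟧) * (N : E⟦X⟧) := by rw [hN, Polynomial.coe_mul]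
  have cV : X ^ 2 * (S.p : E⟦X⟧) = (g : E⟦X⟧) * (V : E⟦X⟧) := by
    rw [← Polynomial.coe_mul, ← hV]; push_cast; rfl
  have hg' : (g : E⟦X⟧) ≠ 0 := by simpa using hg
  obtain ⟨o, ho, hA⟩ : ∃ o ≤ S.ε, coeff o S.A ≠ 0 := by
    by_contra hh
    push Not at hh
    have h1 : (X : E⟦X⟧) ^ (S.ε + 1) ∣ S.A := X_pow_dvd_iff.2 fun u hu => hh u (by omega)
    have h2 := (pow_dvd_pow _ (show S.ε + 1 ≤ S.W by omega)).trans S.rel0
    have h3 : (X : E⟦X⟧) ^ (S.ε + 1) ∣ (S.p : E⟦X⟧) := by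
      have := dvd_sub (h1.mul_left (((S.p : E⟦X⟧) + (S.q : E⟦X⟧)) * (X ^ S.ρ * S.A ^ 2))) h2
      convert this using 1
      ring
    exact hp (poly_zero h3 (by have := S.deg_p; omega))
  have base : ∀ β, 0 < β → 2 * β ∣ 4 → Cl 0 β 0 (N : E⟦X⟧) ∧ Cl 0 β 0 (V : E⟦X⟧) →
      Cl 0 (2 * β) 0 (N : E⟦X⟧) ∧ Cl 0 (2 * β) 0 (V : E⟦X⟧) := fun β hβ h4 h => by
    refine class_up hβ hc hV0 h.1 h.2 ?_
    apply Polynomial.coe_injective E
    have c1 : Cl S.δ (2 * β) 3 (S.q : E⟦X⟧) := (S.cl_tr 3).of_dvd h4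
    have c2 : Cl S.δ (2 * β) 3 (X ^ 2 * (S.p : E⟦X⟧)) := by
      simpa [p] using ((cl_X_pow (E := E) 4 2).mul (S.cl_tr 1)).of_dvd h4
    have e1 := pr_mul (o' := 0) (L' := β) c1 (V : E⟦X⟧)
    have e2 := pr_mul (o' := 0) (L' := β) c2 (N : E⟦X⟧)
    rw [show (S.q : E⟦X⟧) * (V : E⟦X⟧) = X ^ 2 * (S.p : E⟦X⟧) * (N : E⟦X⟧) by rw [cN, cV]; ring,
      e2, cN, cV] at e1
    simp only [Polynomial.coe_mul, coe_ppr]
    apply mul_left_cancel₀ hg'
    linear_combination -e1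
  have b4 := base 2 (by norm_num) (by norm_num) (base 1 (by norm_num) (by norm_num)
    ⟨fun _ _ => Nat.modEq_one, fun _ _ => Nat.modEq_one⟩)
  have hWe : S.W = 32 * (S.ε + 2) ^ 2 + (S.ε + 2) ^ 2 := by rw [W]; ring
  have hsq : S.ε + 2 ≤ (S.ε + 2) ^ 2 := Nat.le_self_pow (by norm_num) _
  let H : Ht E :=
    { a := S.a, ρ := S.ρ, Q := 4 * S.R, e := S.ε + 2, W := 32 * (S.ε + 2) ^ 2, o := o, A := S.A,
      N := N, V := V, ha := by have := S.aρ; have := S.hn; omega, hρ := S.aρ.2, he := by omega,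
      hW := le_rfl, hQ := fun k hk => S.two_pow_dvd hk, hodd := S.A_odd,
      hself := (pow_dvd_pow _ (by omega)).trans S.A_self, hF := S.A_forb, hc := hc, hV := hV0,
      dN := d2, dV := by omega, ho := by omega, hA := hA,
      hrel := by
        refine cancel (d := (S.ε + 2) ^ 2) (g := (g : E⟦X⟧)) (o := g.natDegree) ?_
          (by rw [Polynomial.coeff_coe]; exact Polynomial.leadingCoeff_ne_zero.2 hg) (by omega)
        rw [← hWe]
        convert (S.rel1.mul_left (-X ^ 2)) using 1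
        linear_combination -pr S.a 4 3 S.A * cV + X ^ 2 * pr S.a 4 1 S.A * cN }
  obtain ⟨z1, z2⟩ := H.height b4.1 b4.2
  obtain ⟨b, hb⟩ := Polynomial.natDegree_eq_zero.1 (show N.natDegree = 0 from z1)
  obtain ⟨v, hv⟩ := Polynomial.natDegree_eq_zero.1 (show V.natDegree = 0 from z2)
  have hv0 : v ≠ 0 := fun e => hV0 (by rw [← hv, e, map_zero])
  refine ⟨b / v, ?_⟩
  rw [hV, hN, ← hb, ← hv, mul_left_comm, ← map_mul, div_mul_cancel₀ _ hv0]

lemma three (h : S.δ % 4 = 3) {l : ℕ} (hl : l < S.R) (h1 : l % 4 = 1) : S.P l = 0 := by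
  have hp : S.p = 0 := by
    by_contra hp
    obtain ⟨b, hb⟩ := S.ratio hp
    have := congrArg (fun G => Polynomial.coeff G 0) hb
    simp only [q, S.coeff_tr] at this
    rw [if_pos (by omega)] at this
    exact S.hc (by simpa using this)
  by_contra h2
  have h3 := S.low h2
  have := congrArg (fun G => Polynomial.coeff G (l - S.δ)) hp
  have hδ := S.hδ
  simp only [p, S.coeff_tr] at this
  rw [if_pos (by omega), show S.δ + (l - S.δ) = l by omega] at this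
  exact h2 (by simpa using this)

lemma p_zero (h : S.δ % 4 = 1) : S.p.coeff 0 = S.P S.δ := by
  rw [p, S.coeff_tr, if_pos (by omega), add_zero]

lemma one_q (h : S.δ % 4 = 1) : S.q = 0 := by
  have h0 := S.p_zero h
  obtain ⟨b, hb⟩ := S.ratio fun e => S.hc (by rw [← h0, e, Polynomial.coeff_zero])
  have := congrArg (fun G => Polynomial.coeff G (0 + 2)) hb
  have hε := S.hε
  simp only [Polynomial.coeff_C_mul, Polynomial.coeff_X_pow_mul, h0] at this
  rw [q, S.coeff_tr, if_pos (by omega), zero_add, S.hnorm h] at this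
  rw [hb, (mul_eq_zero.1 this.symm).resolve_right S.hc, map_zero, zero_mul]

lemma one_const (h : S.δ % 4 = 1) : 3 * S.a = S.n ∧ ∀ u, 0 < u → u < S.W → S.P (S.a + u) = 0 := by
  have h0 : coeff 0 (S.p : E⟦X⟧) ≠ 0 := by rw [Polynomial.coeff_coe, S.p_zero h]; exact S.hc
  have hW := S.W_small
  have r0 := S.rel0
  have r1 := S.rel1
  rw [S.one_q h, Polynomial.coe_zero] at r0 r1
  have h1 : (X : E⟦X⟧) ^ S.W ∣ X ^ S.ρ * S.A ^ 3 - 1 :=
    cancel (d := 0) (by convert r0 using 1 <;> ring) h0 le_rfl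
  have h2 : (X : E⟦X⟧) ^ S.W ∣ pr S.a 4 3 S.A :=
    cancel (d := 0) (by convert r1.neg_right using 1 <;> ring) h0 le_rfl
  have hρ : S.ρ = 0 := by
    by_contra hh
    have := X_pow_dvd_iff.1 h1 0 (by omega)
    rw [map_sub, coeff_X_pow_mul', if_neg (by omega)] at this
    simp at this
  refine ⟨by have := S.aρ; omega, ?_⟩
  have h3 := S.A_odd.split (by norm_num)
  norm_num at h3
  have h4 : (X : E⟦X⟧) ^ S.W ∣ S.A - S.A ^ 4 := by
    convert dvd_add S.A_self h2 using 1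
    rw [hρ]
    linear_combination h3
  intro u
  induction u using Nat.strong_induction_on with
  | _ u ih =>
    intro hu hu'
    have := X_pow_dvd_iff.1 h4 u hu'
    rw [map_sub, coeff_four, S.coeff_A hu', sub_eq_zero] at this
    rw [this]
    split_ifs with h5
    · rw [S.coeff_A (by omega), ih _ (by omega) (by omega) (by omega)]; simp
    · rfl

lemma exists_three (d : ℕ) : ∀ l, 3 * l + d = S.n → 0 < d → S.P l ≠ 0 →
    ∃ l', S.P l' ≠ 0 ∧ l' % 4 = 3 ∧ 3 * l' < S.n := by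
  have hn := S.hn
  have hδ := S.hδ
  have hW := S.W_small
  induction d using Nat.strong_induction_on with
  | _ d ih =>
    intro l e hd h
    have h1 := S.odd h (by omega)
    by_cases h2 : l % 4 = 3
    · exact ⟨l, h, h2, by omega⟩
    · exact ih (d / 4) (by omega) ((l + S.n) / 4) (by omega) (by omega)
        (S.unrot 2 1 h (by omega) (by omega))

theorem not_one (h : S.δ % 4 = 1) : False := by
  classical
  have hn := S.hn
  have hδ := S.hδ
  have hW := S.W_small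
  obtain ⟨ha, hA⟩ := S.one_const h
  obtain ⟨l', b1, b2, b3⟩ := S.exists_three (S.n - 3 * S.δ) S.δ (by omega) (by omega) S.hc
  have ex : ∃ l, S.P l ≠ 0 ∧ l % 4 = 3 := ⟨l', b1, b2⟩
  obtain ⟨c1, c2⟩ := Nat.find_spec ex
  have c3 : Nat.find ex ≤ l' := Nat.find_min' ex ⟨b1, b2⟩
  have c4 := fun m => Nat.find_min ex (m := m)
  generalize Nat.find ex = l at c1 c2 c3 c4
  have c5 := S.low c1
  have c6 : S.R ≤ l := by
    by_contra hh
    have := congrArg (fun G => Polynomial.coeff G (l - S.δ)) (S.one_q h)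
    simp only [q, S.coeff_tr] at this
    rw [if_pos (by omega), show S.δ + (l - S.δ) = l by omega] at this
    exact c1 (by simpa using this)
  obtain ⟨J, rfl⟩ : ∃ J, l = S.δ + J := ⟨l - S.δ, by omega⟩
  have h0 : coeff 0 S.h ≠ 0 := by simpa [Sys.h] using S.hc
  obtain ⟨Y, hY⟩ : (X : E⟦X⟧) ^ J ∣ S.h - pr S.δ 4 1 S.h := by
    rw [X_pow_dvd_iff]
    intro j hj
    rw [map_sub, coeff_pr, Sys.h, coeff_mk]
    split_ifs with h1
    · simp
    · by_contra h2
      rw [sub_zero] at h2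
      have := S.odd h2 (by omega)
      exact c4 (S.δ + j) (by omega) ⟨h2, by simp only [Nat.ModEq] at h1; omega⟩
  have hY0 : coeff 0 Y ≠ 0 := by
    have := congrArg (coeff (0 + J)) hY
    rw [coeff_X_pow_mul, map_sub, coeff_pr, if_neg (by simp only [Nat.ModEq]; omega), Sys.h,
      coeff_mk, zero_add, sub_zero] at this
    rwa [← this]
  obtain ⟨Z, hZ⟩ : (X : E⟦X⟧) ^ J ∣ S.Φ - 1 :=
    cancel (d := 0) ⟨-Y, by linear_combination S.star - hY⟩ h0 le_rfl
  have hΦ : coeff J S.Φ ≠ 0 := by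
    have e1 : S.h * Z = -Y := by
      apply mul_left_cancel₀ (pow_ne_zero J (X_ne_zero (R := E)))
      linear_combination S.star - hY - S.h * hZ
    have e2 := congrArg (coeff (0 + J)) hZ
    rw [coeff_X_pow_mul, map_sub, coeff_one, if_neg (by omega), zero_add, sub_zero] at e2
    have e3 := congrArg (coeff 0) e1
    simp only [coeff_zero_eq_constantCoeff, map_mul, map_neg] at e2 e3 hY0
    intro e4
    rw [← e2, e4, mul_zero] at e3
    exact hY0 (neg_eq_zero.1 e3.symm)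
  rw [Φ, coeff_mk] at hΦ
  obtain ⟨l₀, l₁, e, k0, k1⟩ := exists_pair hΦ
  rw [φ, coeff_mk] at k0 k1
  obtain ⟨d, hd⟩ : ∃ d, 3 * (S.δ + J) + d = S.n := ⟨S.n - 3 * (S.δ + J), by omega⟩
  obtain ⟨i, η, l₂, a1, a2, a3, -, a5, -, a7⟩ := S.below _ d c1 hd (by omega)
  have hi : 1 ≤ i := by
    by_contra hh
    have := a5 (by omega)
    omega
  have g := gs_eq i
  have hF : 4 ≤ 4 ^ i := Nat.pow_le_pow_right (n := 4) (by norm_num) hi
  have e4 : 2 ^ (2 * i + 2) = 4 * 4 ^ i := by rw [pow_add, pow_mul]; ring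
  have hθ : 4 * (3 + 4 * S.ε) ≤ 4 ^ i * (3 + 4 * S.ε) := Nat.mul_le_mul_right _ hF
  have hθ' : 2 * (4 ^ i * (3 + 4 * S.ε)) < S.W := by
    have : 4 ^ i * (3 + 4 * S.ε) ≤ (3 * S.ε + 2) * (3 + 4 * S.ε) := Nat.mul_le_mul_right _ a7
    rw [W]; nlinarith
  obtain ⟨θ, hθe⟩ : ∃ θ, θ + 3 + 4 * η = 4 ^ i * (3 + 4 * S.ε) :=
    ⟨4 ^ i * (3 + 4 * S.ε) - 3 - 4 * η, by omega⟩
  have red : ∀ x, S.P x ≠ 0 → ∃ u t, 2 ^ (2 * i + 2) * x = u + t * S.n ∧ u ≤ S.n ∧ S.P u ≠ 0 := by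
    intro x hx
    have := S.low hx
    have h1 : 0 < 2 ^ (2 * i + 2) * x := Nat.mul_pos (by positivity) (by omega)
    have h2 := Nat.div_add_mod (2 ^ (2 * i + 2) * x - 1) S.n
    have h3 := Nat.mod_lt (2 ^ (2 * i + 2) * x - 1) (show 0 < S.n by omega)
    have h4 : 2 ^ (2 * i + 2) * x = (2 ^ (2 * i + 2) * x - 1) % S.n + 1 +
        (2 ^ (2 * i + 2) * x - 1) / S.n * S.n := by rw [mul_comm _ S.n]; omega
    exact ⟨_, _, h4, h3, S.rot _ _ hx h4 (by omega)⟩
  obtain ⟨u, t, u1, u2, u3⟩ := red l₀ k0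
  obtain ⟨v, s, v1, v2, v3⟩ := red (2 * l₁) (by rw [S.h2]; exact pow_ne_zero _ k1)
  have u4 := S.low u3
  have v4 := S.low v3
  have sum : u + v + (t + s) * S.n = θ + (4 * 4 ^ i + gs i) * S.n := by
    rw [e4] at u1 v1
    generalize 4 ^ i = F at *
    apply Nat.eq_of_mul_eq_mul_left (show 0 < 3 by norm_num)
    zify at u1 v1 e hd a3 g hn hδ hθe ⊢
    linear_combination -3 * u1 - 3 * v1 + 12 * (F : ℤ) * e + 4 * (F : ℤ) * hd - 4 * a3 - 3 * hθe -
      (S.n : ℤ) * g + (1 + 3 * (F : ℤ)) * hn - 12 * (F : ℤ) * hδ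
  have sum' : u + v = S.n + θ := by
    generalize 4 * 4 ^ i + gs i = T at sum
    generalize t + s = t' at sum
    rcases lt_trichotomy (t' + 1) T with hh | hh | hh
    · have : (t' + 2) * S.n ≤ T * S.n := Nat.mul_le_mul_right _ hh
      rw [add_mul] at this
      omega
    · rw [← hh, add_mul] at sum
      omega
    · have : T * S.n ≤ t' * S.n := Nat.mul_le_mul_right _ (by omega)
      omega
  have fin : ∀ u v, S.P u ≠ 0 → S.P v ≠ 0 → u ≤ v → u + v = S.n + θ → False := by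
    intro u v hu hv huv e
    have hv' := S.rot (l' := 2 * v - S.n) 1 1 hv (by omega) (by omega)
    have := S.pairs (j := 2 * θ) (l₀ := 2 * v - S.n) (l₁ := u) (by omega) (by omega) hv' hu
    by_cases h1 : u = S.a
    · exact hv' (by
        have := hA (2 * θ) (by omega) (by omega)
        rwa [show S.a + 2 * θ = 2 * v - S.n by omega] at this)
    · exact hu (by
        have := hA (u - S.a) (by omega) (by omega)
        rwa [show S.a + (u - S.a) = u by omega] at this)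
  rcases le_total u v with hh | hh
  · exact fin u v u3 v3 hh sum'
  · exact fin v u v3 u3 hh (by omega)

end Sys

end Pool.Agent.Lib.MP_587b89_lc.Win
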