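import Pool.Agent.Lib.MP_587b89_lc.WinD

/-!
The case of designed distance three modulo four.
-/

set_option autoImplicit false
set_option linter.unusedSectionVars false
open PowerSeries

namespace Pool.Agent.Lib.MP_587b89_lc.Win

variable {E : Type} [Field E] [CharP E 2]

namespace Sys

variable (S : Sys E)

lemma pair {L : ℕ} (hL : ∀ l, S.P l ≠ 0 → l < S.R ∨ L ≤ l) {a b : ℕ} (ha : S.P a ≠ 0)
    (hb : S.P b ≠ 0) (h1 : S.n ≤ a + 2 * b) (h2 : a + 2 * b + S.δ < 4 * L) :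
    ∃ a' b', a' + 2 * b' = a + 2 * b ∧ b' ≠ b ∧ S.P a' ≠ 0 ∧ S.P b' ≠ 0 := by
  have hn := S.hn
  have hδ := S.hδ
  have hodd := S.hodd
  have h0 : coeff 0 S.h ≠ 0 := by simpa [Sys.h] using S.hc
  have h3 : (X : E⟦X⟧) ^ (4 * L - S.n - S.δ) ∣ S.Φ := by
    refine cancel (d := 0) ?_ h0 le_rfl
    rw [S.star, X_pow_dvd_iff]
    intro j hj
    rw [coeff_pr, Sys.h, coeff_mk]
    split_ifs with h4
    · by_contra h5
      have h6 : _ % 4 = 1 % 4 := h4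
      have := hL _ (S.unrot (l := (S.δ + j + S.n) / 4) 2 1 h5 (by omega) (by omega))
      omega
    · rfl
  have h4 := X_pow_dvd_iff.1 h3 (a + 2 * b - S.n) (by omega)
  rw [Φ, coeff_mk, show S.n + (a + 2 * b - S.n) = a + 2 * b by omega] at h4
  simpa [φ] using exists_other_pair h4 (by simpa [φ] using ha) (by simpa [φ] using hb)

lemma rho_eq {V T l η x : ℕ} (hV : V * T = S.R) (h1 : 1 ≤ V) (e : l + T + 1 + η = 2 * S.R)
    (hx : x + 2 * (V * (1 + η)) + 1 = 2 * S.R + V) : 2 * V * l = x + (V - 1) * S.n := by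
  have hn := S.hn
  obtain ⟨V, rfl⟩ : ∃ V', V = V' + 1 := ⟨V - 1, by omega⟩
  rw [Nat.add_sub_cancel]
  zify at hn hV e hx ⊢
  linear_combination 2 * ((V : ℤ) + 1) * e - 2 * hV - hx - (V : ℤ) * hn

lemma rho {j T l η : ℕ} (hV : 2 ^ (j + 1) * T = S.R) (h : S.P l ≠ 0)
    (e : l + T + 1 + η = 2 * S.R) (hη : η < T) :
    ∃ x, x + 2 * (2 ^ (j + 1) * (1 + η)) + 1 = 2 * S.R + 2 ^ (j + 1) ∧ S.P x ≠ 0 := by
  have h1 : 2 ≤ 2 ^ (j + 1) := by have := Nat.one_le_two_pow (n := j); rw [pow_succ]; omega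
  have h2 : 2 ^ (j + 1) * (1 + η) ≤ 2 ^ (j + 1) * T := Nat.mul_le_mul_left _ (by omega)
  obtain ⟨x, hx⟩ : ∃ x, x + 2 * (2 ^ (j + 1) * (1 + η)) + 1 = 2 * S.R + 2 ^ (j + 1) :=
    ⟨2 * S.R + 2 ^ (j + 1) - 1 - 2 * (2 ^ (j + 1) * (1 + η)), by omega⟩
  refine ⟨x, hx, S.rot (j + 1 + 1) (2 ^ (j + 1) - 1) h ?_ (by omega)⟩
  rw [pow_succ' 2 (j + 1)]
  exact S.rho_eq hV (by omega) e hx

lemma lb {j T l : ℕ} (hV : 2 ^ (j + 1) * T = S.R) (h : S.P l ≠ 0) (h1 : 2 * S.R ≤ l + 2 * T) :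
    4 * S.R ≤ 2 * l + 3 * T + S.ε + 2 := by
  by_contra hh
  obtain ⟨η, e⟩ : ∃ η, l + T + 1 + η = 2 * S.R := ⟨2 * S.R - l - T - 1, by omega⟩
  obtain ⟨x, h2, h3⟩ := S.rho hV h e (by omega)
  have h4 := S.low h3
  have hδ := S.hδ
  have h5 : 0 < 2 ^ (j + 1) := by positivity
  generalize 2 ^ (j + 1) = V at *
  have h6 : V * (T + S.ε + 2) ≤ V * (2 * (1 + η)) := Nat.mul_le_mul_left _ (by omega)
  have h7 : 1 * S.ε ≤ V * S.ε := Nat.mul_le_mul_right _ h5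
  nlinarith

/-- the lower bound for the support in the range of scale `T` -/
def Up (T D : ℕ) : Prop := ∀ l, S.P l ≠ 0 → 2 * S.R ≤ l + 2 * T → 2 * S.R ≤ l + T + 1 + D

section

variable {c L Γ : ℕ} (hc : S.R = 16 * c) (hL : ∀ l, S.P l ≠ 0 → l < S.R ∨ L ≤ l)
  (hΓ : 24 * c ≤ L + 1 + Γ) (hεΓ : S.ε ≤ Γ) (hΓc : 3 * Γ ≤ 4 * c + 3 * S.ε)
  (hcε : S.ε + 2 ≤ c) (hc2 : 2 ^ (1 + 1) * (4 * c) = S.R)

include hc hL hΓ hεΓ hΓc hcε hc2

lemma up_four (l : ℕ) : S.P l ≠ 0 → 24 * c ≤ l → 56 * c ≤ 2 * l + 2 + 3 * Γ := by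
  have hn := S.hn
  have hδ := S.hδ
  induction l using Nat.strong_induction_on with
  | _ l ih =>
    intro h h1
    by_contra h2
    have h3 := S.lb hc2 h (by omega)
    obtain ⟨a, b, e, hb, ha', hb'⟩ := S.pair hL S.hc h (by omega) (by omega)
    have h4 := S.low ha'
    have h5 := S.low hb'
    have h6 := ih b (by omega) hb'
    have h7 := hL a ha'
    rcases hL b hb' with h8 | h8
    · have := S.low (S.rot (l' := 2 * a - S.n) 1 1 ha' (by omega) (by omega))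
      omega
    · omega

lemma up_step {j T : ℕ} (hV : 2 ^ (j + 1) * T = S.R) (hT : 4 * T ≤ S.R) (hT' : 2 * S.ε + 2 ≤ T)
    (u2 : S.Up (2 * T) (2 * Γ)) (u4 : S.Up (4 * T) (2 * Γ)) : S.Up T (2 * Γ) := by
  have hn := S.hn
  have hδ := S.hδ
  intro l
  induction l using Nat.strong_induction_on with
  | _ l ih =>
    intro h h1
    by_contra h2
    have h3 := S.lb hV h h1
    obtain ⟨a, b, e, hb, ha', hb'⟩ := S.pair hL S.hc h (by omega) (by omega)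
    have h4 := S.low ha'
    have h5 := S.low hb'
    have h6 := ih b (by omega) hb'
    have h7 := hL a ha'
    have h9 := S.up_four hc hL hΓ hεΓ hΓc hcε hc2 b hb'
    have h10 := u2 a ha'
    rcases hL b hb' with h8 | h8
    · have := u4 _ (S.rot (l' := 2 * a - S.n) 1 1 ha' (by omega) (by omega))
      omega
    · omega

lemma up_all (j : ℕ) : ∀ T, 2 ^ j * T = S.R → 2 * S.ε + 2 ≤ T → S.Up T (2 * Γ) := by
  have hδ := S.hδ
  induction j using Nat.strong_induction_on with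
  | _ j ih =>
    intro T hV hT
    rcases j with _ | _ | j
    · intro l h h1
      have := S.low h
      omega
    · intro l h h1
      have := hL l h
      omega
    · have h1 := Nat.one_le_two_pow (n := j)
      have h2 : 1 * (4 * T) ≤ 2 ^ j * (4 * T) := Nat.mul_le_mul_right _ h1
      have h3 : 2 ^ j * (4 * T) = S.R := by rw [← hV]; ring
      exact S.up_step hc hL hΓ hεΓ hΓc hcε hc2 hV (by omega) hT
        (ih (j + 1) (by omega) _ (by rw [← hV]; ring) (by omega))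
        (ih j (by omega) _ h3 (by omega))

lemma down_step (hPL : S.P L ≠ 0) (hγ : L + 1 + Γ = 24 * c) (hεΓ' : S.ε < Γ) {T : ℕ}
    (hT : 2 * T ≤ 8 * c) (hT' : 4 * Γ + 2 ≤ 2 * T) (u2 : S.Up (2 * T) (2 * Γ))
    (u4 : S.Up (4 * T) (2 * Γ)) (l : ℕ) : S.P l ≠ 0 → 32 * c ≤ l + 4 * T →
      l + 2 * T + 1 + Γ ≤ 32 * c →
      ∃ l', S.P l' ≠ 0 ∧ 32 * c ≤ l' + 2 * T ∧ 2 * (l' + T + 1) + 3 * Γ ≤ 64 * c + S.ε := by
  have hn := S.hn
  have hδ := S.hδ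
  induction l using Nat.strong_induction_on with
  | _ l ih =>
    intro h h1 h2
    have h3 := u2 l h (by omega)
    obtain ⟨a, b, e, hb, ha', hb'⟩ := S.pair hL h hPL (by omega) (by omega)
    have h4 := S.low ha'
    have h5 := S.low hb'
    have h7 := hL a ha'
    have h9 := S.up_four hc hL hΓ hεΓ hΓc hcε hc2 b hb'
    rcases hL b hb' with h8 | h8
    · have := u4 _ (S.rot (l' := 2 * a - S.n) 1 1 ha' (by omega) (by omega))
      omega
    · by_cases h10 : 32 * c ≤ a + 4 * T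
      · exact ih a (by omega) ha' h10 (by omega)
      · exact ⟨b, hb', by omega, by omega⟩

lemma down_all (hPL : S.P L ≠ 0) (hγ : L + 1 + Γ = 24 * c) (hεΓ' : S.ε < Γ) (j : ℕ) :
    ∀ T, 2 ^ (j + 2) * T = S.R → 4 * Γ + 2 ≤ 2 * T →
      ∃ l', S.P l' ≠ 0 ∧ 32 * c ≤ l' + 2 * T ∧ 2 * (l' + T + 1) + 3 * Γ ≤ 64 * c + S.ε := by
  have step : ∀ j T, 2 ^ (j + 2) * T = S.R → 4 * Γ + 2 ≤ 2 * T → ∀ l, S.P l ≠ 0 →
      32 * c ≤ l + 4 * T → l + 2 * T + 1 + Γ ≤ 32 * c →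
      ∃ l', S.P l' ≠ 0 ∧ 32 * c ≤ l' + 2 * T ∧ 2 * (l' + T + 1) + 3 * Γ ≤ 64 * c + S.ε := by
    intro j T hV hT
    have h1 := Nat.one_le_two_pow (n := j)
    have h2 : 1 * (4 * T) ≤ 2 ^ j * (4 * T) := Nat.mul_le_mul_right _ h1
    have h3 : 2 ^ j * (4 * T) = S.R := by rw [← hV]; ring
    exact S.down_step hc hL hΓ hεΓ hΓc hcε hc2 hPL hγ hεΓ' (by omega) hT
      (S.up_all hc hL hΓ hεΓ hΓc hcε hc2 (j + 1) _ (by rw [← hV]; ring) (by omega))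
      (S.up_all hc hL hΓ hεΓ hΓc hcε hc2 j _ h3 (by omega))
  induction j with
  | zero => exact fun T hV hT => step 0 T hV hT L hPL (by omega) (by omega)
  | succ j ih =>
    intro T hV hT
    obtain ⟨l, h1, h2, h3⟩ := ih (2 * T) (by rw [← hV]; ring) (by omega)
    exact step _ T hV hT l h1 (by omega) (by omega)

lemma dich {b j T l η : ℕ} (hb : ∀ l, S.P l ≠ 0 → l < S.R → 2 ^ b ∣ l + 1)
    (hV : 2 ^ (j + 1) * T = S.R) (h : S.P l ≠ 0) (e : l + T + 1 + η = 2 * S.R) (hη : η < T) :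
    (b ≤ j + 1 ∧ T ≤ 2 * η + 1) ∨ 24 * (1 + η) ≤ 7 * T + 12 + 12 * S.ε := by
  obtain ⟨x, h2, h3⟩ := S.rho hV h e hη
  have h5 : 0 < 2 ^ (j + 1) := by positivity
  rcases hL x h3 with h4 | h4
  · refine Or.inl ⟨?_, ?_⟩
    · by_contra hh
      have h6 := (pow_dvd_pow 2 (show j + 1 + 1 ≤ b by omega)).trans (hb x h3 h4)
      obtain ⟨t, ht⟩ : ∃ t, 1 + η + t = T := ⟨T - 1 - η, by omega⟩
      rw [show x + 1 = 2 ^ (j + 1) * (2 * t + 1) by
        rw [← ht] at hV; zify at h2 hV ⊢; linear_combination h2 - 2 * hV, pow_succ] at h6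
      have := Nat.dvd_of_mul_dvd_mul_left h5 h6
      omega
    · generalize 2 ^ (j + 1) = V at *
      have : V * (T + 1) ≤ V * (2 * (1 + η)) := by nlinarith
      have := Nat.le_of_mul_le_mul_left this h5
      omega
  · right
    generalize 2 ^ (j + 1) = V at *
    have h7 : 1 * S.ε ≤ V * S.ε := Nat.mul_le_mul_right _ h5
    exact Nat.le_of_mul_le_mul_left (by nlinarith) h5

end

theorem not_three (h : S.δ % 4 = 3) : False := by
  classical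
  have hn := S.hn
  have hδ := S.hδ
  have hε := S.hε
  have hbig := S.hbig
  have hcube : (S.ε + 2) * (S.ε + 2) ≤ (S.ε + 2) ^ 3 := by
    rw [← sq]; exact Nat.pow_le_pow_right (by omega) (by norm_num)
  have hsq : 4 * (S.ε + 2) ≤ (S.ε + 2) * (S.ε + 2) := Nat.mul_le_mul_right _ (by omega)
  obtain ⟨c, hc⟩ : 16 ∣ S.R := by
    have := S.two_pow_dvd (k := 6) (by omega)
    omega
  have exL : ∃ l, S.P l ≠ 0 ∧ S.R ≤ l :=
    ⟨2 * S.δ, by rw [S.h2]; exact pow_ne_zero _ S.hc, by omega⟩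
  obtain ⟨hPL, hRL⟩ := Nat.find_spec exL
  have hL : ∀ l, S.P l ≠ 0 → l < S.R ∨ Nat.find exL ≤ l := fun l hl => by
    by_cases h1 : l < S.R
    · exact Or.inl h1
    · exact Or.inr (Nat.find_min' exL ⟨hl, not_lt.1 h1⟩)
  generalize Nat.find exL = L at hPL hRL hL
  have h3L : S.n ≤ 3 * L := by
    by_contra hh
    obtain ⟨i, η, l₀, -, a2, -, a4, a5, a6, -⟩ := S.below L (S.n - 3 * L) hPL (by omega) (by omega)
    rcases Nat.eq_zero_or_pos i with h0 | h0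
    · have := a5 h0; omega
    · exact a4 (S.three h (by omega) (a6 h0))
  have hc2 : 2 ^ (1 + 1) * (4 * c) = S.R := by omega
  have hA : 24 * c ≤ L + 1 + S.ε ∨ ∃ a b, S.P b ≠ 0 ∧ a + 2 * b = 3 * L ∧ S.δ ≤ a ∧ a < S.R ∧
      68 * c ≤ 3 * L + 2 * S.ε + 3 := by
    obtain ⟨a, b, e, hb, ha', hb'⟩ := S.pair hL hPL hPL (by omega) (by omega)
    have h4 := S.low ha'
    have h5 := S.low hb'
    have h7 := hL a ha'
    rcases hL b hb' with h8 | h8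
    · have := S.low (S.rot (l' := 2 * a - S.n) 1 1 ha' (by omega) (by omega))
      omega
    · have := S.lb hc2 hb' (by omega)
      exact Or.inr ⟨a, b, hb', by omega, h4, by omega, by omega⟩
  obtain ⟨Γ, hΓ, hεΓ, hΓ'⟩ : ∃ Γ, 24 * c ≤ L + 1 + Γ ∧ S.ε ≤ Γ ∧
      (Γ = S.ε ∨ L + 1 + Γ = 24 * c) := ⟨max (24 * c - 1 - L) S.ε, by omega, by omega, by omega⟩
  have hΓc : 3 * Γ ≤ 4 * c + 3 * S.ε := by
    rcases hA with h1 | ⟨-, -, -, -, -, -, h1⟩ <;> omega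
  have hcε : S.ε + 2 ≤ c := by omega
  have exb : ∃ b, ∃ l, S.P l ≠ 0 ∧ l < S.R ∧ ¬ 2 ^ (b + 1) ∣ l + 1 :=
    ⟨S.r, S.δ, S.hc, by omega, fun hh => by
      have := Nat.le_of_dvd (by omega) hh
      rw [pow_succ, ← S.hR] at this
      omega⟩
  obtain ⟨l₁, b1, b2, b3⟩ := Nat.find_spec exb
  have b4 := fun m => Nat.find_min exb (m := m)
  generalize Nat.find exb = b at b3 b4
  have b5 : ∀ l, S.P l ≠ 0 → l < S.R → 4 ∣ l + 1 := fun l h1 h2 => by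
    have := S.odd h1 (by omega)
    have : l % 4 ≠ 1 := fun e => h1 (S.three h h2 e)
    omega
  obtain ⟨b, rfl⟩ : ∃ b', b = b' + 2 := by
    have := b5 l₁ b1 b2
    rcases b with _ | _ | b
    · omega
    · omega
    · exact ⟨b, rfl⟩
  have hb : ∀ l, S.P l ≠ 0 → l < S.R → 2 ^ (b + 2) ∣ l + 1 := fun l h1 h2 => by
    by_contra hh
    exact b4 (b + 1) (by omega) ⟨l, h1, h2, hh⟩
  have pw : ∀ k, 2 ^ k ≤ S.R → ∃ j, 2 ^ j * 2 ^ k = S.R := fun k hk => by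
    rw [S.hR] at hk ⊢
    have := (Nat.pow_le_pow_iff_right (by norm_num)).1 hk
    exact ⟨S.r - k, by rw [← pow_add]; congr 1; omega⟩
  have d1 := hb _ S.hc (by omega)
  obtain ⟨k₀, hk₀⟩ := pw (b + 2) (by have := Nat.le_of_dvd (by omega) d1; omega)
  rw [mul_comm] at hk₀
  have d2 : 2 ^ (b + 2) ≤ S.ε := by
    refine Nat.le_of_dvd (by omega) ((Nat.dvd_add_right d1).1 ?_)
    rw [hδ, ← hk₀]
    exact Dvd.intro _ rfl
  have d3 : 400 * (S.ε + 2) ≤ 2 ^ k₀ := by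
    have h1 : 2 ^ (b + 2) * 2 ^ k₀ ≤ (S.ε + 2) * 2 ^ k₀ := Nat.mul_le_mul_right _ (by omega)
    exact Nat.le_of_mul_le_mul_left (show (S.ε + 2) * _ ≤ (S.ε + 2) * _ by nlinarith) (by omega)
  obtain ⟨s, hs⟩ : ∃ s, l₁ + 1 = 2 ^ (b + 2) * (2 * s + 1) := by
    obtain ⟨t, ht⟩ := hb l₁ b1 b2
    rcases Nat.even_or_odd' t with ⟨s, rfl | rfl⟩
    · exact absurd ⟨s, by rw [ht]; ring⟩ b3
    · exact ⟨s, ht⟩
  have d4 : 2 * s + 1 ≤ 2 ^ k₀ :=
    Nat.le_of_mul_le_mul_left (show 2 ^ (b + 2) * _ ≤ 2 ^ (b + 2) * _ by omega) (by positivity)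
  have d5 : 1 * 2 ^ k₀ ≤ 2 ^ (b + 2) * 2 ^ k₀ := Nat.mul_le_mul_right _ Nat.one_le_two_pow
  have d6 : S.P (2 * S.R - 2 * 2 ^ k₀ + s) ≠ 0 := by
    refine S.unrot (b + 2 + 1) (2 ^ (b + 2) - 1) b1 ?_ (by have := S.low b1; omega)
    rw [pow_succ' 2 (b + 2)]
    obtain ⟨η, hη⟩ : ∃ η, s + 1 + η = 2 ^ k₀ := ⟨2 ^ k₀ - 1 - s, by omega⟩
    refine S.rho_eq (η := η) hk₀ Nat.one_le_two_pow (by omega) ?_
    rw [← hη] at hk₀
    zify at hs hk₀ ⊢
    linear_combination hs + 2 * hk₀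
  have d7 := S.up_all hc hL hΓ hεΓ hΓc hcε hc2 _ _ hk₀ (by omega) _ d6 (by omega)
  have hγ : L + 1 + Γ = 24 * c := hΓ'.resolve_left (by omega)
  obtain ⟨a₀, b₀, k1, k2, k3, k4, -⟩ := hA.resolve_left (by omega)
  have x1 := S.rot (l' := 4 * L - S.n) 2 1 hPL (by omega) (by omega)
  have x2 := S.rot (l' := 8 * b₀ - 3 * S.n) 3 3 k1 (by omega) (by omega)
  have l1 := Nat.pow_log_le_self 2 (show 4 * Γ + 2 ≠ 0 by omega)
  have l2 := Nat.lt_pow_succ_log_self (show 1 < 2 by norm_num) (4 * Γ + 2)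
  generalize Nat.log 2 (4 * Γ + 2) = k at l1 l2
  rw [Nat.succ_eq_add_one, pow_succ] at l2
  have l3 : k₀ ≤ k := by
    by_contra hh
    have := Nat.pow_le_pow_right (show 0 < 2 by norm_num) (show k + 1 ≤ k₀ by omega)
    omega
  have l4 := Nat.pow_le_pow_right (show 0 < 2 by norm_num) l3
  obtain ⟨j, hj⟩ := pw k (by omega)
  have l5 : j ≤ b + 2 := by
    rw [← hj, ← pow_add, ← pow_add] at hk₀
    have := Nat.pow_right_injective le_rfl hk₀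
    omega
  obtain ⟨j, rfl⟩ : ∃ j', j = j' + 2 := by
    rcases j with _ | _ | j
    · omega
    · omega
    · exact ⟨j, rfl⟩
  rcases S.dich hc hL hΓ hεΓ hΓc hcε hc2 (η := 4 * Γ + 2 - 2 ^ k) hb hj x1 (by omega) (by omega)
    with ⟨m1, m2⟩ | m1
  · obtain rfl : j = b := by omega
    have m3 : 2 ^ k = 2 ^ k₀ := Nat.eq_of_mul_eq_mul_left (by positivity) (hj.trans hk₀.symm)
    have m4 := S.lb hj x1 (by omega)
    obtain ⟨l, m5, m6, m7⟩ :=
      S.down_all hc hL hΓ hεΓ hΓc hcε hc2 hPL hγ (by omega) j _ hj (by omega)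
    have := S.lb hj m5 (by omega)
    omega
  · rcases S.dich hc hL hΓ hεΓ hΓc hcε hc2 (j := j) (T := 2 * 2 ^ k)
      (η := 2 * S.R - (8 * b₀ - 3 * S.n) - 2 * 2 ^ k - 1) hb (by rw [← hj]; ring) x2
      (by omega) (by omega) with m2 | m2 <;> omega

end Sys

end Pool.Agent.Lib.MP_587b89_lc.Win
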