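import Pool.Agent.Lib.MP_587b89_lc.WinE

/-!
From codewords to the system of power sums.
-/

set_option autoImplicit false
set_option linter.unusedSectionVars false
open PowerSeries

namespace Pool.Agent.Lib.MP_587b89_lc.Win

variable {E : Type} [Field E]

/-- power sums -/
def ps (Z : Finset E) (l : ℕ) : E := ∑ z ∈ Z, z ^ l

lemma coeff_lin (z : E) (f : E⟦X⟧) (i : ℕ) :
    coeff (i + 1) ((1 - C z * X) * f) = coeff (i + 1) f - z * coeff i f := by
  rw [sub_mul, one_mul, map_sub, mul_assoc, coeff_C_mul, coeff_succ_X_mul]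

lemma geom (z : E) : (1 - C z * X) * PowerSeries.mk (fun l => z ^ l) = 1 := by
  ext i
  rcases i with _ | i
  · simp
  · rw [coeff_lin, coeff_mk, coeff_mk, coeff_one, if_neg (by omega)]; ring

lemma newton (Z : Finset E) : constantCoeff (∏ z ∈ Z, (1 - C z * X : E⟦X⟧)) = 1 ∧
    (∀ i, Z.card < i → coeff i (∏ z ∈ Z, (1 - C z * X : E⟦X⟧)) = 0) ∧
    ∀ i, Z.card ≤ i → coeff i ((∏ z ∈ Z, (1 - C z * X : E⟦X⟧)) * PowerSeries.mk (ps Z)) = 0 := by
  classical
  induction Z using Finset.induction_on with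
  | empty =>
    refine ⟨by simp, fun i hi => ?_, fun i _ => by simp [ps]⟩
    rw [Finset.prod_empty, coeff_one, if_neg (by simpa using hi.ne')]
  | insert z Z hz ih =>
    obtain ⟨h1, h2, h3⟩ := ih
    rw [Finset.prod_insert hz, Finset.card_insert_of_notMem hz]
    refine ⟨by simp [h1], fun i hi => ?_, fun i hi => ?_⟩
    · obtain ⟨i, rfl⟩ : ∃ i', i = i' + 1 := ⟨i - 1, by omega⟩
      rw [coeff_lin, h2 _ (by omega), h2 _ (by omega), mul_zero, sub_zero]
    · obtain ⟨i, rfl⟩ : ∃ i', i = i' + 1 := ⟨i - 1, by omega⟩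
      have e : PowerSeries.mk (ps (insert z Z)) =
          PowerSeries.mk (fun l => z ^ l) + PowerSeries.mk (ps Z) := by
        ext l
        simp [ps, Finset.sum_insert hz]
      rw [e, show ∀ a b c d : E⟦X⟧, a * b * (c + d) = b * (a * c) + a * (b * d) by intros; ring,
        geom, mul_one, map_add, coeff_lin, h2 _ (by omega), h3 _ (by omega), h3 _ (by omega)]
      simp

lemma ps_shift (Z : Finset E) (t : E) (j : ℕ) : ps (Z.map (Equiv.addRight t).toEmbedding) j =
    ∑ k ∈ Finset.range (j + 1), ps Z k * (t ^ (j - k) * (j.choose k : E)) := by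
  simp only [ps, Finset.sum_map, Equiv.coe_toEmbedding, Equiv.coe_addRight, add_pow,
    Finset.sum_mul, mul_assoc]
  exact Finset.sum_comm

lemma ps_two [CharP E 2] (Z : Finset E) (l : ℕ) : ps Z (2 * l) = ps Z l ^ 2 := by
  rw [ps, ps, sum_pow_char 2]
  exact Finset.sum_congr rfl fun z _ => by ring

theorem no_set [CharP E 2] [Fintype E] {r ε δ : ℕ} (hE : Fintype.card E = 4 * 2 ^ r)
    (hδ : δ + 1 + ε = 2 ^ r) (hε : 2 ≤ ε) (hodd : δ % 2 = 1) (hbig : 400 * (ε + 2) ^ 3 ≤ 2 ^ r)
    (Z : Finset E) (hZ : Z.card = δ + 1) (hlow : ∀ l, l < δ → ps Z l = 0) : ps Z δ = 0 := by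
  by_contra hc
  obtain ⟨t, ht⟩ := (frobeniusEquiv E 2).surjective (ps Z (δ + 2) / ps Z δ)
  rw [frobeniusEquiv_def, eq_div_iff hc] at ht
  have hr : 0 < 2 ^ r := by positivity
  have h0 : 2 ≤ δ := by
    have : ε + 2 ≤ (ε + 2) ^ 3 := Nat.le_self_pow (by norm_num) _
    omega
  have z1 : ∀ j, ∑ k ∈ Finset.range δ, ps Z k * (t ^ (j - k) * (j.choose k : E)) = 0 :=
    fun j => Finset.sum_eq_zero fun k hk => by rw [hlow k (Finset.mem_range.1 hk), zero_mul]
  have z2 : ps Z (δ + 1) = 0 := by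
    rw [show δ + 1 = 2 * ((δ + 1) / 2) by omega, ps_two, hlow _ (by omega)]; simp
  have y1 := ps_shift Z t
  have y2 : (Z.map (Equiv.addRight t).toEmbedding).card = δ + 1 := by rw [Finset.card_map, hZ]
  generalize Z.map (Equiv.addRight t).toEmbedding = Y at y1 y2
  have y3 : ∀ l, l < δ → ps Y l = 0 := fun l hl => by
    rw [y1]
    exact Finset.sum_eq_zero fun k hk => by
      rw [hlow k (by have := Finset.mem_range.1 hk; omega), zero_mul]
  have y4 : ps Y δ = ps Z δ := by rw [y1, Finset.sum_range_succ, z1]; simp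
  obtain ⟨n1, n2, n3⟩ := newton Y
  let S : Sys E :=
    { r := r, R := 2 ^ r, n := 4 * 2 ^ r - 1, ε := ε, δ := δ, P := ps Y,
      σ := ∏ z ∈ Y, (1 - C z * X), hR := rfl, hn := by omega, hδ := hδ, hε := hε, hodd := hodd,
      hbig := hbig, h2 := ps_two Y, hlow := y3, hc := y4 ▸ hc,
      hσd := fun i hi => n2 i (by omega),
      hper := fun l hl => Finset.sum_congr rfl fun z _ => by
        rw [show l + (4 * 2 ^ r - 1) = l - 1 + Fintype.card E by omega, pow_add,
          FiniteField.pow_card, ← pow_succ, Nat.sub_add_cancel hl]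
      hσ := by
        obtain ⟨f, hf⟩ : (X : E⟦X⟧) ^ δ ∣ PowerSeries.mk (ps Y) :=
          X_pow_dvd_iff.2 fun l hl => by rw [coeff_mk, y3 l hl]
        have h1 := congrArg (coeff (0 + δ)) hf
        rw [coeff_X_pow_mul, coeff_mk, zero_add, coeff_zero_eq_constantCoeff] at h1
        ext i
        rw [coeff_C_mul, coeff_X_pow]
        by_cases hi : δ < i
        · rw [n3 i (by omega), if_neg (by omega), mul_zero]
        · rw [hf, mul_left_comm, coeff_X_pow_mul']
          split_ifs with h2 h3 h3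
          · rw [h3, Nat.sub_self, coeff_zero_eq_constantCoeff, map_mul, n1, h1]; ring
          · omega
          · omega
          · simp
      hnorm := fun h => by
        obtain ⟨k, hk⟩ : ∃ k, δ = 4 * k + 1 := ⟨δ / 4, by omega⟩
        have h1 : (δ + 2).choose δ = 2 * (4 * k ^ 2 + 5 * k + 1) + 1 := by
          rw [Nat.choose_symm_add, Nat.choose_two_right, hk]
          exact Nat.div_eq_of_eq_mul_left (by norm_num)
            (by rw [show 4 * k + 1 + 2 - 1 = 4 * k + 2 by omega]; ring)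
        rw [y1, Finset.sum_range_succ, Finset.sum_range_succ, Finset.sum_range_succ, z1, z2, h1,
          ← ht]
        simp only [Nat.add_sub_cancel_left, Nat.sub_self, Nat.choose_self]
        push_cast
        linear_combination (ps Z δ * t ^ 2 * (4 * k ^ 2 + 5 * k + 2)) * CharTwo.two_eq_zero (R := E) }
  rcases (show δ % 4 = 1 ∨ δ % 4 = 3 by omega) with h | h
  · exact S.not_one h
  · exact S.not_three h

lemma bch {F : Type} [Field F] [DecidableEq F] [Algebra F E] {n δ : ℕ} {α : E}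
    (hα : IsPrimitiveRoot α n) {a : Fin n → F} (ha : a ≠ 0)
    (h : ∀ j, 1 ≤ j → j < δ → ∑ i, algebraMap F E (a i) * (α ^ j) ^ (i : ℕ) = 0) :
    δ ≤ hammingNorm a := by
  by_contra hlt
  rw [not_le] at hlt
  obtain ⟨i0, hi0⟩ := Function.ne_iff.1 ha
  have hn : n ≠ 0 := fun e => (e ▸ i0).elim0
  let e := (Fintype.equivFin {i // a i ≠ 0}).symm
  have hc : Fintype.card {i // a i ≠ 0} = hammingNorm a := Fintype.card_subtype _
  have := Matrix.eq_zero_of_forall_pow_sum_mul_pow_eq_zero
    (f := fun l => α ^ ((e l).1 : ℕ)) (v := fun l => algebraMap F E (a (e l)) * α ^ ((e l).1 : ℕ))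
    (fun l l' hl => e.injective (Subtype.ext (Fin.ext (hα.pow_inj (e l).1.2 (e l').1.2 hl))))
    (fun j => by
      rw [← h (j + 1) (by omega) (by have := j.2; omega),
        e.sum_comp fun i => algebraMap F E (a i) * α ^ (i.1 : ℕ) * (α ^ (i.1 : ℕ)) ^ (j : ℕ),
        ← Finset.sum_subtype (Finset.univ.filter fun i => a i ≠ 0) (by simp)
          fun i => algebraMap F E (a i) * α ^ (i : ℕ) * (α ^ (i : ℕ)) ^ (j : ℕ),
        Finset.sum_filter_of_ne (p := fun i => a i ≠ 0) fun i _ h0 h1 => h0 (by simp [h1])]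
      exact Finset.sum_congr rfl fun i _ => by ring)
  have h1 := congrFun this (e.symm ⟨i0, hi0⟩)
  simp only [Equiv.apply_symm_apply, Pi.zero_apply, mul_eq_zero, _root_.map_eq_zero] at h1
  exact h1.elim hi0 (pow_ne_zero _ (hα.ne_zero hn))

/-- the locators of a binary word -/
lemma locators [DecidableEq E] [Algebra (ZMod 2) E] {n : ℕ} {α : E} (hα : IsPrimitiveRoot α n)
    (a : Fin n → ZMod 2) :
    ((Finset.univ.filter fun i => a i ≠ 0).image fun i : Fin n => α ^ (i : ℕ)).card =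
      hammingNorm a ∧ ∀ j, ∑ i, algebraMap (ZMod 2) E (a i) * (α ^ j) ^ (i : ℕ) =
      ps ((Finset.univ.filter fun i => a i ≠ 0).image fun i : Fin n => α ^ (i : ℕ)) j := by
  have inj : Function.Injective fun i : Fin n => α ^ (i : ℕ) :=
    fun i j h => Fin.ext (hα.pow_inj i.2 j.2 h)
  refine ⟨Finset.card_image_of_injective _ inj, fun j => ?_⟩
  rw [ps, Finset.sum_image inj.injOn, Finset.sum_filter]
  refine Finset.sum_congr rfl fun i _ => ?_
  rcases (by decide : ∀ x : ZMod 2, x = 0 ∨ x = 1) (a i) with h | h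
  · simp [h]
  · simp [h, ← pow_mul, mul_comm]

lemma ps_subgroup [DecidableEq E] (U : Finset E) (hU : ∀ x ∈ U, ∀ y ∈ U, x - y ∈ U)
    {j : ℕ} (hj : j + 1 < U.card) : ps U j = 0 := by
  have h := Lagrange.coeff_eq_sum (s := U) (v := id) (P := (Polynomial.X : Polynomial E) ^ j)
    (Set.injOn_id _) (by rw [Polynomial.degree_X_pow]; exact_mod_cast (by omega))
  have e : ∀ x ∈ U, ∏ y ∈ U.erase x, (id x - id y) = ∏ y ∈ U.erase 0, y := fun x hx =>
    Finset.prod_nbij' (fun y => x - y) (fun y => x - y)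
      (fun y hy => by
        rw [Finset.mem_erase] at hy ⊢
        exact ⟨sub_ne_zero.2 hy.1.symm, hU _ hx _ hy.2⟩)
      (fun y hy => by
        rw [Finset.mem_erase] at hy ⊢
        exact ⟨fun e => hy.1 (by simpa using e), hU _ hx _ hy.2⟩)
      (fun y _ => by simp) (fun y _ => by simp) (fun y _ => rfl)
  rw [Polynomial.coeff_X_pow, if_neg (by omega), Finset.sum_congr rfl fun x hx => by rw [e x hx],
    ← Finset.sum_div, eq_comm, div_eq_zero_iff] at h
  rcases h with h | h
  · simpa [ps] using h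
  · exact absurd h (Finset.prod_ne_zero_iff.2 fun y hy => (Finset.mem_erase.1 hy).1)

theorem window_iff (m δ : ℕ) (hδ : δ < 2 ^ (m - 2)) (hw : (16 * (2 ^ (m - 2) - δ)) ^ 3 ≤ 2 ^ m)
    (E : Type) [Field E] [Algebra (ZMod 2) E] (hE : Module.finrank (ZMod 2) E = m)
    (α : E) (hα : IsPrimitiveRoot α (2 ^ m - 1)) :
    IsLeast {w | ∃ a : Fin (2 ^ m - 1) → ZMod 2, a ≠ 0 ∧
      (∀ j, 1 ≤ j → j < δ → ∑ i, algebraMap (ZMod 2) E (a i) * (α ^ j) ^ (i : ℕ) = 0) ∧
      hammingNorm a = w} δ ↔ δ = 2 ^ (m - 2) - 1 := by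
  classical
  obtain ⟨t, ht⟩ : ∃ t, δ + 1 + t = 2 ^ (m - 2) := ⟨2 ^ (m - 2) - 1 - δ, by omega⟩
  rw [show 2 ^ (m - 2) - δ = t + 1 by omega] at hw
  have h1 : t + 1 ≤ (t + 1) ^ 3 := Nat.le_self_pow (by norm_num) _
  rw [mul_pow] at hw
  obtain ⟨r, rfl⟩ : ∃ r, m = r + 3 := by
    rcases m with _ | _ | _ | r
    · omega
    · omega
    · omega
    · exact ⟨r, rfl⟩
  rw [show r + 3 - 2 = r + 1 from rfl] at *
  have e4 : 2 ^ (r + 3) = 4 * 2 ^ (r + 1) := by ring
  have : FiniteDimensional (ZMod 2) E := FiniteDimensional.of_finrank_pos (by omega)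
  have : Finite E := Module.finite_of_finite (ZMod 2)
  have := Fintype.ofFinite E
  have : CharP E 2 := charP_of_injective_algebraMap (algebraMap (ZMod 2) E).injective _
  have hcard : Fintype.card E = 2 ^ (r + 3) := by
    rw [Module.card_eq_pow_finrank (K := ZMod 2) (V := E), hE, ZMod.card]
  have hα0 : α ≠ 0 := hα.ne_zero (by omega)
  constructor
  · rintro ⟨⟨a, ha, h2, h3⟩, -⟩
    by_contra hne
    obtain ⟨c1, c2⟩ := locators hα a
    have c0 : (0 : E) ∉ (Finset.univ.filter fun i => a i ≠ 0).image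
        fun i : Fin (2 ^ (r + 3) - 1) => α ^ (i : ℕ) := by simp [hα0]
    generalize (Finset.univ.filter fun i => a i ≠ 0).image
        (fun i : Fin (2 ^ (r + 3) - 1) => α ^ (i : ℕ)) = Y at c0 c1 c2
    have h4 : ps Y δ = 0 := by
      rcases Nat.even_or_odd' δ with ⟨k, hk | hk⟩
      · rw [hk, ps_two, ← c2, h2 k (by omega) (by omega)]; simp
      · have e : ∀ l, 1 ≤ l → ps (insert 0 Y) l = ps Y l := fun l hl => by
          rw [ps, Finset.sum_insert c0, zero_pow (by omega), zero_add, ps]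
        have ht2 : 2 ≤ t := by omega
        rw [← e δ (by omega)]
        refine no_set (r := r + 1) (ε := t) (hcard.trans e4) ht ht2 (by omega) ?_ _
          (by rw [Finset.card_insert_of_notMem c0, c1, h3]) fun l hl => ?_
        · have : (3 * (t + 2)) ^ 3 ≤ (4 * (t + 1)) ^ 3 := Nat.pow_le_pow_left (by omega) _
          rw [mul_pow, mul_pow] at this
          omega
        · rcases Nat.eq_zero_or_pos l with rfl | hl0
          · simp only [ps, pow_zero, Finset.sum_const, Finset.card_insert_of_notMem c0, c1, h3,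
              nsmul_eq_mul, mul_one]
            exact (CharP.cast_eq_zero_iff E 2 _).2 (by omega)
          · rw [e l hl0, ← c2, h2 l hl0 hl]
    have := bch (δ := δ + 1) hα ha fun j hj hj' => by
      rcases Nat.lt_succ_iff_lt_or_eq.1 hj' with hj' | rfl
      · exact h2 j hj hj'
      · rw [c2, h4]
    omega
  · intro h
    refine ⟨?_, by rintro w ⟨a, ha, h1, rfl⟩; exact bch hα ha h1⟩
    obtain ⟨K, hK⟩ := Sylow.exists_subgroup_card_pow_prime (G := Multiplicative E) 2 (n := r + 1)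
      (by rw [Nat.card_eq_fintype_card, Fintype.card_multiplicative, hcard]; exact ⟨4, by omega⟩)
    set U := Finset.univ.filter fun x : E => Multiplicative.ofAdd x ∈ K with hU
    have u1 : U.card = 2 ^ (r + 1) := by
      rw [← hK, Nat.card_eq_fintype_card, Fintype.card_subtype]
      exact Finset.card_equiv Multiplicative.ofAdd (by simp [hU])
    have u0 : (0 : E) ∈ U := by simp [hU]
    have u2 : ∀ x ∈ U, ∀ y ∈ U, x - y ∈ U := fun x hx y hy => by
      simp only [hU, Finset.mem_filter, Finset.mem_univ, true_and] at hx hy ⊢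
      exact K.div_mem hx hy
    let a : Fin (2 ^ (r + 3) - 1) → ZMod 2 := fun i => if α ^ (i : ℕ) ∈ U then 1 else 0
    obtain ⟨c1, c2⟩ := locators hα a
    have : NeZero (2 ^ (r + 3) - 1) := ⟨by omega⟩
    have c0 : ((Finset.univ.filter fun i => a i ≠ 0).image
        fun i : Fin (2 ^ (r + 3) - 1) => α ^ (i : ℕ)) = U.erase 0 := by
      ext x
      simp only [a, Finset.mem_image, Finset.mem_filter, Finset.mem_univ, true_and,
        Finset.mem_erase, ne_eq, ite_eq_right_iff, one_ne_zero, imp_false, not_not]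
      constructor
      · rintro ⟨i, h1, rfl⟩
        exact ⟨pow_ne_zero _ hα0, h1⟩
      · rintro ⟨h1, h2⟩
        obtain ⟨i, hi, rfl⟩ := hα.eq_pow_of_pow_eq_one
          (hcard ▸ FiniteField.pow_card_sub_one_eq_one x h1)
        exact ⟨⟨i, hi⟩, h2, rfl⟩
    rw [c0] at c1 c2
    rw [Finset.card_erase_of_mem u0, u1, ← h] at c1
    refine ⟨a, fun h0 => ?_, fun j hj hj' => ?_, c1.symm⟩
    · rw [h0, hammingNorm_zero] at c1
      omega
    · rw [c2, ps, Finset.sum_erase _ (zero_pow (by omega))]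
      exact ps_subgroup U u2 (by omega)

end Pool.Agent.Lib.MP_587b89_lc.Win
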